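import Pool.Agent.H51.QOV.Stmt

set_option autoImplicit false
set_option linter.unusedSectionVars false
set_option linter.style.haveILetI false

namespace Pool.Agent.H51.QOV

open Finset

section
variable {F : Type} [Field F] [Fintype F] [CharP F 2]

/-- a point given by a vector. -/
theorem top_rep_iff (v : Fin 4 → F) (hv : v ≠ 0) :
    ∃ a : F, a ≠ 0 ∧ v = a • (Projectivization.mk F v hv).rep := by
  obtain ⟨a, ha⟩ := Projectivization.exists_smul_eq_mk_rep F v hv
  refine ⟨(a⁻¹ : Fˣ), Units.ne_zero _, ?_⟩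
  rw [← ha]
  have : ((a⁻¹ : Fˣ) : F) • (a • v) = v := by
    change ((a⁻¹ : Fˣ) : F) • ((a : F) • v) = v
    rw [smul_smul]
    simp
  exact this.symm

/-- the vector of an affine point. -/
def pv (f : F → F → F) (u : F × F) : Fin 4 → F := ![1, u.1, u.2, f u.1 u.2]

theorem pv_ne (f : F → F → F) (u : F × F) : pv f u ≠ 0 := by
  intro hh
  have := congrFun hh 0
  simp [pv] at this

theorem A_pv_ne (A : (Fin 4 → F) ≃ₗ[F] (Fin 4 → F)) (f : F → F → F) (u : F × F) :
    A (pv f u) ≠ 0 := by
  intro hh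
  exact pv_ne f u (A.injective (by rw [hh, map_zero]))

theorem top_slope (S : Set (Projectivization F (Fin 4 → F)))
    (hS : ∀ f : Fin 3 → Projectivization F (Fin 4 → F), Function.Injective f →
          (∀ i, f i ∈ S) → LinearIndependent F (fun i => (f i).rep))
    (A : (Fin 4 → F) ≃ₗ[F] (Fin 4 → F)) (f : F → F → F)
    (hf : ∀ p, p ∈ S ↔
          ((∃ s t c : F, A ![1, s, t, f s t] = c • p.rep) ∨
           ∃ c : F, A ![0, 0, 0, 1] = c • p.rep)) :
    Slope fun u : F × F => f u.1 u.2 := by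
  intro u w hw x y hx hy hxy
  by_contra hne
  -- the three points
  let P : F × F → Projectivization F (Fin 4 → F) := fun u =>
    Projectivization.mk F (A (pv f u)) (A_pv_ne A f u)
  have hPmem : ∀ u, P u ∈ S := by
    intro u
    rw [hf]
    left
    obtain ⟨a, _, ha⟩ := top_rep_iff (A (pv f u)) (A_pv_ne A f u)
    exact ⟨u.1, u.2, a, ha⟩
  have hPinj : Function.Injective P := by
    intro u u' huu
    have h1 := (Projectivization.mk_eq_mk_iff' F _ _ (A_pv_ne A f u) (A_pv_ne A f u')).1 huu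
    obtain ⟨a, ha⟩ := h1
    rw [← map_smul] at ha
    have h2 := A.injective ha
    have h3 := congrFun h2 0
    have h4 := congrFun h2 1
    have h5 := congrFun h2 2
    simp [pv] at h3 h4 h5
    rw [h3] at h4 h5
    ext
    · simpa using h4.symm
    · simpa using h5.symm
  have hsm : ∀ a b : F, a • w = b • w → a = b := by
    intro a b hab
    by_contra hab'
    apply hw
    have h1 : (a - b) • w = 0 := by rw [sub_smul, hab, sub_self]
    rcases smul_eq_zero.1 h1 with h2 | h2
    · exact absurd (sub_eq_zero.1 h2) hab'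
    · exact h2
  let g : Fin 3 → F × F := ![u, u + x • w, u + y • w]
  have hg : Function.Injective g := by
    have e01 : u ≠ u + x • w := by
      intro hh
      have : x • w = (0 : F) • w := by
        rw [zero_smul]
        simpa using hh
      exact hx (hsm _ _ this)
    have e02 : u ≠ u + y • w := by
      intro hh
      have : y • w = (0 : F) • w := by
        rw [zero_smul]
        simpa using hh
      exact hy (hsm _ _ this)
    have e12 : u + x • w ≠ u + y • w := by
      intro hh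
      exact hne (hsm _ _ (add_left_cancel hh))
    intro i j hij
    fin_cases i <;> fin_cases j
    · rfl
    · exact absurd hij e01
    · exact absurd hij e02
    · exact absurd hij.symm e01
    · rfl
    · exact absurd hij e12
    · exact absurd hij.symm e02
    · exact absurd hij.symm e12
    · rfl
  have hLI := hS (fun i => P (g i)) (fun i j hij => hg (hPinj hij)) (fun i => hPmem _)
  -- the vectors are independent as well
  have hrep : ∀ i, ∃ a : F, a ≠ 0 ∧ A (pv f (g i)) = a • (P (g i)).rep := fun i =>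
    top_rep_iff (A (pv f (g i))) (A_pv_ne A f (g i))
  choose a ha0 ha using hrep
  have hLI2 := Fintype.linearIndependent_iff.1 hLI
  have hrel : y • A (pv f (g 1)) + x • A (pv f (g 2)) + (x + y) • A (pv f (g 0)) = 0 := by
    rw [← map_smul, ← map_smul, ← map_smul, ← map_add, ← map_add]
    have : y • pv f (g 1) + x • pv f (g 2) + (x + y) • pv f (g 0) = 0 := by
      have h2 : (2 : F) = 0 := CharTwo.two_eq_zero
      have h3 : y * (f (u + x • w).1 (u + x • w).2 + f u.1 u.2) =
          x * (f (u + y • w).1 (u + y • w).2 + f u.1 u.2) := by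
        have := hxy
        field_simp at this
        linear_combination this
      funext i
      fin_cases i
      · simp [pv, g]
        linear_combination (x + y) * h2
      · simp [pv, g]
        linear_combination (x * u.1 + y * u.1 + x * y * w.1) * h2
      · simp [pv, g]
        linear_combination (x * u.2 + y * u.2 + x * y * w.2) * h2
      · simp only [Prod.fst_add, Prod.snd_add, Prod.smul_fst, Prod.smul_snd, smul_eq_mul] at h3
        simp [pv, g]
        linear_combination h3 + (x * f (u.1 + y * w.1) (u.2 + y * w.2) + x * f u.1 u.2) * h2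
    rw [this, map_zero]
  have h4 := hLI2 ![(x + y) * a 0, y * a 1, x * a 2] (by
    rw [Fin.sum_univ_three]
    simp only [Matrix.cons_val_zero, Matrix.cons_val_one, Matrix.cons_val_two, Matrix.head_cons,
      Matrix.tail_cons]
    rw [mul_smul, mul_smul, mul_smul, ← ha, ← ha, ← ha, ← hrel]
    abel) 1
  simp at h4
  rcases h4 with h4 | h4
  · exact hy h4
  · exact ha0 1 h4

/-- coordinates with respect to `e1, e2`. -/
theorem top_coord {e1 e2 : F × F} (he : om e1 e2 = 1) (u : F × F) :
    (om u e2) • e1 + (om e1 u) • e2 = u := by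
  have h2 : (2 : F) = 0 := CharTwo.two_eq_zero
  simp only [om] at he ⊢
  ext
  · simp only [Prod.fst_add, Prod.smul_fst, smul_eq_mul]
    linear_combination u.1 * he + (e1.1 * e2.1 * u.2) * h2
  · simp only [Prod.snd_add, Prod.smul_snd, smul_eq_mul]
    linear_combination u.2 * he + (e1.2 * e2.2 * u.1) * h2

theorem top_om1 {e1 e2 : F × F} (he : om e1 e2 = 1) (s t : F) :
    om (s • e1 + t • e2) e2 = s := by
  have h2 : (2 : F) = 0 := CharTwo.two_eq_zero
  simp only [om, Prod.fst_add, Prod.snd_add, Prod.smul_fst, Prod.smul_snd, smul_eq_mul] at he ⊢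
  linear_combination s * he + (t * e2.1 * e2.2) * h2

theorem top_om2 {e1 e2 : F × F} (he : om e1 e2 = 1) (s t : F) :
    om e1 (s • e1 + t • e2) = t := by
  have h2 : (2 : F) = 0 := CharTwo.two_eq_zero
  simp only [om, Prod.fst_add, Prod.snd_add, Prod.smul_fst, Prod.smul_snd, smul_eq_mul] at he ⊢
  linear_combination t * he + (s * e1.1 * e1.2) * h2

/-- the quadratic form of the elliptic case. -/
noncomputable def topQ (b L1 L2 f0 A0 : F) (e1 e2 : F × F) : QuadraticForm F (Fin 4 → F) :=
  let x : Fin 4 → ((Fin 4 → F) →ₗ[F] F) := fun i => LinearMap.proj i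
  let S : (Fin 4 → F) →ₗ[F] F := e2.2 • x 1 + e2.1 • x 2
  let T : (Fin 4 → F) →ₗ[F] F := e1.1 • x 2 + e1.2 • x 1
  QuadraticMap.linMulLin (b • (x 3 + f0 • x 0 + L1 • x 1 + L2 • x 2)) (x 0) +
    QuadraticMap.linMulLin (A0 • S) S + QuadraticMap.linMulLin S T + QuadraticMap.linMulLin T T

theorem topQ_apply (b L1 L2 f0 A0 : F) (e1 e2 : F × F) (v : Fin 4 → F) :
    topQ b L1 L2 f0 A0 e1 e2 v = b * (v 3 + f0 * v 0 + L1 * v 1 + L2 * v 2) * v 0 +
      A0 * (om (v 1, v 2) e2) ^ 2 + om (v 1, v 2) e2 * om e1 (v 1, v 2) +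
        (om e1 (v 1, v 2)) ^ 2 := by
  simp only [topQ, om, _root_.add_apply, QuadraticMap.linMulLin_apply, LinearMap.add_apply,
    LinearMap.smul_apply, LinearMap.proj_apply, smul_eq_mul]
  ring

theorem topQ_smul (b L1 L2 f0 A0 : F) (e1 e2 : F × F) (c : F) (v : Fin 4 → F) :
    topQ b L1 L2 f0 A0 e1 e2 (c • v) = c ^ 2 * topQ b L1 L2 f0 A0 e1 e2 v := by
  rw [QuadraticMap.map_smul, smul_eq_mul, pow_two]

/-- elliptic case. -/
theorem top_ell (hF : ∃ y : F, y ≠ 0 ∧ y ≠ 1) (f : F → F → F)
    (hsl : Slope fun u : F × F => f u.1 u.2)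
    (b L1 L2 A0 : F) (hb : b ≠ 0) (e1 e2 : F × F)
    (hform : ∀ u : F × F, b * (f u.1 u.2 + f 0 0 + L1 * u.1 + L2 * u.2) =
      A0 * (om u e2) ^ 2 + om u e2 * om e1 u + (om e1 u) ^ 2)
    (v : Fin 4 → F) (hv : v ≠ 0) :
    topQ b L1 L2 (f 0 0) A0 e1 e2 v = 0 ↔
      ((∃ s t c : F, ![1, s, t, f s t] = c • v) ∨ ∃ c : F, ![0, 0, 0, 1] = c • v) := by
  have h2 : (2 : F) = 0 := CharTwo.two_eq_zero
  -- anisotropic
  have haniso : ∀ u : F × F, A0 * (om u e2) ^ 2 + om u e2 * om e1 u + (om e1 u) ^ 2 = 0 → u = 0 := by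
    intro u hu
    by_contra hne
    obtain ⟨y, hy, hy1⟩ := hF
    have key : ∀ x : F, b * (f (x * u.1) (x * u.2) + f 0 0 + x * (L1 * u.1 + L2 * u.2)) = 0 := by
      intro x
      have := hform (x • u)
      simp only [Prod.smul_fst, Prod.smul_snd, smul_eq_mul] at this
      have e : A0 * om (x • u) e2 ^ 2 + om (x • u) e2 * om e1 (x • u) + om e1 (x • u) ^ 2 =
          x ^ 2 * (A0 * (om u e2) ^ 2 + om u e2 * om e1 u + (om e1 u) ^ 2) := by
        simp only [om, Prod.smul_fst, Prod.smul_snd, smul_eq_mul]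
        ring
      rw [e, hu, mul_zero] at this
      linear_combination this
    have key2 : ∀ x : F, f (x * u.1) (x * u.2) + f 0 0 = x * (L1 * u.1 + L2 * u.2) := by
      intro x
      rcases mul_eq_zero.1 (key x) with h0 | h0
      · exact absurd h0 hb
      · exact CharTwo.add_eq_zero.1 h0
    have := hsl 0 u hne 1 y one_ne_zero hy (by
      have k1 := key2 1
      have k2 := key2 y
      simp only [zero_add, Prod.smul_fst, Prod.smul_snd, smul_eq_mul, Prod.fst_zero, Prod.snd_zero]
      rw [k1, k2]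
      field_simp)
    exact hy1 this.symm
  have hpt : ∀ s t : F, topQ b L1 L2 (f 0 0) A0 e1 e2 ![1, s, t, f s t] = 0 := by
    intro s t
    rw [topQ_apply]
    simp only [Matrix.cons_val_zero, Matrix.cons_val_one, Matrix.cons_val]
    have := hform (s, t)
    simp only at this
    linear_combination this + (A0 * om (s, t) e2 ^ 2 + om (s, t) e2 * om e1 (s, t) +
      om e1 (s, t) ^ 2) * h2
  constructor
  · intro hQ
    by_cases h0 : v 0 = 0
    · right
      have hQ' := hQ
      rw [topQ_apply, h0, mul_zero, zero_add] at hQ'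
      have h12 := haniso _ hQ'
      have h1 : v 1 = 0 := congrArg Prod.fst h12
      have h2' : v 2 = 0 := congrArg Prod.snd h12
      have h3 : v 3 ≠ 0 := by
        intro h3
        apply hv
        funext i
        fin_cases i
        · exact h0
        · exact h1
        · exact h2'
        · exact h3
      refine ⟨(v 3)⁻¹, ?_⟩
      funext i
      fin_cases i
      · simp [h0]
      · simp [h1]
      · simp [h2']
      · simp [h3]
    · left
      set c := (v 0)⁻¹ with hc
      refine ⟨c * v 1, c * v 2, c, ?_⟩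
      have hc0 : c * v 0 = 1 := by rw [hc]; field_simp
      have hQc : topQ b L1 L2 (f 0 0) A0 e1 e2 (c • v) = 0 := by
        rw [topQ_smul, hQ, mul_zero]
      rw [topQ_apply] at hQc
      simp only [Pi.smul_apply, smul_eq_mul, hc0, mul_one] at hQc
      have := hform (c * v 1, c * v 2)
      simp only at this
      have h5 : b * (c * v 3 + f (c * v 1) (c * v 2)) = 0 := by
        linear_combination hQc + this - (b * (f 0 0 + L1 * (c * v 1) + L2 * (c * v 2))) * h2
      rcases mul_eq_zero.1 h5 with h6 | h6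
      · exact absurd h6 hb
      · have h7 := CharTwo.add_eq_zero.1 h6
        funext i
        fin_cases i
        · simp [hc0]
        · simp
        · simp
        · simpa using h7.symm
  · rintro (⟨s, t, c, hc⟩ | ⟨c, hc⟩)
    · have h1 := hpt s t
      rw [hc, topQ_smul] at h1
      rcases mul_eq_zero.1 h1 with h3 | h3
      · exfalso
        have h4 : c = 0 := by simpa using h3
        rw [h4] at hc
        have := congrFun hc 0
        simp at this
      · exact h3
    · have h1 : topQ b L1 L2 (f 0 0) A0 e1 e2 ![0, 0, 0, 1] = 0 := by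
        rw [topQ_apply]
        simp [om]
      rw [hc, topQ_smul] at h1
      rcases mul_eq_zero.1 h1 with h3 | h3
      · exfalso
        have h4 : c = 0 := by simpa using h3
        rw [h4] at hc
        have := congrFun hc 3
        simp at this
      · exact h3

/-- the coordinate change of the Tits case. -/
noncomputable def topT (b L1 L2 f0 : F) (e1 e2 : F × F) : (Fin 4 → F) →ₗ[F] (Fin 4 → F) :=
  let x : Fin 4 → ((Fin 4 → F) →ₗ[F] F) := fun i => LinearMap.proj i
  LinearMap.pi ![x 0, e1.1 • x 2 + e2.1 • x 1, e1.2 • x 2 + e2.2 • x 1,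
    b⁻¹ • x 3 + f0 • x 0 + L1 • (e1.1 • x 2 + e2.1 • x 1) + L2 • (e1.2 • x 2 + e2.2 • x 1)]

theorem topT_apply (b L1 L2 f0 : F) (e1 e2 : F × F) (v : Fin 4 → F) :
    topT b L1 L2 f0 e1 e2 v = ![v 0, e1.1 * v 2 + e2.1 * v 1, e1.2 * v 2 + e2.2 * v 1,
      b⁻¹ * v 3 + f0 * v 0 + L1 * (e1.1 * v 2 + e2.1 * v 1) + L2 * (e1.2 * v 2 + e2.2 * v 1)] := by
  funext i
  fin_cases i
  · simp [topT]
  · simp [topT]
  · simp [topT]
  · simp only [topT, LinearMap.pi_apply, Matrix.cons_val, LinearMap.add_apply, LinearMap.smul_apply,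
      LinearMap.proj_apply, smul_eq_mul, Fin.reduceFinMk]

theorem topT_inj (b L1 L2 f0 : F) (hb : b ≠ 0) (e1 e2 : F × F) (he : om e1 e2 = 1) :
    Function.Injective (topT b L1 L2 f0 e1 e2) := by
  have h2 : (2 : F) = 0 := CharTwo.two_eq_zero
  rw [injective_iff_map_eq_zero]
  intro v hv
  rw [topT_apply] at hv
  have h0 : v 0 = 0 := by simpa using congrFun hv 0
  have h1 : e1.1 * v 2 + e2.1 * v 1 = 0 := by simpa using congrFun hv 1
  have h2' : e1.2 * v 2 + e2.2 * v 1 = 0 := by simpa using congrFun hv 2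
  have h3 : b⁻¹ * v 3 + f0 * v 0 + L1 * (e1.1 * v 2 + e2.1 * v 1) +
      L2 * (e1.2 * v 2 + e2.2 * v 1) = 0 := by simpa using congrFun hv 3
  rw [h0, h1, h2', mul_zero, mul_zero, mul_zero, add_zero, add_zero, add_zero] at h3
  have h3' : v 3 = 0 := by
    rcases mul_eq_zero.1 h3 with h4 | h4
    · exact absurd h4 (inv_ne_zero hb)
    · exact h4
  simp only [om] at he
  have hv2 : v 2 = 0 := by
    linear_combination e2.2 * h1 + e2.1 * h2' - v 2 * he - (e2.1 * e2.2 * v 1) * h2 
  have hv1 : v 1 = 0 := by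
    linear_combination e1.2 * h1 + e1.1 * h2' - v 1 * he - (e1.1 * e1.2 * v 2) * h2
  funext i
  fin_cases i
  · exact h0
  · exact hv1
  · exact hv2
  · exact h3'

/-- Tits case. -/
theorem top_tits {h : ℕ} [NeZero h] (f : F → F → F)
    (b L1 L2 : F) (hb : b ≠ 0) (e1 e2 : F × F) (he : om e1 e2 = 1) (r : ZMod h)
    (hform : ∀ s t : F, b * (f (s • e1 + t • e2).1 (s • e1 + t • e2).2 + f 0 0 +
      L1 * (s • e1 + t • e2).1 + L2 * (s • e1 + t • e2).2) = fr r s * s ^ 2 + s * t + fr r t)
    (A : (Fin 4 → F) ≃ₗ[F] (Fin 4 → F)) (w : Fin 4 → F) :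
    ((∃ s t c : F, A ![1, s, t, f s t] = c • w) ∨ ∃ c : F, A ![0, 0, 0, 1] = c • w) ↔
    ((∃ s t c : F, A (topT b L1 L2 (f 0 0) e1 e2 ![1, s, t, fr r s + s * t + fr r t * t ^ 2]) =
      c • w) ∨ ∃ c : F, A (topT b L1 L2 (f 0 0) e1 e2 ![0, 0, 0, 1]) = c • w) := by
  have h2 : (2 : F) = 0 := CharTwo.two_eq_zero
  have hpt : ∀ s t : F, topT b L1 L2 (f 0 0) e1 e2 ![1, t, s, fr r t + t * s + fr r s * s ^ 2] =
      ![1, (s • e1 + t • e2).1, (s • e1 + t • e2).2,
        f (s • e1 + t • e2).1 (s • e1 + t • e2).2] := by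
    intro s t
    rw [topT_apply]
    have h3 := hform s t
    have hb' : b⁻¹ * b = 1 := inv_mul_cancel₀ hb
    funext i
    fin_cases i
    · simp
    · simp [mul_comm]
    · simp [mul_comm]
    · simp only [Prod.fst_add, Prod.snd_add, Prod.smul_fst, Prod.smul_snd, smul_eq_mul,
        Matrix.cons_val, Fin.reduceFinMk] at h3 ⊢
      linear_combination -b⁻¹ * h3 + (f (s * e1.1 + t * e2.1) (s * e1.2 + t * e2.2) + f 0 0 +
        L1 * (s * e1.1 + t * e2.1) + L2 * (s * e1.2 + t * e2.2)) * hb' +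
        (f 0 0 + L1 * (s * e1.1 + t * e2.1) + L2 * (s * e1.2 + t * e2.2)) * h2
  have hinf : topT b L1 L2 (f 0 0) e1 e2 ![0, 0, 0, 1] = b⁻¹ • ![0, 0, 0, 1] := by
    rw [topT_apply]
    funext i
    fin_cases i <;> simp
  constructor
  · rintro (⟨s, t, c, hc⟩ | ⟨c, hc⟩)
    · left
      refine ⟨om e1 (s, t), om (s, t) e2, c, ?_⟩
      rw [hpt, top_coord he]
      exact hc
    · right
      refine ⟨b⁻¹ * c, ?_⟩
      rw [hinf, map_smul, hc, smul_smul]
  · rintro (⟨s, t, c, hc⟩ | ⟨c, hc⟩)
    · left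
      rw [hpt] at hc
      exact ⟨_, _, c, hc⟩
    · right
      rw [hinf, map_smul] at hc
      refine ⟨b * c, ?_⟩
      rw [mul_smul, ← hc, smul_smul, mul_inv_cancel₀ hb, one_smul]

theorem top_half {h : ℕ} [NeZero h] (h4 : 4 ≤ h) (r : ZMod h) (hr : 2 * r = 1) :
    ∃ e : ℕ, 1 ≤ e ∧ h = 2 * e + 1 ∧ r.val = e + 1 := by
  have hlt := ZMod.val_lt r
  have h1 : ((2 * r.val : ℕ) : ZMod h) = ((1 : ℕ) : ZMod h) := by
    push_cast
    rw [ZMod.natCast_zmod_val, hr]
  rw [ZMod.natCast_eq_natCast_iff] at h1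
  have h0 : r.val ≠ 0 := by
    intro h0
    rw [h0, mul_zero] at h1
    have := (Nat.modEq_iff_dvd' (by omega : 0 ≤ 1)).1 h1
    have := Nat.le_of_dvd (by omega) this
    omega
  have h3 := (Nat.modEq_iff_dvd' (by omega : 1 ≤ 2 * r.val)).1 h1.symm
  obtain ⟨k, hk⟩ := h3
  have hk1 : k = 1 := by
    have hk2 : k < 2 := by
      by_contra hh
      have : h * 2 ≤ h * k := Nat.mul_le_mul_left h (by omega)
      omega
    have hk0 : k ≠ 0 := by
      rintro rfl
      omega
    omega
  subst hk1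
  exact ⟨r.val - 1, by omega, by omega, by omega⟩

end

theorem TOP_proof
    (hM : ∀ (F : Type) [Field F] [Fintype F] [CharP F 2] (h : ℕ) [NeZero h] [QF F h],
      MainStmt F h) : TopStmt := by
  intro F _ _ S h h4 hcard _ hcap hgraph
  haveI : NeZero h := ⟨by omega⟩
  haveI : CharP F 2 := charP_of_card_eq_prime_pow (f := h) hcard
  haveI : QF F h := ⟨hcard, h4⟩
  obtain ⟨A, f, hf3, hmem⟩ := hgraph
  have hsl : Slope fun u : F × F => f u.1 u.2 := top_slope S hcap A f hmem
  have hq : Quad fun u : F × F => f u.1 u.2 := by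
    intro u v w
    exact hf3 u.1 u.2 v.1 v.2 w.1 w.2
  obtain ⟨b, L1, L2, hb, e1, e2, he, hcase⟩ := hM F h (fun u : F × F => f u.1 u.2) hq hsl
  rcases hcase with ⟨A0, hA⟩ | ⟨r, hr, hA⟩
  · left
    have hF : ∃ y : F, y ≠ 0 ∧ y ≠ 1 := by
      by_contra hh
      push Not at hh
      have : Fintype.card F ≤ 2 := by
        classical
        have hsub : (Finset.univ : Finset F) ⊆ {0, 1} := by
          intro y _
          by_cases hy : y = 0
          · simp [hy]
          · simp [hh y hy]
        exact (Finset.card_le_card hsub).trans (Finset.card_le_two)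
      rw [hcard] at this
      have : 2 ^ 4 ≤ 2 ^ h := Nat.pow_le_pow_right (by norm_num) h4
      omega
    have hform : ∀ u : F × F, b * (f u.1 u.2 + f 0 0 + L1 * u.1 + L2 * u.2) =
        A0 * (om u e2) ^ 2 + om u e2 * om e1 u + (om e1 u) ^ 2 := by
      intro u
      have := hA (om u e2) (om e1 u)
      rw [top_coord he] at this
      exact this
    refine ⟨(topQ b L1 L2 (f 0 0) A0 e1 e2).comp (A.symm : (Fin 4 → F) →ₗ[F] (Fin 4 → F)), ?_⟩
    intro p
    rw [hmem]
    have hp : A.symm p.rep ≠ 0 := by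
      intro h0
      exact p.rep_nonzero (A.symm.injective (by rw [h0, map_zero]))
    have := top_ell hF f hsl b L1 L2 A0 hb e1 e2 hform (A.symm p.rep) hp
    rw [QuadraticMap.comp_apply]
    change _ ↔ topQ b L1 L2 (f 0 0) A0 e1 e2 (A.symm p.rep) = 0
    rw [this]
    have key : ∀ (v : Fin 4 → F) (c : F), A v = c • p.rep ↔ v = c • A.symm p.rep := by
      intro v c
      rw [← map_smul, LinearEquiv.eq_symm_apply]
    simp only [key]
  · right
    obtain ⟨e, he1, hhe, hre⟩ := top_half h4 r hr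
    refine ⟨e, he1, by rw [hcard, hhe], ?_⟩
    have hinj := topT_inj b L1 L2 (f 0 0) hb e1 e2 he
    let T : (Fin 4 → F) ≃ₗ[F] (Fin 4 → F) :=
      LinearEquiv.ofInjectiveEndo (topT b L1 L2 (f 0 0) e1 e2) hinj
    refine ⟨T.trans A, ?_⟩
    intro p
    rw [hmem, top_tits f b L1 L2 hb e1 e2 he r hA A p.rep]
    have hT : ∀ v, (T.trans A) v = A (topT b L1 L2 (f 0 0) e1 e2 v) := fun v => rfl
    simp only [hT]
    have e3 : ∀ s t : F, fr r s + s * t + fr r t * t ^ 2 =
        s ^ (2 ^ (e + 1)) + s * t + t ^ (2 ^ (e + 1) + 2) := by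
      intro s t
      rw [fr_def, fr_def, hre, pow_add t]
    simp only [e3]

end Pool.Agent.H51.QOV
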