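import Pool.Agent.H51.QOV.CI3

set_option autoImplicit false
set_option linter.unusedSectionVars false

namespace Pool.Agent.H51.QOV

open Finset

variable {F : Type} [Field F] [Fintype F] [CharP F 2] {h : ℕ} [NeZero h]

theorem CI2 [QF F h] (Q : F × F → F) (hind : ∀ a b c : F, (∀ v, a * Q v + b * Q v ^ 2 + c * Q v ^ 4 = 0) → a = 0 ∧ b = 0 ∧ c = 0) (e e' : F × F) (ε : F) (hε : om e e' = ε) (hε0 : ε ≠ 0) (ma n : F × F → F × F) (x y y' x1 y1 y1' : F)
 (hma : ∀ v, ma v = (x * Q v + y * Q v ^ 2) • e + (y' * Q v + x * Q v ^ 2) • e') (hn : ∀ v, n v = (x1 * Q v + y1 * Q v ^ 2) • e + (y1' * Q v + x1 * Q v ^ 2 + fr (-1 : ZMod h) (Q v * ε⁻¹)) • e')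
 (he2 : ∀ u v, om (ma u) (ma v) = (om (ma u) (n v) + om (n u) (ma v)) ^ 2) : y = 0 ∧ y' * y1 = 0 := by
  have h2 : (2 : F) = 0 := CharTwo.two_eq_zero
  set p := y * y1' + y' * y1 with hp
  have key : ∀ u v, (y * y' * Q v ^ 2 + y ^ 2 * Q v ^ 4) * Q u +
      (y * y' * Q v + ε * p ^ 2 * Q v ^ 4) * Q u ^ 2 +
      (y ^ 2 * Q v + ε * p ^ 2 * Q v ^ 2) * Q u ^ 4 = 0 := by
    intro u v
    have h3 := he2 u v
    rw [hma u, hma v, hn u, hn v] at h3
    simp only [om_add_left, om_add_right, om_smul_left, om_smul_right, om_self] at h3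
    rw [om_comm e' e, hε] at h3
    set su := fr (-1 : ZMod h) (Q u * ε⁻¹) with hsu
    set sv := fr (-1 : ZMod h) (Q v * ε⁻¹) with hsv
    have esu : ε * su ^ 2 = Q u := by rw [fr_neg_one_sq]; field_simp
    have esv : ε * sv ^ 2 = Q v := by rw [fr_neg_one_sq]; field_simp
    apply mul_left_cancel₀ hε0
    rw [mul_zero]
    have h5 : ε * (x ^ 2 + y * y') * (Q u * Q v ^ 2 + Q u ^ 2 * Q v) =
        (ε * (p * (Q u * Q v ^ 2 + Q u ^ 2 * Q v) + (x * Q u + y * Q u ^ 2) * sv +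
          (x * Q v + y * Q v ^ 2) * su)) ^ 2 := by
      grind
    grind
  have hv := fun v => hind _ _ _ (fun u => key u v)
  have h4 := hind (y ^ 2) (ε * p ^ 2) 0 (fun v => by have := (hv v).2.2; linear_combination this)
  have hy : y = 0 := by simpa using h4.1
  have hp0 : p = 0 := by
    have := h4.2.1
    simpa [hε0] using this
  refine ⟨hy, ?_⟩
  rw [hp, hy, zero_mul, zero_add] at hp0
  exact hp0

end Pool.Agent.H51.QOV
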