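import Pool.Agent.H51.QOV.Stmt

set_option autoImplicit false
set_option linter.unusedSectionVars false

namespace Pool.Agent.H51.QOV

open Finset

namespace P2

variable {F : Type} [Field F] [Fintype F] [CharP F 2] {h : ℕ} [NeZero h]

theorem add_self (x : F) : x + x = 0 := CharTwo.add_self_eq_zero x

theorem om_add_left (u v w : F × F) : om (u + v) w = om u w + om v w := by
  simp only [om, Prod.fst_add, Prod.snd_add]
  ring

theorem om_add_right (u v w : F × F) : om u (v + w) = om u v + om u w := by
  simp only [om, Prod.fst_add, Prod.snd_add]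
  ring

theorem om_smul_left (x : F) (u v : F × F) : om (x • u) v = x * om u v := by
  simp only [om, Prod.smul_fst, Prod.smul_snd, smul_eq_mul]
  ring

theorem om_smul_right (x : F) (u v : F × F) : om u (x • v) = x * om u v := by
  simp only [om, Prod.smul_fst, Prod.smul_snd, smul_eq_mul]
  ring

theorem om_comm (u v : F × F) : om u v = om v u := by
  simp only [om]
  ring

theorem om_self (u : F × F) : om u u = 0 := by
  have h1 : om u u = u.1 * u.2 + u.1 * u.2 := by
    simp only [om]
    ring
  rw [h1, add_self]

theorem addV (u : F × F) : u + u = 0 := by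
  ext
  · exact add_self _
  · exact add_self _

/-- the additive character. -/
noncomputable def chi (h : ℕ) [NeZero h] (x : F) : ℤ := by
  classical exact if tr h x = 0 then 1 else -1

theorem chi_add [QF F h] (x y : F) : chi h (x + y) = chi h x * chi h y := by
  unfold chi
  rw [tr_add]
  rcases tr_zero_or_one (h := h) x with h1 | h1 <;> rcases tr_zero_or_one (h := h) y with h2 | h2
  · simp [h1, h2]
  · simp [h1, h2]
  · simp [h1, h2]
  · simp [h1, h2, add_self (1 : F)]

theorem chi_sq [QF F h] (x : F) : chi h x * chi h x = 1 := by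
  unfold chi
  split_ifs <;> norm_num

theorem chi_zero [QF F h] : chi h (0 : F) = 1 := by
  unfold chi
  simp

theorem chi_one [QF F h] {x : F} (hx : chi h x = 1) : tr h x = 0 := by
  unfold chi at hx
  split_ifs at hx with h1
  exact h1

theorem sum_chi [QF F h] {c : F} (hc : c ≠ 0) : ∑ y : F, chi h (c * y) = 0 := by
  obtain ⟨x, hx⟩ := exists_tr_eq_one (F := F) (h := h)
  have h1 : ∑ y : F, chi h (c * y) = ∑ y : F, chi h (c * (y + c⁻¹ * x)) :=
    (Fintype.sum_equiv (Equiv.addRight (c⁻¹ * x)) _ _ fun y => rfl).symm
  have h2 : ∀ y : F, chi h (c * (y + c⁻¹ * x)) = -chi h (c * y) := by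
    intro y
    rw [mul_add, mul_inv_cancel_left₀ hc, chi_add]
    have h3 : chi h x = -1 := by
      unfold chi
      rw [hx, if_neg one_ne_zero]
    rw [h3]
    ring
  rw [Finset.sum_congr rfl fun y _ => h2 y, Finset.sum_neg_distrib] at h1
  linarith

variable {f : F × F → F}

/-- the line sums. -/
theorem line [QF F h] (hf : NF f) {c : F} (hc : c ≠ 0) (v : F × F) {w : F × F} (hw : w ≠ 0) :
    ∑ x : F, chi h (c * (f (v + x • w) + x * om v w)) = 0 := by
  have hinj : Function.Injective fun x : F => f (v + x • w) + x * om v w := by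
    intro x y hxy
    by_contra hne
    have h1 : v + x • w ≠ v + y • w := by
      intro h2
      have h3 : x • w = y • w := add_left_cancel h2
      have h4 : (x - y) • w = 0 := by rw [sub_smul, h3, sub_self]
      rcases smul_eq_zero.1 h4 with h5 | h5
      · exact hne (sub_eq_zero.1 h5)
      · exact hw h5
    refine hf.ov _ _ h1 ?_
    have e1 : om (v + x • w) (v + y • w) = x * om v w + y * om v w := by
      rw [om_add_left, om_add_right, om_add_right, om_self, om_smul_left, om_smul_left,
        om_smul_right, om_smul_right, om_self, om_comm w v]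
      ring
    rw [e1]
    have hxy' : f (v + x • w) + x * om v w = f (v + y • w) + y * om v w := hxy
    have e2 : f (v + x • w) + f (v + y • w) =
        (f (v + x • w) + x * om v w) + (f (v + y • w) + y * om v w) +
          (x * om v w + y * om v w) := by
      have a1 := add_self (x * om v w)
      have a2 := add_self (y * om v w)
      linear_combination (-1 : F) * a1 - a2
    rw [e2, hxy', add_self, zero_add]
  have hbij := Finite.injective_iff_bijective.1 hinj
  rw [← sum_chi (h := h) hc]
  exact Fintype.sum_equiv (Equiv.ofBijective _ hbij) _ _ fun x => rfl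

theorem wv [QF F h] (hf : NF f) {c : F} (hc : c ≠ 0) (v : F × F) :
    ∑ u : F × F, chi h (c * f u + c * om u v) = -(Fintype.card F : ℤ) * chi h (c * f v) := by
  classical
  obtain ⟨q, hq⟩ : ∃ q : ℤ, q = (Fintype.card F : ℤ) := ⟨_, rfl⟩
  have hq1 : 1 < q := by
    rw [hq]
    exact_mod_cast Fintype.one_lt_card (α := F)
  have h1 : ∑ w ∈ univ \ {(0 : F × F)}, ∑ x : F, chi h (c * (f (v + x • w) + x * om v w)) = 0 := by
    refine Finset.sum_eq_zero fun w hw => line hf hc v ?_
    simpa using hw
  rw [Finset.sum_comm] at h1
  -- the term of `x`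
  have h2 : ∀ x : F, x ≠ 0 → ∑ w ∈ univ \ {(0 : F × F)}, chi h (c * (f (v + x • w) + x * om v w)) =
      ∑ u ∈ univ \ {v}, chi h (c * f u + c * om u v) := by
    intro x hx
    refine Finset.sum_bij' (fun w _ => v + x • w) (fun u _ => x⁻¹ • (v + u)) ?_ ?_ ?_ ?_ ?_
    · intro w hw
      have hw' : w ≠ 0 := by simpa using hw
      simp only [Finset.mem_sdiff, Finset.mem_univ, true_and, Finset.mem_singleton]
      intro h3
      have h4 : x • w = 0 := by
        have : v + x • w = v + 0 := by rw [h3, add_zero]
        exact add_left_cancel this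
      rcases smul_eq_zero.1 h4 with h5 | h5
      · exact hx h5
      · exact hw' h5
    · intro u hu
      have hu' : u ≠ v := by simpa using hu
      simp only [Finset.mem_sdiff, Finset.mem_univ, true_and, Finset.mem_singleton]
      intro h3
      rcases smul_eq_zero.1 h3 with h5 | h5
      · exact inv_ne_zero hx h5
      · refine hu' ?_
        have : u = (v + u) + v := by
          rw [add_comm v u, add_assoc, addV, add_zero]
        rw [this, h5, zero_add]
    · intro w _
      rw [← add_assoc, addV, zero_add, smul_smul, inv_mul_cancel₀ hx, one_smul]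
    · intro u _
      rw [smul_smul, mul_inv_cancel₀ hx, one_smul, ← add_assoc, addV, zero_add]
    · intro w _
      have e1 : c * (f (v + x • w) + x * om v w) = c * f (v + x • w) + c * om (v + x • w) v := by
        rw [om_add_left, om_self, om_smul_left, om_comm w v]
        ring
      rw [e1]
  have h3 : ∑ w ∈ univ \ {(0 : F × F)}, chi h (c * (f (v + (0 : F) • w) + 0 * om v w)) =
      (q ^ 2 - 1) * chi h (c * f v) := by
    have e1 : ∀ w : F × F, chi h (c * (f (v + (0 : F) • w) + 0 * om v w)) = chi h (c * f v) := by
      intro w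
      rw [zero_smul, zero_mul, add_zero, add_zero]
    rw [Finset.sum_congr rfl fun w _ => e1 w, Finset.sum_const, nsmul_eq_mul]
    congr 1
    rw [Finset.card_sdiff_of_subset (Finset.subset_univ _), Finset.card_univ, Fintype.card_prod,
      Finset.card_singleton, Nat.cast_sub (by
        have : 0 < Fintype.card F := Fintype.card_pos
        exact Nat.succ_le_of_lt (Nat.mul_pos this this)), hq]
    push_cast
    ring
  rw [← Finset.sum_sdiff (Finset.subset_univ {(0 : F)}), Finset.sum_singleton, h3] at h1
  have h4 : ∑ x ∈ univ \ {(0 : F)}, ∑ w ∈ univ \ {(0 : F × F)},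
      chi h (c * (f (v + x • w) + x * om v w)) =
      (q - 1) * ∑ u ∈ univ \ {v}, chi h (c * f u + c * om u v) := by
    rw [Finset.sum_congr rfl fun x hx => h2 x (by simpa using hx), Finset.sum_const, nsmul_eq_mul]
    congr 1
    rw [Finset.card_sdiff_of_subset (Finset.subset_univ _), Finset.card_univ,
      Finset.card_singleton, Nat.cast_sub (Nat.succ_le_of_lt Fintype.card_pos), hq]
    push_cast
    ring
  rw [h4] at h1
  have h5 : ∑ u : F × F, chi h (c * f u + c * om u v) =
      (∑ u ∈ univ \ {v}, chi h (c * f u + c * om u v)) + chi h (c * f v) := by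
    rw [← Finset.sum_sdiff (Finset.subset_univ {v}), Finset.sum_singleton, om_self, mul_zero,
      add_zero]
  rw [h5, ← hq]
  have h6 : (q - 1) * ((∑ u ∈ univ \ {v}, chi h (c * f u + c * om u v)) +
      (q + 1) * chi h (c * f v)) = 0 := by
    rw [← h1]
    ring
  rcases mul_eq_zero.1 h6 with h7 | h7
  · omega
  · linarith

end P2

open P2 in
/-- P2. -/
theorem P2_proof (F : Type) [Field F] [Fintype F] [CharP F 2] (h : ℕ) [NeZero h] [QF F h] :
    P2Stmt F h := by
  intro f hf c hc M hM
  have hquad := hf.quad
  have hD0 : ∀ a, Dd f a a = 0 := by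
    intro a
    unfold Dd
    rw [addV, hf.zero, om_self, zero_add, add_self, zero_add]
  have hDs : ∀ u v, Dd f u v = Dd f v u := by
    intro u v
    unfold Dd
    rw [add_comm u v, om_comm u v]
    ring
  have hDa : ∀ u v w, Dd f (u + v) w = Dd f u w + Dd f v w := by
    intro u v w
    have h1 := hquad u v w
    rw [hf.zero] at h1
    unfold Dd
    rw [om_add_left]
    have a1 := add_self (f (u + w))
    have a2 := add_self (f (v + w))
    have a3 := add_self (f u)
    have a4 := add_self (f v)
    have a5 := add_self (f w)
    linear_combination h1 - a1 - a2 - a3 - a4 - a5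
  -- the shift
  have hsh : ∀ a v, tr h (c * (f v + f a + om a v + f (v + a + c⁻¹ • M a))) = 0 := by
    intro a v
    have h1 := wv (h := h) hf hc v
    have h2 := wv (h := h) hf hc (v + a + c⁻¹ • M a)
    have h3 : ∑ u : F × F, chi h (c * f u + c * om u v) =
        ∑ u : F × F, chi h (c * f (u + a) + c * om (u + a) v) :=
      (Fintype.sum_equiv (Equiv.addRight a) _ _ fun u => rfl).symm
    have h4 : ∀ u : F × F, chi h (c * f (u + a) + c * om (u + a) v) =
        chi h (c * f a + c * om a v) * chi h (c * f u + c * om u (v + a + c⁻¹ • M a)) := by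
      intro u
      have h5 := hM u a
      have e1 : c * f (u + a) + c * om (u + a) v = (c * f a + c * om a v) +
          (c * f u + c * om u (v + a + c⁻¹ • M a)) + (c * Dd f u a + om u (M a)) := by
        rw [om_add_right, om_add_right, om_smul_right, om_add_left]
        unfold Dd
        have a0 : c * (c⁻¹ * om u (M a)) = om u (M a) := mul_inv_cancel_left₀ hc _
        have a1 := add_self (c * f a)
        have a2 := add_self (c * f u)
        have a3 := add_self (c * om u a)
        have a4 := add_self (om u (M a))
        linear_combination (-1 : F) * a0 - a1 - a2 - a3 - a4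
      rw [e1, chi_add, chi_add]
      have h6 : chi h (c * Dd f u a + om u (M a)) = 1 := by
        unfold chi
        rw [tr_add, h5, add_self, if_pos rfl]
      rw [h6, mul_one]
    rw [Finset.sum_congr rfl fun u _ => h4 u, ← Finset.mul_sum] at h3
    rw [h1, h2] at h3
    have hq : (Fintype.card F : ℤ) ≠ 0 := by
      have : 0 < Fintype.card F := Fintype.card_pos
      exact_mod_cast this.ne'
    have h7 : chi h (c * f v) = chi h (c * f a + c * om a v) *
        chi h (c * f (v + a + c⁻¹ • M a)) := by
      have h8 : (Fintype.card F : ℤ) * (chi h (c * f v) - chi h (c * f a + c * om a v) *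
          chi h (c * f (v + a + c⁻¹ • M a))) = 0 := by linear_combination (-1 : ℤ) * h3
      rcases mul_eq_zero.1 h8 with h9 | h9
      · exact absurd h9 hq
      · linarith
    refine chi_one ?_
    have e2 : c * (f v + f a + om a v + f (v + a + c⁻¹ • M a)) =
        c * f v + (c * f a + c * om a v) + c * f (v + a + c⁻¹ • M a) := by ring
    rw [e2, chi_add, chi_add, mul_assoc, ← h7, chi_sq]
  have hfN : ∀ a, tr h (c * f (c⁻¹ • M a)) = 0 := by
    intro a
    have h1 := hsh a a
    rw [addV, zero_add, om_self, add_self, zero_add, zero_add] at h1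
    exact h1
  have hDN : ∀ x a, tr h (c * Dd f x (c⁻¹ • M a)) = 0 := by
    intro x a
    -- `x = v + a`
    obtain ⟨v, hv⟩ : ∃ v, v + a = x := ⟨x + a, by rw [add_assoc, addV, add_zero]⟩
    have h1 := hsh a v
    have h2 := hfN a
    have h3 := hM (v + a) a
    have h4 : f (v + a + c⁻¹ • M a) = Dd f (v + a) (c⁻¹ • M a) + f (v + a) + f (c⁻¹ • M a) +
        om (v + a) (c⁻¹ • M a) := by
      unfold Dd
      have a1 := add_self (f (v + a))
      have a2 := add_self (f (c⁻¹ • M a))
      have a3 := add_self (om (v + a) (c⁻¹ • M a))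
      linear_combination (-1 : F) * a1 - a2 - a3
    have h5 : f v + f a + om a v + f (v + a) = Dd f v a := by
      unfold Dd
      rw [om_comm a v]
      ring
    have h6 : c * om (v + a) (c⁻¹ • M a) = om (v + a) (M a) := by
      rw [om_smul_right, mul_inv_cancel_left₀ hc]
    rw [hDa, hD0, add_zero] at h3
    have h7 : c * (f v + f a + om a v + f (v + a + c⁻¹ • M a)) =
        c * Dd f v a + c * Dd f (v + a) (c⁻¹ • M a) + c * f (c⁻¹ • M a) + om (v + a) (M a) := by
      rw [h4, ← h6]
      linear_combination c * h5
    rw [h7, tr_add, tr_add, tr_add, h2, h3, add_zero, add_right_comm, add_self, zero_add, hv] at h1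
    exact h1
  intro u v
  have h1 := hM (c⁻¹ • M u) v
  rw [om_smul_left, hDs, hDN] at h1
  exact h1

end Pool.Agent.H51.QOV
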