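import Pool.Agent.H51.QOV.WED
import Pool.Agent.H51.QOV.P2

set_option autoImplicit false
set_option linter.unusedSectionVars false

namespace Pool.Agent.H51.QOV

open Finset

namespace CIB

variable {F : Type} [Field F] [Fintype F] [CharP F 2] {h : ℕ} [NeZero h]

/-- sums of the character over a group. -/
theorem sum_chi_hom [QF F h] {G : Type} [AddCommGroup G] [Fintype G] (ℓ : G →+ F) :
    (∀ g, tr h (ℓ g) = 0) ∨ ∑ g : G, P2.chi h (ℓ g) = 0 := by
  by_cases h0 : ∀ g, tr h (ℓ g) = 0
  · exact Or.inl h0
  · right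
    push Not at h0
    obtain ⟨g0, hg0⟩ := h0
    have h1 : ∑ g : G, P2.chi h (ℓ g) = ∑ g : G, P2.chi h (ℓ (g + g0)) :=
      (Fintype.sum_equiv (Equiv.addRight g0) _ _ fun y => rfl).symm
    have h2 : ∀ g, P2.chi h (ℓ (g + g0)) = - P2.chi h (ℓ g) := by
      intro g
      rw [map_add, P2.chi_add]
      have h3 : P2.chi h (ℓ g0) = -1 := by
        unfold P2.chi
        rw [if_neg hg0]
      rw [h3]
      ring
    rw [Finset.sum_congr rfl fun g _ => h2 g, Finset.sum_neg_distrib] at h1
    linarith

/-- the duality count. -/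
theorem dual_count [QF F h] {G : Type} [AddCommGroup G] [Fintype G] [DecidableEq F]
    (φ : G →+ F) (C : Finset F) (hC : ∀ c, c ∈ C ↔ ∀ g, tr h (c * φ g) = 0) :
    (Fintype.card G : ℤ) * C.card =
      (Fintype.card F : ℤ) * (univ.filter fun g : G => φ g = 0).card := by
  classical
  have hA : ∀ c : F, ∑ g : G, P2.chi h (c * φ g) =
      if c ∈ C then (Fintype.card G : ℤ) else 0 := by
    intro c
    split_ifs with h1
    · rw [hC] at h1
      have : ∀ g : G, P2.chi h (c * φ g) = 1 := by
        intro g
        unfold P2.chi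
        rw [if_pos (h1 g)]
      simp [this]
    · rw [hC] at h1
      rcases sum_chi_hom (h := h) ((AddMonoidHom.mulLeft c).comp φ) with h2 | h2
      · exact absurd h2 h1
      · exact h2
  have hB : ∀ g : G, ∑ c : F, P2.chi h (c * φ g) =
      if φ g = 0 then (Fintype.card F : ℤ) else 0 := by
    intro g
    split_ifs with h1
    · have : ∀ c : F, P2.chi h (c * φ g) = 1 := by
        intro c
        rw [h1, mul_zero, P2.chi_zero]
      simp [this]
    · rw [← P2.sum_chi (h := h) h1]
      exact Finset.sum_congr rfl fun c _ => by rw [mul_comm]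
  have h1 : ∑ c : F, ∑ g : G, P2.chi h (c * φ g) = ∑ g : G, ∑ c : F, P2.chi h (c * φ g) :=
    Finset.sum_comm
  simp only [hA, hB] at h1
  rw [← Finset.sum_filter, ← Finset.sum_filter, Finset.sum_const, Finset.sum_const] at h1
  have h2 : (univ.filter fun c : F => c ∈ C) = C := by
    ext c
    simp
  rw [h2] at h1
  simp only [nsmul_eq_mul] at h1
  linarith

/-- the number theory at the end. -/
theorem nat_end {h m : ℕ} (hh : 4 ≤ h) (hm : h ≤ m) (hm2 : m ≤ 2 * h)
    (hcount : ((2 : ℤ) ^ h * 2 ^ h - 2 ^ m) * (2 * 2 ^ m - 2 ^ h) ≤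
      (2 ^ h * (2 ^ h - 1)) * 2 ^ m) : m = h ∨ m + 1 = 2 * h ∨ m = 2 * h := by
  by_contra hcon
  push Not at hcon
  obtain ⟨h1, h2, h3⟩ := hcon
  obtain ⟨k, rfl⟩ : ∃ k, m = h + 1 + k := ⟨m - (h + 1), by omega⟩
  obtain ⟨l, hl⟩ : ∃ l, h = k + 3 + l := ⟨h - (k + 3), by omega⟩
  have hq : (2 : ℤ) ^ h = 2 ^ k * 8 * 2 ^ l := by
    rw [hl, pow_add, pow_add]
    norm_num
  have hK : (2 : ℤ) ^ (h + 1 + k) = 2 ^ h * (2 * 2 ^ k) := by
    rw [pow_add, pow_add]
    ring
  have hk : (1 : ℤ) ≤ 2 ^ k := one_le_pow₀ (by norm_num)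
  have hl1 : (1 : ℤ) ≤ 2 ^ l := one_le_pow₀ (by norm_num)
  rw [hK] at hcount
  generalize (2 : ℤ) ^ k = a at *
  generalize (2 : ℤ) ^ l = b at *
  generalize (2 : ℤ) ^ h = q at *
  have hq0 : 0 < q := by rw [hq]; positivity
  have hc1 : (q - 2 * a) * (4 * a - 1) ≤ (q - 1) * (2 * a) := by
    have e1 : (q * q - q * (2 * a)) * (2 * (q * (2 * a)) - q) =
        (q * q) * ((q - 2 * a) * (4 * a - 1)) := by ring
    have e2 : q * (q - 1) * (q * (2 * a)) = (q * q) * ((q - 1) * (2 * a)) := by ring
    rw [e1, e2] at hcount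
    exact le_of_mul_le_mul_left hcount (by positivity)
  have hc2 : (2 * a - 1) * (q - 4 * a) ≤ 0 := by nlinarith
  have hc3 : 0 < q - 4 * a := by
    rw [hq]
    nlinarith
  nlinarith

end CIB

variable {F : Type} [Field F] [Fintype F] [CharP F 2] {h : ℕ} [NeZero h]

/-- CIB: the end of Case I. -/
theorem CIB [QF F h] (S : Sys F h) (Q : F × F →+ F) (e e' : F × F) (x y : F →+ F) (η ε : F)
    (hε : om e e' = ε) (hε0 : ε ≠ 0)
    (hM : ∀ c v, S.M c v = (x c * Q v + η * fr (-1 : ZMod h) c * (Q v) ^ 2) • e +
      (y c * Q v + x c * (Q v) ^ 2 + fr (-1 : ZMod h) (c * Q v * ε⁻¹)) • e')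
    (hQ : ∃ v, Q v ≠ 0) (hx : ∀ l, ∃ c, x c ≠ l * fr (-1 : ZMod h) c)
    (hy : η ≠ 0 → ∃ y1, ∀ c, y c = y1 * fr (-1 : ZMod h) c) : False := by
  classical
  have h2 : (2 : F) = 0 := CharTwo.two_eq_zero
  -- M c v = 0 in coordinates
  have hM0 : ∀ c v, S.M c v = 0 → (x c * Q v + η * fr (-1 : ZMod h) c * (Q v) ^ 2 = 0 ∧
      y c * Q v + x c * (Q v) ^ 2 + fr (-1 : ZMod h) (c * Q v * ε⁻¹) = 0) := by
    intro c v h0
    rw [hM] at h0
    constructor
    · have h3 : om ((x c * Q v + η * fr (-1 : ZMod h) c * (Q v) ^ 2) • e +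
        (y c * Q v + x c * (Q v) ^ 2 + fr (-1 : ZMod h) (c * Q v * ε⁻¹)) • e') e' = 0 := by
        rw [h0, om_zero_left]
      rw [om_add_left, om_smul_left, om_smul_left, om_self, hε, mul_zero, add_zero] at h3
      exact (mul_eq_zero.1 h3).resolve_right hε0
    · have h3 : om ((x c * Q v + η * fr (-1 : ZMod h) c * (Q v) ^ 2) • e +
        (y c * Q v + x c * (Q v) ^ 2 + fr (-1 : ZMod h) (c * Q v * ε⁻¹)) • e') e = 0 := by
        rw [h0, om_zero_left]
      rw [om_add_left, om_smul_left, om_smul_left, om_self, om_comm e' e, hε, mul_zero,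
        zero_add] at h3
      exact (mul_eq_zero.1 h3).resolve_right hε0
  -- M c v depends on Q v
  have hMQ : ∀ c v, Q v = 0 → S.M c v = 0 := by
    intro c v hv
    rw [hM, hv]
    simp
  -- D
  have hsymm : ∀ u v, S.D u v = S.D v u := by
    intro u v
    have h3 := S.alt (u + v)
    rw [map_add, map_add, AddMonoidHom.add_apply, AddMonoidHom.add_apply, S.alt, S.alt, zero_add,
      add_zero] at h3
    have h4 : S.D v u + S.D u v = 0 := h3
    linear_combination h4 - S.D v u * h2
  have hDQ : ∀ u v, Q v = 0 → S.D u v = 0 := by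
    intro u v hv
    apply tr_nondeg (h := h)
    intro c
    rw [mul_comm, ← S.hM, hMQ c v hv, om_zero_right, tr_zero]
  -- for c ≠ 0 at most one z ≠ 0
  have huniq : ∀ c, c ≠ 0 → ∀ v v', Q v ≠ 0 → Q v' ≠ 0 → S.M c v = 0 → S.M c v' = 0 →
      Q v = Q v' := by
    intro c hc v v' hv hv' h3 h4
    obtain ⟨a1, a2⟩ := hM0 c v h3
    obtain ⟨b1, b2⟩ := hM0 c v' h4
    have hfc : fr (-1 : ZMod h) c ≠ 0 := fun h5 => hc ((fr_eq_zero _).1 h5)
    have a1' : x c = η * fr (-1 : ZMod h) c * Q v := by
      have : (x c + η * fr (-1 : ZMod h) c * Q v) * Q v = 0 := by linear_combination a1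
      have h5 := (mul_eq_zero.1 this).resolve_right hv
      linear_combination h5 - (η * fr (-1 : ZMod h) c * Q v) * h2
    have b1' : x c = η * fr (-1 : ZMod h) c * Q v' := by
      have : (x c + η * fr (-1 : ZMod h) c * Q v') * Q v' = 0 := by linear_combination b1
      have h5 := (mul_eq_zero.1 this).resolve_right hv'
      linear_combination h5 - (η * fr (-1 : ZMod h) c * Q v') * h2
    by_cases hη : η = 0
    · have hx0 : x c = 0 := by rw [a1', hη]; ring
      have sq : ∀ z : F, fr (-1 : ZMod h) z ^ 2 = z := by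
        intro z
        rw [← fr_one (h := h), fr_neg]
      have a3 : (y c) ^ 2 * Q v ^ 2 = c * Q v * ε⁻¹ := by
        rw [hx0] at a2
        have h5 : y c * Q v = fr (-1 : ZMod h) (c * Q v * ε⁻¹) := by
          linear_combination a2 - (fr (-1 : ZMod h) (c * Q v * ε⁻¹)) * h2
        rw [← mul_pow, h5, sq]
      have b3 : (y c) ^ 2 * Q v' ^ 2 = c * Q v' * ε⁻¹ := by
        rw [hx0] at b2
        have h5 : y c * Q v' = fr (-1 : ZMod h) (c * Q v' * ε⁻¹) := by
          linear_combination b2 - (fr (-1 : ZMod h) (c * Q v' * ε⁻¹)) * h2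
        rw [← mul_pow, h5, sq]
      have a4 : (y c) ^ 2 * Q v = c * ε⁻¹ := by
        apply mul_right_cancel₀ hv
        linear_combination a3
      have b4 : (y c) ^ 2 * Q v' = c * ε⁻¹ := by
        apply mul_right_cancel₀ hv'
        linear_combination b3
      have hy0 : (y c) ^ 2 ≠ 0 := by
        intro h5
        rw [h5, zero_mul] at a4
        exact (mul_ne_zero hc (inv_ne_zero hε0)) a4.symm
      exact mul_left_cancel₀ hy0 (a4.trans b4.symm)
    · exact mul_left_cancel₀ (mul_ne_zero hη hfc) (a1'.symm.trans b1')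
  -- the counting
  set K : ℕ := (univ.filter fun u : F × F => Q u = 0).card with hK
  set q : ℕ := Fintype.card F with hq
  have hqh : q = 2 ^ h := QF.card
  have h4 : 4 ≤ h := QF.four (F := F)
  have hfib : ∀ z : F, (univ.filter fun u : F × F => Q u = z).card ≤ K := by
    intro z
    by_cases hz : ∃ v, Q v = z
    · obtain ⟨v, hv⟩ := hz
      refine (Finset.card_le_card_of_injOn (fun u => u + v) ?_ ?_)
      · intro u hu
        simp only [Finset.coe_filter, Finset.mem_univ, true_and, Set.mem_ofPred_eq] at hu ⊢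
        rw [map_add, hu, hv, CharTwo.add_self_eq_zero]
      · intro a _ b _ hab
        exact add_right_cancel hab
    · have : (univ.filter fun u : F × F => Q u = z) = ∅ := by
        ext u
        simp only [Finset.mem_filter, Finset.mem_univ, true_and, Finset.notMem_empty, iff_false]
        exact fun h5 => hz ⟨u, h5⟩
      rw [this]
      simp
  have hqq : q * q = ∑ z : F, (univ.filter fun u : F × F => Q u = z).card := by
    rw [← Finset.card_eq_sum_card_fiberwise (f := fun u : F × F => Q u) (t := univ)]
    · rw [Finset.card_univ, Fintype.card_prod]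
    · intro a _
      simp
  have hq0 : 0 < q := Fintype.card_pos
  have hKq : q ≤ K := by
    have h5 : q * q ≤ q * K := by
      calc q * q = ∑ z : F, (univ.filter fun u : F × F => Q u = z).card := hqq
        _ ≤ ∑ _z : F, K := Finset.sum_le_sum fun z _ => hfib z
        _ = q * K := by rw [Finset.sum_const, Finset.card_univ, smul_eq_mul]
    exact le_of_mul_le_mul_left h5 hq0
  -- K is a power of two
  have hKdvd : K ∣ 2 ^ (2 * h) := by
    have h5 : Nat.card Q.ker = K := by
      rw [Nat.card_eq_fintype_card, Fintype.card_subtype, hK]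
      congr 1
      ext u
      simp [AddMonoidHom.mem_ker]
    have h6 := AddSubgroup.card_addSubgroup_dvd_card Q.ker
    rw [h5, Nat.card_eq_fintype_card, Fintype.card_prod, ← hq, hqh, ← pow_add, ← two_mul] at h6
    exact h6
  obtain ⟨m, hm2, hKm⟩ := (Nat.dvd_prime_pow Nat.prime_two).1 hKdvd
  have hhm : h ≤ m := by
    rw [hqh, hKm] at hKq
    exact (Nat.pow_le_pow_iff_right (by norm_num)).1 hKq
  -- the kernel of D v
  have hker : ∀ v, Q v ≠ 0 → 2 * K ≤ (univ.filter fun u : F × F => S.D v u = 0).card := by
    intro v hv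
    have h5 : Disjoint (univ.filter fun u : F × F => Q u = 0)
        ((univ.filter fun u : F × F => Q u = 0).map (addRightEmbedding v)) := by
      rw [Finset.disjoint_left]
      intro u hu hu'
      simp only [Finset.mem_filter, Finset.mem_univ, true_and] at hu
      rw [Finset.mem_map] at hu'
      obtain ⟨w, hw, hwu⟩ := hu'
      simp only [Finset.mem_filter, Finset.mem_univ, true_and] at hw
      rw [addRightEmbedding_apply] at hwu
      rw [← hwu, map_add, hw, zero_add] at hu
      exact hv hu
    have h6 := Finset.card_union_of_disjoint h5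
    rw [Finset.card_map, ← hK, ← two_mul] at h6
    rw [← h6]
    apply Finset.card_le_card
    intro u hu
    simp only [Finset.mem_filter, Finset.mem_univ, true_and]
    rcases Finset.mem_union.1 hu with h7 | h7
    · simp only [Finset.mem_filter, Finset.mem_univ, true_and] at h7
      exact hDQ v u h7
    · rw [Finset.mem_map] at h7
      obtain ⟨w, hw, hwu⟩ := h7
      simp only [Finset.mem_filter, Finset.mem_univ, true_and] at hw
      rw [addRightEmbedding_apply] at hwu
      rw [← hwu, map_add, hDQ v w hw, S.alt, zero_add]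
  have hMD : ∀ c v, S.M c v = 0 ↔ ∀ g, tr h (c * S.D v g) = 0 := by
    intro c v
    constructor
    · intro h5 g
      rw [hsymm v g, ← S.hM, h5, om_zero_right, tr_zero]
    · intro h5
      apply om_nondeg (h := h)
      intro g
      rw [S.hM, hsymm g v]
      exact h5 g
  -- the number of c with M c v = 0
  have hC : ∀ v, Q v ≠ 0 → 2 * K ≤ q * (univ.filter fun c : F => S.M c v = 0).card := by
    intro v hv
    have h5 := CIB.dual_count (h := h) (S.D v) (univ.filter fun c : F => S.M c v = 0) (by
      intro c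
      simp only [Finset.mem_filter, Finset.mem_univ, true_and]
      exact hMD c v)
    rw [Fintype.card_prod, ← hq] at h5
    have h6 : (q : ℤ) * ((q : ℤ) * ((univ.filter fun c : F => S.M c v = 0).card : ℤ)) =
        (q : ℤ) * ((univ.filter fun u : F × F => S.D v u = 0).card : ℤ) := by
      push_cast at h5
      linarith
    have h7 := mul_left_cancel₀ (by exact_mod_cast hq0.ne' : (q : ℤ) ≠ 0) h6
    have h8 : q * (univ.filter fun c : F => S.M c v = 0).card =
      (univ.filter fun u : F × F => S.D v u = 0).card := by exact_mod_cast h7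
    rw [h8]
    exact hker v hv
  -- pairs
  set s : Finset (F × F) := univ.filter fun v => Q v ≠ 0 with hs
  set t : Finset F := univ.filter fun c => c ≠ 0 with ht
  have hscard : s.card + K = q * q := by
    have h5 := Finset.card_filter_add_card_filter_not (s := (univ : Finset (F × F)))
      (p := fun v => Q v = 0)
    rw [Finset.card_univ, Fintype.card_prod, ← hq] at h5
    rw [← h5, add_comm]
  have htcard : t.card + 1 = q := by
    have h5 : t = univ.erase 0 := by
      ext c
      simp [ht]
    rw [h5, Finset.card_erase_of_mem (Finset.mem_univ _), Finset.card_univ, ← hq]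
    omega
  have hdc := Finset.sum_card_bipartiteAbove_eq_sum_card_bipartiteBelow
    (s := s) (t := t) (fun v c => S.M c v = 0)
  have hlow : ∀ v ∈ s, 2 * K ≤ q * ((t.bipartiteAbove (fun v c => S.M c v = 0) v).card + 1) := by
    intro v hv
    have hv' : Q v ≠ 0 := by simpa [hs] using hv
    have h5 : (univ.filter fun c : F => S.M c v = 0) =
        insert 0 (t.bipartiteAbove (fun v c => S.M c v = 0) v) := by
      ext c
      simp only [Finset.mem_filter, Finset.mem_univ, true_and, Finset.mem_insert,
        Finset.mem_bipartiteAbove, ht]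
      constructor
      · intro h6
        by_cases hc : c = 0
        · exact Or.inl hc
        · exact Or.inr ⟨hc, h6⟩
      · rintro (h6 | h6)
        · rw [h6, map_zero]
          rfl
        · exact h6.2
    have h6 : (0 : F) ∉ t.bipartiteAbove (fun v c => S.M c v = 0) v := by
      simp [Finset.mem_bipartiteAbove, ht]
    have h7 := hC v hv'
    rw [h5, Finset.card_insert_of_notMem h6] at h7
    exact h7
  have hup : ∀ c ∈ t, (s.bipartiteBelow (fun v c => S.M c v = 0) c).card ≤ K := by
    intro c hc
    have hc' : c ≠ 0 := by simpa [ht] using hc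
    by_cases hne : (s.bipartiteBelow (fun v c => S.M c v = 0) c).Nonempty
    · obtain ⟨v, hv⟩ := hne
      rw [Finset.mem_bipartiteBelow] at hv
      have hv' : Q v ≠ 0 := by simpa [hs] using hv.1
      refine le_trans (Finset.card_le_card ?_) (hfib (Q v))
      intro u hu
      rw [Finset.mem_bipartiteBelow] at hu
      have hu' : Q u ≠ 0 := by simpa [hs] using hu.1
      simp only [Finset.mem_filter, Finset.mem_univ, true_and]
      exact huniq c hc' u v hu' hv' hu.2 hv.2
    · rw [Finset.not_nonempty_iff_eq_empty.1 hne]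
      simp
  have hN1 : s.card * (2 * K) ≤ q * (t.card * K + s.card) := by
    calc s.card * (2 * K) = ∑ _v ∈ s, 2 * K := by rw [Finset.sum_const, smul_eq_mul]
      _ ≤ ∑ v ∈ s, q * ((t.bipartiteAbove (fun v c => S.M c v = 0) v).card + 1) :=
        Finset.sum_le_sum hlow
      _ = q * (∑ v ∈ s, (t.bipartiteAbove (fun v c => S.M c v = 0) v).card + s.card) := by
        rw [← Finset.mul_sum, Finset.sum_add_distrib, Finset.sum_const, smul_eq_mul, mul_one]
      _ = q * (∑ c ∈ t, (s.bipartiteBelow (fun v c => S.M c v = 0) c).card + s.card) := by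
        rw [hdc]
      _ ≤ q * (∑ _c ∈ t, K + s.card) := by
        apply Nat.mul_le_mul_left
        apply Nat.add_le_add_right
        exact Finset.sum_le_sum hup
      _ = q * (t.card * K + s.card) := by rw [Finset.sum_const, smul_eq_mul]
  have hcount : ((2 : ℤ) ^ h * 2 ^ h - 2 ^ m) * (2 * 2 ^ m - 2 ^ h) ≤
      (2 ^ h * (2 ^ h - 1)) * 2 ^ m := by
    have e1 : (q : ℤ) = 2 ^ h := by rw [hqh]; push_cast; rfl
    have e2 : (K : ℤ) = 2 ^ m := by rw [hKm]; push_cast; rfl
    rw [← e1, ← e2]
    have e3 : (s.card : ℤ) = q * q - K := by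
      have : ((s.card + K : ℕ) : ℤ) = ((q * q : ℕ) : ℤ) := by rw [hscard]
      push_cast at this
      linarith
    have e4 : (t.card : ℤ) = q - 1 := by
      have : ((t.card + 1 : ℕ) : ℤ) = (q : ℤ) := by rw [htcard]
      push_cast at this
      linarith
    have e5 : (s.card : ℤ) * (2 * K) ≤ q * (t.card * K + s.card) := by exact_mod_cast hN1
    rw [e3, e4] at e5
    linarith
  rcases CIB.nat_end h4 hhm hm2 hcount with h5 | h5 | h5
  · -- K = q
    have hKq' : K = q := by rw [hKm, h5, hqh]
    have honto : ∀ z : F, ∃ v, Q v = z := by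
      intro z
      by_contra hz
      push Not at hz
      have h6 : (univ.filter fun u : F × F => Q u = z).card = 0 := by
        rw [Finset.card_eq_zero]
        ext u
        simp only [Finset.mem_filter, Finset.mem_univ, true_and, Finset.notMem_empty, iff_false]
        exact hz u
      have h7 : q * q ≤ t.card * q := by
        rw [hqq, ← Finset.add_sum_erase _ _ (Finset.mem_univ z), h6, zero_add]
        calc ∑ z' ∈ univ.erase z, (univ.filter fun u : F × F => Q u = z').card
            ≤ ∑ _z' ∈ (univ : Finset F).erase z, K := Finset.sum_le_sum fun z' _ => hfib z'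
          _ = t.card * q := by
            rw [Finset.sum_const, smul_eq_mul, Finset.card_erase_of_mem (Finset.mem_univ _),
              Finset.card_univ, ← hq, hKq']
            congr 1
            omega
      have h8 := Nat.le_of_mul_le_mul_right h7 hq0
      omega
    choose V hV using honto
    choose cc hcc0 hcc using S.p1
    have hfc : ∀ c : F, c ≠ 0 → fr (-1 : ZMod h) c ≠ 0 := fun c hc h6 => hc ((fr_eq_zero _).1 h6)
    by_cases hη : η = 0
    · -- every c is hit
      let g : {z : F // z ≠ 0} → {z : F // z ≠ 0} := fun z => ⟨cc (V z.1), hcc0 _⟩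
      have hg : Function.Injective g := by
        intro z z' hzz
        have h6 : cc (V z.1) = cc (V z'.1) := congrArg Subtype.val hzz
        have h7 := hcc (V z.1)
        have h8 := hcc (V z'.1)
        rw [← h6] at h8
        have h9 := huniq _ (hcc0 _) (V z.1) (V z'.1) (by rw [hV]; exact z.2)
          (by rw [hV]; exact z'.2) h7 h8
        rw [hV, hV] at h9
        exact Subtype.ext h9
      have hg' := Finite.injective_iff_surjective.1 hg
      obtain ⟨c, hc⟩ := hx 0
      apply hc
      rw [zero_mul]
      by_cases hc0 : c = 0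
      · rw [hc0, map_zero]
      · obtain ⟨z, hz⟩ := hg' ⟨c, hc0⟩
        have h6 : cc (V z.1) = c := congrArg Subtype.val hz
        have h7 := hcc (V z.1)
        rw [h6] at h7
        have h8 := (hM0 _ _ h7).1
        rw [hη, hV] at h8
        have h9 : x c * z.1 = 0 := by linear_combination h8
        exact (mul_eq_zero.1 h9).resolve_right z.2
    · obtain ⟨y1, hy1⟩ := hy hη
      have sq : ∀ z : F, fr (-1 : ZMod h) z ^ 2 = z := by
        intro z
        rw [← fr_one (h := h), fr_neg]
      have hz : ∀ z : F, z ≠ 0 → η ^ 2 * z ^ 5 + y1 ^ 2 * z + ε⁻¹ = 0 := by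
        intro z hz
        have h6 := hcc (V z)
        obtain ⟨a1, a2⟩ := hM0 _ _ h6
        have hc0 := hcc0 (V z)
        generalize cc (V z) = c at *
        rw [hV] at a1 a2
        have hf := hfc c hc0
        have a3 : x c = η * fr (-1 : ZMod h) c * z := by
          have : (x c + η * fr (-1 : ZMod h) c * z) * z = 0 := by linear_combination a1
          have h7 := (mul_eq_zero.1 this).resolve_right hz
          linear_combination h7 - (η * fr (-1 : ZMod h) c * z) * h2
        rw [a3, hy1] at a2
        have h7 : fr (-1 : ZMod h) (c * z * ε⁻¹) =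
          y1 * fr (-1 : ZMod h) c * z + η * fr (-1 : ZMod h) c * z * z ^ 2 := by
          linear_combination a2 - (y1 * fr (-1 : ZMod h) c * z +
            η * fr (-1 : ZMod h) c * z * z ^ 2) * h2
        have h8 := sq (c * z * ε⁻¹)
        rw [h7] at h8
        have h9 : (c * z) * (η ^ 2 * z ^ 5 + y1 ^ 2 * z + ε⁻¹) = 0 := by
          have h10 := sq c
          have h11 : (y1 * fr (-1 : ZMod h) c * z + η * fr (-1 : ZMod h) c * z * z ^ 2) ^ 2 =
              c * (y1 ^ 2 * z ^ 2 + η ^ 2 * z ^ 6) := by
            linear_combination (y1 * z + η * z * z ^ 2) ^ 2 * h10 + (y1 * η * z ^ 4 * c) * h2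
          rw [h11] at h8
          linear_combination h8 + (c * z * ε⁻¹) * h2
        exact (mul_eq_zero.1 h9).resolve_left (mul_ne_zero hc0 hz)
      let p : Polynomial F := Polynomial.C (η ^ 2) * Polynomial.X ^ 5 +
        Polynomial.C (y1 ^ 2) * Polynomial.X + Polynomial.C ε⁻¹
      have hp : p = 0 := by
        apply Polynomial.eq_zero_of_natDegree_lt_card_of_eval_eq_zero' p t
        · intro z hz'
          have hz0 : z ≠ 0 := by simpa [ht] using hz'
          simp only [p, Polynomial.eval_add, Polynomial.eval_mul, Polynomial.eval_C,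
            Polynomial.eval_pow, Polynomial.eval_X]
          exact hz z hz0
        · have h6 : p.natDegree ≤ 5 := by
            simp only [p]
            compute_degree
          have h7 : 16 ≤ q := by
            rw [hqh]
            calc 16 = 2 ^ 4 := by norm_num
              _ ≤ 2 ^ h := Nat.pow_le_pow_right (by norm_num) h4
          omega
      have h6 : p.eval 0 = ε⁻¹ := by
        simp [p]
      rw [hp, Polynomial.eval_zero] at h6
      exact inv_ne_zero hε0 h6.symm
  · -- 2 K = q ^ 2
    obtain ⟨v, hv⟩ := hQ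
    have h6 : 2 * K = q * q := by
      rw [hKm, hqh, ← pow_add, ← two_mul, ← h5, pow_succ]
      ring
    have h7 := hker v hv
    rw [h6] at h7
    have h8 : (univ.filter fun u : F × F => S.D v u = 0) = univ := by
      apply Finset.eq_univ_of_card
      apply le_antisymm (Finset.card_le_univ _)
      rw [Fintype.card_prod, ← hq]
      exact h7
    have h9 : ∀ u, S.D v u = 0 := by
      intro u
      have : u ∈ (univ.filter fun u : F × F => S.D v u = 0) := by rw [h8]; exact Finset.mem_univ _
      simpa using this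
    obtain ⟨c, hc⟩ := hx (η * Q v)
    apply hc
    have h10 : S.M c v = 0 := by
      rw [hMD]
      intro g
      rw [h9, mul_zero, tr_zero]
    have h11 := (hM0 c v h10).1
    have h12 : (x c + η * Q v * fr (-1 : ZMod h) c) * Q v = 0 := by linear_combination h11
    have h13 := (mul_eq_zero.1 h12).resolve_right hv
    linear_combination h13 - (η * Q v * fr (-1 : ZMod h) c) * h2
  · -- K = q ^ 2
    obtain ⟨v, hv⟩ := hQ
    have h6 : K = q * q := by
      rw [hKm, hqh, ← pow_add, ← two_mul, h5]
    have h7 : s.card = 0 := by omega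
    rw [Finset.card_eq_zero] at h7
    have h8 : v ∈ s := by simp [hs, hv]
    rw [h7] at h8
    simp at h8

end Pool.Agent.H51.QOV
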