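import Pool.Agent.H51.QOV.CI3
import Pool.Agent.H51.QOV.CIB
import Pool.Agent.H51.QOV.CI2

set_option autoImplicit false

namespace Pool.Agent.H51.QOV

theorem CI_proof (F : Type) [Field F] [Fintype F] [CharP F 2] (h : ℕ) [NeZero h] [QF F h] :
    CIStmt F h := by
  intro S a ha0 ha1 ha2
  by_contra hrk
  obtain ⟨Q, e, e', x, y, η, hε0, hM, hQ, hx, hy⟩ := CI3
    (fun Q hind e e' ε hε hε0 ma n x y y' x1 y1 y1' hma hn he2 =>
      CI2 Q hind e e' ε hε hε0 ma n x y y' x1 y1 y1' hma hn he2) S a ha0 ha1 ha2 hrk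
  exact CIB S Q e e' x y η (om e e') rfl hε0 hM hQ hx hy

end Pool.Agent.H51.QOV
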