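import Pool.Agent.H51.QOV.LT

set_option autoImplicit false
set_option linter.unusedSectionVars false

/-!
# Case II (board qov, module CII)

`q(M_c) = c q(m_{-1})`, so a zero of `M_c` is a zero of `m_{-1}`, and (P1) gives `m_{-1} = 0`.
-/

namespace Pool.Agent.H51.QOV

namespace CIIaux

open Finset LTaux

variable {F : Type} [Field F] [Fintype F] [CharP F 2] {h : ℕ} [NeZero h]

theorem om_sum_l {ι : Type} (s : Finset ι) (f : ι → F × F) (v : F × F) :
    om (∑ i ∈ s, f i) v = ∑ i ∈ s, om (f i) v := by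
  classical
  induction s using Finset.induction_on with
  | empty => simp [om]
  | insert a s ha ih => rw [Finset.sum_insert ha, Finset.sum_insert ha, om_add_l, ih]

theorem om_sum_r {ι : Type} (s : Finset ι) (f : ι → F × F) (v : F × F) :
    om v (∑ i ∈ s, f i) = ∑ i ∈ s, om v (f i) := by
  rw [om_comm', om_sum_l]
  exact Finset.sum_congr rfl fun i _ => om_comm' _ _

/-- a double sum whose off-diagonal part is antisymmetric. -/
theorem dsum {ι : Type} [Fintype ι] [DecidableEq ι] (f : ι → ι → F)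
    (hf : ∀ a b, a ≠ b → f a b + f b a = 0) : ∑ a, ∑ b, f a b = ∑ a, f a a := by
  have h1 : ∑ a, ∑ b, f a b = ∑ p : ι × ι, f p.1 p.2 := (Fintype.sum_prod_type' f).symm
  rw [h1]
  have h2 : ∑ p ∈ (univ : Finset ι).offDiag, f p.1 p.2 = 0 := by
    refine Finset.sum_involution (fun p _ => (p.2, p.1)) ?_ ?_ ?_ ?_
    · intro p hp
      exact hf _ _ (Finset.mem_offDiag.1 hp).2.2
    · intro p hp _ he
      exact (Finset.mem_offDiag.1 hp).2.2 (congrArg Prod.snd he)
    · intro p hp
      have := Finset.mem_offDiag.1 hp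
      exact Finset.mem_offDiag.2 ⟨this.2.1, this.1, fun hh => this.2.2 hh.symm⟩
    · intro p hp; rfl
  have h3 : (univ : Finset (ι × ι)) = (univ : Finset ι).diag ∪ (univ : Finset ι).offDiag := by
    rw [Finset.diag_union_offDiag]; rfl
  rw [h3, Finset.sum_union (Finset.disjoint_diag_offDiag _), h2, add_zero, Finset.sum_diag]

variable [QF F h]

variable (F h) in
include F in
theorem one_ne_zero_z : (1 : ZMod h) ≠ 0 := by
  have h4 := QF.four (F := F) (h := h)
  haveI : Fact (1 < h) := ⟨by omega⟩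
  exact one_ne_zero

variable (F h) in
include F in
theorem one_ne_neg_z : (1 : ZMod h) ≠ -1 := by
  have h4 := QF.four (F := F) (h := h)
  intro hh
  have h1 : ((2 : ℕ) : ZMod h) = 0 := by
    push_cast
    linear_combination hh
  rw [ZMod.natCast_eq_zero_iff] at h1
  have := Nat.le_of_dvd (by norm_num) h1
  omega

/-- J-lemma: if `m_r` has rank 2 then `m_{-r} = 0`. -/
theorem jl (S : Sys F h) {r : ZMod h} (hr : r ≠ 0) (hq : ¬ Rk1 (S.m r)) : S.m (-r) = 0 := by
  unfold Rk1 at hq
  push Not at hq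
  obtain ⟨u, u', huu⟩ := hq
  have z1 : ∀ x y : F × F, om (S.m r x) (S.m r y) ≠ 0 → S.m (-r) x = 0 := by
    intro x y hxy
    apply om_nondeg (h := h)
    intro w
    have h1 := S.j1 r hr w (S.m r x) x y
    rw [om_self', mul_zero] at h1
    have h2 : fr r (om w (S.m (-r) x)) = 0 := (mul_eq_zero.1 h1).resolve_right hxy
    rw [(fr_eq_zero r).1 h2, tr_zero]
  have h3 : S.m (-r) u = 0 := z1 u u' huu
  ext v : 1
  rw [AddMonoidHom.zero_apply]
  apply om_nondeg (h := h)
  intro w
  have h1 := S.j1 r hr w (S.m r u') v u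
  rw [h3, om_zero_r, map_zero, zero_mul] at h1
  have h4 : om (S.m r u') (S.m r u) ≠ 0 := by rw [om_comm']; exact huu
  have h2 : fr r (om w (S.m (-r) v)) = 0 := (mul_eq_zero.1 h1).resolve_right h4
  rw [(fr_eq_zero r).1 h2, tr_zero]

end CIIaux

variable {F : Type} [Field F] [Fintype F] [CharP F 2] {h : ℕ} [NeZero h] [QF F h]

open LTaux CIIaux Finset in
/-- Case II. -/
theorem c2_main : CIIStmt F h := by
  classical
  intro S hS
  by_contra hq
  have h1 : S.m 1 = 0 := by
    have hne : (-1 : ZMod h) ≠ 0 := neg_ne_zero.2 (one_ne_zero_z F h)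
    have := jl S hne hq
    rwa [neg_neg] at this
  have hr1 : ∀ a : ZMod h, a ≠ -1 → Rk1 (S.m a) := by
    intro a ha
    by_cases h0 : a = 0
    · subst h0; intro u v; rw [S.m0]; simp [om]
    by_cases h2 : a = 1
    · subst h2; intro u v; rw [h1]; simp [om]
    exact hS a h0 h2 ha
  have hn : ∀ a : ZMod h, a ≠ -1 → ∀ u v,
      om (S.m a u) (S.m (-1) v) + om (S.m (-1) u) (S.m a v) = 0 := by
    intro a ha u v
    by_cases h0 : a = 0
    · subst h0; rw [S.m0]; simp [om]
    have h2 := S.e2 a h0 ha u v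
    rw [hr1 a ha] at h2
    exact pow_eq_zero_iff (two_ne_zero) |>.1 h2.symm
  have hab : ∀ a b : ZMod h, a ≠ b → ∀ u v,
      om (S.m a u) (S.m b v) + om (S.m b u) (S.m a v) = 0 := by
    intro a b hab u v
    by_cases ha : a = -1
    · subst ha
      have := hn b (fun hh => hab hh.symm) u v
      rw [add_comm]; exact this
    by_cases hb : b = -1
    · subst hb; exact hn a ha u v
    by_cases ha0 : a = 0
    · subst ha0; rw [S.m0]; simp [om]
    by_cases hb0 : b = 0
    · subst hb0; rw [S.m0]; simp [om]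
    by_cases ha1 : a = 1
    · subst ha1; rw [h1]; simp [om]
    by_cases hb1 : b = 1
    · subst hb1; rw [h1]; simp [om]
    exact S.e1 a b hab ha0 ha1 ha hb0 hb1 hb u v
  have hM : ∀ c u v, om (S.M c u) (S.M c v) = c * om (S.m (-1) u) (S.m (-1) v) := by
    intro c u v
    rw [S.hm, S.hm, om_sum_l]
    have e1 : ∀ a : ZMod h, om ((fr a c : F) • S.m a u) (∑ b, (fr b c : F) • S.m b v) =
        ∑ b : ZMod h, fr a c * fr b c * om (S.m a u) (S.m b v) := by
      intro a
      rw [om_sum_r]
      refine Finset.sum_congr rfl fun b _ => ?_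
      rw [om_smul_l, om_smul_r]; ring
    rw [Finset.sum_congr rfl fun a _ => e1 a, dsum]
    · rw [Finset.sum_eq_single (-1 : ZMod h)]
      · have e2 : fr (-1 : ZMod h) c * fr (-1 : ZMod h) c = c := by
          rw [← map_mul, ← sq, ← fr_one (h := h), fr_neg']
        rw [e2]
      · intro b _ hb
        rw [hr1 b hb, mul_zero]
      · intro hh; exact absurd (Finset.mem_univ _) hh
    · intro a b hne
      have := hab a b hne u v
      have e3 : fr a c * fr b c * om (S.m a u) (S.m b v) +
          fr b c * fr a c * om (S.m b u) (S.m a v) =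
          fr a c * fr b c * (om (S.m a u) (S.m b v) + om (S.m b u) (S.m a v)) := by ring
      rw [e3, this, mul_zero]
  apply hq
  intro u v
  obtain ⟨c, hc, hcv⟩ := S.p1 v
  have h2 := hM c u v
  rw [hcv, om_zero_r] at h2
  exact (mul_eq_zero.1 h2.symm).resolve_left hc

end Pool.Agent.H51.QOV
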