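import Pool.Agent.H51.QOV.CII

set_option autoImplicit false
set_option linter.unusedSectionVars false

/-!
# Case III (board qov, module CIII)
-/

namespace Pool.Agent.H51.QOV

namespace CIIIaux

open Finset LTaux CIIaux

variable {F : Type} [Field F] [Fintype F] [CharP F 2]

/-- rank one lemma. -/
theorem rank_one (m : F × F →+ F × F) (hm : Rk1 m) :
    ∃ (p : F × F →+ F) (θ : F × F), θ ≠ 0 ∧ ∀ v, m v = p v • θ := by
  by_cases h0 : ∀ v, m v = 0
  · exact ⟨0, (1, 0), by simp, fun v => by rw [h0]; simp⟩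
  push Not at h0
  obtain ⟨v0, hv0⟩ := h0
  by_cases h1 : (m v0).1 = 0
  · have h2 : (m v0).2 ≠ 0 := fun h2 => hv0 (Prod.ext h1 h2)
    refine ⟨{ toFun := fun v => (m v).2 / (m v0).2
              map_zero' := by simp
              map_add' := by intro x y; rw [map_add, Prod.snd_add, add_div] }, m v0, hv0,
      fun v => ?_⟩
    obtain ⟨x, hx⟩ := par hv0 (hm v v0)
    change m v = ((m v).2 / (m v0).2) • m v0
    rw [hx, Prod.smul_snd, smul_eq_mul, mul_div_assoc, div_self h2, mul_one]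
  · refine ⟨{ toFun := fun v => (m v).1 / (m v0).1
              map_zero' := by simp
              map_add' := by intro x y; rw [map_add, Prod.fst_add, add_div] }, m v0, hv0,
      fun v => ?_⟩
    obtain ⟨x, hx⟩ := par hv0 (hm v v0)
    change m v = ((m v).1 / (m v0).1) • m v0
    rw [hx, Prod.smul_fst, smul_eq_mul, mul_div_assoc, div_self h1, mul_one]

/-- W1. -/
theorem w1 {G : Type} {A B : G → F} (hA : ∃ u, A u ≠ 0)
    (hAB : ∀ u v, A u * B v + A v * B u = 0) : ∃ l : F, ∀ v, B v = l * A v := by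
  obtain ⟨u, hu⟩ := hA
  refine ⟨B u / A u, fun v => ?_⟩
  have h1 := hAB u v
  have h2 := CharTwo.add_self_eq_zero (A v * B u)
  field_simp
  linear_combination h1 - h2

/-- two rank one maps with zero bracket and different directions have proportional factors. -/
theorem prop_of {p p' : F × F →+ F} {θ θ' : F × F} (hθ : om θ θ' ≠ 0) (hp : ∃ u, p u ≠ 0)
    (hb : ∀ u v, om (p u • θ) (p' v • θ') + om (p' u • θ') (p v • θ) = 0) :
    ∃ l : F, ∀ v, p' v = l * p v := by
  refine w1 hp fun u v => ?_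
  have h1 := hb u v
  rw [om_smul_l, om_smul_r, om_smul_l, om_smul_r, om_comm' θ' θ] at h1
  have h2 : om θ θ' * (p u * p' v + p v * p' u) = 0 := by linear_combination h1
  exact (mul_eq_zero.1 h2).resolve_left hθ

/-- three vectors in the plane. -/
theorem third {a b c : F × F} (hab : om a b ≠ 0) (hc : c ≠ 0) : om a c ≠ 0 ∨ om b c ≠ 0 := by
  by_contra hh
  push Not at hh
  obtain ⟨x, hx⟩ := par hc hh.1
  obtain ⟨y, hy⟩ := par hc hh.2
  apply hab
  rw [hx, hy, om_smul_l, om_smul_r, om_self']; simp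

end CIIIaux

variable {F : Type} [Field F] [Fintype F] [CharP F 2] {h : ℕ} [NeZero h] [QF F h]

open LTaux CIIaux CIIIaux Finset in
/-- Case III. -/
theorem c3_main (hLT : LTStmt F h) : CIIIStmt F h := by
  classical
  intro S hS
  have ne1 : (1 : ZMod h) ≠ 0 := one_ne_zero_z F h
  have ne2 : (1 : ZMod h) ≠ -1 := one_ne_neg_z F h
  -- brackets vanish
  have hn : ∀ a : ZMod h, a ≠ 0 → a ≠ 1 → a ≠ -1 → ∀ u v,
      om (S.m a u) (S.m (-1) v) + om (S.m (-1) u) (S.m a v) = 0 := by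
    intro a h0 h1 ha u v
    have h2 := S.e2 a h0 ha u v
    rw [hS a h0 h1] at h2
    exact pow_eq_zero_iff (two_ne_zero) |>.1 h2.symm
  have hab : ∀ a b : ZMod h, a ≠ b → a ≠ 0 → a ≠ 1 → b ≠ 0 → b ≠ 1 → ∀ u v,
      om (S.m a u) (S.m b v) + om (S.m b u) (S.m a v) = 0 := by
    intro a b hab ha0 ha1 hb0 hb1 u v
    by_cases ha : a = -1
    · subst ha
      have := hn b hb0 hb1 (fun hh => hab hh.symm) u v
      rw [add_comm]; exact this
    by_cases hb : b = -1
    · subst hb; exact hn a ha0 ha1 ha u v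
    exact S.e1 a b hab ha0 ha1 ha hb0 hb1 hb u v
  -- part (a): one line
  have partA : ∀ θ : F × F, θ ≠ 0 → (∀ a : ZMod h, a ≠ 0 → a ≠ 1 → ∀ v, om θ (S.m a v) = 0) →
      S.Concl := by
    intro θ hθ hall
    have e1 : ∀ c v, om θ (S.M c v) = fr (1 : ZMod h) c * om θ (S.m 1 v) := by
      intro c v
      rw [S.hm, om_sum_r, Finset.sum_eq_single (1 : ZMod h)]
      · rw [om_smul_r]
      · intro b _ hb
        rw [om_smul_r]
        by_cases hb0 : b = 0
        · subst hb0; rw [S.m0]; simp [om]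
        rw [hall b hb0 hb, mul_zero]
      · intro hh; exact absurd (Finset.mem_univ _) hh
    have e2 : ∀ v, om θ (S.m 1 v) = 0 := by
      intro v
      obtain ⟨c, hc, hcv⟩ := S.p1 v
      have h1 := e1 c v
      rw [hcv, om_zero_r] at h1
      refine (mul_eq_zero.1 h1.symm).resolve_left ?_
      exact fun hh => hc ((fr_eq_zero _).1 hh)
    refine ⟨θ, hθ, fun c v => par hθ ?_⟩
    rw [om_comm', e1, e2, mul_zero]
  by_cases hz : ∀ a : ZMod h, a ≠ 0 → a ≠ 1 → ∀ v, S.m a v = 0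
  · exact partA (1, 0) (by simp) fun a h0 h1 v => by rw [hz a h0 h1, om_zero_r]
  push Not at hz
  obtain ⟨a, ha0, ha1, v0, hv0⟩ := hz
  obtain ⟨Q, θ, hθ, hQ⟩ := rank_one (S.m a) (hS a ha0 ha1)
  by_cases hline : ∀ b : ZMod h, b ≠ 0 → b ≠ 1 → ∀ v, om θ (S.m b v) = 0
  · exact partA θ hθ hline
  push Not at hline
  obtain ⟨b, hb0, hb1, v1, hv1⟩ := hline
  obtain ⟨p, θb, hθb, hp⟩ := rank_one (S.m b) (hS b hb0 hb1)
  have hQ0 : ∃ u, Q u ≠ 0 := by
    refine ⟨v0, fun hh => hv0 ?_⟩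
    rw [hQ, hh, zero_smul]
  have hpv : p v1 ≠ 0 := by
    intro hh; apply hv1; rw [hp, hh, zero_smul, om_zero_r]
  have hθθ : om θ θb ≠ 0 := by
    intro hh; apply hv1; rw [hp, om_smul_r, hh, mul_zero]
  have hne : a ≠ b := by
    rintro rfl
    apply hv1
    rw [hQ, om_smul_r, om_self', mul_zero]
  obtain ⟨l, hl⟩ := prop_of hθθ hQ0 (p' := p) fun u v => by
    rw [← hQ, ← hQ, ← hp, ← hp]; exact hab a b hne ha0 ha1 hb0 hb1 u v
  have hl0 : l ≠ 0 := by
    intro hh; apply hpv; rw [hl, hh, zero_mul]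
  -- all factors are multiples of Q
  have hall : ∀ c : ZMod h, c ≠ 1 → ∃ ϑ : F × F, ∀ v, S.m c v = Q v • ϑ := by
    intro c hc1
    by_cases hc0 : c = 0
    · subst hc0; exact ⟨0, fun v => by rw [S.m0]; simp⟩
    obtain ⟨pc, θc, hθc, hpc⟩ := rank_one (S.m c) (hS c hc0 hc1)
    by_cases hca : c = a
    · subst hca; exact ⟨θ, hQ⟩
    by_cases hcb : c = b
    · subst hcb
      refine ⟨l • θb, fun v => ?_⟩
      rw [hp, hl, smul_smul, mul_comm]
    rcases third hθθ hθc with h1 | h1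
    · obtain ⟨k, hk⟩ := prop_of h1 hQ0 (p' := pc) fun u v => by
        rw [← hQ, ← hQ, ← hpc, ← hpc]
        exact hab a c (fun hh => hca hh.symm) ha0 ha1 hc0 hc1 u v
      refine ⟨k • θc, fun v => ?_⟩
      rw [hpc, hk, smul_smul, mul_comm]
    · obtain ⟨k, hk⟩ := prop_of h1 ⟨v1, hpv⟩ (p' := pc) fun u v => by
        rw [← hp, ← hp, ← hpc, ← hpc]
        exact hab b c (fun hh => hcb hh.symm) hb0 hb1 hc0 hc1 u v
      refine ⟨(k * l) • θc, fun v => ?_⟩
      rw [hpc, hk, hl, smul_smul]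
      congr 1; ring
  -- m_1 has rank one
  have hr1 : Rk1 (S.m 1) := by
    by_contra hq
    have h1 := jl S ne1 hq
    apply hq
    intro u v
    rw [S.e2 1 ne1 ne2, h1]
    simp [om]
  obtain ⟨R, θ', _, hR⟩ := rank_one (S.m 1) hr1
  have hex : ∀ c : ZMod h, ∃ ϑ : F × F, c ≠ 1 → ∀ v, S.m c v = Q v • ϑ := by
    intro c
    by_cases hc : c = 1
    · exact ⟨0, fun hh => absurd hc hh⟩
    · obtain ⟨ϑ, h1⟩ := hall c hc
      exact ⟨ϑ, fun _ => h1⟩
  choose ϑ hϑ using hex
  refine hLT S Q R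
    { toFun := fun c => ∑ a ∈ univ.erase (1 : ZMod h), (fr a c : F) • ϑ a
      map_zero' := by simp
      map_add' := by
        intro x y
        rw [← Finset.sum_add_distrib]
        exact Finset.sum_congr rfl fun a _ => by rw [map_add, add_smul] } θ' ?_
  intro c v
  change S.M c v = Q v • (∑ a ∈ univ.erase (1 : ZMod h), (fr a c : F) • ϑ a) + (c ^ 2 * R v) • θ'
  rw [S.hm, ← Finset.add_sum_erase univ _ (Finset.mem_univ (1 : ZMod h)), hR, fr_one, add_comm,
    Finset.smul_sum, smul_smul]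
  congr 1
  refine Finset.sum_congr rfl fun a ha => ?_
  rw [hϑ a (Finset.ne_of_mem_erase ha), smul_comm]

end Pool.Agent.H51.QOV
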