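import Pool.Agent.H51.QOV.Stmt

/-!
# Coefficient extraction

`EREL_proof`: the relations (E1), (E2), (E3) between the coefficients, from the coefficients of the
trace identity at the exponents `2 ^ a₀ + 2 ^ b₀ - 1`.
-/

set_option autoImplicit false
set_option linter.unusedSectionVars false

namespace Pool.Agent.H51.QOV

open Finset

section nf

variable {h : ℕ} [NeZero h]

/-- The binary normal form of a sum of three powers of two. -/
def nf3 (i j l : ZMod h) : Finset (ZMod h) :=
  if i = j then (if l = i then {i, i + 1} else if l = i + 1 then {i + 2} else {i + 1, l})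
  else if i = l then (if j = i + 1 then {i + 2} else {i + 1, j})
  else if j = l then (if i = j + 1 then {j + 2} else {j + 1, i})
  else {i, j, l}

theorem nf3_card (i j l : ZMod h) : (nf3 i j l).card ≤ 3 := by
  unfold nf3
  split_ifs
  · exact (Finset.card_le_two).trans (by norm_num)
  · simp
  · exact (Finset.card_le_two).trans (by norm_num)
  · simp
  · exact (Finset.card_le_two).trans (by norm_num)
  · simp
  · exact (Finset.card_le_two).trans (by norm_num)
  · exact Finset.card_le_three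

theorem nf3_sum (h1 : (1 : ZMod h) ≠ 0) (i j l : ZMod h) :
    ∑ a ∈ nf3 i j l, P a = P i + P j + P l := by
  have hs : ∀ a : ZMod h, a ≠ a + 1 := fun a ha => h1 (by linear_combination -ha)
  have h2 : ∀ a : ZMod h, P (a + 1) + P (a + 1) = P (a + 2) := fun a => by
    rw [P_succ]
    congr 1
    ring
  unfold nf3
  split_ifs with e1 e2 e3 e4 e5 e6 e7
  · subst e1
    subst e2
    rw [Finset.sum_pair (hs _), ← P_succ]
    ring
  · subst e1
    subst e3
    rw [Finset.sum_singleton, ← h2, ← P_succ]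
  · subst e1
    rw [Finset.sum_pair (fun hh => e3 hh.symm), ← P_succ]
  · subst e4
    subst e5
    rw [Finset.sum_singleton, ← h2, ← P_succ]
    ring
  · subst e4
    rw [Finset.sum_pair (fun hh => e5 hh.symm), ← P_succ]
    ring
  · subst e6
    subst e7
    rw [Finset.sum_singleton, ← h2, ← P_succ]
    ring
  · subst e6
    rw [Finset.sum_pair (fun hh => e7 hh.symm), ← P_succ]
    ring
  · rw [Finset.sum_insert (by simp [e1, e4]), Finset.sum_pair e6]
    ring

end nf

variable {F : Type} [Field F] [Fintype F] [CharP F 2] {h : ℕ} [NeZero h]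

theorem one_ne [QF F h] : (1 : ZMod h) ≠ 0 := by
  have h4 := QF.four (F := F) (h := h)
  have : Fact (1 < h) := ⟨by omega⟩
  exact one_ne_zero

theorem two_ne [QF F h] : (2 : ZMod h) ≠ 0 := by
  have h4 := QF.four (F := F) (h := h)
  intro h0
  have h1 : ((2 : ℕ) : ZMod h) = 0 := by exact_mod_cast h0
  rw [ZMod.natCast_eq_zero_iff] at h1
  have := Nat.le_of_dvd (by norm_num) h1
  omega

theorem nf3_eq [QF F h] {i j l i' j' l' : ZMod h} (he : P i + P j + P l = P i' + P j' + P l') :
    nf3 i j l = nf3 i' j' l' :=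
  P_sum_inj (ne_univ_of_card (F := F) (nf3_card i j l))
    (ne_univ_of_card (F := F) (nf3_card i' j' l'))
    (by rw [nf3_sum (one_ne (F := F)), nf3_sum (one_ne (F := F)), he])

open Classical in
/-- The coefficient of the trace identity. -/
theorem ext_coef [QF F h] {T : ZMod h → ZMod h → F}
    (hc : ∀ c : F, c ≠ 0 → tr h (c⁻¹ * ∑ a, ∑ b, fr a c * fr b c * T a b) = 0) (a₀ b₀ : ZMod h) :
    ∑ t : ZMod h × ZMod h × ZMod h,
      (if P (t.2.1 + t.1) + P (t.2.2 + t.1) + P 0 = P t.1 + P a₀ + P b₀ then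
        fr t.1 (T t.2.1 t.2.2) else 0) = 0 := by
  have h1 : ∀ c : F, ∑ t : ZMod h × ZMod h × ZMod h,
      fr t.1 (T t.2.1 t.2.2) * ((([t.2.1 + t.1, t.2.2 + t.1, 0] : List (ZMod h)).map
        fun a => fr a c).prod * ((([t.1, a₀, b₀] : List (ZMod h)).map fun a => fr a c).prod)⁻¹) =
      0 := by
    intro c
    by_cases h0 : c = 0
    · refine Finset.sum_eq_zero fun t _ => ?_
      rw [h0]
      simp
    have h2 := hc c h0
    unfold tr at h2
    have h3 : ∑ t : ZMod h × ZMod h × ZMod h, fr t.1 (T t.2.1 t.2.2) *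
        ((([t.2.1 + t.1, t.2.2 + t.1, 0] : List (ZMod h)).map
        fun a => fr a c).prod * ((([t.1, a₀, b₀] : List (ZMod h)).map fun a => fr a c).prod)⁻¹) =
        (∑ k : ZMod h, fr k (c⁻¹ * ∑ a, ∑ b, fr a c * fr b c * T a b)) *
          (c * (fr a₀ c * fr b₀ c)⁻¹) := by
      rw [Fintype.sum_prod_type, Finset.sum_mul]
      refine Finset.sum_congr rfl fun k _ => ?_
      rw [map_mul, map_sum, map_inv₀, Fintype.sum_prod_type, Finset.mul_sum, Finset.sum_mul]
      refine Finset.sum_congr rfl fun a _ => ?_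
      rw [map_sum, Finset.mul_sum, Finset.sum_mul]
      refine Finset.sum_congr rfl fun b _ => ?_
      simp only [List.map_cons, List.map_nil, List.prod_cons, List.prod_nil, mul_one, fr_zero,
        map_mul, mul_inv, ← fr_add, add_comm k]
      ring
    rw [h3, h2, zero_mul]
  have h2 : ∑ c : F, ∑ t : ZMod h × ZMod h × ZMod h,
      fr t.1 (T t.2.1 t.2.2) * ((([t.2.1 + t.1, t.2.2 + t.1, 0] : List (ZMod h)).map
        fun a => fr a c).prod * ((([t.1, a₀, b₀] : List (ZMod h)).map fun a => fr a c).prod)⁻¹) =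
      0 := Finset.sum_eq_zero fun c _ => h1 c
  rw [Finset.sum_comm] at h2
  refine Eq.trans (Finset.sum_congr rfl fun t _ => ?_) h2
  rw [← Finset.mul_sum, orthL _ _ (by simp) (by simp)]
  simp only [List.map_cons, List.map_nil, List.sum_cons, List.sum_nil, add_zero, ← add_assoc]
  split_ifs <;> simp

/-- Equality of two finite sets, element by element. -/
theorem sub_of {S T : Finset (ZMod h)} (he : S = T) : (∀ x ∈ S, x ∈ T) ∧ ∀ x ∈ T, x ∈ S := by
  subst he
  exact ⟨fun _ hx => hx, fun _ hx => hx⟩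

/-- (E1), the indices. -/
theorem idx1 [QF F h] {a₀ b₀ k a b : ZMod h} (h0 : a₀ ≠ b₀) (h1 : a₀ ≠ 0) (h2 : a₀ ≠ 1)
    (h3 : a₀ ≠ -1) (h4 : b₀ ≠ 0) (h5 : b₀ ≠ 1) (h6 : b₀ ≠ -1) (ha : a ≠ 0) (hb : b ≠ 0)
    (he : P (a + k) + P (b + k) + P 0 = P k + P a₀ + P b₀) :
    k = 0 ∧ (a = a₀ ∧ b = b₀ ∨ a = b₀ ∧ b = a₀) := by
  have h01 : (1 : ZMod h) ≠ 0 := one_ne (F := F)
  have h02 : (2 : ZMod h) ≠ 0 := two_ne (F := F)
  have hn := sub_of (nf3_eq (F := F) he)
  unfold nf3 at hn
  split_ifs at hn <;>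
    simp only [Finset.mem_insert, Finset.mem_singleton, forall_eq_or_imp, forall_eq] at hn <;>
    grind

/-- (E2), the indices. -/
theorem idx2 [QF F h] {a₀ k a b : ZMod h} (h1 : a₀ ≠ 0) (h3 : a₀ ≠ -1) (ha : a ≠ 0) (_hb : b ≠ 0)
    (he : P (a + k) + P (b + k) + P 0 = P k + P a₀ + P a₀) :
    (k = 0 ∧ a = a₀ ∧ b = a₀) ∨ (k = 1 ∧ (a = a₀ ∧ b = -1 ∨ a = -1 ∧ b = a₀)) := by
  have h01 : (1 : ZMod h) ≠ 0 := one_ne (F := F)
  have h02 : (2 : ZMod h) ≠ 0 := two_ne (F := F)
  have hn := sub_of (nf3_eq (F := F) he)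
  unfold nf3 at hn
  split_ifs at hn <;>
    simp only [Finset.mem_insert, Finset.mem_singleton, forall_eq_or_imp, forall_eq] at hn <;>
    grind

/-- (E3), the indices. -/
theorem idx3 [QF F h] {b₀ k a b : ZMod h} (h4 : b₀ ≠ 0) (h5 : b₀ ≠ 1) (h6 : b₀ ≠ -1) (ha : a ≠ 0)
    (_hb : b ≠ 0) (he : P (a + k) + P (b + k) + P 0 = P k + P 1 + P b₀) :
    (k = 0 ∧ (a = 1 ∧ b = b₀ ∨ a = b₀ ∧ b = 1)) ∨
      (k = b₀ ∧ (a = 1 ∧ b = -b₀ ∨ a = -b₀ ∧ b = 1)) := by
  have h01 : (1 : ZMod h) ≠ 0 := one_ne (F := F)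
  have h02 : (2 : ZMod h) ≠ 0 := two_ne (F := F)
  have hn := sub_of (nf3_eq (F := F) he)
  unfold nf3 at hn
  split_ifs at hn <;>
    simp only [Finset.mem_insert, Finset.mem_singleton, forall_eq_or_imp, forall_eq] at hn <;>
    grind

/-- A sum supported on a set of indices which satisfy the condition. -/
theorem sum_supp {α : Type} [Fintype α] [DecidableEq α] {p : α → Prop} [DecidablePred p]
    {G : α → F} (s : Finset α) (hs : ∀ t ∈ s, p t) (hG : ∀ t, p t → G t ≠ 0 → t ∈ s) :
    ∑ t, (if p t then G t else 0) = ∑ t ∈ s, G t := by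
  rw [← Finset.sum_subset (Finset.subset_univ s)]
  · exact Finset.sum_congr rfl fun t ht => if_pos (hs t ht)
  · intro t _ ht
    by_cases h1 : p t
    · rw [if_pos h1]
      by_contra h2
      exact ht (hG t h1 h2)
    · exact if_neg h1

theorem EREL_proof (F : Type) [Field F] [Fintype F] [CharP F 2] (h : ℕ) [NeZero h] [QF F h] :
    ERelStmt F h := by
  classical
  intro T hT0 hT1 hc
  have h01 : (1 : ZMod h) ≠ 0 := one_ne (F := F)
  have hch : ∀ x y : F, x + y = 0 → x = y := fun x y hxy => by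
    have := CharTwo.add_self_eq_zero y
    linear_combination hxy - this
  have hne : ∀ (k a b : ZMod h), fr k (T a b) ≠ 0 → a ≠ 0 ∧ b ≠ 0 := by
    intro k a b hk
    constructor
    · rintro rfl
      rw [hT0, map_zero] at hk
      exact hk rfl
    · rintro rfl
      rw [hT1, map_zero] at hk
      exact hk rfl
  refine ⟨?_, ?_, ?_⟩
  · intro a₀ b₀ h0 h1 h2 h3 h4 h5 h6
    have he := ext_coef hc a₀ b₀
    rw [sum_supp {((0 : ZMod h), a₀, b₀), (0, b₀, a₀)}, Finset.sum_pair] at he
    · simpa using he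
    · intro hh
      exact h0 (Prod.ext_iff.1 (Prod.ext_iff.1 hh).2).1
    · intro t ht
      rcases Finset.mem_insert.1 ht with rfl | ht
      · simp only [add_zero]
        ring
      · rw [Finset.mem_singleton.1 ht]
        simp only [add_zero]
        ring
    · rintro ⟨k, a, b⟩ ht hk
      obtain ⟨ha, hb⟩ := hne _ _ _ hk
      obtain ⟨rfl, ⟨rfl, rfl⟩ | ⟨rfl, rfl⟩⟩ := idx1 (F := F) h0 h1 h2 h3 h4 h5 h6 ha hb ht
      · simp
      · simp
  · intro a₀ h1 h3
    have he := ext_coef hc a₀ a₀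
    rw [sum_supp {((0 : ZMod h), a₀, a₀), (1, a₀, -1), (1, -1, a₀)}, Finset.sum_insert,
      Finset.sum_pair] at he
    · simp only [fr_zero, fr_one] at he
      refine hch _ _ ?_
      have h2 := CharTwo.two_eq_zero (R := F)
      linear_combination he + T a₀ (-1) * T (-1) a₀ * h2
    · intro hh
      exact h3 (Prod.ext_iff.1 (Prod.ext_iff.1 hh).2).1
    · rw [Finset.mem_insert, Finset.mem_singleton]
      rintro (hh | hh)
      · exact h01 (Prod.ext_iff.1 hh).1.symm
      · exact h01 (Prod.ext_iff.1 hh).1.symm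
    · intro t ht
      have e1 : P ((-1 : ZMod h) + 1) = P 0 := by rw [neg_add_cancel]
      rcases Finset.mem_insert.1 ht with rfl | ht
      · simp only [add_zero]
        ring
      rcases Finset.mem_insert.1 ht with rfl | ht
      · simp only [e1]
        have e2 := P_succ (0 : ZMod h)
        have e3 := P_succ a₀
        rw [zero_add] at e2
        linear_combination e2 - e3
      · rw [Finset.mem_singleton.1 ht]
        simp only [e1]
        have e2 := P_succ (0 : ZMod h)
        have e3 := P_succ a₀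
        rw [zero_add] at e2
        linear_combination e2 - e3
    · rintro ⟨k, a, b⟩ ht hk
      obtain ⟨ha, hb⟩ := hne _ _ _ hk
      simp only at ht ha hb
      rcases idx2 (F := F) h1 h3 ha hb ht with ⟨e1, e2, e3⟩ | ⟨e1, ⟨e2, e3⟩ | ⟨e2, e3⟩⟩ <;>
        rw [e1, e2, e3] <;> simp
  · intro b₀ h4 h5 h6
    have he := ext_coef hc 1 b₀
    rw [sum_supp {((0 : ZMod h), 1, b₀), (0, b₀, 1), (b₀, 1, -b₀), (b₀, -b₀, 1)},
      Finset.sum_insert, Finset.sum_insert, Finset.sum_pair] at he
    · simp only [fr_zero] at he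
      refine hch _ _ ?_
      rw [map_add]
      linear_combination he
    · intro hh
      refine h6 ?_
      have := (Prod.ext_iff.1 (Prod.ext_iff.1 hh).2).1
      simp only at this
      rw [this, neg_neg]
    · rw [Finset.mem_insert, Finset.mem_singleton]
      rintro (hh | hh)
      · exact h4 (Prod.ext_iff.1 hh).1.symm
      · exact h4 (Prod.ext_iff.1 hh).1.symm
    · rw [Finset.mem_insert, Finset.mem_insert, Finset.mem_singleton]
      rintro (hh | hh | hh)
      · exact h5 (Prod.ext_iff.1 (Prod.ext_iff.1 hh).2).1.symm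
      · exact h4 (Prod.ext_iff.1 hh).1.symm
      · exact h4 (Prod.ext_iff.1 hh).1.symm
    · intro t ht
      have e1 : P (-b₀ + b₀) = P 0 := by rw [neg_add_cancel]
      have e2 := P_succ (0 : ZMod h)
      have e3 := P_succ b₀
      have e4 : P (1 + b₀) = P (b₀ + 1) := by rw [add_comm]
      rw [zero_add] at e2
      rcases Finset.mem_insert.1 ht with rfl | ht
      · simp only [add_zero]
        ring
      rcases Finset.mem_insert.1 ht with rfl | ht
      · simp only [add_zero]
        ring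
      rcases Finset.mem_insert.1 ht with rfl | ht
      · simp only [e1, e4]
        linear_combination e2 - e3
      · rw [Finset.mem_singleton.1 ht]
        simp only [e1, e4]
        linear_combination e2 - e3
    · rintro ⟨k, a, b⟩ ht hk
      obtain ⟨ha, hb⟩ := hne _ _ _ hk
      simp only at ht ha hb
      rcases idx3 (F := F) h4 h5 h6 ha hb ht with
        ⟨e1, ⟨e2, e3⟩ | ⟨e2, e3⟩⟩ | ⟨e1, ⟨e2, e3⟩ | ⟨e2, e3⟩⟩ <;> rw [e1, e2, e3] <;> simp

end Pool.Agent.H51.QOV
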