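import Pool.Agent.H85.QOV.Rep

set_option autoImplicit false
set_option linter.unusedSectionVars false

namespace Pool.Agent.H51.QOV

open Finset

section
variable {h : ℕ} [NeZero h]

theorem h85_ix3 (hh : 4 ≤ h) {i j i0 j0 : ZMod h} (hj : j0 ≠ 1)
    (H : P (j - i + 1) + P (j0 - i0) + P (1 - i0) = P (j - i) + P (1 - i) + P (j0 - i0 + 1)) :
    i = i0 ∧ j = j0 := by
  rw [← P_succ, ← P_succ (j0 - i0)] at H
  have H1 : P (1 - i) + P (j0 - i0) = P (j - i) + P (1 - i0) := by linear_combination -H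
  by_cases hb : j - i = 1 - i0
  · rw [← hb, P_succ] at H1
    obtain ⟨h1, h2⟩ := h85_one hh H1.symm
    grind
  · rcases h85_two hh hb H1 with ⟨h1, h2⟩ | ⟨h1, h2⟩
    · grind
    · grind

theorem h85_ix4 (hh : 4 ≤ h) {i k i0 : ZMod h} (hi : i0 ≠ 1)
    (H : P (i + 1 + k) + P 1 + P i0 = P (1 + k) + P (i + k) + P (i0 + 1)) :
    k = 0 ∧ i = i0 := by
  have e : i + 1 + k = (i + k) + 1 := by ring
  rw [e, ← P_succ, ← P_succ i0] at H
  have H1 : P 1 + P (i + k) = P (1 + k) + P i0 := by linear_combination H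
  by_cases hb : 1 + k = i0
  · rw [hb, P_succ] at H1
    obtain ⟨h1, h2⟩ := h85_one hh H1.symm
    grind
  · rcases h85_two hh hb H1 with ⟨h1, h2⟩ | ⟨h1, h2⟩
    · grind
    · grind

end


theorem FR1_proof (F : Type) [Field F] [Fintype F] [CharP F 2] (h : ℕ) [NeZero h] [QF F h] :
    FR1Stmt F h := by
  intro N hr
  have hh : 4 ≤ h := QF.four (F := F)
  have key : ∀ i0 j0 : ZMod h, j0 ≠ 1 → N.cc i0 j0 = 0 := by
    intro i0 j0 hj
    have h1 := N.ext2 i0 j0
    rw [hr] at h1
    rw [Finset.sum_eq_single i0, Finset.sum_eq_single j0] at h1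
    · rw [if_pos (by ring), mul_one] at h1
      exact (fr_eq_zero _).1 h1
    · intro j _ hj'
      rw [if_neg, mul_zero]
      intro H
      exact hj' (h85_ix3 hh hj H).2
    · simp
    · intro i _ hi'
      refine Finset.sum_eq_zero fun j _ => ?_
      rw [if_neg, mul_zero]
      intro H
      exact hi' (h85_ix3 hh hj H).1
    · simp
  have hc : ∀ i0 j0, N.cc i0 j0 = 0 := by
    intro i0 j0
    by_cases hj : j0 = 1
    · by_cases hi : i0 = 1
      · rw [hi, hj]; exact N.cc_self 1
      · rw [N.cc_symm]; exact key _ _ hi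
    · exact key _ _ hj
  have hd : ∀ x s, N.d x s = 0 := by
    intro x s
    rw [N.rep]
    simp [hc]
  have hg0 : N.g 0 = 0 := by
    have := N.hg 0 0
    rw [hd, add_zero, add_zero] at this
    rw [this]; exact CharTwo.add_self_eq_zero _
  let gA : F →+ F :=
    { toFun := N.g
      map_zero' := hg0
      map_add' := by intro x y; rw [N.hg, hd, add_zero] }
  have hrep : ∀ s, N.g s = ∑ i : ZMod h, coef i N.g * fr i s := fun s => lin_rep (h := h) gA s
  have hG : ∀ i0 : ZMod h, i0 ≠ 1 → coef i0 N.g = 0 := by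
    intro i0 hi0
    have h1 := h85_ext1 (F := F) N.r (fun i => coef i N.g) i0
    simp only [← hrep] at h1
    have h2 : ∑ y : F, (fr N.r y * fr i0 y * (fr (i0 + N.r) y)⁻¹) *
        tr h ((fr N.r y)⁻¹ * N.g (y⁻¹ * fr N.r y)) = 0 := by
      have h3 := h85_orth21 (F := F) N.r i0 (i0 + N.r)
      rw [if_neg] at h3
      · rw [← h3]
        refine Finset.sum_congr rfl fun y _ => ?_
        by_cases hy : y = 0
        · subst hy; simp
        · rw [N.F1 y hy, mul_one]
      · intro H
        rw [hr] at H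
        exact hi0 (h85_one hh H.symm).1.symm
    rw [h2, hr] at h1
    rw [Finset.sum_eq_single 0, Finset.sum_eq_single i0] at h1
    · rw [if_pos (by rw [add_zero, add_zero, add_zero]; ring), mul_one, fr_zero] at h1
      exact h1.symm
    · intro i _ hi'
      rw [if_neg, mul_zero]
      intro H
      exact hi' (h85_ix4 hh hi0 H).2
    · simp
    · intro k _ hk
      refine Finset.sum_eq_zero fun i _ => ?_
      rw [if_neg, mul_zero]
      intro H
      exact hk (h85_ix4 hh hi0 H).1
    · simp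
  refine ⟨coef (1 : ZMod h) N.g, fun s => ?_⟩
  rw [hrep, Finset.sum_eq_single 1]
  · rw [fr_one]
  · intro i _ hi
    rw [hG i hi, zero_mul]
  · simp

end Pool.Agent.H51.QOV
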