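import Pool.Agent.H85.QOV.Rep

set_option autoImplicit false
set_option linter.unusedSectionVars false

namespace Pool.Agent.H51.QOV

open Finset

variable {F : Type} [Field F] [Fintype F] [CharP F 2] {h : ℕ} [NeZero h]

/-- the quadratic part. -/
def Nrm.qq (N : Nrm F h) (s : F) : F :=
  ∑ i : ZMod h, ∑ j : ZMod h, if i.val < j.val then N.cc i j * fr i s * fr j s else 0

theorem Nrm.qq_add [QF F h] (N : Nrm F h) (s t : F) :
    N.qq (s + t) = N.qq s + N.qq t + N.d s t := by
  have h1 : N.d s t = ∑ i : ZMod h, ∑ j : ZMod h, (if i.val < j.val then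
      N.cc i j * (fr i s * fr j t + fr i t * fr j s) else 0) := by
    rw [N.rep]
    have h2 : ∀ i j : ZMod h, N.cc i j * fr i s * fr j t =
        (if i.val < j.val then N.cc i j * fr i s * fr j t else 0) +
        (if j.val < i.val then N.cc i j * fr i s * fr j t else 0) := by
      intro i j
      by_cases hij : i = j
      · subst hij; rw [N.cc_self]; simp
      · have h3 : i.val ≠ j.val := fun h4 => hij (ZMod.val_injective h h4)
        rcases lt_or_gt_of_ne h3 with h4 | h4
        · rw [if_pos h4, if_neg (by omega), add_zero]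
        · rw [if_neg (by omega), if_pos h4, zero_add]
    have h3 : ∑ i : ZMod h, ∑ j : ZMod h, N.cc i j * fr i s * fr j t =
        (∑ i : ZMod h, ∑ j : ZMod h, if i.val < j.val then N.cc i j * fr i s * fr j t else 0) +
        ∑ i : ZMod h, ∑ j : ZMod h, if i.val < j.val then N.cc i j * fr i t * fr j s else 0 := by
      have h4 : ∑ i : ZMod h, ∑ j : ZMod h, (if i.val < j.val then N.cc i j * fr i t * fr j s else 0)
          = ∑ i : ZMod h, ∑ j : ZMod h, if j.val < i.val then N.cc i j * fr i s * fr j t else 0 := by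
        rw [Finset.sum_comm]
        refine Finset.sum_congr rfl fun i _ => Finset.sum_congr rfl fun j _ => ?_
        rw [N.cc_symm]
        split_ifs
        · ring
        · rfl
      rw [h4, ← Finset.sum_add_distrib]
      refine Finset.sum_congr rfl fun i _ => ?_
      rw [← Finset.sum_add_distrib]
      exact Finset.sum_congr rfl fun j _ => h2 i j
    rw [h3, ← Finset.sum_add_distrib]
    refine Finset.sum_congr rfl fun i _ => ?_
    rw [← Finset.sum_add_distrib]
    refine Finset.sum_congr rfl fun j _ => ?_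
    split_ifs
    · ring
    · simp
  rw [h1]
  unfold Nrm.qq
  rw [← Finset.sum_add_distrib, ← Finset.sum_add_distrib]
  refine Finset.sum_congr rfl fun i _ => ?_
  rw [← Finset.sum_add_distrib, ← Finset.sum_add_distrib]
  refine Finset.sum_congr rfl fun j _ => ?_
  split_ifs
  · rw [map_add, map_add]; ring
  · simp

/-- additive part. -/
theorem Nrm.g_rep [QF F h] (N : Nrm F h) (s : F) :
    N.g s = (∑ i : ZMod h, coef i (fun s => N.g s + N.qq s) * fr i s) + N.qq s := by
  have c2 : ∀ x : F, x + x = 0 := fun x => CharTwo.add_self_eq_zero x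
  let gA : F →+ F :=
    { toFun := fun s => N.g s + N.qq s
      map_zero' := by
        have h1 := N.hg 0 0
        have h2 := N.qq_add 0 0
        simp only [add_zero, map_zero] at h1 h2
        rw [c2] at h1 h2
        rw [h1, h2, add_zero]
      map_add' := by
        intro x y
        rw [N.hg, N.qq_add]
        linear_combination c2 (N.d x y) }
  have h1 := lin_rep (h := h) gA s
  have h2 : N.g s + N.qq s = ∑ i : ZMod h, coef i (fun s => N.g s + N.qq s) * fr i s := h1
  rw [← h2, add_assoc, c2, add_zero]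

theorem Nrm.F1' [QF F h] (N : Nrm F h) (y : F) :
    tr h ((fr N.r y)⁻¹ * N.g (y⁻¹ * fr N.r y)) = y * y⁻¹ := by
  by_cases hy : y = 0
  · subst hy; simp
  · rw [N.F1 y hy, mul_inv_cancel₀ hy]

theorem h85_sum_one [QF F h] : ∑ y : F, y * y⁻¹ = 1 := by
  have := orth (F := F) (h := h) 0 0
  simpa using this

/-- F1 summed over `y`. -/
theorem Nrm.total [QF F h] (N : Nrm F h) :
    tr h ((∑ i : ZMod h, coef i (fun s => N.g s + N.qq s) *
        (if P (i + N.r) = P N.r + P i then 1 else 0)) +
      ∑ i : ZMod h, ∑ j : ZMod h, if i.val < j.val then N.cc i j *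
        (if P (i + N.r) + P (j + N.r) = P N.r + P i + P j then 1 else 0) else 0) = 1 := by
  have h1 : tr h (∑ y : F, (fr N.r y)⁻¹ * N.g (y⁻¹ * fr N.r y)) = 1 := by
    rw [tr_sum]
    simp only [N.F1']
    exact h85_sum_one (h := h)
  refine Eq.trans ?_ h1
  congr 1
  have o12 : ∀ a b c : ZMod h, ∑ x : F, fr a x * (fr b x * fr c x)⁻¹ =
      if P a = P b + P c then 1 else 0 := by
    intro a b c
    have := orthL (F := F) [a] [b, c] (by simp) (by simp)
    simpa using this
  have o23 : ∀ a b c d e : ZMod h, ∑ x : F, fr a x * fr b x * (fr c x * fr d x * fr e x)⁻¹ =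
      if P a + P b = P c + P d + P e then 1 else 0 := by
    intro a b c d e
    have := orthL (F := F) [a, b] [c, d, e] (by simp) (by simp)
    simp only [List.map_cons, List.map_nil, List.prod_cons, List.prod_nil, mul_one, List.sum_cons,
      List.sum_nil, add_zero] at this
    simp only [mul_assoc, add_assoc] at this ⊢
    exact this
  have h2 : ∀ y : F, (fr N.r y)⁻¹ * N.g (y⁻¹ * fr N.r y) =
      (∑ i : ZMod h, coef i (fun s => N.g s + N.qq s) *
        (fr (i + N.r) y * (fr N.r y * fr i y)⁻¹)) +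
      ∑ i : ZMod h, ∑ j : ZMod h, if i.val < j.val then N.cc i j *
        (fr (i + N.r) y * fr (j + N.r) y * (fr N.r y * fr i y * fr j y)⁻¹) else 0 := by
    intro y
    rw [N.g_rep, mul_add]
    congr 1
    · rw [Finset.mul_sum]
      refine Finset.sum_congr rfl fun i _ => ?_
      rw [map_mul, map_inv₀, ← fr_add, mul_inv]
      ring
    · unfold Nrm.qq
      rw [Finset.mul_sum]
      refine Finset.sum_congr rfl fun i _ => ?_
      rw [Finset.mul_sum]
      refine Finset.sum_congr rfl fun j _ => ?_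
      split_ifs
      · rw [map_mul, map_inv₀, ← fr_add, map_mul, map_inv₀, ← fr_add, mul_inv, mul_inv]
        ring
      · simp
  simp only [h2]
  rw [Finset.sum_add_distrib]
  congr 1
  · rw [Finset.sum_comm]
    refine Finset.sum_congr rfl fun i _ => ?_
    rw [← o12, Finset.mul_sum]
  · symm
    rw [Finset.sum_comm]
    refine Finset.sum_congr rfl fun i _ => ?_
    rw [Finset.sum_comm]
    refine Finset.sum_congr rfl fun j _ => ?_
    symm
    by_cases hij : i.val < j.val
    · simp only [if_pos hij]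
      rw [← o23, Finset.mul_sum]
    · simp only [if_neg hij]
      simp

/-- step (i): a coefficient with an index pair `{1, r}`. -/
theorem Nrm.stepA [QF F h] (N : Nrm F h) (hr1 : N.r ≠ 1) : 2 * N.r = 1 ∧ tr h (N.cc 1 N.r) = 1 := by
  have hh : 4 ≤ h := QF.four (F := F)
  have h1 := N.total
  have h2 : ∑ i : ZMod h, coef i (fun s => N.g s + N.qq s) *
        (if P (i + N.r) = P N.r + P i then 1 else 0) = 0 := by
    refine Finset.sum_eq_zero fun i _ => ?_
    rw [if_neg, mul_zero]
    intro H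
    obtain ⟨h3, h4⟩ := h85_one hh H
    apply hr1
    grind
  rw [h2, zero_add] at h1
  have hz : ∀ i j : ZMod h, i.val < j.val →
      ¬ (2 * N.r = 1 ∧ ((i = 1 ∧ j = N.r) ∨ (i = N.r ∧ j = 1))) →
      N.cc i j * (if P (i + N.r) + P (j + N.r) = P N.r + P i + P j then 1 else 0) = 0 := by
    intro i j hij hn
    by_cases hi : i = 0
    · rw [hi, N.cc_zero_left, zero_mul]
    by_cases hj : j = 0
    · rw [hj, N.cc_zero_right, zero_mul]
    rw [if_neg, mul_zero]
    intro H
    exact hn (h85_ix1a hh N.hr hr1 (fun h3 => by rw [h3] at hij; exact lt_irrefl _ hij) hi hj H)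
  have h2r : 2 * N.r = 1 := by
    by_contra hn
    apply one_ne_zero (α := F)
    rw [← h1]
    have : ∑ i : ZMod h, ∑ j : ZMod h, (if i.val < j.val then N.cc i j *
        (if P (i + N.r) + P (j + N.r) = P N.r + P i + P j then (1 : F) else 0) else 0) = 0 := by
      refine Finset.sum_eq_zero fun i _ => Finset.sum_eq_zero fun j _ => ?_
      by_cases hij : i.val < j.val
      · rw [if_pos hij]
        exact hz i j hij (fun h3 => hn h3.1)
      · rw [if_neg hij]
    rw [this, tr_zero]
  refine ⟨h2r, ?_⟩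
  refine Eq.trans ?_ h1
  congr 1
  have hP : ∀ i j : ZMod h, ((i = 1 ∧ j = N.r) ∨ (i = N.r ∧ j = 1)) →
      N.cc i j * (if P (i + N.r) + P (j + N.r) = P N.r + P i + P j then 1 else 0) =
        N.cc 1 N.r := by
    intro i j hij
    have e1 : N.r + N.r = 1 := by rw [← h2r]; ring
    have e2 : P (1 + N.r) + P (N.r + N.r) = P N.r + P 1 + P N.r := by
      rw [e1, add_comm 1 N.r, ← P_succ]; ring
    rcases hij with ⟨rfl, rfl⟩ | ⟨rfl, rfl⟩
    · rw [if_pos e2, mul_one]
    · rw [if_pos (by rw [add_comm (P (N.r + N.r)), e2]; ring), mul_one, N.cc_symm]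
  have hv : N.r.val ≠ (1 : ZMod h).val := fun h3 => hr1 (ZMod.val_injective h h3)
  rcases lt_or_gt_of_ne hv with h3 | h3
  · rw [Finset.sum_eq_single N.r, Finset.sum_eq_single 1]
    · rw [if_pos h3, hP _ _ (Or.inr ⟨rfl, rfl⟩)]
    · intro j _ hj
      by_cases hij : N.r.val < j.val
      · rw [if_pos hij]
        refine hz _ _ hij ?_
        rintro ⟨_, ⟨h4, _⟩ | ⟨_, h4⟩⟩
        · exact hr1 h4
        · exact hj h4
      · rw [if_neg hij]
    · simp
    · intro i _ hi
      refine Finset.sum_eq_zero fun j _ => ?_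
      by_cases hij : i.val < j.val
      · rw [if_pos hij]
        refine hz _ _ hij ?_
        rintro ⟨_, ⟨h4, h5⟩ | ⟨h4, _⟩⟩
        · rw [h4, h5] at hij; omega
        · exact hi h4
      · rw [if_neg hij]
    · simp
  · rw [Finset.sum_eq_single 1, Finset.sum_eq_single N.r]
    · rw [if_pos h3, hP _ _ (Or.inl ⟨rfl, rfl⟩)]
    · intro j _ hj
      by_cases hij : (1 : ZMod h).val < j.val
      · rw [if_pos hij]
        refine hz _ _ hij ?_
        rintro ⟨_, ⟨_, h4⟩ | ⟨h4, _⟩⟩
        · exact hj h4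
        · exact hr1 h4.symm
      · rw [if_neg hij]
    · simp
    · intro i _ hi
      refine Finset.sum_eq_zero fun j _ => ?_
      by_cases hij : i.val < j.val
      · rw [if_pos hij]
        refine hz _ _ hij ?_
        rintro ⟨_, ⟨h4, _⟩ | ⟨h4, h5⟩⟩
        · exact hi h4
        · rw [h4, h5] at hij; omega
      · rw [if_neg hij]
    · simp

/-- step (ii): all other coefficients vanish. -/
theorem Nrm.stepB [QF F h] (N : Nrm F h) (h2r : 2 * N.r = 1) (i0 j0 : ZMod h)
    (h1 : j0 ≠ 1) (h2 : j0 ≠ N.r) : N.cc i0 j0 = 0 := by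
  have hh : 4 ≤ h := QF.four (F := F)
  have e3 := three_ne' hh
  have r2 : N.r ≠ -1 := by
    intro h3; rw [h3] at h2r; grind
  by_cases hj0 : j0 = 0
  · rw [hj0]; exact N.cc_zero_right _
  have H0 := N.ext2 i0 j0
  have hz : ∀ i j : ZMod h, ¬ (i = i0 ∧ j = j0) → fr (-i) (N.cc i j) *
      (if P (j - i + N.r) + P (j0 - i0) + P (N.r - i0) =
        P (j - i) + P (N.r - i) + P (j0 - i0 + N.r) then 1 else 0) = 0 := by
    intro i j hij
    by_cases hj : j = 0
    · rw [hj, N.cc_zero_right, map_zero, zero_mul]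
    rw [if_neg, mul_zero]
    intro H
    apply hij
    have := h85_ix2 hh (r := N.r) (a := -i) (b := j - i) (a0 := -i0) (b0 := j0 - i0) h2r N.hr r2
      (by intro h3; apply hj; linear_combination -h3)
      (by intro h3; apply hj0; linear_combination -h3)
      (by intro h3; apply h1; linear_combination h3)
      (by intro h3; apply h2; linear_combination h3)
      (by rw [← sub_eq_add_neg, ← sub_eq_add_neg]; exact H)
    constructor
    · exact neg_injective this.1
    · have h3 := this.1
      have h4 := this.2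
      linear_combination h4 - h3
  rw [Finset.sum_eq_single i0, Finset.sum_eq_single j0] at H0
  · rw [if_pos (by ring), mul_one] at H0
    exact (fr_eq_zero _).1 H0
  · intro j _ hj
    exact hz _ _ (fun h3 => hj h3.2)
  · simp
  · intro i _ hi
    exact Finset.sum_eq_zero fun j _ => hz _ _ (fun h3 => hi h3.1)
  · simp

theorem Nrm.stepB' [QF F h] (N : Nrm F h) (h2r : 2 * N.r = 1) (i j : ZMod h)
    (hij : ¬ ((i = 1 ∧ j = N.r) ∨ (i = N.r ∧ j = 1))) : N.cc i j = 0 := by
  by_cases h1 : j ≠ 1 ∧ j ≠ N.r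
  · exact N.stepB h2r i j h1.1 h1.2
  by_cases h2 : i ≠ 1 ∧ i ≠ N.r
  · rw [N.cc_symm]; exact N.stepB h2r j i h2.1 h2.2
  by_cases h3 : i = j
  · rw [h3]; exact N.cc_self _
  exfalso
  grind

/-- step (iii): the remaining coefficient is `1`. -/
theorem Nrm.stepC [QF F h] (N : Nrm F h) (h2r : 2 * N.r = 1) (hr1 : N.r ≠ 1)
    (htr : tr h (N.cc 1 N.r) = 1) : N.cc 1 N.r = 1 := by
  have e1 : N.r + N.r = 1 := by rw [← h2r]; ring
  have H0 := N.ext2 1 N.r
  have hz : ∀ i j : ZMod h, ¬ ((i = 1 ∧ j = N.r) ∨ (i = N.r ∧ j = 1)) → fr (-i) (N.cc i j) *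
      (if P (j - i + N.r) + P (N.r - 1) + P (N.r - 1) =
        P (j - i) + P (N.r - i) + P (N.r - 1 + N.r) then 1 else 0) = 0 := by
    intro i j hij
    rw [N.stepB' h2r i j hij, map_zero, zero_mul]
  have h1 : ∑ j : ZMod h, fr (-(1 : ZMod h)) (N.cc 1 j) *
      (if P (j - 1 + N.r) + P (N.r - 1) + P (N.r - 1) =
        P (j - 1) + P (N.r - 1) + P (N.r - 1 + N.r) then 1 else 0) =
      fr (-(1 : ZMod h)) (N.cc 1 N.r) := by
    rw [Finset.sum_eq_single N.r]
    · rw [if_pos (by ring), mul_one]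
    · intro j _ hj
      refine hz 1 j ?_
      rintro (⟨_, h3⟩ | ⟨h3, _⟩)
      · exact hj h3
      · exact hr1 h3.symm
    · simp
  have h2 : ∑ j : ZMod h, fr (-N.r) (N.cc N.r j) *
      (if P (j - N.r + N.r) + P (N.r - 1) + P (N.r - 1) =
        P (j - N.r) + P (N.r - N.r) + P (N.r - 1 + N.r) then 1 else 0) =
      fr (-N.r) (N.cc 1 N.r) := by
    rw [Finset.sum_eq_single 1]
    · rw [if_pos, mul_one, N.cc_symm]
      have a1 : (1 : ZMod h) - N.r + N.r = 1 := by ring
      have a2 : N.r - 1 + N.r = 0 := by linear_combination e1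
      have a3 : (1 : ZMod h) - N.r = N.r := by linear_combination -e1
      have a4 : N.r - N.r = 0 := by ring
      rw [a1, a2, a3, a4, add_assoc, P_succ, add_assoc, P_succ]
      have a5 : N.r - 1 + 1 = N.r := by ring
      rw [a5, zero_add, add_comm]
    · intro j _ hj
      refine hz N.r j ?_
      rintro (⟨h3, _⟩ | ⟨_, h3⟩)
      · exact hr1 h3
      · exact hj h3
    · simp
  have h3 : fr (-(1 : ZMod h)) (N.cc 1 N.r) + fr (-N.r) (N.cc 1 N.r) = 0 := by
    rw [← Finset.add_sum_erase _ _ (Finset.mem_univ (1 : ZMod h)),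
      ← Finset.add_sum_erase _ _ (Finset.mem_erase.2 ⟨hr1, Finset.mem_univ N.r⟩), h1, h2] at H0
    rw [Finset.sum_eq_zero, add_zero] at H0
    · exact H0
    · intro i hi
      simp only [Finset.mem_erase, Finset.mem_univ, and_true] at hi
      refine Finset.sum_eq_zero fun j _ => hz i j ?_
      rintro (⟨h3, _⟩ | ⟨h3, _⟩)
      · exact hi.2 h3
      · exact hi.1 h3
  have h4 : fr (-(1 : ZMod h)) (N.cc 1 N.r) = fr (-N.r) (N.cc 1 N.r) :=
    CharTwo.add_eq_zero.mp h3
  have h5 : N.cc 1 N.r = fr N.r (N.cc 1 N.r) := by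
    have h6 := congrArg (fr (1 : ZMod h)) h4
    rw [fr_neg, ← fr_add] at h6
    have a3 : (1 : ZMod h) + -N.r = N.r := by linear_combination -e1
    rw [a3] at h6
    exact h6
  have h6 : N.cc 1 N.r = N.cc 1 N.r ^ 2 := by
    generalize N.cc 1 N.r = δ at h5 ⊢
    rw [← fr_one (h := h), ← e1, fr_add, ← h5, ← h5]
  have h7 : N.cc 1 N.r * (N.cc 1 N.r - 1) = 0 := by linear_combination -h6
  rcases mul_eq_zero.1 h7 with h8 | h8
  · rw [h8, tr_zero] at htr
    exact absurd htr zero_ne_one
  · exact sub_eq_zero.1 h8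

/-- step (iv). -/
theorem Nrm.stepD [QF F h] (N : Nrm F h) (h2r : 2 * N.r = 1) (hr1 : N.r ≠ 1)
    (hc : N.cc 1 N.r = 1) (s : F) : N.qq s = fr N.r s * s ^ 2 := by
  have hv : N.r.val ≠ (1 : ZMod h).val := fun h3 => hr1 (ZMod.val_injective h h3)
  have hz : ∀ i j : ZMod h, ¬ ((i = 1 ∧ j = N.r) ∨ (i = N.r ∧ j = 1)) →
      (if i.val < j.val then N.cc i j * fr i s * fr j s else 0) = 0 := by
    intro i j hij
    split_ifs
    · rw [N.stepB' h2r i j hij, zero_mul, zero_mul]
    · rfl
  have hc' : N.cc N.r 1 = 1 := by rw [N.cc_symm]; exact hc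
  unfold Nrm.qq
  rcases lt_or_gt_of_ne hv with h3 | h3
  · rw [Finset.sum_eq_single N.r, Finset.sum_eq_single 1]
    · rw [if_pos h3, hc', fr_one, one_mul]
    · intro j _ hj
      refine hz _ _ ?_
      rintro (⟨h4, _⟩ | ⟨_, h4⟩)
      · exact hr1 h4
      · exact hj h4
    · simp
    · intro i _ hi
      refine Finset.sum_eq_zero fun j _ => ?_
      by_cases hij : i.val < j.val
      · refine hz _ _ ?_
        rintro (⟨h4, h5⟩ | ⟨h4, _⟩)
        · rw [h4, h5] at hij; omega
        · exact hi h4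
      · rw [if_neg hij]
    · simp
  · rw [Finset.sum_eq_single 1, Finset.sum_eq_single N.r]
    · rw [if_pos h3, hc, fr_one, one_mul, mul_comm]
    · intro j _ hj
      refine hz _ _ ?_
      rintro (⟨_, h4⟩ | ⟨h4, _⟩)
      · exact hj h4
      · exact hr1 h4.symm
    · simp
    · intro i _ hi
      refine Finset.sum_eq_zero fun j _ => ?_
      by_cases hij : i.val < j.val
      · refine hz _ _ ?_
        rintro (⟨h4, _⟩ | ⟨h4, h5⟩)
        · exact hi h4
        · rw [h4, h5] at hij; omega
      · rw [if_neg hij]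
    · simp

theorem FRT_proof (F : Type) [Field F] [Fintype F] [CharP F 2] (h : ℕ) [NeZero h] [QF F h] :
    FRTStmt F h := by
  intro N hr1
  have hh : 4 ≤ h := QF.four (F := F)
  have e3 := three_ne' hh
  obtain ⟨h2r, htr⟩ := N.stepA hr1
  refine ⟨h2r, ?_⟩
  have e1 : N.r + N.r = 1 := by rw [← h2r]; ring
  have r2 : N.r ≠ -1 := by
    intro h3; rw [h3] at h2r; grind
  have hc := N.stepC h2r hr1 htr
  have hq := N.stepD h2r hr1 hc
  have ht1 : tr h (1 : F) = 1 := by rw [← hc]; rw [hc] at htr ⊢; exact htr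
  -- the additive part
  have hadd : ∀ y : F, tr h ((fr N.r y)⁻¹ *
      ∑ i : ZMod h, coef i (fun s => N.g s + N.qq s) * fr i (y⁻¹ * fr N.r y)) = 0 := by
    intro y
    by_cases hy : y = 0
    · subst hy; simp
    have h1 := N.F1 y hy
    rw [N.g_rep, mul_add, tr_add, hq] at h1
    have h2 : (fr N.r y)⁻¹ * (fr N.r (y⁻¹ * fr N.r y) * (y⁻¹ * fr N.r y) ^ 2) = 1 := by
      rw [map_mul, map_inv₀, ← fr_add, e1, fr_one]
      have h3 : fr N.r y ≠ 0 := by
        intro h4; exact hy ((fr_eq_zero _).1 h4)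
      field_simp
    rw [h2, ht1] at h1
    have h3 := congrArg (fun z => z - 1) h1
    simpa using h3
  have hext : ∀ i0 : ZMod h, ∑ k : ZMod h, ∑ i : ZMod h,
      fr k (coef i (fun s => N.g s + N.qq s)) *
        (if P (i + N.r + k) + P N.r + P i0 = P (N.r + k) + P (i + k) + P (i0 + N.r)
          then 1 else 0) = 0 := by
    intro i0
    rw [← h85_ext1 (F := F) N.r (fun i => coef i (fun s => N.g s + N.qq s)) i0]
    exact Finset.sum_eq_zero fun y _ => by rw [hadd, mul_zero]
  have hG : ∀ i0 : ZMod h, i0 ≠ 1 → i0 ≠ N.r → coef i0 (fun s => N.g s + N.qq s) = 0 := by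
    intro i0 h1 h2
    have h3 := hext i0
    rw [Finset.sum_eq_single 0, Finset.sum_eq_single i0] at h3
    · rw [if_pos (by rw [add_zero, add_zero, add_zero]; ring), mul_one, fr_zero] at h3
      exact h3
    · intro i _ hi'
      rw [if_neg, mul_zero]
      intro H
      exact hi' (h85_ix1c hh h2r N.hr hr1 r2 h1 h2 H).2
    · simp
    · intro k _ hk
      refine Finset.sum_eq_zero fun i _ => ?_
      rw [if_neg, mul_zero]
      intro H
      exact hk (h85_ix1c hh h2r N.hr hr1 r2 h1 h2 H).1
    · simp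
  have hGr : coef N.r (fun s => N.g s + N.qq s) =
      fr N.r (coef (1 : ZMod h) (fun s => N.g s + N.qq s)) := by
    have h3 := hext 1
    have hz : ∀ k i : ZMod h, ¬ ((k = 0 ∧ i = 1) ∨ (k = -N.r ∧ i = N.r)) →
        fr k (coef i (fun s => N.g s + N.qq s)) *
        (if P (i + N.r + k) + P N.r + P 1 = P (N.r + k) + P (i + k) + P (1 + N.r)
          then 1 else 0) = 0 := by
      intro k i hki
      rw [if_neg, mul_zero]
      intro H
      exact hki (h85_ix1d hh h2r N.hr hr1 r2 H)
    have hne : (0 : ZMod h) ≠ -N.r := by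
      intro h4; exact N.hr (neg_eq_zero.1 h4.symm)
    rw [← Finset.add_sum_erase _ _ (Finset.mem_univ (0 : ZMod h)),
      ← Finset.add_sum_erase _ _ (Finset.mem_erase.2 ⟨hne.symm, Finset.mem_univ (-N.r)⟩)] at h3
    rw [Finset.sum_eq_single 1] at h3
    · rw [Finset.sum_eq_single N.r] at h3
      · rw [Finset.sum_eq_zero] at h3
        · simp only [add_zero] at h3
          rw [if_pos, if_pos, mul_one, mul_one, fr_zero] at h3
          · have h4 := CharTwo.add_eq_zero.mp h3
            rw [h4, fr_neg]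
          · have a1 : N.r + N.r + -N.r = N.r := by ring
            have a2 : N.r + -N.r = 0 := by ring
            rw [a1, a2, P_succ, P_succ, zero_add, add_comm, add_comm N.r 1]
          · ring
        · intro k hk
          simp only [Finset.mem_erase, Finset.mem_univ, and_true] at hk
          refine Finset.sum_eq_zero fun i _ => hz k i ?_
          rintro (⟨h5, _⟩ | ⟨h5, _⟩)
          · exact hk.2 h5
          · exact hk.1 h5
      · intro i _ hi
        refine hz _ _ ?_
        rintro (⟨h5, _⟩ | ⟨_, h5⟩)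
        · exact hne h5.symm
        · exact hi h5
      · simp
    · intro i _ hi
      refine hz _ _ ?_
      rintro (⟨_, h5⟩ | ⟨h5, _⟩)
      · exact hi h5
      · exact hne h5
    · simp
  refine ⟨coef (1 : ZMod h) (fun s => N.g s + N.qq s), fun s => ?_⟩
  rw [N.g_rep, hq]
  rw [← Finset.add_sum_erase _ _ (Finset.mem_univ (1 : ZMod h)),
    ← Finset.add_sum_erase _ _ (Finset.mem_erase.2 ⟨hr1, Finset.mem_univ N.r⟩)]
  rw [Finset.sum_eq_zero, hGr, fr_one]
  · ring
  · intro i hi
    simp only [Finset.mem_erase, Finset.mem_univ, and_true] at hi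
    rw [hG i hi.2 hi.1, zero_mul]

end Pool.Agent.H51.QOV
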