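import Pool.Agent.H85.QOV.Tl

/-! J1: slope power sums with exponent `1 + 2^r`. -/

set_option autoImplicit false
set_option linter.unusedSectionVars false
set_option linter.style.haveILetI false

namespace Pool.Agent.H51.QOV.J1f

open Finset

variable {F : Type} [Field F] [Fintype F] [CharP F 2] {h : ℕ} [NeZero h]

theorem aa (x : F) : x + x = 0 := CharTwo.add_self_eq_zero x

theorem om_zero (u : F × F) : om u 0 = 0 := by simp [om]

theorem Dd_zero (f : F × F → F) (h0 : f 0 = 0) (u : F × F) : Dd f u 0 = 0 := by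
  unfold Dd
  rw [add_zero, h0, om_zero, add_zero, add_zero, aa]

theorem Dd_symm (f : F × F → F) (u v : F × F) : Dd f u v = Dd f v u := by
  unfold Dd om
  rw [add_comm u v]
  ring

theorem Dd_add {f : F × F → F} (hf : NF f) (u u' v : F × F) :
    Dd f (u + u') v = Dd f u v + Dd f u' v := by
  have h1 := hf.quad u u' v
  rw [hf.zero] at h1
  unfold Dd om
  simp only [Prod.fst_add, Prod.snd_add]
  have h2 := aa (f u)
  have h3 := aa (f u')
  have h4 := aa (f v)
  have h5 := aa (f (u + v))
  have h6 := aa (f (u' + v))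
  linear_combination h1 - h2 - h3 - h4 - h5 - h6

theorem Dd_add' {f : F × F → F} (hf : NF f) (u v v' : F × F) :
    Dd f u (v + v') = Dd f u v + Dd f u v' := by
  rw [Dd_symm, Dd_add hf, Dd_symm f v, Dd_symm f v']

/-- `x ↦ D(u, x w)` as an additive map. -/
def gm (f : F × F → F) (hf : NF f) (u w : F × F) : F →+ F where
  toFun x := Dd f u (x • w)
  map_zero' := by rw [zero_smul]; exact Dd_zero f hf.zero u
  map_add' x y := by rw [add_smul]; exact Dd_add' hf u _ _

/-- the slope function is a bijection fixing zero. -/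
theorem psi_bij {f : F × F → F} (hf : NF f) (u w : F × F) (hw : w ≠ 0) :
    Function.Bijective (fun x : F => x⁻¹ * (f (x • w) + Dd f u (x • w))) := by
  have hG : ∀ x : F, f (x • w) + Dd f u (x • w) = f (u + x • w) + f u + x * om u w := by
    intro x
    unfold Dd
    have h1 : om u (x • w) = x * om u w := by
      simp only [om, Prod.smul_fst, Prod.smul_snd, smul_eq_mul]; ring
    rw [h1]
    have h2 := aa (f (x • w))
    linear_combination h2
  have hv : ∀ x : F, x ≠ 0 → x⁻¹ * (f (x • w) + Dd f u (x • w)) =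
      x⁻¹ * (f (u + x • w) + f u) + om u w := by
    intro x hx
    rw [hG, mul_add, inv_mul_cancel_left₀ hx]
  have hne : ∀ x : F, x ≠ 0 → x⁻¹ * (f (x • w) + Dd f u (x • w)) ≠ 0 := by
    intro x hx h0
    rcases mul_eq_zero.1 h0 with h1 | h1
    · exact inv_ne_zero hx h1
    · rw [hG] at h1
      have h2 := hf.ov u (u + x • w) (by
        intro h3
        have h4 : x • w = 0 := by
          have := congrArg (fun z => z - u) h3
          simpa using this.symm
        rcases smul_eq_zero.1 h4 with h5 | h5
        · exact hx h5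
        · exact hw h5)
      apply h2
      have h3 : om u (u + x • w) = x * om u w := by
        simp only [om, Prod.smul_fst, Prod.smul_snd, smul_eq_mul, Prod.fst_add, Prod.snd_add]
        have := aa (u.1 * u.2)
        linear_combination this
      rw [h3]
      have h4 := aa (x * om u w)
      linear_combination h1 - h4
  apply Finite.injective_iff_bijective.mp
  intro x y hxy
  simp only at hxy
  by_cases hx : x = 0
  · by_cases hy : y = 0
    · rw [hx, hy]
    · exfalso
      apply hne y hy
      rw [← hxy, hx]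
      simp
  · by_cases hy : y = 0
    · exfalso
      apply hne x hx
      rw [hxy, hy]
      simp
    · rw [hv x hx, hv y hy] at hxy
      exact hf.slope u w hw x y hx hy (add_right_cancel hxy)

/-- `∑ y^(1+2^r) = 0`. -/
theorem sum_zero [QF F h] (r : ZMod h) (hr : r ≠ 0) : ∑ y : F, y * fr r y = 0 := by
  have h4 := QF.four (F := F) (h := h)
  have hrv : r.val < h := ZMod.val_lt r
  have h1 : ∀ y : F, y * fr r y = y ^ (1 + 2 ^ r.val) := by
    intro y; rw [fr_def, pow_add, pow_one]
  simp only [h1]
  apply FiniteField.sum_pow_lt_card_sub_one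
  rw [QF.card (F := F) (h := h)]
  have h2 : 2 ^ r.val ≤ 2 ^ (h - 1) := Nat.pow_le_pow_right (by norm_num) (by omega)
  have h3 : 2 ^ h = 2 * 2 ^ (h - 1) := by
    rw [← pow_succ']; congr 1; omega
  have h5 : 2 ^ 3 ≤ 2 ^ (h - 1) := Nat.pow_le_pow_right (by norm_num) (by omega)
  omega

/-- the power sum identity. -/
theorem pow_sum [QF F h] {f : F × F → F} (hf : NF f) (r : ZMod h) (hr : r ≠ 0) (u w : F × F)
    (hw : w ≠ 0) :
    ∑ x : F, (x⁻¹ * (f (x • w) + Dd f u (x • w))) *
      fr r (x⁻¹ * (f (x • w) + Dd f u (x • w))) = 0 := by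
  rw [← sum_zero (h := h) r hr (F := F)]
  exact (psi_bij hf u w hw).sum_comp (fun y : F => y * fr r y)

/-- second difference. -/
theorem second [QF F h] {f : F × F → F} (hf : NF f) (r : ZMod h) (hr : r ≠ 0) (u u' w : F × F)
    (hw : w ≠ 0) :
    ∑ x : F, (x * fr r x)⁻¹ * (Dd f u (x • w) * fr r (Dd f u' (x • w)) +
      Dd f u' (x • w) * fr r (Dd f u (x • w))) = 0 := by
  have h1 := pow_sum (h := h) hf r hr (u + u') w hw
  have h2 := pow_sum (h := h) hf r hr u w hw
  have h3 := pow_sum (h := h) hf r hr u' w hw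
  have h4 := pow_sum (h := h) hf r hr 0 w hw
  have h5 : ∑ x : F, (x * fr r x)⁻¹ * (Dd f u (x • w) * fr r (Dd f u' (x • w)) +
      Dd f u' (x • w) * fr r (Dd f u (x • w))) =
      (∑ x : F, (x⁻¹ * (f (x • w) + Dd f (u + u') (x • w))) *
        fr r (x⁻¹ * (f (x • w) + Dd f (u + u') (x • w)))) +
      (∑ x : F, (x⁻¹ * (f (x • w) + Dd f u (x • w))) *
        fr r (x⁻¹ * (f (x • w) + Dd f u (x • w)))) +
      (∑ x : F, (x⁻¹ * (f (x • w) + Dd f u' (x • w))) *
        fr r (x⁻¹ * (f (x • w) + Dd f u' (x • w)))) +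
      ∑ x : F, (x⁻¹ * (f (x • w) + Dd f 0 (x • w))) *
        fr r (x⁻¹ * (f (x • w) + Dd f 0 (x • w))) := by
    rw [← Finset.sum_add_distrib, ← Finset.sum_add_distrib, ← Finset.sum_add_distrib]
    refine Finset.sum_congr rfl fun x _ => ?_
    rw [Dd_add hf, Dd_symm f 0, Dd_zero f hf.zero, mul_inv]
    simp only [map_mul, map_add, map_inv₀, add_zero]
    generalize x⁻¹ = a
    generalize (fr r x)⁻¹ = b
    generalize f (x • w) = p
    generalize Dd f u (x • w) = g
    generalize Dd f u' (x • w) = g'
    generalize fr r p = P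
    generalize fr r g = Q
    generalize fr r g' = R
    have e1 := aa (a * b * p * P)
    have e2 := aa (a * b * p * Q)
    have e3 := aa (a * b * p * R)
    have e4 := aa (a * b * g * P)
    have e5 := aa (a * b * g * Q)
    have e6 := aa (a * b * g' * P)
    have e7 := aa (a * b * g' * R)
    linear_combination -2 * e1 - e2 - e3 - e4 - e5 - e6 - e7
  rw [h5, h1, h2, h3, h4]
  simp

/-- coefficient extraction for a product. -/
theorem extract [QF F h] (g g' : F →+ F) (r : ZMod h) (hr : r ≠ 0) :
    ∑ x : F, (x * fr r x)⁻¹ * (g x * fr r (g' x)) =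
      coef (0 : ZMod h) g * fr r (coef (0 : ZMod h) g') + coef r g * fr r (coef (-r) g') := by
  have h4 := QF.four (F := F) (h := h)
  have hx : ∀ x : F, (x * fr r x)⁻¹ * (g x * fr r (g' x)) =
      ∑ i : ZMod h, ∑ j : ZMod h, (coef i g * fr r (coef j g')) *
        (fr i x * fr (r + j) x * (fr (0 : ZMod h) x * fr r x)⁻¹) := by
    intro x
    rw [lin_rep (h := h) g x, lin_rep (h := h) g' x, map_sum, Finset.sum_mul_sum, Finset.mul_sum,
      fr_zero]
    refine Finset.sum_congr rfl fun i _ => ?_
    rw [Finset.mul_sum]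
    refine Finset.sum_congr rfl fun j _ => ?_
    rw [map_mul, fr_add]
    ring
  simp only [hx]
  rw [Finset.sum_comm]
  have h6 : ∀ i : ZMod h, ∑ x : F, ∑ j : ZMod h, (coef i g * fr r (coef j g')) *
        (fr i x * fr (r + j) x * (fr (0 : ZMod h) x * fr r x)⁻¹) =
      (if i = 0 then coef (0 : ZMod h) g * fr r (coef (0 : ZMod h) g') else 0) +
      (if i = r then coef r g * fr r (coef (-r) g') else 0) := by
    intro i
    rw [Finset.sum_comm]
    have h7 : ∀ j : ZMod h, ∑ x : F, (coef i g * fr r (coef j g')) *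
        (fr i x * fr (r + j) x * (fr (0 : ZMod h) x * fr r x)⁻¹) =
        (if i = 0 ∧ j = 0 then coef i g * fr r (coef j g') else 0) +
        (if i = r ∧ j = -r then coef i g * fr r (coef j g') else 0) := by
      intro j
      rw [← Finset.mul_sum, h85_orth2]
      by_cases hP : P i + P (r + j) = P 0 + P r
      · rw [if_pos hP, mul_one]
        rcases h85_two h4 (fun h0 => hr h0.symm) hP with ⟨h8, h9⟩ | ⟨h8, h9⟩
        · have hj : j = 0 := by simpa using h9
          rw [if_pos ⟨h8, hj⟩, if_neg, add_zero]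
          rintro ⟨h10, -⟩
          exact hr (h10.symm.trans h8)
        · have hj : j = -r := by
            rw [eq_neg_iff_add_eq_zero, add_comm]; exact h9
          rw [if_neg, if_pos ⟨h8, hj⟩, zero_add]
          rintro ⟨h10, -⟩
          exact hr (h8.symm.trans h10)
      · rw [if_neg hP, mul_zero, if_neg, if_neg, add_zero]
        · rintro ⟨h8, h9⟩
          apply hP
          rw [h8, h9, add_neg_cancel, add_comm]
        · rintro ⟨h8, h9⟩
          apply hP
          rw [h8, h9, add_zero]
    simp only [h7]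
    rw [Finset.sum_add_distrib]
    congr 1
    · by_cases hi : i = 0
      · simp [hi]
      · simp [hi]
    · by_cases hi : i = r
      · simp [hi]
      · simp [hi]
  simp only [h6]
  rw [Finset.sum_add_distrib]
  simp

end Pool.Agent.H51.QOV.J1f

namespace Pool.Agent.H51.QOV

open Finset J1f

theorem J1_proof (F : Type) [Field F] [Fintype F] [CharP F 2] (h : ℕ) [NeZero h] [QF F h] :
    J1Stmt F h := by
  intro f hf r hr u u' w
  by_cases hw : w = 0
  · have h0 : ∀ v : F × F, ∀ j : ZMod h, gco f j v w = 0 := by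
      intro v j
      unfold gco coef
      apply Finset.sum_eq_zero
      intro x _
      change (fr j x)⁻¹ * Dd f v (x • w) = 0
      rw [hw, smul_zero, Dd_zero f hf.zero, mul_zero]
    simp [h0]
  · have h1 := second (h := h) hf r hr u u' w hw
    have h2 := extract (h := h) (gm f hf u w) (gm f hf u' w) r hr
    have h3 := extract (h := h) (gm f hf u' w) (gm f hf u w) r hr
    have hz : ∀ v : F × F, coef (0 : ZMod h) (gm f hf v w) = 0 := by
      intro v
      have h5 := hf.p0 v w
      unfold coef
      rw [← h5]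
      refine Finset.sum_congr rfl fun x _ => ?_
      rw [fr_zero]
      rfl
    rw [hz u, hz u'] at h2 h3
    simp only [map_zero, mul_zero, zero_add] at h2 h3
    have h4 : ∑ x : F, (x * fr r x)⁻¹ * (Dd f u (x • w) * fr r (Dd f u' (x • w)) +
        Dd f u' (x • w) * fr r (Dd f u (x • w))) =
        coef r (gm f hf u w) * fr r (coef (-r) (gm f hf u' w)) +
        coef r (gm f hf u' w) * fr r (coef (-r) (gm f hf u w)) := by
      rw [← h2, ← h3, ← Finset.sum_add_distrib]
      refine Finset.sum_congr rfl fun x _ => ?_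
      rw [mul_add]
      rfl
    rw [h1] at h4
    have h5 := CharTwo.add_eq_zero.1 h4.symm
    exact h5

end Pool.Agent.H51.QOV
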