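import Pool.Agent.H51.QOV.Stmt

set_option autoImplicit false
set_option linter.unusedSectionVars false

/-!
# Lemma T (board qov, module LT)

If `M_c v = Q(v) Θ_c + c² R(v) θ'`, then all values of `M` lie on one line.
-/

namespace Pool.Agent.H51.QOV

namespace LTaux

variable {F : Type} [Field F] [Fintype F] [CharP F 2] {h : ℕ} [NeZero h]

theorem om_add_l (u u' v : F × F) : om (u + u') v = om u v + om u' v := by
  simp only [om, Prod.fst_add, Prod.snd_add]; ring

theorem om_add_r (u v v' : F × F) : om u (v + v') = om u v + om u v' := by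
  simp only [om, Prod.fst_add, Prod.snd_add]; ring

theorem om_smul_l (x : F) (u v : F × F) : om (x • u) v = x * om u v := by
  simp only [om, Prod.smul_fst, Prod.smul_snd, smul_eq_mul]; ring

theorem om_smul_r (x : F) (u v : F × F) : om u (x • v) = x * om u v := by
  simp only [om, Prod.smul_fst, Prod.smul_snd, smul_eq_mul]; ring

theorem om_self' (u : F × F) : om u u = 0 := by
  simp only [om]
  rw [mul_comm u.2 u.1]
  exact CharTwo.add_self_eq_zero _

theorem om_comm' (u v : F × F) : om u v = om v u := by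
  simp only [om]; ring

theorem om_zero_l (v : F × F) : om 0 v = 0 := by simp [om]

theorem om_zero_r (v : F × F) : om v 0 = 0 := by simp [om]

/-- parallel vectors. -/
theorem par {u v : F × F} (hv : v ≠ 0) (huv : om u v = 0) : ∃ x : F, u = x • v := by
  have h0 : u.1 * v.2 = u.2 * v.1 := by
    have h1 : u.1 * v.2 + u.2 * v.1 = 0 := huv
    have h2 := CharTwo.add_self_eq_zero (u.2 * v.1)
    linear_combination h1 - h2
  by_cases h1 : v.1 = 0
  · have h2 : v.2 ≠ 0 := by
      intro h2; exact hv (Prod.ext h1 h2)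
    refine ⟨u.2 / v.2, Prod.ext ?_ ?_⟩
    · simp only [Prod.smul_fst, smul_eq_mul, h1, mul_zero]
      rw [h1, mul_zero] at h0
      exact (mul_eq_zero.1 h0).resolve_right h2
    · simp only [Prod.smul_snd, smul_eq_mul]
      field_simp
  · refine ⟨u.1 / v.1, Prod.ext ?_ ?_⟩
    · simp only [Prod.smul_fst, smul_eq_mul]
      field_simp
    · simp only [Prod.smul_snd, smul_eq_mul]
      field_simp
      linear_combination (-1 : F) * h0

/-- an additive map which vanishes on two different lines is zero. -/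
theorem two_lines {a b : F × F} (hab : om a b ≠ 0) (Q : F × F →+ F)
    (h1 : ∀ x : F, Q (x • a) = 0) (h2 : ∀ x : F, Q (x • b) = 0) (v : F × F) : Q v = 0 := by
  have e : v = (om v b / om a b) • a + (om v a / om a b) • b := by
    have h3 : ∀ y : F, y + y = 0 := CharTwo.add_self_eq_zero
    refine Prod.ext ?_ ?_
    · simp only [Prod.fst_add, Prod.smul_fst, smul_eq_mul]
      field_simp
      simp only [om]
      linear_combination (-1 : F) * h3 (v.2 * a.1 * b.1)
    · simp only [Prod.snd_add, Prod.smul_snd, smul_eq_mul]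
      field_simp
      simp only [om]
      linear_combination (-1 : F) * h3 (v.1 * a.2 * b.2)
  rw [e, map_add, h1, h2, add_zero]

variable [QF F h]

theorem D_symm (S : Sys F h) (u v : F × F) : S.D u v = S.D v u := by
  have h1 := S.alt (u + v)
  rw [map_add, map_add, AddMonoidHom.add_apply, AddMonoidHom.add_apply, S.alt, S.alt, add_zero,
    zero_add] at h1
  have h2 := CharTwo.add_self_eq_zero (S.D u v)
  have h3 : S.D v u + S.D u v = 0 := by
    exact h1
  linear_combination h2 - h3

theorem M_symm (S : Sys F h) (c : F) (u v : F × F) :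
    tr h (om u (S.M c v)) = tr h (om v (S.M c u)) := by
  rw [S.hM, S.hM, D_symm]

/-- if `u` is orthogonal to all the values `M_c v`, then `M_c u = 0`. -/
theorem M_zero (S : Sys F h) {c : F} {u : F × F} (hu : ∀ v, om u (S.M c v) = 0) :
    S.M c u = 0 := by
  apply om_nondeg (h := h)
  intro v
  rw [M_symm, hu, tr_zero]

/-- the case of one product. -/
theorem one (S : Sys F h) (Q : F × F →+ F) (Θ : F → F × F)
    (hS : ∀ c v, S.M c v = Q v • Θ c) : S.Concl := by
  by_cases hall : ∀ c, Θ c = 0
  · refine ⟨(1, 0), by simp, fun c v => ⟨0, ?_⟩⟩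
    rw [hS, hall]; simp
  push Not at hall
  obtain ⟨c0, hc0⟩ := hall
  by_cases hp : ∀ c, om (Θ c) (Θ c0) = 0
  · refine ⟨Θ c0, hc0, fun c v => ?_⟩
    obtain ⟨x, hx⟩ := par hc0 (hp c)
    refine ⟨Q v * x, ?_⟩
    rw [hS, hx, smul_smul]
  push Not at hp
  obtain ⟨c1, hc1⟩ := hp
  have key : ∀ (c x : F), Q (x • Θ c) = 0 := by
    intro c x
    by_cases h0 : Θ c = 0
    · rw [h0]; simp
    have h1 : S.M c (x • Θ c) = 0 := by
      apply M_zero
      intro v
      rw [hS, om_smul_l, om_smul_r, om_self']; simp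
    rw [hS] at h1
    exact (smul_eq_zero.1 h1).resolve_right h0
  have hQ : ∀ v, Q v = 0 := two_lines hc1 Q (fun x => key c1 x) (fun x => key c0 x)
  refine ⟨(1, 0), by simp, fun c v => ⟨0, ?_⟩⟩
  rw [hS, hQ]; simp

end LTaux

variable {F : Type} [Field F] [Fintype F] [CharP F 2] {h : ℕ} [NeZero h] [QF F h]

open LTaux in
/-- LEMMA T. -/
theorem lt_main : LTStmt F h := by
  intro S Q R Θ θ' hS
  by_cases hθ : θ' = 0
  · refine one S Q (fun c => Θ c) fun c v => ?_
    rw [hS, hθ]; simp
  by_cases hA : ∃ x0 : F, Q (x0 • θ') ≠ 0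
  · obtain ⟨x0, hx0⟩ := hA
    have hR : ∀ v, R v = (R (x0 • θ') / Q (x0 • θ')) * Q v := by
      intro v
      obtain ⟨c, hc, hcv⟩ := S.p1 v
      have h1 : Q v * om θ' (Θ c) = 0 := by
        have h2 : om θ' (S.M c v) = 0 := by rw [hcv, om_zero_r]
        rw [hS, om_add_r, om_smul_r, om_smul_r, om_self', mul_zero, add_zero] at h2
        exact h2
      have h5 := hS c v
      rw [hcv] at h5
      have hc2 : c ^ 2 ≠ 0 := pow_ne_zero 2 hc
      by_cases hq : Q v = 0
      · rw [hq, zero_smul, zero_add] at h5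
        have h6 : c ^ 2 * R v = 0 := (smul_eq_zero.1 h5.symm).resolve_right hθ
        rw [hq, mul_zero]
        exact (mul_eq_zero.1 h6).resolve_left hc2
      · have h3 : om θ' (Θ c) = 0 := (mul_eq_zero.1 h1).resolve_left hq
        have h4 : S.M c (x0 • θ') = 0 := by
          apply M_zero
          intro w
          rw [hS, om_smul_l, om_add_r, om_smul_r, om_smul_r, om_self', h3]; simp
        rw [hS] at h4
        have h7 : (c ^ 2 * (R (x0 • θ') * Q v - R v * Q (x0 • θ'))) • θ' = 0 := by
          have e1 : Q v • (Q (x0 • θ') • Θ c + (c ^ 2 * R (x0 • θ')) • θ') -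
              Q (x0 • θ') • (Q v • Θ c + (c ^ 2 * R v) • θ') = 0 := by
            rw [h4, ← h5]; simp
          rw [← e1]
          module
        have h8 := (smul_eq_zero.1 h7).resolve_right hθ
        have h9 := (mul_eq_zero.1 h8).resolve_left hc2
        field_simp
        linear_combination (-1 : F) * h9
    set z : F := R (x0 • θ') / Q (x0 • θ') with hz
    refine one S Q (fun c => Θ c + (c ^ 2 * z) • θ') fun c v => ?_
    rw [hS, hR v]
    module
  · push Not at hA
    have hR : ∀ x : F, R (x • θ') = 0 := by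
      intro x
      obtain ⟨c, hc, hcv⟩ := S.p1 (x • θ')
      rw [hS, hA, zero_smul, zero_add] at hcv
      have h6 : c ^ 2 * R (x • θ') = 0 := (smul_eq_zero.1 hcv).resolve_right hθ
      exact (mul_eq_zero.1 h6).resolve_left (pow_ne_zero 2 hc)
    refine ⟨θ', hθ, fun c v => par hθ ?_⟩
    rw [om_comm']
    apply tr_nondeg (h := h)
    intro x
    have h1 : om θ' (S.M c v) * x = om (x • θ') (S.M c v) := by
      rw [om_smul_l]; ring
    rw [h1, M_symm, hS, hA, hR]
    simp [om]

end Pool.Agent.H51.QOV
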