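import Pool.Agent.H51.QOV.Stmt

set_option autoImplicit false
set_option linter.unusedSectionVars false

namespace Pool.Agent.H51.QOV

variable (F : Type) [Field F] [Fintype F] [CharP F 2] (h : ℕ) [NeZero h]

theorem om_smul_smul (x y : F) (θ : F × F) : om (x • θ) (y • θ) = 0 := by
  have h2 : (2 : F) = 0 := CharTwo.two_eq_zero
  simp only [om, Prod.smul_fst, Prod.smul_snd, smul_eq_mul]
  linear_combination (x * y * θ.1 * θ.2) * h2

/-- MAIN: all steps together. -/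
theorem MAIN_proof [QF F h] (hSt0 : St0Stmt F) (hSys : SysStmt F h) (hCI : CIStmt F h)
    (hCII : CIIStmt F h) (hCIII : CIIIStmt F h) (hRed : RedStmt F h) (hFR1 : FR1Stmt F h)
    (hFRT : FRTStmt F h) : MainStmt F h := by
  have h2 : (2 : F) = 0 := CharTwo.two_eq_zero
  intro f hq hs
  obtain ⟨b, L1, L2, hb, hnf⟩ := hSt0 f hq hs
  refine ⟨b, L1, L2, hb, ?_⟩
  obtain ⟨S, hS⟩ := hSys _ hnf
  have h1 : ∀ a : ZMod h, a ≠ 0 → a ≠ 1 → a ≠ -1 → Rk1 (S.m a) := fun a h0 h1 h3 => hCI S a h0 h1 h3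
  have h3 : Rk1 (S.m (-1)) := hCII S h1
  have h4 : S.Concl := by
    apply hCIII S
    intro a h0 h1'
    by_cases ha : a = -1
    · rw [ha]; exact h3
    · exact h1 a h0 h1' ha
  obtain ⟨θ, hθ, hθM⟩ := h4
  have h5 : ∀ (x : F) (v : F × F),
      Dd (fun u : F × F => b * (f u + f 0 + L1 * u.1 + L2 * u.2)) (x • θ) v = 0 := by
    intro x v
    rw [← hS]
    apply tr_nondeg (h := h)
    intro c
    rw [mul_comm, ← S.hM]
    obtain ⟨y, hy⟩ := hθM c v
    rw [hy, om_smul_smul, tr_zero]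
  obtain ⟨e1, e2, N, he, hN⟩ := hRed _ hnf θ hθ h5
  by_cases hr : N.r = 1
  · refine ⟨e1, e2, he, Or.inl ?_⟩
    obtain ⟨A, hA⟩ := hFR1 N hr
    refine ⟨A, fun s t => ?_⟩
    have := hN s t
    rw [this, hA, hr, fr_one]
  · obtain ⟨hr2, μ, hμ⟩ := hFRT N hr
    refine ⟨e1 + μ • e2, e2, ?_, Or.inr ⟨N.r, hr2, fun s t => ?_⟩⟩
    · simp only [om, Prod.fst_add, Prod.snd_add, Prod.smul_fst, Prod.smul_snd, smul_eq_mul] at he ⊢
      linear_combination he + (μ * e2.1 * e2.2) * h2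
    · have e : s • (e1 + μ • e2) + t • e2 = s • e1 + (t + μ * s) • e2 := by
        rw [smul_add, smul_smul, add_smul, mul_comm s μ]
        abel
      rw [e]
      have := hN s (t + μ * s)
      rw [this, hμ, map_add, map_mul]
      linear_combination (μ * s ^ 2 + fr N.r μ * fr N.r s) * h2

end Pool.Agent.H51.QOV
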