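import Pool.Agent.H51.QOV.Stmt

set_option autoImplicit false
set_option linter.unusedSectionVars false

/-!
# PAY: an additive map `k` of a finite field of characteristic two for which `t ↦ k t / t` permutes
the non-zero elements is a monomial (Payne).
-/

namespace Pool.Agent.H51.QOV

open Finset

namespace PAY

variable {F : Type} [Field F] [Fintype F] [CharP F 2] {h : ℕ} [NeZero h]

theorem sum_P_univ : ∑ a : ZMod h, P a = 0 := by
  have h1 : ∑ a : ZMod h, P (a + 1) = ∑ a : ZMod h, P a :=
    Fintype.sum_equiv (Equiv.addRight 1) _ _ (fun b => rfl)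
  have h2 : ∑ a : ZMod h, P (a + 1) = ∑ a : ZMod h, P a + ∑ a : ZMod h, P a := by
    rw [← Finset.sum_add_distrib]
    exact Finset.sum_congr rfl fun a _ => (P_succ a).symm
  have h3 := h1.symm.trans h2
  linear_combination -h3

/-- a multiset with the `P`-sum of a proper non-empty subset `K` has at least `|K|` elements, with
equality only for `K` itself. -/
theorem mset {K : Finset (ZMod h)} (hK0 : K ≠ ∅) (hK : K ≠ univ) :
    ∀ (n : ℕ) (l : Multiset (ZMod h)), Multiset.card l = n → (l.map P).sum = ∑ a ∈ K, P a →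
      K.card ≤ Multiset.card l ∧ (Multiset.card l = K.card → l = K.val) := by
  classical
  intro n
  induction n using Nat.strong_induction_on with
  | _ n ih =>
  intro l hl hs
  by_cases hnd : l.Nodup
  · let T : Finset (ZMod h) := ⟨l, hnd⟩
    have hT : ∑ a ∈ T, P a = ∑ a ∈ K, P a := hs
    have hTu : T ≠ univ := by
      intro hu
      rw [hu, sum_P_univ] at hT
      apply hK0
      symm
      apply P_sum_inj (h := h) _ hK
      · simpa using hT
      · intro h0
        exact absurd (Finset.mem_univ (0 : ZMod h)) (by rw [← h0]; simp)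
    have e : T = K := P_sum_inj hTu hK hT
    have e2 : l = K.val := congrArg Finset.val e
    refine ⟨by rw [e2]; exact le_refl _, fun _ => e2⟩
  · rw [Multiset.nodup_iff_count_le_one] at hnd
    push Not at hnd
    obtain ⟨a, ha⟩ := hnd
    have h2 : 2 ≤ l.count a := ha
    rw [Multiset.le_count_iff_replicate_le, Multiset.le_iff_exists_add] at h2
    obtain ⟨l', rfl⟩ := h2
    have hc : Multiset.card ((a + 1) ::ₘ l') + 1 = n := by
      rw [← hl]
      simp
    have := ih (Multiset.card ((a + 1) ::ₘ l')) (by omega) ((a + 1) ::ₘ l') rfl (by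
      rw [← hs, Multiset.map_cons, Multiset.sum_cons, ← P_succ]
      simp [Multiset.replicate_succ]
      ring)
    refine ⟨by omega, fun h3 => ?_⟩
    omega

theorem orthF [QF F h] {L : ℕ} (hL : 0 < L) (φ σ : Fin L → ZMod h) :
    ∑ x : F, (∏ a, fr (φ a) x) * (∏ a, fr (σ a) x)⁻¹ =
      if ∑ a, P (φ a) = ∑ a, P (σ a) then 1 else 0 := by
  have h1 : ∀ ψ : Fin L → ZMod h, List.ofFn ψ ≠ [] := by
    intro ψ h0
    have := congrArg List.length h0
    rw [List.length_ofFn] at this
    simp at this
    omega
  have := orthL (F := F) (List.ofFn φ) (List.ofFn σ) (h1 φ) (h1 σ)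
  simpa [List.map_ofFn, List.prod_ofFn, List.sum_ofFn, Function.comp_def] using this

theorem expand [QF F h] (k : F →+ F) {L : ℕ} (hL : 0 < L) (σ : Fin L → ZMod h) :
    ∑ t : F, ∏ a, fr (σ a) (t⁻¹ * k t) =
      ∑ φ : Fin L → ZMod h, (∏ a, fr (σ a) (coef (φ a - σ a) k)) *
        (if ∑ a, P (φ a) = ∑ a, P (σ a) then 1 else 0) := by
  have e1 : ∀ t : F, ∏ a, fr (σ a) (t⁻¹ * k t) =
      ∑ φ : Fin L → ZMod h, (∏ a, fr (σ a) (coef (φ a - σ a) k)) *
        ((∏ a, fr (φ a) t) * (∏ a, fr (σ a) t)⁻¹) := by
    intro t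
    have e2 : ∀ a, fr (σ a) (t⁻¹ * k t) =
        (fr (σ a) t)⁻¹ * ∑ b : ZMod h, fr (σ a) (coef (b - σ a) k) * fr b t := by
      intro a
      rw [map_mul, map_inv₀]
      congr 1
      rw [lin_rep (h := h) k t, map_sum]
      refine Fintype.sum_equiv (Equiv.addRight (σ a)) _ _ ?_
      intro j
      rw [map_mul, ← fr_add, Equiv.coe_addRight, add_sub_cancel_right, add_comm]
    simp only [e2]
    rw [Finset.prod_mul_distrib, Finset.prod_univ_sum, Fintype.piFinset_univ, Finset.mul_sum]
    refine sum_congr rfl fun φ _ => ?_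
    rw [Finset.prod_mul_distrib, Finset.prod_inv_distrib]
    ring
  simp only [e1]
  rw [sum_comm]
  refine sum_congr rfl fun φ _ => ?_
  rw [← mul_sum, orthF hL]

/-- closed walks -/
def Wk (h : ℕ) [NeZero h] (k : F →+ F) (L : ℕ) : Prop :=
  ∃ s : ℕ → ZMod h, s L = s 0 ∧ ∀ a < L, coef (s (a + 1) - s a) k ≠ 0

theorem no_walk [QF F h] (k : F →+ F) (hk0 : ∀ t, t ≠ 0 → k t ≠ 0)
    (hk1 : ∀ t s, t ≠ 0 → s ≠ 0 → t⁻¹ * k t = s⁻¹ * k s → t = s) (L : ℕ) :
    0 < L → L < h → ¬ Wk h k L := by
  classical
  induction L using Nat.strong_induction_on with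
  | _ L ih =>
  intro hL0 hLh
  rintro ⟨s0, hs0, hs1⟩
  -- periodic version
  let s : ℕ → ZMod h := fun n => s0 (n % L)
  have sL : ∀ a, s (a + L) = s a := by intro a; simp [s]
  have sk : ∀ a, coef (s (a + 1) - s a) k ≠ 0 := by
    intro a
    have hlt : a % L < L := Nat.mod_lt _ hL0
    have e : s (a + 1) = s0 (a % L + 1) := by
      change s0 ((a + 1) % L) = _
      by_cases h1 : a % L + 1 < L
      · congr 1
        rw [← Nat.mod_add_mod, Nat.mod_eq_of_lt h1]
      · have h2 : a % L + 1 = L := by omega
        rw [h2, hs0]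
        congr 1
        rw [← Nat.mod_add_mod, h2, Nat.mod_self]
    rw [e]
    exact hs1 _ hlt
  have chord : ∀ a b, a < b → b ≤ a + L → coef (s b - s a) k ≠ 0 → b = a + 1 := by
    intro a b hab hbL hc
    by_contra hne
    have hw : Wk h k (1 + (a + L - b)) := by
      refine ⟨fun n => if n = 0 then s a else s (b + (n - 1)), ?_, ?_⟩
      · have e1 : (1 + (a + L - b)) ≠ 0 := by omega
        have e2 : b + (1 + (a + L - b) - 1) = a + L := by omega
        simp only [e1, if_false, e2, if_true, sL]
      · intro n hn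
        by_cases n0 : n = 0
        · subst n0
          simpa using hc
        · have e1 : n + 1 ≠ 0 := by omega
          have e2 : b + (n + 1 - 1) = (b + (n - 1)) + 1 := by omega
          simp only [e1, n0, if_false, e2]
          exact sk _
    exact ih _ (by omega) (by omega) (by omega) hw
  have sinj : ∀ a b, a < b → b < L → s a ≠ s b := by
    intro a b hab hbL he
    have hw : Wk h k (b - a) := by
      refine ⟨fun n => s (a + n), ?_, ?_⟩
      · have e2 : a + (b - a) = b := by omega
        simp only [e2, add_zero]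
        exact he.symm
      · intro n hn
        exact sk _
    exact ih _ (by omega) (by omega) (by omega) hw
  let σ : Fin L → ZMod h := fun a => s a
  let ψ : Fin L → ZMod h := fun a => s (a + 1)
  have hσ : Function.Injective σ := by
    intro a b hab
    by_contra hne
    rcases lt_or_gt_of_ne (fun h => hne (Fin.ext h) : (a : ℕ) ≠ b) with h1 | h1
    · exact sinj a b h1 b.2 hab
    · exact sinj b a h1 a.2 hab.symm
  let K : Finset (ZMod h) := univ.image σ
  have hKc : K.card = L := by
    rw [Finset.card_image_of_injective _ hσ]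
    simp
  have hKu : K ≠ univ := by
    intro h0
    have : K.card = h := by rw [h0, Finset.card_univ, ZMod.card]
    omega
  have hK0 : K ≠ ∅ := by
    intro h0
    rw [h0, Finset.card_empty] at hKc
    omega
  have hKP : ∑ a ∈ K, P a = ∑ a, P (σ a) := by
    rw [Finset.sum_image (fun x _ y _ hxy => hσ hxy)]
  -- power sum side
  have hbij : Function.Bijective (fun t : F => t⁻¹ * k t) := by
    apply Finite.injective_iff_bijective.1
    intro x y hxy
    simp only at hxy
    by_cases hx : x = 0
    · by_cases hy : y = 0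
      · rw [hx, hy]
      · exfalso
        rw [hx, inv_zero, zero_mul, eq_comm, mul_eq_zero] at hxy
        rcases hxy with h1 | h1
        · exact hy (inv_eq_zero.1 h1)
        · exact hk0 y hy h1
    · by_cases hy : y = 0
      · exfalso
        rw [hy, inv_zero, zero_mul, mul_eq_zero] at hxy
        rcases hxy with h1 | h1
        · exact hx (inv_eq_zero.1 h1)
        · exact hk0 x hx h1
      · exact hk1 x y hx hy hxy
  have hzero : ∑ t : F, ∏ a, fr (σ a) (t⁻¹ * k t) = 0 := by
    rw [Fintype.sum_bijective _ hbij (fun t => ∏ a, fr (σ a) (t⁻¹ * k t))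
      (fun y => ∏ a, fr (σ a) y) (fun t => rfl)]
    have e : ∀ y : F, ∏ a, fr (σ a) y = y ^ (∑ a ∈ K, 2 ^ a.val) := by
      intro y
      rw [Finset.sum_image (fun x _ y _ hxy => hσ hxy), ← Finset.prod_pow_eq_pow_sum]
      exact Finset.prod_congr rfl fun a _ => fr_def _ _
    simp only [e]
    apply FiniteField.sum_pow_lt_card_sub_one
    rw [QF.card (F := F) (h := h)]
    exact sum_two_pow_lt hKu
  -- expansion side
  rw [expand k hL0 σ] at hzero
  rw [Finset.sum_eq_single ψ] at hzero
  · have hshift : ∑ a, P (ψ a) = ∑ a, P (σ a) := by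
      change ∑ a : Fin L, P (s ((a : ℕ) + 1)) = ∑ a : Fin L, P (s (a : ℕ))
      rw [Fin.sum_univ_eq_sum_range (fun a => P (s (a + 1))) L,
        Fin.sum_univ_eq_sum_range (fun a => P (s a)) L]
      have e1 := Finset.sum_range_succ (fun a => P (s a)) L
      have e2 := Finset.sum_range_succ' (fun a => P (s a)) L
      have e3 : s L = s 0 := by
        have := sL 0
        rwa [zero_add] at this
      rw [e3] at e1
      exact add_right_cancel (e2.symm.trans e1)
    rw [if_pos hshift, mul_one] at hzero
    rw [Finset.prod_eq_zero_iff] at hzero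
    obtain ⟨a, _, ha⟩ := hzero
    rw [fr_eq_zero] at ha
    exact sk a ha
  · intro φ _ hφ
    by_contra hne
    apply hφ
    have h1 : ∑ a, P (φ a) = ∑ a, P (σ a) := by
      by_contra h2
      rw [if_neg h2, mul_zero] at hne
      exact hne rfl
    rw [if_pos h1, mul_one] at hne
    have h2 : ∀ a, coef (φ a - σ a) k ≠ 0 := by
      intro a h0
      apply hne
      apply Finset.prod_eq_zero (Finset.mem_univ a)
      rw [h0, map_zero]
    have h3 := (mset hK0 hKu L (univ.val.map φ) (by simp) (by
      rw [Multiset.map_map, hKP, ← h1]; rfl)).2 (by rw [hKc]; simp)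
    funext a
    have h4 : φ a ∈ K := by
      rw [← Finset.mem_val, ← h3]
      exact Multiset.mem_map_of_mem _ (Finset.mem_univ a)
    obtain ⟨b, _, hb⟩ := Finset.mem_image.1 h4
    have h5 := h2 a
    rw [← hb] at h5
    rw [← hb]
    change s (b : ℕ) = s ((a : ℕ) + 1)
    by_cases hab : (a : ℕ) < b
    · rw [chord a b hab (by have := b.2; omega) h5]
    · have e : s ((b : ℕ) + L) = s b := sL _
      have h6 : coef (s ((b : ℕ) + L) - s a) k ≠ 0 := by rw [e]; exact h5
      have := chord a (b + L) (by have := a.2; omega) (by omega) h6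
      rw [← e, this]
  · intro h0
    exact absurd (Finset.mem_univ _) h0

end PAY

theorem PAY_proof (F : Type) [Field F] [Fintype F] [CharP F 2] (h : ℕ) [NeZero h] [QF F h] :
    PayStmt F h := by
  classical
  intro k hk0 hk1
  have nw := PAY.no_walk (h := h) k hk0 hk1
  have h4 := QF.four (F := F) (h := h)
  obtain ⟨r, hr⟩ : ∃ r : ZMod h, coef r k ≠ 0 := by
    by_contra hh
    push Not at hh
    apply hk0 1 one_ne_zero
    rw [lin_rep (h := h) k 1]
    exact Finset.sum_eq_zero fun b _ => by rw [hh b, zero_mul]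
  have hz : coef (0 : ZMod h) k = 0 := by
    by_contra hne
    exact nw 1 one_pos (by omega) ⟨fun _ => 0, rfl, fun a _ => by simpa using hne⟩
  have hr0 : r ≠ 0 := by
    rintro rfl
    exact hr hz
  have hinj : ∀ a b : ℕ, a < b → b < h → (a : ℕ) • r ≠ b • r := by
    intro a b hab hb he
    refine nw (b - a) (by omega) (by omega) ⟨fun n => (a + n) • r, ?_, ?_⟩
    · have e : a + (b - a) = b := by omega
      simp only [e, add_zero]
      exact he.symm
    · intro n _
      have e : (a + (n + 1)) • r - (a + n) • r = r := by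
        rw [← add_assoc, succ_nsmul]
        abel
      simp only [e]
      exact hr
  have hsurj : ∀ x : ZMod h, ∃ l : Fin h, (l : ℕ) • r = x := by
    have hi : Function.Injective (fun l : Fin h => (l : ℕ) • r) := by
      intro a b hab
      by_contra hne
      rcases lt_or_gt_of_ne (fun h => hne (Fin.ext h) : (a : ℕ) ≠ b) with h1 | h1
      · exact hinj a b h1 b.2 hab
      · exact hinj b a h1 a.2 hab.symm
    have hb := (Fintype.bijective_iff_injective_and_card (fun l : Fin h => (l : ℕ) • r)).2
      ⟨hi, by rw [Fintype.card_fin, ZMod.card]⟩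
    exact fun x => hb.2 x
  have hu : ∀ r' : ZMod h, r' ≠ r → coef r' k = 0 := by
    intro r' hne
    by_contra hr'
    obtain ⟨l, hl⟩ := hsurj r'
    have hl0 : (l : ℕ) ≠ 0 := by
      intro h0
      rw [h0, zero_nsmul] at hl
      rw [← hl] at hr'
      exact hr' hz
    have hl1 : (l : ℕ) ≠ 1 := by
      intro h0
      rw [h0, one_nsmul] at hl
      exact hne hl.symm
    have hlh := l.2
    refine nw (1 + (h - l)) (by omega) (by omega)
      ⟨fun n => if n = 0 then 0 else ((l : ℕ) + (n - 1)) • r, ?_, ?_⟩
    · have e1 : (1 + (h - (l : ℕ))) ≠ 0 := by omega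
      have e2 : (l : ℕ) + (1 + (h - (l : ℕ)) - 1) = h := by omega
      simp only [e1, if_false, e2, if_true, nsmul_eq_mul, CharP.cast_eq_zero, zero_mul]
    · intro n hn
      by_cases n0 : n = 0
      · subst n0
        simp only [zero_add, one_ne_zero, if_false, if_true, Nat.sub_self, add_zero, sub_zero]
        rw [hl]
        exact hr'
      · have e1 : n + 1 ≠ 0 := by omega
        have e2 : (l : ℕ) + (n + 1 - 1) = ((l : ℕ) + (n - 1)) + 1 := by omega
        simp only [e1, n0, if_false, e2]
        have e : ((l : ℕ) + (n - 1) + 1) • r - ((l : ℕ) + (n - 1)) • r = r := by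
          rw [succ_nsmul]
          abel
        rw [e]
        exact hr
  refine ⟨coef r k, r, hr, hr0, fun t => ?_⟩
  rw [lin_rep (h := h) k t]
  rw [Finset.sum_eq_single r]
  · intro b _ hb
    rw [hu b hb, zero_mul]
  · intro h0
    exact absurd (Finset.mem_univ _) h0

end Pool.Agent.H51.QOV
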