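import Pool.Agent.H51.QOV.Stmt

/-!
# PLANE: counting the points of an ovoid in the planes
-/

set_option autoImplicit false
set_option linter.unusedSectionVars false

namespace Pool.Agent.H51.QOV

open Finset

namespace Pla

variable {F : Type} [Field F] [Fintype F] [CharP F 2]

theorem dbl (x : F) : x + x = 0 := CharTwo.add_self_eq_zero x

theorem sum_id (hq : 4 ≤ Fintype.card F) : ∑ x : F, x = 0 := by
  have := FiniteField.sum_pow_lt_card_sub_one F 1 (by omega)
  simpa using this

/-- the missing slope. -/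
theorem miss {f : F × F → F} (hf : Slope f) (hq : 4 ≤ Fintype.card F) (u w : F × F) (hw : w ≠ 0)
    (y : F) : (∃ x : F, x ≠ 0 ∧ x⁻¹ * (f (u + x • w) + f u) = y) ↔
      y ≠ ∑ x : F, x⁻¹ * (f (u + x • w) + f u) := by
  classical
  obtain ⟨g, hg⟩ : ∃ g : F → F, g = fun x => x⁻¹ * (f (u + x • w) + f u) := ⟨_, rfl⟩
  have hgx : ∀ x, x⁻¹ * (f (u + x • w) + f u) = g x := fun x => by rw [hg]
  simp only [hgx]
  have hinj : Set.InjOn g ((univ.erase (0 : F) : Finset F) : Set F) := by
    intro x hx z hz hxz
    have hx' : x ≠ 0 := by simpa using hx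
    have hz' : z ≠ 0 := by simpa using hz
    rw [← hgx, ← hgx] at hxz
    exact hf u w hw x z hx' hz' hxz
  obtain ⟨T, hT⟩ : ∃ T, T = (univ.erase (0 : F)).image g := ⟨_, rfl⟩
  have hTc : T.card = Fintype.card F - 1 := by
    rw [hT, card_image_of_injOn hinj, card_erase_of_mem (mem_univ _), card_univ]
  have hg0 : g 0 = 0 := by
    rw [← hgx, inv_zero, zero_mul]
  have hsum : ∑ x, g x = ∑ z ∈ T, z := by
    rw [hT, sum_image hinj]
    rw [← Finset.sum_erase_add univ g (mem_univ 0), hg0, add_zero]
  have hc : (univ \ T).card = 1 := by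
    rw [card_sdiff_of_subset (subset_univ T), card_univ, hTc]
    omega
  obtain ⟨l, hl⟩ := card_eq_one.1 hc
  have hs : ∑ z ∈ univ \ T, z + ∑ z ∈ T, z = ∑ z : F, z := sum_sdiff (subset_univ T)
  rw [hl, sum_singleton, sum_id hq] at hs
  have hl2 : ∑ z ∈ T, z = l := (CharTwo.add_eq_zero.1 hs).symm
  rw [hsum, hl2]
  have h1 : y ∈ T ↔ ∃ x : F, x ≠ 0 ∧ g x = y := by
    rw [hT, mem_image]
    simp only [mem_erase, mem_univ, and_true]
  rw [← h1]
  have h2 : y ∈ univ \ T ↔ y = l := by rw [hl, mem_singleton]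
  rw [mem_sdiff] at h2
  constructor
  · intro h3 h4
    exact (h2.2 h4).2 h3
  · intro h3
    by_contra h4
    exact h3 (h2.1 ⟨mem_univ _, h4⟩)

/-- the zeros of a binary quadratic form with a mixed term. -/
theorem zeros (κ a c : F) (hκ : κ ≠ 0) [DecidableEq F] :
    (univ.filter fun w : F × F => w ≠ 0 ∧ κ ^ 2 * (w.1 * w.2) + (a * w.1 + c * w.2) ^ 2 = 0).card =
      0 ∨
    (univ.filter fun w : F × F => w ≠ 0 ∧ κ ^ 2 * (w.1 * w.2) + (a * w.1 + c * w.2) ^ 2 = 0).card =
      2 * (Fintype.card F - 1) := by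
  -- the zeros with second coordinate `≠ 0`, and the zeros on the first axis
  obtain ⟨R, hR⟩ : ∃ R : Finset F, R = univ.filter fun z : F => κ ^ 2 * z + (a * z + c) ^ 2 = 0 :=
    ⟨_, rfl⟩
  obtain ⟨E, hE⟩ : ∃ E : Finset F, E = univ.filter fun y : F => y ≠ 0 ∧ a = 0 := ⟨_, rfl⟩
  have hcard : (univ.filter fun w : F × F => w ≠ 0 ∧
      κ ^ 2 * (w.1 * w.2) + (a * w.1 + c * w.2) ^ 2 = 0).card =
      E.card + (R ×ˢ (univ.erase (0 : F))).card := by
    have e1 : (univ.filter fun w : F × F => w ≠ 0 ∧
      κ ^ 2 * (w.1 * w.2) + (a * w.1 + c * w.2) ^ 2 = 0) =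
      (E.image fun y => (y, (0 : F))) ∪
        ((R ×ˢ (univ.erase (0 : F))).image fun p => (p.1 * p.2, p.2)) := by
      ext ⟨w1, w2⟩
      simp only [mem_filter, mem_univ, true_and, mem_union, mem_image, hE, hR, mem_product,
        mem_erase, ne_eq, and_true, Prod.mk_eq_zero, Prod.exists, Prod.mk.injEq]
      constructor
      · rintro ⟨h1, h2⟩
        by_cases h3 : w2 = 0
        · left
          refine ⟨w1, ⟨fun h4 => h1 ⟨h4, h3⟩, ?_⟩, rfl, h3.symm⟩
          have h4 : w1 ≠ 0 := fun h4 => h1 ⟨h4, h3⟩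
          rw [h3, mul_zero, mul_zero, zero_add, mul_zero, add_zero] at h2
          have h5 := pow_eq_zero_iff (two_ne_zero) |>.1 h2
          exact (mul_eq_zero.1 h5).resolve_right h4
        · right
          refine ⟨w1 / w2, w2, ⟨?_, h3⟩, by field_simp, rfl⟩
          have h4 : w2 ^ 2 * (κ ^ 2 * (w1 / w2) + (a * (w1 / w2) + c) ^ 2) = 0 := by
            rw [← h2]
            field_simp
          exact (mul_eq_zero.1 h4).resolve_left (pow_ne_zero 2 h3)
      · rintro (⟨y, ⟨h1, h2⟩, h3, h4⟩ | ⟨z, y, ⟨h1, h2⟩, h3, h4⟩)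
        · subst h3 h4
          refine ⟨fun h5 => h1 h5.1, ?_⟩
          rw [h2]
          ring
        · subst h3 h4
          refine ⟨fun h5 => h2 h5.2, ?_⟩
          have : κ ^ 2 * (z * y * y) + (a * (z * y) + c * y) ^ 2 =
              y ^ 2 * (κ ^ 2 * z + (a * z + c) ^ 2) := by ring
          rw [this, h1, mul_zero]
    rw [e1, card_union_of_disjoint, card_image_of_injective, card_image_of_injOn]
    · rintro ⟨z, y⟩ hz ⟨z', y'⟩ hz' heq
      simp only [coe_product, Set.mem_prod, mem_coe, mem_erase, mem_univ, and_true] at hz hz'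
      simp only [Prod.mk.injEq] at heq
      obtain ⟨h1, h2⟩ := heq
      subst h2
      rw [Prod.mk.injEq]
      exact ⟨mul_right_cancel₀ hz.2 h1, rfl⟩
    · intro y y' h
      simpa using h
    · rw [Finset.disjoint_left]
      rintro ⟨w1, w2⟩ h1 h2
      simp only [mem_image, Prod.mk.injEq, mem_product, mem_erase, mem_univ, and_true,
        Prod.exists] at h1 h2
      obtain ⟨y, _, _, h3⟩ := h1
      obtain ⟨z, y', ⟨_, h4⟩, _, h5⟩ := h2
      exact h4 (by rw [h5, ← h3])
  rw [hcard, card_product, card_erase_of_mem (mem_univ _), card_univ]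
  by_cases ha : a = 0
  · right
    have h1 : E.card = Fintype.card F - 1 := by
      have : E = univ.erase (0 : F) := by
        rw [hE]
        ext y
        simp [ha]
      rw [this, card_erase_of_mem (mem_univ _), card_univ]
    have h2 : R.card = 1 := by
      rw [card_eq_one]
      refine ⟨c ^ 2 / κ ^ 2, ?_⟩
      rw [hR]
      ext z
      simp only [mem_filter, mem_univ, true_and, mem_singleton]
      rw [ha, zero_mul, zero_add, CharTwo.add_eq_zero, eq_div_iff (pow_ne_zero 2 hκ), mul_comm]
    rw [h1, h2]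
    ring
  · have h1 : E.card = 0 := by
      rw [card_eq_zero, hE]
      ext y
      simp [ha]
    rw [h1, zero_add]
    have ha2 : a ^ 2 ≠ 0 := pow_ne_zero 2 ha
    have hκ2 : κ ^ 2 ≠ 0 := pow_ne_zero 2 hκ
    rcases R.eq_empty_or_nonempty with h2 | ⟨z, hz⟩
    · left
      rw [h2, card_empty, zero_mul]
    · right
      have h3 : R = {z, z + κ ^ 2 / a ^ 2} := by
        have hz' : κ ^ 2 * z + (a * z + c) ^ 2 = 0 := by
          rw [hR, mem_filter] at hz
          exact hz.2
        rw [hR]
        ext y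
        simp only [mem_filter, mem_univ, true_and, mem_insert, mem_singleton]
        have key : (κ ^ 2 * y + (a * y + c) ^ 2) =
            (y + z) * (κ ^ 2 + a ^ 2 * (y + z)) := by
          have e2 : κ ^ 2 * y + (a * y + c) ^ 2 + (κ ^ 2 * z + (a * z + c) ^ 2) =
              (y + z) * (κ ^ 2 + a ^ 2 * (y + z)) := by
            have e3 : (a * y + c) ^ 2 = a ^ 2 * y ^ 2 + c ^ 2 := by
              rw [add_pow_char, mul_pow]
            have e4 : (a * z + c) ^ 2 = a ^ 2 * z ^ 2 + c ^ 2 := by
              rw [add_pow_char, mul_pow]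
            have e5 : (y + z) * (κ ^ 2 + a ^ 2 * (y + z)) =
                κ ^ 2 * (y + z) + a ^ 2 * (y + z) ^ 2 := by ring
            rw [e5, CharTwo.add_sq y z, e3, e4]
            linear_combination dbl (c ^ 2)
          rw [← e2, hz', add_zero]
        rw [key, mul_eq_zero]
        constructor
        · rintro (h4 | h4)
          · left
            exact CharTwo.add_eq_zero.1 h4
          · right
            have h5 : κ ^ 2 = a ^ 2 * (y + z) := CharTwo.add_eq_zero.1 h4
            have h6 : y + z = κ ^ 2 / a ^ 2 := by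
              rw [eq_div_iff ha2, mul_comm]
              exact h5.symm
            rw [← h6]
            linear_combination -(dbl z)
        · rintro (h4 | h4)
          · left
            rw [h4]
            exact dbl z
          · right
            have h6 : y + z = κ ^ 2 / a ^ 2 := by
              rw [h4]
              linear_combination dbl z
            rw [h6, mul_div_cancel₀ _ ha2]
            exact dbl _
      have h4 : z ≠ z + κ ^ 2 / a ^ 2 := by
        intro h5
        have h6 : κ ^ 2 / a ^ 2 = 0 := by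
          have := h5
          linear_combination -this
        exact (div_ne_zero hκ2 ha2) h6
      rw [h3, card_pair h4]

/-- solutions of a linear equation. -/
theorem lin_card [DecidableEq F] (d : F × F) (hd : d ≠ 0) (c : F) :
    (univ.filter fun p : F × F => p.1 * d.1 + p.2 * d.2 = c).card = Fintype.card F := by
  obtain ⟨d1, d2⟩ := d
  by_cases h1 : d1 = 0
  · have h2 : d2 ≠ 0 := fun h2 => hd (by rw [h1, h2]; rfl)
    rw [← card_univ]
    symm
    refine card_bij (fun x _ => (x, c / d2)) ?_ ?_ ?_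
    · intro x _
      simp only [mem_filter, mem_univ, true_and, h1, mul_zero, zero_add]
      field_simp
    · intro x _ y _ h
      simpa using h
    · rintro ⟨p1, p2⟩ hp
      simp only [mem_filter, mem_univ, true_and, h1, mul_zero, zero_add] at hp
      refine ⟨p1, mem_univ _, ?_⟩
      rw [Prod.mk.injEq]
      exact ⟨rfl, by rw [← hp]; field_simp⟩
  · rw [← card_univ]
    symm
    refine card_bij (fun x _ => ((c - x * d2) / d1, x)) ?_ ?_ ?_
    · intro x _
      simp only [mem_filter, mem_univ, true_and]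
      field_simp
      ring
    · intro x _ y _ h
      simp only [Prod.mk.injEq] at h
      exact h.2
    · rintro ⟨p1, p2⟩ hp
      simp only [mem_filter, mem_univ, true_and] at hp
      refine ⟨p2, mem_univ _, ?_⟩
      rw [Prod.mk.injEq]
      exact ⟨by rw [← hp]; field_simp; ring, rfl⟩

/-- on the plane `(A, B, C)`. -/
def On (f : F × F → F) (p : F × F × F) (u : F × F) : Prop :=
  f u = p.1 * u.1 + p.2.1 * u.2 + p.2.2

/-- the number of the points in a plane which has a point. -/
theorem plane_card [DecidableEq F] {f : F × F → F} (hf : Slope f) (hq : 4 ≤ Fintype.card F)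
    {κ α β b : F} (hκ : κ ≠ 0)
    (hl : ∀ u w : F × F, (∑ x : F, x⁻¹ * (f (u + x • w) + f u)) ^ 2 =
      κ ^ 2 * (w.1 * w.2) + (α * w.1 + β * w.2) ^ 2 + (b * om u w) ^ 2)
    (p : F × F × F) {u : F × F} (hu : On f p u) [DecidablePred (On f p)] :
    (univ.filter (On f p)).card = Fintype.card F ∨
      (univ.filter (On f p)).card = Fintype.card F + 2 := by
  classical
  obtain ⟨A, B, C⟩ := p
  obtain ⟨N, hN⟩ : ∃ N, N = univ.filter (On f (A, B, C)) := ⟨_, rfl⟩
  rw [← hN]
  have hmem : ∀ v, v ∈ N ↔ f v = A * v.1 + B * v.2 + C := fun v => by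
    rw [hN, mem_filter]
    exact ⟨fun h => h.2, fun h => ⟨mem_univ _, h⟩⟩
  have huN : u ∈ N := (hmem u).2 hu
  have hu' : f u = A * u.1 + B * u.2 + C := hu
  -- the directions with a second point
  obtain ⟨W, hW⟩ : ∃ W : Finset (F × F), W = univ.filter fun w : F × F => w ≠ 0 ∧
      ∑ x : F, x⁻¹ * (f (u + x • w) + f u) ≠ A * w.1 + B * w.2 := ⟨_, rfl⟩
  obtain ⟨Z, hZ⟩ : ∃ Z : Finset (F × F), Z = univ.filter fun w : F × F => w ≠ 0 ∧
      ∑ x : F, x⁻¹ * (f (u + x • w) + f u) = A * w.1 + B * w.2 := ⟨_, rfl⟩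
  have hWZ : W.card + Z.card = Fintype.card F * Fintype.card F - 1 := by
    rw [← card_union_of_disjoint]
    · have e1 : W ∪ Z = univ.erase (0 : F × F) := by
        ext w
        rw [hW, hZ]
        simp only [mem_union, mem_filter, mem_univ, true_and, mem_erase, and_true]
        tauto
      rw [e1, card_erase_of_mem (mem_univ _), card_univ, Fintype.card_prod]
    · rw [Finset.disjoint_left]
      intro w h1 h2
      rw [hW, mem_filter] at h1
      rw [hZ, mem_filter] at h2
      exact h1.2.2 h2.2.2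
  have hZc : Z.card = 0 ∨ Z.card = 2 * (Fintype.card F - 1) := by
    have e1 : Z = univ.filter fun w : F × F => w ≠ 0 ∧
        κ ^ 2 * (w.1 * w.2) + ((α + b * u.2 + A) * w.1 + (β + b * u.1 + B) * w.2) ^ 2 = 0 := by
      rw [hZ]
      ext w
      simp only [mem_filter, mem_univ, true_and]
      refine and_congr_right fun _ => ?_
      have e2 : κ ^ 2 * (w.1 * w.2) + ((α + b * u.2 + A) * w.1 + (β + b * u.1 + B) * w.2) ^ 2 =
          ((∑ x : F, x⁻¹ * (f (u + x • w) + f u)) + (A * w.1 + B * w.2)) ^ 2 := by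
        have e3 : (α + b * u.2 + A) * w.1 + (β + b * u.1 + B) * w.2 =
            (α * w.1 + β * w.2) + b * om u w + (A * w.1 + B * w.2) := by
          unfold om
          ring
        rw [e3, CharTwo.add_sq (α * w.1 + β * w.2 + b * om u w),
          CharTwo.add_sq (α * w.1 + β * w.2) (b * om u w),
          CharTwo.add_sq (∑ x : F, x⁻¹ * (f (u + x • w) + f u)), hl]
        ring
      rw [e2, pow_eq_zero_iff two_ne_zero, CharTwo.add_eq_zero]
    rw [e1]
    exact zeros κ _ _ hκ
  have hWN : W.card = (N.erase u).card * (Fintype.card F - 1) := by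
    have e0 : (univ.erase (0 : F)).card = Fintype.card F - 1 := by
      rw [card_erase_of_mem (mem_univ _), card_univ]
    rw [← e0, ← card_product]
    symm
    refine card_bij (fun p _ => p.2 • (p.1 + u)) ?_ ?_ ?_
    · rintro ⟨v, y⟩ hv
      simp only [mem_product, mem_erase, mem_univ, and_true] at hv
      obtain ⟨⟨hvu, hv⟩, hy⟩ := hv
      have hw : y • (v + u) ≠ 0 := by
        refine smul_ne_zero hy ?_
        intro h1
        apply hvu
        have h2 : v + u + u = u := by rw [h1, zero_add]
        rw [add_assoc] at h2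
        have h3 : u + u = 0 := Prod.ext (dbl _) (dbl _)
        rwa [h3, add_zero] at h2
      rw [hW, mem_filter]
      refine ⟨mem_univ _, hw, ?_⟩
      have h4 := (miss hf hq u (y • (v + u)) hw (A * (y • (v + u)).1 + B * (y • (v + u)).2)).1
        ⟨y⁻¹, inv_ne_zero hy, ?_⟩
      · exact fun h5 => h4 h5.symm
      have h5 : u + y⁻¹ • (y • (v + u)) = v := by
        rw [smul_smul, inv_mul_cancel₀ hy, one_smul, add_comm v u, ← add_assoc]
        have h3 : u + u = 0 := Prod.ext (dbl _) (dbl _)
        rw [h3, zero_add]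
      rw [h5, inv_inv, (hmem v).1 hv, hu']
      simp only [Prod.smul_fst, Prod.smul_snd, Prod.fst_add, Prod.snd_add, smul_eq_mul]
      linear_combination y * dbl C
    · rintro ⟨v, y⟩ hv ⟨v', y'⟩ hv' heq
      simp only [mem_product, mem_erase, mem_univ, and_true] at hv hv'
      obtain ⟨⟨hvu, hv⟩, hy⟩ := hv
      obtain ⟨⟨hvu', hv'⟩, hy'⟩ := hv'
      simp only at heq
      have hw : y • (v + u) ≠ 0 := by
        refine smul_ne_zero hy ?_
        intro h1
        apply hvu
        have h2 : v + u + u = u := by rw [h1, zero_add]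
        rw [add_assoc] at h2
        have h3 : u + u = 0 := Prod.ext (dbl _) (dbl _)
        rwa [h3, add_zero] at h2
      have h3 : u + u = 0 := Prod.ext (dbl _) (dbl _)
      have h5 : u + y⁻¹ • (y • (v + u)) = v := by
        rw [smul_smul, inv_mul_cancel₀ hy, one_smul, add_comm v u, ← add_assoc, h3, zero_add]
      have h6 : u + y'⁻¹ • (y • (v + u)) = v' := by
        rw [heq, smul_smul, inv_mul_cancel₀ hy', one_smul, add_comm v' u, ← add_assoc, h3,
          zero_add]
      have h7 : y⁻¹ = y'⁻¹ := by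
        refine hf u (y • (v + u)) hw _ _ (inv_ne_zero hy) (inv_ne_zero hy') ?_
        rw [h5, h6, inv_inv, inv_inv, (hmem v).1 hv, (hmem v').1 hv', hu']
        have h8 := congrArg Prod.fst heq
        have h9 := congrArg Prod.snd heq
        simp only [Prod.smul_fst, Prod.smul_snd, Prod.fst_add, Prod.snd_add, smul_eq_mul] at h8 h9
        linear_combination A * h8 + B * h9 + y * dbl C - y' * dbl C
      have h8 : y = y' := inv_injective h7
      have h9 : v = v' := by rw [← h5, ← h6, h7]
      rw [h8, h9]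
    · intro w hw
      rw [hW, mem_filter] at hw
      obtain ⟨_, hw0, hw1⟩ := hw
      obtain ⟨x, hx, hx1⟩ := (miss hf hq u w hw0 (A * w.1 + B * w.2)).2 fun h => hw1 h.symm
      refine ⟨(u + x • w, x⁻¹), ?_, ?_⟩
      · simp only [mem_product, mem_erase, mem_univ, and_true]
        refine ⟨⟨?_, ?_⟩, inv_ne_zero hx⟩
        · intro h1
          have h2 : x • w = 0 := by
            have h3 : u + (u + x • w) = u + u := by rw [h1]
            rw [← add_assoc, show u + u = 0 from Prod.ext (dbl _) (dbl _), zero_add] at h3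
            exact h3
          exact smul_ne_zero hx hw0 h2
        · rw [hmem]
          have h1 : f (u + x • w) + f u = x * (A * w.1 + B * w.2) := by
            rw [← hx1, mul_inv_cancel_left₀ hx]
          have h2 : f (u + x • w) = x * (A * w.1 + B * w.2) + f u := by
            rw [← h1]
            linear_combination -(dbl (f u))
          rw [h2, hu']
          simp only [Prod.smul_fst, Prod.smul_snd, Prod.fst_add, Prod.snd_add, smul_eq_mul]
          ring
      · simp only
        rw [add_comm (u + x • w) u, ← add_assoc, show u + u = 0 from Prod.ext (dbl _) (dbl _),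
          zero_add, smul_smul, inv_mul_cancel₀ hx, one_smul]
  have hNe : (N.erase u).card = N.card - 1 := card_erase_of_mem huN
  have hNp : 0 < N.card := card_pos.2 ⟨u, huN⟩
  rw [hNe] at hWN
  obtain ⟨n, hn⟩ : ∃ n, N.card = n + 1 := ⟨N.card - 1, by omega⟩
  obtain ⟨q, hq'⟩ : ∃ q, Fintype.card F = q + 1 := ⟨Fintype.card F - 1, by omega⟩
  rw [hq'] at hWZ hZc hWN ⊢
  rw [hn] at hWN ⊢
  simp only [Nat.add_sub_cancel] at hWN hZc
  have hq0 : 0 < q := by omega
  have h1 : n * q + Z.card = q * (q + 2) := by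
    rw [hWN] at hWZ
    have : (q + 1) * (q + 1) - 1 = q * (q + 2) := by
      have : (q + 1) * (q + 1) = q * (q + 2) + 1 := by ring
      omega
    rw [this] at hWZ
    exact hWZ
  rcases hZc with h2 | h2
  · right
    rw [h2, add_zero, mul_comm] at h1
    have := Nat.eq_of_mul_eq_mul_left hq0 h1
    omega
  · left
    rw [h2] at h1
    have h3 : q * n = q * q := by nlinarith
    have := Nat.eq_of_mul_eq_mul_left hq0 h3
    omega

end Pla

open Pla in
/-- PLANE. -/
theorem PLANE_proof (F : Type) [Field F] [Fintype F] [CharP F 2] (h : ℕ) [NeZero h] [QF F h] :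
    PlaneStmt F := by
  classical
  intro f hf κ α β b hl
  by_contra hκ
  obtain ⟨q, hqc⟩ : ∃ q, q = Fintype.card F := ⟨_, rfl⟩
  have hcard : q = 2 ^ h := by rw [hqc]; exact QF.card
  have h4 := QF.four (F := F) (h := h)
  have hq16 : 16 ≤ q := by
    rw [hcard]
    calc 16 = 2 ^ 4 := by norm_num
      _ ≤ 2 ^ h := Nat.pow_le_pow_right (by norm_num) h4
  obtain ⟨n, hn⟩ : ∃ n : F × F × F → ℕ, n = fun p => (univ.filter (On f p)).card := ⟨_, rfl⟩
  have hn3 : ∀ p, n p = 0 ∨ n p = q ∨ n p = q + 2 := by
    intro p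
    rcases (univ.filter (On f p)).eq_empty_or_nonempty with h1 | ⟨u, h1⟩
    · left
      rw [hn]
      simp only
      rw [h1, card_empty]
    · right
      rw [hn, hqc]
      exact plane_card hf (by omega) hκ hl p (mem_filter.1 h1).2
  -- the number of the planes through a point, through two points
  have hp1 : ∀ u : F × F, (univ.filter fun p : F × F × F => On f p u).card = q ^ 2 := by
    intro u
    have e1 : q ^ 2 = (univ : Finset (F × F)).card := by
      rw [card_univ, Fintype.card_prod, ← hqc]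
      ring
    rw [e1]
    symm
    refine card_bij (fun x _ => (x.1, x.2, f u - x.1 * u.1 - x.2 * u.2)) ?_ ?_ ?_
    · intro x _
      rw [mem_filter]
      refine ⟨mem_univ _, ?_⟩
      unfold On
      ring
    · rintro ⟨x, y⟩ _ ⟨x', y'⟩ _ h1
      simp only [Prod.mk.injEq] at h1
      rw [h1.1, h1.2.1]
    · rintro ⟨A, B, C⟩ hp
      rw [mem_filter] at hp
      have hp' : f u = A * u.1 + B * u.2 + C := hp.2
      refine ⟨(A, B), mem_univ _, ?_⟩
      simp only [Prod.mk.injEq, true_and]
      rw [hp']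
      ring
  have hp2 : ∀ u v : F × F, u ≠ v →
      (univ.filter fun p : F × F × F => On f p u ∧ On f p v).card = q := by
    intro u v huv
    have hd : u - v ≠ 0 := sub_ne_zero.2 huv
    rw [hqc, ← lin_card (u - v) hd (f u - f v)]
    symm
    refine card_bij (fun x _ => (x.1, x.2, f u - x.1 * u.1 - x.2 * u.2)) ?_ ?_ ?_
    · intro x hx
      rw [mem_filter] at hx ⊢
      have hx' : x.1 * (u - v).1 + x.2 * (u - v).2 = f u - f v := hx.2
      refine ⟨mem_univ _, ?_, ?_⟩
      · unfold On
        ring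
      · unfold On
        simp only [Prod.fst_sub, Prod.snd_sub] at hx'
        linear_combination hx'
    · rintro ⟨x, y⟩ _ ⟨x', y'⟩ _ h1
      simp only [Prod.mk.injEq] at h1
      rw [h1.1, h1.2.1]
    · rintro ⟨A, B, C⟩ hp
      rw [mem_filter] at hp
      have hp' : f u = A * u.1 + B * u.2 + C := hp.2.1
      have hp'' : f v = A * v.1 + B * v.2 + C := hp.2.2
      refine ⟨(A, B), ?_, ?_⟩
      · rw [mem_filter]
        refine ⟨mem_univ _, ?_⟩
        simp only [Prod.fst_sub, Prod.snd_sub]
        rw [hp', hp'']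
        ring
      · simp only [Prod.mk.injEq, true_and]
        rw [hp']
        ring
  -- the two sums
  have hs1 : ∑ p, (n p : ℤ) = (q : ℤ) ^ 4 := by
    have e1 : ∀ p, (n p : ℤ) = ∑ u : F × F, if On f p u then (1 : ℤ) else 0 := by
      intro p
      rw [hn]
      simp
    simp only [e1]
    rw [sum_comm]
    have e2 : ∀ u : F × F, ∑ p : F × F × F, (if On f p u then (1 : ℤ) else 0) = (q : ℤ) ^ 2 := by
      intro u
      rw [← Finset.natCast_card_filter, hp1 u]
      push_cast
      ring
    rw [sum_congr rfl fun u _ => e2 u, sum_const, card_univ, Fintype.card_prod, ← hqc]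
    simp only [nsmul_eq_mul]
    push_cast
    ring
  have hs2 : ∑ p, (n p : ℤ) ^ 2 = (q : ℤ) ^ 4 + (q : ℤ) ^ 2 * ((q : ℤ) ^ 2 - 1) * q := by
    have e1 : ∀ p, (n p : ℤ) ^ 2 = ∑ u : F × F, ∑ v : F × F,
        if On f p u ∧ On f p v then (1 : ℤ) else 0 := by
      intro p
      have e0 : (n p : ℤ) = ∑ u : F × F, if On f p u then (1 : ℤ) else 0 := by
        rw [hn]
        simp
      rw [sq, e0, sum_mul_sum]
      refine sum_congr rfl fun u _ => sum_congr rfl fun v _ => ?_
      by_cases h1 : On f p u <;> by_cases h2 : On f p v <;> simp [h1, h2]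
    simp only [e1]
    rw [sum_comm]
    have e2 : ∀ u : F × F, ∑ p : F × F × F, ∑ v : F × F,
        (if On f p u ∧ On f p v then (1 : ℤ) else 0) = (q : ℤ) ^ 2 + ((q : ℤ) ^ 2 - 1) * q := by
      intro u
      rw [sum_comm]
      have e3 : ∀ v : F × F, ∑ p : F × F × F, (if On f p u ∧ On f p v then (1 : ℤ) else 0) =
          if v = u then (q : ℤ) ^ 2 else q := by
        intro v
        rw [← Finset.natCast_card_filter]
        by_cases h1 : v = u
        · rw [if_pos h1, h1]
          simp only [and_self]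
          rw [hp1 u]
          push_cast
          ring
        · rw [if_neg h1, hp2 u v (Ne.symm h1)]
      rw [sum_congr rfl fun v _ => e3 v, ← Finset.sum_erase_add univ _ (mem_univ u), if_pos rfl,
        sum_congr rfl (fun v hv => if_neg (ne_of_mem_erase hv)), sum_const,
        card_erase_of_mem (mem_univ _), card_univ, Fintype.card_prod, ← hqc, nsmul_eq_mul,
        Nat.cast_sub (by nlinarith)]
      push_cast
      ring
    rw [sum_congr rfl fun u _ => e2 u, sum_const, card_univ, Fintype.card_prod, ← hqc]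
    simp only [nsmul_eq_mul]
    push_cast
    ring
  -- the planes without a point
  obtain ⟨N0, hN0⟩ : ∃ N0 : ℕ, N0 = (univ.filter fun p => n p = 0).card := ⟨_, rfl⟩
  have hs3 : ∑ p, ((n p : ℤ) - q) * ((n p : ℤ) - q - 2) = (N0 : ℤ) * (q * (q + 2)) := by
    have e1 : ∀ p, ((n p : ℤ) - q) * ((n p : ℤ) - q - 2) =
        (if n p = 0 then (1 : ℤ) else 0) * (q * (q + 2)) := by
      intro p
      rcases hn3 p with h1 | h1 | h1
      · rw [h1, if_pos rfl]
        push_cast
        ring
      · rw [h1, if_neg (by omega)]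
        ring
      · rw [h1, if_neg (by omega)]
        push_cast
        ring
    rw [sum_congr rfl fun p _ => e1 p, ← sum_mul, ← Finset.natCast_card_filter, ← hN0]
  have hs4 : ∑ p, ((n p : ℤ) - q) * ((n p : ℤ) - q - 2) =
      ∑ p, (n p : ℤ) ^ 2 - (2 * q + 2) * ∑ p, (n p : ℤ) + (q : ℤ) ^ 3 * (q * (q + 2)) := by
    have e1 : ∀ p, ((n p : ℤ) - q) * ((n p : ℤ) - q - 2) =
        (n p : ℤ) ^ 2 - (2 * q + 2) * (n p : ℤ) + q * (q + 2) := fun p => by ring
    rw [sum_congr rfl fun p _ => e1 p, sum_add_distrib, sum_sub_distrib, ← mul_sum, sum_const,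
      card_univ, Fintype.card_prod, Fintype.card_prod, ← hqc]
    simp only [nsmul_eq_mul]
    push_cast
    ring
  have hs5 : (N0 : ℤ) * (q * (q + 2)) = (q : ℤ) ^ 3 * (q - 1) := by
    rw [← hs3, hs4, hs1, hs2]
    ring
  have hq0 : (q : ℤ) ≠ 0 := by
    have : 0 < q := by omega
    exact_mod_cast this.ne'
  have hs6 : (N0 : ℤ) * (q + 2) = (q : ℤ) ^ 2 * (q - 1) := by
    have : (q : ℤ) * ((N0 : ℤ) * (q + 2)) = q * ((q : ℤ) ^ 2 * (q - 1)) := by
      linear_combination hs5
    exact mul_left_cancel₀ hq0 this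
  have hdvd : ((q : ℤ) + 2) ∣ 12 := by
    refine ⟨(q : ℤ) ^ 2 - 3 * q + 6 - N0, ?_⟩
    linear_combination hs6
  have := Int.le_of_dvd (by norm_num) hdvd
  have hq16' : (16 : ℤ) ≤ q := by exact_mod_cast hq16
  linarith

end Pool.Agent.H51.QOV
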