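import Pool.Agent.H51.QOV.Stmt

/-!
# RED: the normalised data of the end game
-/

set_option autoImplicit false
set_option linter.unusedSectionVars false

namespace Pool.Agent.H51.QOV

open Finset

namespace Red

variable {F : Type} [Field F] [Fintype F] [CharP F 2] {h : ℕ} [NeZero h]

theorem om_self (u : F × F) : om u u = 0 := by
  have : om u u = u.1 * u.2 + u.1 * u.2 := by
    unfold om
    ring
  rw [this, CharTwo.add_self_eq_zero]

theorem om_symm (u v : F × F) : om u v = om v u := by
  unfold om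
  ring

theorem om_add_left (u u' v : F × F) : om (u + u') v = om u v + om u' v := by
  unfold om
  simp only [Prod.fst_add, Prod.snd_add]
  ring

theorem om_add_right (u v v' : F × F) : om u (v + v') = om u v + om u v' := by
  unfold om
  simp only [Prod.fst_add, Prod.snd_add]
  ring

theorem om_smul_left (x : F) (u v : F × F) : om (x • u) v = x * om u v := by
  unfold om
  simp only [Prod.smul_fst, Prod.smul_snd, smul_eq_mul]
  ring

theorem om_smul_right (x : F) (u v : F × F) : om u (x • v) = x * om u v := by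
  unfold om
  simp only [Prod.smul_fst, Prod.smul_snd, smul_eq_mul]
  ring

theorem Dd_symm (f : F × F → F) (u v : F × F) : Dd f u v = Dd f v u := by
  unfold Dd
  rw [add_comm u v, om_symm u v]
  ring

theorem Dd_self {f : F × F → F} (h0 : f 0 = 0) (u : F × F) : Dd f u u = 0 := by
  unfold Dd
  rw [om_self, CharTwo.add_self_eq_zero, h0, zero_add, CharTwo.add_self_eq_zero, zero_add]

theorem Dd_add {f : F × F → F} (h0 : f 0 = 0) (hq : Quad f) (u v w : F × F) :
    Dd f u (v + w) = Dd f u v + Dd f u w := by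
  have h1 := hq u v w
  rw [h0, add_zero] at h1
  unfold Dd
  rw [om_add_right, ← add_assoc u v w]
  linear_combination h1 -
    (f (u + v) + f (u + w) + f u + f v + f w) * (CharTwo.two_eq_zero : (2 : F) = 0)

theorem Dd_add_left {f : F × F → F} (h0 : f 0 = 0) (hq : Quad f) (u v w : F × F) :
    Dd f (u + v) w = Dd f u w + Dd f v w := by
  rw [Dd_symm, Dd_add h0 hq, Dd_symm f w u, Dd_symm f w v]

/-- The form on a line. -/
def dl (f : F × F → F) (h0 : f 0 = 0) (hq : Quad f) (e : F × F) : F →+ F →+ F :=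
  AddMonoidHom.mk' (fun x => AddMonoidHom.mk' (fun s => Dd f (x • e) (s • e)) fun s s' => by
    rw [add_smul, Dd_add h0 hq]) fun x x' => by
    ext s
    change Dd f ((x + x') • e) (s • e) = Dd f (x • e) (s • e) + Dd f (x' • e) (s • e)
    rw [add_smul, Dd_add_left h0 hq]

theorem dl_apply (f : F × F → F) (h0 : f 0 = 0) (hq : Quad f) (e : F × F) (x s : F) :
    dl f h0 hq e x s = Dd f (x • e) (s • e) := rfl

variable {f : F × F → F} {θ e : F × F}

/-- The function in the coordinates `s • e + t • θ`. -/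
theorem f_eq (hD : ∀ (x : F) v, Dd f (x • θ) v = 0) (he : om e θ = 1) (s t : F) :
    f (s • e + t • θ) = f (s • e) + s * t + f (t • θ) := by
  have h1 := hD t (s • e)
  rw [Dd_symm] at h1
  unfold Dd at h1
  rw [om_smul_left, om_smul_right, he, mul_one] at h1
  have h2 : f (s • e + t • θ) + (f (s • e) + s * t + f (t • θ)) = 0 := by
    rw [← h1]
    ring
  exact CharTwo.add_eq_zero.1 h2

theorem k_add (hD : ∀ (x : F) v, Dd f (x • θ) v = 0) (t t' : F) :
    f ((t + t') • θ) = f (t • θ) + f (t' • θ) := by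
  have h1 := hD t (t' • θ)
  unfold Dd at h1
  rw [om_smul_left, om_smul_right, om_self, mul_zero, mul_zero, add_zero, ← add_smul] at h1
  have h2 : f ((t + t') • θ) + (f (t • θ) + f (t' • θ)) = 0 := by
    rw [← h1]
    ring
  exact CharTwo.add_eq_zero.1 h2

/-- The missing value. -/
theorem miss (hf : NF f) (hD : ∀ (x : F) v, Dd f (x • θ) v = 0) (he : om e θ = 1) {s : F}
    (hs : s ≠ 0) (x t : F) :
    f (t • θ) + s * t + Dd f (x • e) (s • e) ≠ f (s • e) := by
  intro h1
  have hne : x • e ≠ (x + s) • e + t • θ := by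
    intro h2
    have h3 := congrArg (fun v => om v θ) h2
    simp only [om_add_left, om_smul_left, he, om_self, mul_one, mul_zero, add_zero] at h3
    exact hs (by
      have : s = (x + s) - x := by ring
      rw [this, ← h3, sub_self])
  have h2 := hf.ov _ _ hne
  apply h2
  rw [f_eq hD he, om_add_right, om_smul_left, om_smul_right, om_smul_left, om_smul_right, om_self,
    he, mul_zero, mul_zero, zero_add, mul_one]
  have h3 : Dd f (x • e) (s • e) = f ((x + s) • e) + f (x • e) + f (s • e) := by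
    unfold Dd
    rw [om_smul_left, om_smul_right, om_self, mul_zero, mul_zero, add_zero, ← add_smul]
  rw [h3] at h1
  linear_combination h1

/-- `t ↦ k t / t` is a permutation. -/
theorem k_surj (hf : NF f) (hD : ∀ (x : F) v, Dd f (x • θ) v = 0) (he : om e θ = 1) {s : F}
    (hs : s ≠ 0) : ∃ t, t ≠ 0 ∧ t⁻¹ * f (t • θ) = s := by
  let φ : F →+ F := AddMonoidHom.mk' (fun t => f (t • θ) + s * t) fun t t' => by
    rw [k_add hD, mul_add]
    ring
  have hns : ¬ Function.Surjective φ := by
    intro hsur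
    obtain ⟨t, ht⟩ := hsur (f (s • e))
    refine miss hf hD he hs 0 t ?_
    have h0 : Dd f ((0 : F) • e) (s • e) = 0 := by
      unfold Dd
      rw [zero_smul, zero_add, hf.zero, om_smul_right]
      have : om (0 : F × F) e = 0 := by
        unfold om
        simp
      rw [this, mul_zero, add_zero, add_zero, CharTwo.add_self_eq_zero]
    rw [h0, add_zero]
    exact ht
  have hni : ¬ Function.Injective φ := fun hi => hns (Finite.injective_iff_surjective.1 hi)
  rw [injective_iff_map_eq_zero] at hni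
  push Not at hni
  obtain ⟨t, ht, ht0⟩ := hni
  refine ⟨t, ht0, ?_⟩
  have h1 : f (t • θ) = s * t := CharTwo.add_eq_zero.1 ht
  rw [h1]
  field_simp

theorem k_ne (hf : NF f) (hθ : θ ≠ 0) {t : F} (ht : t ≠ 0) : f (t • θ) ≠ 0 := by
  have h1 : (0 : F × F) ≠ t • θ := (smul_ne_zero ht hθ).symm
  have h2 := hf.ov _ _ h1
  intro h3
  apply h2
  rw [hf.zero, h3, add_zero]
  unfold om
  simp

theorem k_inj (hf : NF f) (hD : ∀ (x : F) v, Dd f (x • θ) v = 0) (hθ : θ ≠ 0)
    (he : om e θ = 1) (t s : F) (ht : t ≠ 0) (hs : s ≠ 0)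
    (hts : t⁻¹ * f (t • θ) = s⁻¹ * f (s • θ)) : t = s := by
  classical
  let ψ : {t : F // t ≠ 0} → {t : F // t ≠ 0} := fun t => ⟨(t : F)⁻¹ * f ((t : F) • θ),
    mul_ne_zero (inv_ne_zero t.2) (k_ne hf hθ t.2)⟩
  have hsur : Function.Surjective ψ := by
    rintro ⟨s, hs⟩
    obtain ⟨t, ht0, ht⟩ := k_surj hf hD he hs
    exact ⟨⟨t, ht0⟩, Subtype.ext ht⟩
  have hinj := Finite.injective_iff_surjective.2 hsur
  have := @hinj ⟨t, ht⟩ ⟨s, hs⟩ (Subtype.ext hts)
  exact congrArg Subtype.val this

variable [QF F h]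

/-- The functional which kills the values. -/
theorem kill_eq {r : ZMod h} (hr : ∀ t s : F, t ≠ 0 → s ≠ 0 → t⁻¹ * fr r t = s⁻¹ * fr r s → t = s)
    {y : F} (hy : y ≠ 0) {c : F} (hc : c ≠ 0)
    (h1 : ∀ t : F, tr h (c * (fr r t + y⁻¹ * fr r y * t)) = 0) : c = (fr r y)⁻¹ := by
  have h2 : fr (-r) c + c * (y⁻¹ * fr r y) = 0 := by
    refine tr_nondeg (h := h) fun t => ?_
    have h3 := h1 t
    have h4 : tr h (c * (fr r t + y⁻¹ * fr r y * t)) =
        tr h (c * fr r t) + tr h (c * (y⁻¹ * fr r y) * t) := by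
      rw [← tr_add]
      congr 1
      ring
    have h5 : tr h (c * fr r t) = tr h (fr (-r) c * t) := by
      have h6 : c * fr r t = fr r (fr (-r) c * t) := by
        rw [map_mul, fr_neg]
      rw [h6, tr_fr]
    rw [h4, h5, ← tr_add, ← add_mul] at h3
    exact h3
  have h3 : fr (-r) c = c * (y⁻¹ * fr r y) := CharTwo.add_eq_zero.1 h2
  obtain ⟨z, hz⟩ : ∃ z, z = (fr (-r) c)⁻¹ := ⟨_, rfl⟩
  have hc' : fr (-r) c ≠ 0 := fun h => hc ((fr_eq_zero (-r)).1 h)
  have hz0 : z ≠ 0 := by
    rw [hz]
    exact inv_ne_zero hc'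
  have hcz : c = (fr r z)⁻¹ := by
    rw [hz, map_inv₀, fr_neg, inv_inv]
  have h4 : z = y := by
    refine hr z y hz0 hy ?_
    have h5 : fr (-r) c = z⁻¹ := by rw [hz, inv_inv]
    have h6 : z⁻¹ = c * (y⁻¹ * fr r y) := by
      rw [← h5]
      exact h3
    have h7 : fr r z ≠ 0 := fun h => hz0 ((fr_eq_zero r).1 h)
    rw [h6, hcz]
    field_simp
  rw [hcz, h4]

end Red

open Red

theorem RED_proof (F : Type) [Field F] [Fintype F] [CharP F 2] (h : ℕ) [NeZero h] [QF F h]
    (hP : PayStmt F h) : RedStmt F h := by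
  intro f hf θ hθ hD
  obtain ⟨e, he⟩ : ∃ e : F × F, om e θ = 1 := by
    by_cases h2 : θ.2 = 0
    · have h1 : θ.1 ≠ 0 := fun h => hθ (Prod.ext h h2)
      refine ⟨(0, θ.1⁻¹), ?_⟩
      unfold om
      simp [h1]
    · refine ⟨(θ.2⁻¹, 0), ?_⟩
      unfold om
      simp [h2]
  obtain ⟨κ, r, hκ, hr0, hk⟩ := hP (AddMonoidHom.mk' (fun t => f (t • θ)) (k_add hD))
    (fun t ht => k_ne hf hθ ht) (fun t s ht hs hts => k_inj hf hD hθ he t s ht hs hts)
  replace hk : ∀ t, f (t • θ) = κ * fr r t := hk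
  have hr : ∀ t s : F, t ≠ 0 → s ≠ 0 → t⁻¹ * fr r t = s⁻¹ * fr r s → t = s := by
    intro t s ht hs hts
    refine k_inj hf hD hθ he t s ht hs ?_
    rw [hk, hk]
    calc t⁻¹ * (κ * fr r t) = κ * (t⁻¹ * fr r t) := by ring
      _ = κ * (s⁻¹ * fr r s) := by rw [hts]
      _ = _ := by ring
  -- the new basis
  obtain ⟨μ, hμ⟩ : ∃ μ : F, μ = fr (-r) κ⁻¹ := ⟨_, rfl⟩
  have hμ0 : μ ≠ 0 := by
    rw [hμ]
    exact fun h => inv_ne_zero hκ ((fr_eq_zero (-r)).1 h)
  have hμr : fr r μ = κ⁻¹ := by rw [hμ, fr_neg]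
  obtain ⟨e2, he2⟩ : ∃ e2 : F × F, e2 = μ • θ := ⟨_, rfl⟩
  obtain ⟨e1, he1⟩ : ∃ e1 : F × F, e1 = μ⁻¹ • e := ⟨_, rfl⟩
  have hee : om e1 e2 = 1 := by
    rw [he1, he2, om_smul_left, om_smul_right, he]
    field_simp
  have hD2 : ∀ (x : F) v, Dd f (x • e2) v = 0 := by
    intro x v
    rw [he2, smul_smul]
    exact hD _ _
  have hk2 : ∀ t, f (t • e2) = fr r t := by
    intro t
    rw [he2, smul_smul, hk, map_mul, hμr]
    field_simp
  have hms : ∀ {s : F}, s ≠ 0 → ∀ x t : F,
      f (t • e2) + s * t + Dd f (x • e1) (s • e1) ≠ f (s • e1) :=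
    fun hs x t => miss hf hD2 hee hs x t
  -- the values
  have key : ∀ y : F, y ≠ 0 → (∀ x : F, tr h ((fr r y)⁻¹ * Dd f (x • e1) ((y⁻¹ * fr r y) • e1)) = 0) ∧
      tr h ((fr r y)⁻¹ * f ((y⁻¹ * fr r y) • e1)) = 1 := by
    intro y hy
    obtain ⟨s, hs⟩ : ∃ s, s = y⁻¹ * fr r y := ⟨_, rfl⟩
    have hs0 : s ≠ 0 := by
      rw [hs]
      exact mul_ne_zero (inv_ne_zero hy) fun h => hy ((fr_eq_zero r).1 h)
    rw [← hs]
    have hDadd := Dd_add_left hf.zero hf.quad
    constructor
    · let φ : F × F →+ F := AddMonoidHom.mk' (fun p => fr r p.1 + s * p.1 +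
        Dd f (p.2 • e1) (s • e1)) fun p p' => by
          simp only [Prod.fst_add, Prod.snd_add, map_add, mul_add, add_smul, hDadd]
          ring
      obtain ⟨c, hc0, hc⟩ := exists_killer (h := h) φ (y := f (s • e1)) fun p => by
        have := hms hs0 p.2 p.1
        rwa [hk2] at this
      have hce : c = (fr r y)⁻¹ := kill_eq hr hy hc0 fun t => by
        have h1 := hc (t, 0)
        change tr h (c * (fr r t + s * t + Dd f ((0 : F) • e1) (s • e1))) = 0 at h1
        rw [zero_smul, Dd_symm] at h1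
        have h2 : Dd f (s • e1) 0 = 0 := by
          unfold Dd
          rw [add_zero, hf.zero, add_zero, CharTwo.add_self_eq_zero, zero_add]
          unfold om
          simp
        rw [h2, add_zero, hs] at h1
        exact h1
      intro x
      have h1 := hc (0, x)
      change tr h (c * (fr r 0 + s * 0 + Dd f (x • e1) (s • e1))) = 0 at h1
      rw [map_zero, mul_zero, zero_add, zero_add, hce] at h1
      exact h1
    · rcases tr_zero_or_one (h := h) ((fr r y)⁻¹ * f (s • e1)) with h0 | h0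
      · exfalso
        have hcy : (fr r y)⁻¹ ≠ 0 := inv_ne_zero fun h => hy ((fr_eq_zero r).1 h)
        obtain ⟨z0, hz0⟩ := exists_tr_eq_one (F := F) (h := h)
        obtain ⟨Y, hY⟩ : ∃ Y : F, tr h ((fr r y)⁻¹ * Y) = 1 :=
          ⟨fr r y * z0, by
            have h7 : fr r y ≠ 0 := fun h => hy ((fr_eq_zero r).1 h)
            rw [inv_mul_cancel_left₀ h7, hz0]⟩
        let φ : F × F →+ F := AddMonoidHom.mk' (fun p => fr r p.1 + s * p.1 + tr h p.2 * Y)
          fun p p' => by
            simp only [Prod.fst_add, Prod.snd_add, map_add, mul_add, tr_add]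
            ring
        have htr0 : ∀ t, tr h ((fr r y)⁻¹ * (fr r t + s * t)) = 0 := by
          intro t
          have h7 : fr r y ≠ 0 := fun h => hy ((fr_eq_zero r).1 h)
          have h8 : (fr r y)⁻¹ * (fr r t + s * t) = fr r (y⁻¹ * t) + y⁻¹ * t := by
            rw [hs, map_mul, map_inv₀]
            field_simp
          rw [h8, tr_add, tr_fr, CharTwo.add_self_eq_zero]
        obtain ⟨c, hc0, hc⟩ := exists_killer (h := h) φ (y := f (s • e1)) fun p => by
          intro hp
          change fr r p.1 + s * p.1 + tr h p.2 * Y = f (s • e1) at hp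
          rcases tr_zero_or_one (h := h) p.2 with h1 | h1
          · refine hms hs0 0 p.1 ?_
            rw [h1, zero_mul, add_zero] at hp
            rw [hk2, hp, zero_smul, Dd_symm]
            unfold Dd
            rw [add_zero, hf.zero, add_zero, CharTwo.add_self_eq_zero, zero_add]
            unfold om
            simp
          · rw [h1, one_mul] at hp
            rw [← hp, mul_add, tr_add, htr0, hY, zero_add] at h0
            exact one_ne_zero h0
        have hce : c = (fr r y)⁻¹ := kill_eq hr hy hc0 fun t => by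
          have h1 := hc (t, 0)
          change tr h (c * (fr r t + s * t + tr h 0 * Y)) = 0 at h1
          rw [tr_zero, zero_mul, add_zero, hs] at h1
          exact h1
        have h1 := hc (0, z0)
        change tr h (c * (fr r 0 + s * 0 + tr h z0 * Y)) = 0 at h1
        rw [map_zero, mul_zero, zero_add, zero_add, hz0, one_mul, hce, hY] at h1
        exact one_ne_zero h1
      · exact h0
  refine ⟨e1, e2, {
    r := r
    g := fun s => f (s • e1)
    d := dl f hf.zero hf.quad e1
    hr := hr0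
    hd := fun s => by
      rw [dl_apply]
      exact Dd_self hf.zero _
    hg := fun s s' => ?_
    p0 := fun x => ?_
    F1 := fun y hy => (key y hy).2
    F2 := fun x y hy => (key y hy).1 x }, hee, fun s t => ?_⟩
  · rw [dl_apply]
    unfold Dd
    rw [om_smul_left, om_smul_right, om_self, mul_zero, mul_zero, add_zero, ← add_smul]
    have : f (s • e1) + f (s' • e1) + (f ((s + s') • e1) + f (s • e1) + f (s' • e1)) =
        f ((s + s') • e1) + ((f (s • e1) + f (s • e1)) + (f (s' • e1) + f (s' • e1))) := by ring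
    rw [this, CharTwo.add_self_eq_zero, CharTwo.add_self_eq_zero, add_zero, add_zero]
  · exact hf.p0 (x • e1) e1
  · rw [f_eq hD2 hee, hk2]

end Pool.Agent.H51.QOV
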