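import Pool.Agent.H51.QOV.Stmt

/-!
# ST0: the normal form
-/

set_option autoImplicit false
set_option linter.unusedSectionVars false

namespace Pool.Agent.H51.QOV

open Finset

namespace St0

variable {F : Type} [Field F] [Fintype F] [CharP F 2]

theorem two0 : (2 : F) = 0 := CharTwo.two_eq_zero

theorem sum_all (h : ℕ) [QF F h] : ∑ x : F, x = 0 := by
  have h4 := QF.four (F := F) (h := h)
  have h1 := FiniteField.sum_pow_lt_card_sub_one F 1 (by
    rw [QF.card (F := F) (h := h)]
    have : 2 ^ 4 ≤ 2 ^ h := Nat.pow_le_pow_right (by norm_num) h4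
    omega)
  simpa using h1

/-- The missing value of an injective function on the non-zero elements. -/
theorem miss (h : ℕ) [QF F h] {s : F → F}
    (hs : ∀ x y, x ≠ 0 → y ≠ 0 → s x = s y → x = y) (hs0 : s 0 = 0) (x : F) (hx : x ≠ 0) :
    s x ≠ ∑ y, s y := by
  classical
  intro hcon
  obtain ⟨T, hT⟩ : ∃ T : Finset F, T = (univ.erase 0).image s := ⟨_, rfl⟩
  have hinj : Set.InjOn s ((univ.erase (0 : F) : Finset F) : Set F) := by
    intro a ha b hb hab
    exact hs a b (Finset.ne_of_mem_erase ha) (Finset.ne_of_mem_erase hb) hab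
  have hc : T.card = Fintype.card F - 1 := by
    rw [hT, Finset.card_image_of_injOn hinj, Finset.card_erase_of_mem (Finset.mem_univ _),
      Finset.card_univ]
  have hsum : ∑ y, s y = ∑ z ∈ T, z := by
    rw [hT, Finset.sum_image hinj, ← Finset.add_sum_erase _ _ (Finset.mem_univ (0 : F)), hs0,
      zero_add]
  have hq : 0 < Fintype.card F := Fintype.card_pos
  have hcc : Tᶜ.card = 1 := by
    rw [Finset.card_compl, hc]
    omega
  obtain ⟨c, hcT⟩ := Finset.card_eq_one.1 hcc
  have h1 : ∑ z ∈ T, z + c = 0 := by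
    have h2 := Finset.sum_add_sum_compl T (fun z : F => z)
    rw [hcT, Finset.sum_singleton, sum_all h] at h2
    exact h2
  have h2 : c = s x := by
    rw [hcon, hsum]
    exact (CharTwo.add_eq_zero.1 h1).symm
  have h3 : c ∈ Tᶜ := by
    rw [hcT]
    exact Finset.mem_singleton_self c
  refine (Finset.mem_compl.1 h3) ?_
  rw [h2, hT]
  exact Finset.mem_image_of_mem _ (Finset.mem_erase.2 ⟨hx, Finset.mem_univ _⟩)

/-- Scaling of the variable. -/
theorem scl {a : F → F} (ha : ∀ x y : F, a (x * y) = a x * a y) (ha0 : ∀ x, x ≠ 0 → a x ≠ 0)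
    (φ : F → F) (hφ : φ 0 = 0) (y : F) (hy0 : y = 0 → a y = 0) :
    ∑ x : F, (a x)⁻¹ * φ (x * y) = a y * ∑ x : F, (a x)⁻¹ * φ x := by
  by_cases hy : y = 0
  · have : ∀ x : F, (a x)⁻¹ * φ (x * y) = 0 := fun x => by rw [hy, mul_zero, hφ, mul_zero]
    rw [Finset.sum_congr rfl fun x _ => this x, Finset.sum_const_zero, hy0 hy, zero_mul]
  · rw [Finset.mul_sum, ← Equiv.sum_comp (Equiv.mulRight₀ y hy) fun x => a y * ((a x)⁻¹ * φ x)]
    refine Finset.sum_congr rfl fun x _ => ?_
    change (a x)⁻¹ * φ (x * y) = a y * ((a (x * y))⁻¹ * φ (x * y))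
    rw [ha]
    by_cases hx : a x = 0
    · rw [hx]
      simp
    · have h1 := ha0 y hy
      field_simp

variable (f : F × F → F)

/-- The polar form. -/
def B (u v : F × F) : F := f (u + v) + f u + f v + f 0

/-- The value of a linear combination. -/
def f0 (w : F × F) : F := ∑ x : F, x⁻¹ * (f (x • w) + f 0)

def bt (u w : F × F) : F := ∑ x : F, x⁻¹ * B f u (x • w)

def gg (w w' : F × F) : F := ∑ x : F, x⁻¹ * B f (x • w) (x • w')

variable {f}

theorem B_symm (u v : F × F) : B f u v = B f v u := by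
  unfold B
  rw [add_comm u v]
  ring

theorem B_zero (u : F × F) : B f u 0 = 0 := by
  unfold B
  rw [add_zero]
  linear_combination (f u + f 0) * (two0 : (2 : F) = 0)

theorem B_add (hq : Quad f) (u v w : F × F) : B f u (v + w) = B f u v + B f u w := by
  have h1 := hq u v w
  unfold B
  rw [← add_assoc]
  linear_combination h1 -
    (f (u + v) + f (u + w) + f u + f v + f w + f 0) * (two0 : (2 : F) = 0)

theorem B_add_left (hq : Quad f) (u v w : F × F) : B f (u + v) w = B f u w + B f v w := by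
  rw [B_symm, B_add hq, B_symm w u, B_symm w v]

theorem lam_eq (u w : F × F) :
    ∑ x : F, x⁻¹ * (f (u + x • w) + f u) = f0 f w + bt f u w := by
  unfold f0 bt B
  rw [← Finset.sum_add_distrib]
  refine Finset.sum_congr rfl fun x _ => ?_
  linear_combination -(x⁻¹ * (f (x • w) + f 0)) * (two0 : (2 : F) = 0)

theorem f0_smul (y : F) (w : F × F) : f0 f (y • w) = y * f0 f w := by
  have h1 := scl (a := fun x : F => x) (fun _ _ => rfl) (fun _ h => h)
    (fun z => f (z • w) + f 0) (by
      simp only [zero_smul]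
      exact CharTwo.add_self_eq_zero _) y (fun h => h)
  unfold f0
  simp only [smul_smul]
  exact h1

theorem bt_smul (u : F × F) (y : F) (w : F × F) : bt f u (y • w) = y * bt f u w := by
  have h1 := scl (a := fun x : F => x) (fun _ _ => rfl) (fun _ h => h)
    (fun z => B f u (z • w)) (by
      simp only [zero_smul]
      exact B_zero u) y (fun h => h)
  unfold bt
  simp only [smul_smul]
  exact h1

theorem bt_add (hq : Quad f) (u w w' : F × F) : bt f u (w + w') = bt f u w + bt f u w' := by
  unfold bt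
  rw [← Finset.sum_add_distrib]
  refine Finset.sum_congr rfl fun x _ => ?_
  rw [smul_add, B_add hq, mul_add]

theorem bt_add_left (hq : Quad f) (u u' w : F × F) :
    bt f (u + u') w = bt f u w + bt f u' w := by
  unfold bt
  rw [← Finset.sum_add_distrib]
  refine Finset.sum_congr rfl fun x _ => ?_
  rw [B_add_left hq, mul_add]

theorem bt_zero_left (w : F × F) : bt f 0 w = 0 := by
  unfold bt
  refine Finset.sum_eq_zero fun x _ => ?_
  rw [B_symm, B_zero, mul_zero]

theorem bt_line (hN : NucStmt F) (hs : Slope f) (a : F) (w : F × F) : bt f (a • w) w = 0 := by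
  by_cases hw : w = 0
  · rw [hw, smul_zero, bt_zero_left]
  have h1 := hN (fun x => f (x • w)) (fun u x y hx hy h => by
    simp only [add_smul] at h
    exact hs (u • w) w hw x y hx hy h) a 0
  have h2 : ∀ a : F, ∑ x : F, x⁻¹ * (f ((a + x) • w) + f (a • w)) =
      f0 f w + bt f (a • w) w := by
    intro a
    rw [← lam_eq]
    simp only [add_smul]
  rw [h2, h2, zero_smul, bt_zero_left, add_zero] at h1
  exact left_eq_add.1 h1.symm

/-- **(N2)** -/
theorem bt_om (hN : NucStmt F) (hq : Quad f) (hs : Slope f) :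
    ∃ b : F, ∀ u w, bt f u w = b * om u w := by
  obtain ⟨e1, he1⟩ : ∃ e1 : F × F, e1 = (1, 0) := ⟨_, rfl⟩
  obtain ⟨e2, he2⟩ : ∃ e2 : F × F, e2 = (0, 1) := ⟨_, rfl⟩
  have hl := bt_line hN hs
  have h1 : ∀ y z : F, bt f ((y * z) • e2) e1 = z * bt f (y • e1) e2 := by
    intro y z
    have h2 := hl y (e1 + z • e2)
    rw [smul_add, smul_smul, bt_add_left hq, bt_add hq, bt_add hq, bt_smul, bt_smul, hl, hl,
      mul_zero, zero_add, add_zero] at h2
    exact (CharTwo.add_eq_zero.1 h2).symm
  have h2 : ∀ y : F, bt f (y • e2) e1 = y * bt f e1 e2 := by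
    intro y
    have := h1 1 y
    rwa [one_mul, one_smul] at this
  have h3 : ∀ y : F, bt f (y • e1) e2 = y * bt f e1 e2 := by
    intro y
    have := h1 y 1
    rw [mul_one, one_mul] at this
    rw [← this, h2]
  refine ⟨bt f e1 e2, fun u w => ?_⟩
  have hv : ∀ v : F × F, v = v.1 • e1 + v.2 • e2 := by
    intro v
    rw [he1, he2]
    ext <;> simp
  conv_lhs => rw [hv u, hv w]
  rw [bt_add_left hq, bt_add hq, bt_add hq, bt_smul, bt_smul, bt_smul, bt_smul, hl, hl, h2, h3]
  unfold om
  ring

/-! ### The quadratic part of `f0` -/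

theorem f0_add (hq : Quad f) (w w' : F × F) :
    f0 f (w + w') = f0 f w + f0 f w' + gg f w w' := by
  unfold f0 gg B
  rw [← Finset.sum_add_distrib, ← Finset.sum_add_distrib]
  refine Finset.sum_congr rfl fun x _ => ?_
  rw [smul_add]
  linear_combination -(x⁻¹ * (f (x • w) + f (x • w') + f 0)) * (two0 : (2 : F) = 0)

theorem gg_symm (w w' : F × F) : gg f w w' = gg f w' w := by
  unfold gg
  exact Finset.sum_congr rfl fun x _ => by rw [B_symm]

variable {h : ℕ} [NeZero h] [QF F h]

theorem P_half (F : Type) [Field F] [Fintype F] [CharP F 2] {h : ℕ} [NeZero h] [QF F h]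
    {i j : ZMod h} (hij : P i + P j = P 0) : i = -1 ∧ j = -1 := by
  classical
  by_cases he : i = j
  · subst he
    rw [P_succ] at hij
    have := P_inj (F := F) hij
    have h1 : i = -1 := eq_neg_of_add_eq_zero_left this
    exact ⟨h1, h1⟩
  · exfalso
    have h1 := P_sum_inj (S := {i, j}) (T := {0}) (ne_univ_of_card (F := F) (by
      rw [Finset.card_pair he]
      norm_num)) (ne_univ_of_card (F := F) (by simp)) (by
      rw [Finset.sum_pair he, Finset.sum_singleton]
      exact hij)
    have h2 := congrArg Finset.card h1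
    rw [Finset.card_pair he, Finset.card_singleton] at h2
    omega

/-- The sum of a bi-additive function on the diagonal. -/
theorem diag (β : F →+ F →+ F) : ∑ x : F, x⁻¹ * β x x =
    coef (-1 : ZMod h) (fun x' => coef (-1 : ZMod h) (fun x => β x x')) := by
  classical
  -- the coefficients
  let cf : ZMod h → F →+ F := fun i => AddMonoidHom.mk' (fun x' => coef i (fun x => β x x'))
    fun x' y' => by
      rw [← coef_add]
      congr 1
      funext x
      rw [map_add]
  have h1 : ∀ x x' : F, β x x' = ∑ i : ZMod h, cf i x' * fr i x := by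
    intro x x'
    have h2 := lin_rep (h := h) (β.flip x') x
    exact h2
  have h2 : ∀ x : F, β x x = ∑ i : ZMod h, ∑ j : ZMod h, coef j (cf i) * fr j x * fr i x := by
    intro x
    rw [h1]
    refine Finset.sum_congr rfl fun i _ => ?_
    rw [lin_rep (h := h) (cf i) x, Finset.sum_mul]
  have h3 : ∀ i j : ZMod h, ∑ x : F, x⁻¹ * (coef j (cf i) * fr j x * fr i x) =
      if i = -1 ∧ j = -1 then coef j (cf i) else 0 := by
    intro i j
    have h4 := orthL (F := F) [i, j] [(0 : ZMod h)] (by simp) (by simp)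
    simp only [List.map_cons, List.map_nil, List.prod_cons, List.prod_nil, mul_one,
      List.sum_cons, List.sum_nil, add_zero, fr_zero] at h4
    have h5 : ∀ x : F, x⁻¹ * (coef j (cf i) * fr j x * fr i x) =
        coef j (cf i) * (fr i x * fr j x * x⁻¹) := fun x => by ring
    rw [Finset.sum_congr rfl fun x _ => h5 x, ← Finset.mul_sum, h4]
    by_cases h6 : i = -1 ∧ j = -1
    · rw [if_pos h6, if_pos, mul_one]
      rw [h6.1, h6.2, P_succ]
      congr 1
      ring
    · rw [if_neg h6, if_neg, mul_zero]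
      exact fun h7 => h6 (P_half F h7)
  calc ∑ x : F, x⁻¹ * β x x = ∑ x : F, ∑ i : ZMod h, ∑ j : ZMod h,
        x⁻¹ * (coef j (cf i) * fr j x * fr i x) := by
        refine Finset.sum_congr rfl fun x _ => ?_
        rw [h2, Finset.mul_sum]
        exact Finset.sum_congr rfl fun i _ => Finset.mul_sum _ _ _
    _ = ∑ i : ZMod h, ∑ j : ZMod h, ∑ x : F, x⁻¹ * (coef j (cf i) * fr j x * fr i x) := by
        rw [Finset.sum_comm]
        exact Finset.sum_congr rfl fun i _ => Finset.sum_comm
    _ = ∑ i : ZMod h, ∑ j : ZMod h, if i = -1 ∧ j = -1 then coef j (cf i) else 0 :=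
        Finset.sum_congr rfl fun i _ => Finset.sum_congr rfl fun j _ => h3 i j
    _ = coef (-1 : ZMod h) (cf (-1)) := by
        rw [Finset.sum_eq_single (-1 : ZMod h), Finset.sum_eq_single (-1 : ZMod h)]
        · simp
        · intro j _ hj
          rw [if_neg fun h => hj h.2]
        · intro h
          exact absurd (Finset.mem_univ _) h
        · intro i _ hi
          exact Finset.sum_eq_zero fun j _ => if_neg fun h => hi h.1
        · intro h
          exact absurd (Finset.mem_univ _) h

/-- The polar form on two lines. -/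
def bl (hq : Quad f) (w w' : F × F) : F →+ F →+ F :=
  AddMonoidHom.mk' (fun x => AddMonoidHom.mk' (fun s => B f (x • w) (s • w')) fun s s' => by
    rw [add_smul, B_add hq]) fun x x' => by
    ext s
    change B f ((x + x') • w) (s • w') = B f (x • w) (s • w') + B f (x' • w) (s • w')
    rw [add_smul, B_add_left hq]

theorem gg_smul (h : ℕ) [NeZero h] [QF F h] (hq : Quad f) (y : F) (w w' : F × F) :
    gg f (y • w) w' = fr (-1 : ZMod h) y * gg f w w' := by
  have h1 := diag (h := h) (bl hq (y • w) w')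
  have h2 := diag (h := h) (bl hq w w')
  have e1 : ∀ w : F × F, gg f w w' = ∑ x : F, x⁻¹ * bl hq w w' x x := fun w => rfl
  rw [e1, e1, h1, h2, ← coef_mul_left]
  congr 1
  funext x'
  have h3 := scl (a := fun x : F => fr (-1 : ZMod h) x) (fun x y => map_mul _ x y)
    (fun x hx => fun h => hx ((fr_eq_zero _).1 h)) (fun x => B f (x • w) (x' • w')) (by
      simp only [zero_smul]
      rw [B_symm, B_zero]) y (fun hy => by rw [hy, map_zero])
  change ∑ x : F, (fr (-1 : ZMod h) x)⁻¹ * B f (x • y • w) (x' • w') =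
    fr (-1 : ZMod h) y * ∑ x : F, (fr (-1 : ZMod h) x)⁻¹ * B f (x • w) (x' • w')
  simp only [smul_smul]
  exact h3

end St0

open St0

theorem ST0_proof (F : Type) [Field F] [Fintype F] [CharP F 2] (h : ℕ) [NeZero h] [QF F h]
    (hN : NucStmt F) (hP : PlaneStmt F) : St0Stmt F := by
  classical
  intro f hq hs
  obtain ⟨b, hb⟩ := bt_om hN hq hs
  obtain ⟨e1, he1⟩ : ∃ e1 : F × F, e1 = (1, 0) := ⟨_, rfl⟩
  obtain ⟨e2, he2⟩ : ∃ e2 : F × F, e2 = (0, 1) := ⟨_, rfl⟩
  have hv : ∀ v : F × F, v = v.1 • e1 + v.2 • e2 := by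
    intro v
    rw [he1, he2]
    ext <;> simp
  obtain ⟨α, hα⟩ : ∃ α, α = f0 f e1 := ⟨_, rfl⟩
  obtain ⟨β, hβ⟩ : ∃ β, β = f0 f e2 := ⟨_, rfl⟩
  obtain ⟨κ, hκ⟩ : ∃ κ, κ = gg f e1 e2 := ⟨_, rfl⟩
  have hf0 : ∀ w : F × F, f0 f w = α * w.1 + β * w.2 +
      fr (-1 : ZMod h) w.1 * fr (-1 : ZMod h) w.2 * κ := by
    intro w
    conv_lhs => rw [hv w]
    rw [f0_add hq, f0_smul, f0_smul, gg_smul h hq, gg_symm, gg_smul h hq, gg_symm, ← hα, ← hβ,
      ← hκ]
    ring
  have hκ0 : κ = 0 := by
    refine hP f hs κ α β b fun u w => ?_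
    have hsq : ∀ x : F, (fr (-1 : ZMod h) x) ^ 2 = x := fun x => by
      rw [← fr_one (h := h), fr_neg]
    rw [lam_eq, hb, hf0, CharTwo.add_sq, CharTwo.add_sq, mul_pow (_ * _) κ, mul_pow, hsq, hsq]
    ring
  have hL : ∀ w : F × F, f0 f w = α * w.1 + β * w.2 := by
    intro w
    rw [hf0, hκ0, mul_zero, add_zero]
  have hmiss : ∀ u w : F × F, w ≠ 0 → ∀ x : F, x ≠ 0 →
      x⁻¹ * (f (u + x • w) + f u) ≠ α * w.1 + β * w.2 + b * om u w := by
    intro u w hw x hx
    have h1 := miss h (s := fun x => x⁻¹ * (f (u + x • w) + f u))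
      (fun x y hx hy hxy => hs u w hw x y hx hy hxy) (by simp) x hx
    rwa [lam_eq, hL, hb] at h1
  have hm1 : ∀ u v : F × F, u ≠ v →
      f u + f v ≠ α * (u.1 + v.1) + β * (u.2 + v.2) + b * om u v := by
    intro u v huv
    have hw : u + v ≠ 0 := fun h => huv (CharTwo.add_eq_zero.1 h)
    have h1 := hmiss u (u + v) hw 1 one_ne_zero
    have h2 : u + (1 : F) • (u + v) = v := by
      rw [one_smul, ← add_assoc, CharTwo.add_self_eq_zero, zero_add]
    rw [h2, inv_one, one_mul] at h1
    have h3 : om u (u + v) = om u v := by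
      unfold om
      simp only [Prod.fst_add, Prod.snd_add]
      linear_combination (u.1 * u.2) * (two0 : (2 : F) = 0)
    rw [h3, add_comm (f v)] at h1
    exact h1
  have hb0 : b ≠ 0 := by
    intro h0
    have hinj : Function.Injective (fun u : F × F => f u + α * u.1 + β * u.2) := by
      intro u v huv
      by_contra hne
      apply hm1 u v hne
      rw [h0, zero_mul, add_zero]
      have huv' : f u + α * u.1 + β * u.2 = f v + α * v.1 + β * v.2 := huv
      linear_combination huv' + (f v - α * u.1 - β * u.2) * (two0 : (2 : F) = 0)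
    have h1 := Fintype.card_le_of_injective _ hinj
    rw [Fintype.card_prod] at h1
    have h2 : 1 < Fintype.card F := Fintype.one_lt_card
    nlinarith
  refine ⟨b⁻¹, α, β, inv_ne_zero hb0, ?_⟩
  constructor
  · simp only [Prod.fst_zero, Prod.snd_zero, mul_zero, add_zero]
    rw [CharTwo.add_self_eq_zero, mul_zero]
  · intro u v w
    have h1 := hq u v w
    simp only [Prod.fst_add, Prod.snd_add, Prod.fst_zero, Prod.snd_zero, mul_zero, add_zero]
    linear_combination b⁻¹ * h1 + b⁻¹ * (4 * f 0 + 2 * α * (u.1 + v.1 + w.1) +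
      2 * β * (u.2 + v.2 + w.2)) * (two0 : (2 : F) = 0)
  · intro u v huv
    have h1 := hm1 u v huv
    intro h2
    apply h1
    have h3 : b * (b⁻¹ * (f u + f 0 + α * u.1 + β * u.2) + b⁻¹ * (f v + f 0 + α * v.1 + β * v.2)) =
        b * om u v := congrArg (fun z => b * z) h2
    have h4 : b * (b⁻¹ * (f u + f 0 + α * u.1 + β * u.2) +
        b⁻¹ * (f v + f 0 + α * v.1 + β * v.2)) =
        (f u + f 0 + α * u.1 + β * u.2) + (f v + f 0 + α * v.1 + β * v.2) := by
      field_simp
    rw [h4] at h3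
    linear_combination h3 - (f 0 + α * (u.1 + v.1) + β * (u.2 + v.2)) * (two0 : (2 : F) = 0)
  · intro u w hw x y hx hy hxy
    refine hs u w hw x y hx hy ?_
    have key : ∀ x : F, x ≠ 0 → x⁻¹ * (b⁻¹ * (f (u + x • w) + f 0 + α * (u + x • w).1 +
        β * (u + x • w).2) + b⁻¹ * (f u + f 0 + α * u.1 + β * u.2)) =
        b⁻¹ * (x⁻¹ * (f (u + x • w) + f u)) + b⁻¹ * (α * w.1 + β * w.2) := by
      intro x hx
      simp only [Prod.fst_add, Prod.snd_add, Prod.smul_fst, Prod.smul_snd, smul_eq_mul]
      have hxx : x⁻¹ * x = 1 := inv_mul_cancel₀ hx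
      linear_combination (b⁻¹ * (α * w.1 + β * w.2)) * hxx +
        (x⁻¹ * b⁻¹ * (f 0 + α * u.1 + β * u.2)) * (two0 : (2 : F) = 0)
    have hxy' : x⁻¹ * (b⁻¹ * (f (u + x • w) + f 0 + α * (u + x • w).1 +
        β * (u + x • w).2) + b⁻¹ * (f u + f 0 + α * u.1 + β * u.2)) =
        y⁻¹ * (b⁻¹ * (f (u + y • w) + f 0 + α * (u + y • w).1 +
        β * (u + y • w).2) + b⁻¹ * (f u + f 0 + α * u.1 + β * u.2)) := hxy
    rw [key x hx, key y hy] at hxy'
    exact mul_left_cancel₀ (inv_ne_zero hb0) (add_right_cancel hxy')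
  · intro u w
    have h1 := hb u w
    unfold bt at h1
    have h2 : ∑ x : F, x⁻¹ * (x * om u w) = om u w := by
      have h3 : ∀ x : F, x⁻¹ * (x * om u w) = (if x = 0 then 0 else 1) * om u w := by
        intro x
        by_cases hx : x = 0
        · rw [if_pos hx, hx]
          simp
        · rw [if_neg hx]
          field_simp
      rw [Finset.sum_congr rfl fun x _ => h3 x, ← Finset.sum_mul, Finset.sum_ite,
        Finset.sum_const_zero, zero_add, Finset.sum_const]
      have h4 : (univ.filter fun x : F => ¬ x = 0).card = Fintype.card F - 1 := by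
        rw [Finset.filter_not, Finset.filter_eq' univ (0 : F), if_pos (Finset.mem_univ _),
          Finset.sdiff_singleton_eq_erase, Finset.card_erase_of_mem (Finset.mem_univ _),
          Finset.card_univ]
      rw [h4, nsmul_eq_mul, mul_one]
      have h5 : ((Fintype.card F - 1 : ℕ) : F) = 1 := by
        have h6 : 1 ≤ Fintype.card F := Fintype.card_pos
        rw [Nat.cast_sub h6]
        have h7 : ((Fintype.card F : ℕ) : F) = 0 := FiniteField.cast_card_eq_zero F
        rw [h7, Nat.cast_one]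
        linear_combination -(two0 : (2 : F) = 0)
      rw [h5, one_mul]
    have h3 : ∀ x : F, x⁻¹ * (b⁻¹ * (f (u + x • w) + f 0 + α * (u + x • w).1 +
        β * (u + x • w).2) + b⁻¹ * (f u + f 0 + α * u.1 + β * u.2) +
        b⁻¹ * (f (x • w) + f 0 + α * (x • w).1 + β * (x • w).2) + om u (x • w)) =
        b⁻¹ * (x⁻¹ * B f u (x • w)) + x⁻¹ * (x * om u w) := by
      intro x
      have h4 : om u (x • w) = x * om u w := by
        unfold om
        simp only [Prod.smul_fst, Prod.smul_snd, smul_eq_mul]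
        ring
      rw [h4]
      unfold B
      simp only [Prod.fst_add, Prod.snd_add]
      linear_combination (x⁻¹ * b⁻¹ * (f 0 + α * (u.1 + (x • w).1) + β * (u.2 + (x • w).2))) *
        (two0 : (2 : F) = 0)
    rw [Finset.sum_congr rfl fun x _ => h3 x, Finset.sum_add_distrib, ← Finset.mul_sum, h1, h2]
    have h5 : b⁻¹ * (b * om u w) = om u w := by field_simp
    rw [h5, CharTwo.add_self_eq_zero]

end Pool.Agent.H51.QOV
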