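import Pool.Agent.H51.QOV.Stmt

set_option autoImplicit false
set_option linter.unusedSectionVars false

namespace Pool.Agent.H51.QOV

open Finset

section
variable {F : Type} [Field F] [Fintype F] [CharP F 2] {h : ℕ} [NeZero h]

theorem sys_two : (2 : F) = 0 := CharTwo.two_eq_zero

theorem Dd_comm (f : F × F → F) (u v : F × F) : Dd f u v = Dd f v u := by
  simp only [Dd, om, add_comm v u]; ring

theorem Dd_add_left {f : F × F → F} (hf : NF f) (u u' v : F × F) :
    Dd f (u + u') v = Dd f u v + Dd f u' v := by
  have h1 := hf.quad u u' v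
  have h2 := hf.zero
  have h3 : (2 : F) = 0 := sys_two
  simp only [Dd, om, Prod.fst_add, Prod.snd_add]
  linear_combination h1 - h2 - (f (u + v) + f (u' + v) + f u + f u' + f v) * h3

theorem Dd_add_right {f : F × F → F} (hf : NF f) (u v v' : F × F) :
    Dd f u (v + v') = Dd f u v + Dd f u v' := by
  rw [Dd_comm, Dd_add_left hf, Dd_comm f v u, Dd_comm f v' u]

theorem Dd_zero_left {f : F × F → F} (hf : NF f) (v : F × F) : Dd f 0 v = 0 := by
  have := Dd_add_left hf 0 0 v
  rw [add_zero] at this
  simpa using this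

theorem Dd_self {f : F × F → F} (hf : NF f) (v : F × F) : Dd f v v = 0 := by
  have h3 : (2 : F) = 0 := sys_two
  have h4 : v + v = 0 := by
    ext
    · simpa using CharTwo.add_self_eq_zero v.1
    · simpa using CharTwo.add_self_eq_zero v.2
  simp only [Dd, om, h4, hf.zero]
  linear_combination (f v + v.1 * v.2) * h3

/-- `D` as a bi-additive map. -/
def sysD (f : F × F → F) (hf : NF f) : F × F →+ F × F →+ F :=
  AddMonoidHom.mk' (fun u => AddMonoidHom.mk' (fun v => Dd f u v) (fun v v' => Dd_add_right hf u v v'))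
    (fun u u' => by
      ext1 v
      exact Dd_add_left hf u u' v)

theorem sysD_apply (f : F × F → F) (hf : NF f) (u v : F × F) : sysD f hf u v = Dd f u v := rfl

theorem om_add_left (u u' v : F × F) : om (u + u') v = om u v + om u' v := by
  simp only [om, Prod.fst_add, Prod.snd_add]; ring

theorem om_add_right (u v v' : F × F) : om u (v + v') = om u v + om u v' := by
  simp only [om, Prod.fst_add, Prod.snd_add]; ring

theorem om_smul_left (x : F) (u v : F × F) : om (x • u) v = x * om u v := by
  simp only [om, Prod.smul_fst, Prod.smul_snd, smul_eq_mul]; ring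

theorem om_smul_right (x : F) (u v : F × F) : om u (x • v) = x * om u v := by
  simp only [om, Prod.smul_fst, Prod.smul_snd, smul_eq_mul]; ring

theorem om_sum_right {ι : Type} (s : Finset ι) (u : F × F) (g : ι → F × F) :
    om u (∑ i ∈ s, g i) = ∑ i ∈ s, om u (g i) := by
  classical
  induction s using Finset.induction_on with
  | empty => simp [om]
  | insert a s ha ih => rw [Finset.sum_insert ha, Finset.sum_insert ha, om_add_right, ih]

theorem om_sum_left {ι : Type} (s : Finset ι) (u : F × F) (g : ι → F × F) :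
    om (∑ i ∈ s, g i) u = ∑ i ∈ s, om (g i) u := by
  classical
  induction s using Finset.induction_on with
  | empty => simp [om]
  | insert a s ha ih => rw [Finset.sum_insert ha, Finset.sum_insert ha, om_add_left, ih]

theorem om_eq_zero_all {v : F × F} (hv : ∀ u, om u v = 0) : v = 0 := by
  have h1 := hv (1, 0)
  have h2 := hv (0, 1)
  simp only [om, one_mul, zero_mul, add_zero, zero_add] at h1 h2
  ext
  · exact h2
  · exact h1

/-- uniqueness for the trace form. -/
theorem om_tr_ext [QF F h] {m m' : F × F} (hm : ∀ u, tr h (om u m) = tr h (om u m')) : m = m' := by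
  have h3 : m + m' = 0 := by
    apply om_nondeg (h := h)
    intro u
    rw [om_add_right, tr_add, hm u]
    exact CharTwo.add_self_eq_zero _
  have h4 : m' + m' = 0 := by
    ext
    · simpa using CharTwo.add_self_eq_zero m'.1
    · simpa using CharTwo.add_self_eq_zero m'.2
  have : m + m' = m' + m' := by rw [h3, h4]
  exact add_right_cancel this

theorem exists_M [QF F h] (f : F × F → F) (hf : NF f) (c : F) (v : F × F) :
    ∃ m : F × F, ∀ u, tr h (c * Dd f u v) = tr h (om u m) := by
  let ℓ : F × F →+ F :=
    AddMonoidHom.mk' (fun u => tr h (c * Dd f u v)) (fun u u' => by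
      rw [Dd_add_left hf, mul_add, tr_add])
  have := riesz2 (h := h) ℓ (fun u => tr_self_sq _)
  exact this

variable (h) in
/-- the operator `M_c`. -/
noncomputable def sysM0 [QF F h] (f : F × F → F) (hf : NF f) (c : F) (v : F × F) : F × F :=
  Classical.choose (exists_M (h := h) f hf c v)

theorem sysM0_spec [QF F h] (f : F × F → F) (hf : NF f) (c : F) (v u : F × F) :
    tr h (om u (sysM0 h f hf c v)) = tr h (c * Dd f u v) :=
  (Classical.choose_spec (exists_M (h := h) f hf c v) u).symm

theorem sysM0_add_right [QF F h] (f : F × F → F) (hf : NF f) (c : F) (v v' : F × F) :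
    sysM0 h f hf c (v + v') = sysM0 h f hf c v + sysM0 h f hf c v' := by
  apply om_tr_ext (h := h)
  intro u
  rw [om_add_right, tr_add, sysM0_spec, sysM0_spec, sysM0_spec, Dd_add_right hf, mul_add, tr_add]

theorem sysM0_add_left [QF F h] (f : F × F → F) (hf : NF f) (c c' : F) (v : F × F) :
    sysM0 h f hf (c + c') v = sysM0 h f hf c v + sysM0 h f hf c' v := by
  apply om_tr_ext (h := h)
  intro u
  rw [om_add_right, tr_add, sysM0_spec, sysM0_spec, sysM0_spec, add_mul, tr_add]

variable (h) in
noncomputable def sysM [QF F h] (f : F × F → F) (hf : NF f) : F →+ F × F →+ F × F :=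
  AddMonoidHom.mk' (fun c => AddMonoidHom.mk' (fun v => sysM0 h f hf c v)
    (fun v v' => sysM0_add_right f hf c v v'))
    (fun c c' => by
      apply AddMonoidHom.ext
      intro v
      exact sysM0_add_left f hf c c' v)

theorem sysM_spec [QF F h] (f : F × F → F) (hf : NF f) (c : F) (v u : F × F) :
    tr h (om u (sysM h f hf c v)) = tr h (c * Dd f u v) :=
  sysM0_spec f hf c v u

variable (h) in
/-- the components `m_a`. -/
noncomputable def sysm [QF F h] (f : F × F → F) (hf : NF f) (a : ZMod h) : F × F →+ F × F :=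
  AddMonoidHom.mk' (fun v => (coef a (fun c => (sysM h f hf c v).1), coef a (fun c => (sysM h f hf c v).2)))
    (fun v v' => by
      have e1 : (fun c => (sysM h f hf c (v + v')).1) =
          fun c => (sysM h f hf c v).1 + (sysM h f hf c v').1 := by
        funext c; rw [map_add]; rfl
      have e2 : (fun c => (sysM h f hf c (v + v')).2) =
          fun c => (sysM h f hf c v).2 + (sysM h f hf c v').2 := by
        funext c; rw [map_add]; rfl
      rw [e1, e2, coef_add, coef_add]
      rfl)

theorem sysm_sum [QF F h] (f : F × F → F) (hf : NF f) (c : F) (v : F × F) :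
    sysM h f hf c v = ∑ a, (fr a c : F) • sysm h f hf a v := by
  let φ1 : F →+ F := (AddMonoidHom.fst F F).comp (AddMonoidHom.mk' (fun c => sysM h f hf c v)
    (fun c c' => by rw [map_add]; rfl))
  let φ2 : F →+ F := (AddMonoidHom.snd F F).comp (AddMonoidHom.mk' (fun c => sysM h f hf c v)
    (fun c c' => by rw [map_add]; rfl))
  have h1 := lin_rep (h := h) φ1 c
  have h2 := lin_rep (h := h) φ2 c
  ext
  · rw [Prod.fst_sum]
    change φ1 c = _
    rw [h1]
    refine Finset.sum_congr rfl fun a _ => ?_
    rw [mul_comm]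
    rfl
  · rw [Prod.snd_sum]
    change φ2 c = _
    rw [h2]
    refine Finset.sum_congr rfl fun a _ => ?_
    rw [mul_comm]
    rfl

/-- coefficients of a sum of Frobenius powers vanish if the sum vanishes. -/
theorem fr_indep [QF F h] {c d : ZMod h → F} (hcd : ∀ x : F, ∑ a, fr a x * c a = ∑ a, fr a x * d a)
    (a : ZMod h) : c a = d a := by
  rw [← coef_sum (F := F) c a, ← coef_sum (F := F) d a]
  congr 1
  funext x
  have := hcd x
  simpa only [mul_comm] using this

/-- the relation between `m_a` and the coefficients of `D(u, x w)`. -/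
theorem om_sysm [QF F h] (f : F × F → F) (hf : NF f) (a : ZMod h) (u w : F × F) :
    om w (sysm h f hf a u) = fr a (gco f (-a) u w) := by
  have key : ∀ c : F, ∑ a : ZMod h, fr a c * om w (sysm h f hf a u) =
      ∑ a : ZMod h, fr a c * fr a (gco f (-a) u w) := by
    intro c
    -- both sides have the same pairing with every x
    have h1 : ∀ x : F, tr h ((∑ a : ZMod h, fr a c * om w (sysm h f hf a u)) * x) =
        tr h (c * Dd f (x • w) u) := by
      intro x
      rw [← sysM_spec f hf, sysm_sum, om_smul_left, om_sum_right, mul_comm]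
      simp only [om_smul_right]
    have h2 : ∀ x : F, tr h ((∑ a : ZMod h, fr a c * fr a (gco f (-a) u w)) * x) =
        tr h (c * Dd f (x • w) u) := by
      intro x
      let φ : F →+ F := AddMonoidHom.mk' (fun x => Dd f u (x • w)) (fun x y => by
        rw [add_smul, Dd_add_right hf])
      have h3 := lin_rep (h := h) φ x
      have h4 : Dd f (x • w) u = ∑ b : ZMod h, gco f b u w * fr b x := by
        rw [Dd_comm]; exact h3
      rw [h4, Finset.sum_mul, Finset.mul_sum, tr_sum, tr_sum]
      refine Fintype.sum_equiv (Equiv.neg (ZMod h)) _ _ fun b => ?_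
      simp only [Equiv.neg_apply]
      rw [← tr_fr (h := h) b (c * (gco f (-b) u w * fr (-b) x))]
      rw [map_mul, map_mul, fr_neg]
      congr 1
      ring
    have h5 : ∀ x : F, tr h (((∑ a : ZMod h, fr a c * om w (sysm h f hf a u)) +
        (∑ a : ZMod h, fr a c * fr a (gco f (-a) u w))) * x) = 0 := by
      intro x
      rw [add_mul, tr_add, h1, h2]
      exact CharTwo.add_self_eq_zero _
    have h6 := tr_nondeg (h := h) h5
    exact CharTwo.add_eq_zero.1 h6
  exact fr_indep key a

theorem sysm_zero [QF F h] (f : F × F → F) (hf : NF f) : sysm h f hf 0 = 0 := by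
  apply AddMonoidHom.ext
  intro u
  rw [AddMonoidHom.zero_apply]
  apply om_eq_zero_all
  intro w
  rw [om_sysm, neg_zero, fr_zero]
  have := hf.p0 u w
  unfold gco coef
  rw [← this]
  refine Finset.sum_congr rfl fun x _ => ?_
  rw [fr_zero]
  rfl

theorem sysm_p0 [QF F h] (f : F × F → F) (hf : NF f) (a : ZMod h) (w : F × F) :
    ∑ x : F, (fr a x)⁻¹ • sysm h f hf a (x • w) = 0 := by
  -- sum over x of M_{z/x}(x w) vanishes
  have h1 : ∀ z : F, ∑ x : F, sysM h f hf (z * x⁻¹) (x • w) = 0 := by
    intro z
    apply om_nondeg (h := h)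
    intro u
    rw [om_sum_right, tr_sum]
    have e : ∀ x : F, tr h (om u (sysM h f hf (z * x⁻¹) (x • w))) =
        tr h (z * (x⁻¹ * Dd f u (x • w))) := by
      intro x
      rw [sysM_spec, mul_assoc]
    simp only [e]
    rw [← tr_sum, ← Finset.mul_sum]
    have := hf.p0 u w
    have e2 : ∑ x : F, x⁻¹ * Dd f u (x • w) = 0 := by
      rw [← this]; rfl
    rw [e2, mul_zero, tr_zero]
  apply om_eq_zero_all
  intro u
  have h2 : ∀ z : F, ∑ a : ZMod h, fr a z * om u (∑ x : F, (fr a x)⁻¹ • sysm h f hf a (x • w)) =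
      ∑ a : ZMod h, fr a z * (0 : F) := by
    intro z
    have h3 := congrArg (om u) (h1 z)
    rw [om_sum_right] at h3
    have h4 : om u (0 : F × F) = 0 := by simp [om]
    rw [h4] at h3
    simp only [mul_zero, Finset.sum_const_zero]
    rw [← h3]
    simp only [sysm_sum, om_sum_right, om_smul_right, Finset.mul_sum]
    rw [Finset.sum_comm]
    refine Finset.sum_congr rfl fun x _ => Finset.sum_congr rfl fun b _ => ?_
    rw [map_mul, map_inv₀]
    ring
  exact fr_indep h2 a

theorem sysM_p1 [QF F h] (f : F × F → F) (hf : NF f) (v : F × F) :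
    ∃ c, c ≠ 0 ∧ sysM h f hf c v = 0 := by
  by_cases hv : v = 0
  · exact ⟨1, one_ne_zero, by rw [hv, map_zero]⟩
  · let φ : F × F →+ F := AddMonoidHom.mk' (fun u => Dd f u v) (fun u u' => Dd_add_left hf u u' v)
    have hφ : ∀ u, φ u ≠ f v := by
      intro u hu
      have h1 : f (u + v) + f u + f v + om u v = f v := hu
      have h2 := hf.ov (u + v) u (by
        intro hh
        exact hv (by simpa using hh))
      apply h2
      have h3 : (2 : F) = 0 := sys_two
      simp only [om, Prod.fst_add, Prod.snd_add] at h1 ⊢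
      linear_combination h1 - (u.1 * u.2 + u.1 * v.2 + u.2 * v.1) * h3
    obtain ⟨c, hc, hck⟩ := exists_killer (h := h) φ hφ
    refine ⟨c, hc, ?_⟩
    apply om_nondeg (h := h)
    intro u
    rw [sysM_spec]
    exact hck u

theorem exists_fr_ne [QF F h] {r : ZMod h} (hr : r ≠ 0) : ∃ y : F, fr r y ≠ y := by
  by_contra hh
  push Not at hh
  have h1 : coef (0 : ZMod h) (fun x : F => fr r x) = 1 := by
    simp only [hh]
    have := orth (F := F) (0 : ZMod h) 0
    simp only [if_true] at this
    unfold coef
    rw [← this]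
    refine Finset.sum_congr rfl fun x _ => ?_
    rw [fr_zero, mul_comm]
  have h2 : coef (0 : ZMod h) (fun x : F => fr r x) = 0 := by
    have := orth (F := F) (0 : ZMod h) r
    rw [if_neg (fun h0 => hr h0.symm)] at this
    unfold coef
    rw [← this]
    refine Finset.sum_congr rfl fun x _ => ?_
    rw [mul_comm]
  rw [h1] at h2
  exact one_ne_zero h2

theorem sesq_zero [QF F h] {r : ZMod h} (hr : r ≠ 0) (q11 q12 q21 q22 : F)
    (hq : ∀ w1 w2 : F, q11 * (fr r w1 * w1) + q12 * (fr r w1 * w2) + q21 * (fr r w2 * w1) +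
      q22 * (fr r w2 * w2) = 0) : q11 = 0 ∧ q12 = 0 ∧ q21 = 0 ∧ q22 = 0 := by
  have h11 : q11 = 0 := by
    have := hq 1 0
    simpa using this
  have h22 : q22 = 0 := by
    have := hq 0 1
    simpa using this
  have h12 : q12 = 0 := by
    obtain ⟨y, hy⟩ := exists_fr_ne (F := F) hr
    have e1 := hq 1 1
    have e2 := hq 1 y
    simp only [h11, h22, map_one, mul_one, one_mul, zero_mul, zero_add, add_zero] at e1 e2
    have e3 : q21 = q12 := (CharTwo.add_eq_zero.1 e1).symm
    rw [e3] at e2
    have e4 : q12 * (y + fr r y) = 0 := by rw [mul_add]; exact e2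
    rcases mul_eq_zero.1 e4 with h0 | h0
    · exact h0
    · exact absurd (CharTwo.add_eq_zero.1 h0).symm hy
  refine ⟨h11, h12, ?_, h22⟩
  have e1 := hq 1 1
  simp only [h11, h22, h12, map_one, mul_one, zero_add, add_zero] at e1
  exact e1

end

variable (F : Type) [Field F] [Fintype F] [CharP F 2] (h : ℕ) [NeZero h]

theorem SYS_proof [QF F h] (hP2 : P2Stmt F h) (hJ1 : J1Stmt F h) (hE : ERelStmt F h) :
    SysStmt F h := by
  intro f hf
  have hT : ∀ u v : F × F, ∀ c : F, c ≠ 0 →
      tr h (c⁻¹ * ∑ a, ∑ b, fr a c * fr b c *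
        om (sysm h f hf a u) (sysm h f hf b v)) = 0 := by
    intro u v c hc
    have h1 := hP2 f hf c hc (fun v => sysM h f hf c v) (fun u v => sysM_spec f hf c v u) u v
    rw [← h1]
    congr 2
    rw [sysm_sum f hf c u, sysm_sum f hf c v, om_sum_left]
    refine Finset.sum_congr rfl fun a _ => ?_
    rw [om_sum_right]
    refine Finset.sum_congr rfl fun b _ => ?_
    rw [om_smul_left, om_smul_right]
    ring
  have h0 : ∀ v, sysm h f hf 0 v = 0 := by
    intro v; rw [sysm_zero]; rfl
  have hE' : ∀ u v : F × F, _ := fun u v =>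
    hE (fun a b => om (sysm h f hf a u) (sysm h f hf b v))
      (fun a => by simp only [h0]; simp [om]) (fun a => by simp only [h0]; simp [om]) (hT u v)
  refine ⟨{ D := sysD f hf
            M := sysM h f hf
            m := sysm h f hf
            alt := fun v => Dd_self hf v
            hM := fun c u v => sysM_spec f hf c v u
            hm := fun c v => sysm_sum f hf c v
            m0 := sysm_zero f hf
            p0 := sysm_p0 f hf
            p1 := sysM_p1 f hf
            j1 := ?_
            e1 := fun a b hab ha ha1 ha2 hb hb1 hb2 u v => (hE' u v).1 a b hab ha ha1 ha2 hb hb1 hb2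
            e2 := fun a ha ha2 u v => (hE' u v).2.1 a ha ha2
            e3 := fun b hb hb1 hb2 u v => (hE' u v).2.2 b hb hb1 hb2 }, fun u v => rfl⟩
  intro r hr w w' u u'
  have hd : ∀ w : F × F, fr r (om w (sysm h f hf (-r) u)) * om w (sysm h f hf r u') =
      fr r (om w (sysm h f hf (-r) u')) * om w (sysm h f hf r u) := by
    intro w
    have := hJ1 f hf r hr u u' w
    rw [om_sysm, om_sysm, om_sysm, om_sysm, fr_neg, fr_neg, neg_neg]
    exact this
  set A := sysm h f hf (-r) u
  set B := sysm h f hf r u'
  set A' := sysm h f hf (-r) u'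
  set B' := sysm h f hf r u
  have h2 : (2 : F) = 0 := sys_two
  obtain ⟨q1, q2, q3, q4⟩ := sesq_zero hr
    (fr r A.2 * B.2 + fr r A'.2 * B'.2)
    (fr r A.2 * B.1 + fr r A'.2 * B'.1)
    (fr r A.1 * B.2 + fr r A'.1 * B'.2)
    (fr r A.1 * B.1 + fr r A'.1 * B'.1) (by
      intro w1 w2
      have := hd (w1, w2)
      simp only [om, map_add, map_mul] at this
      linear_combination this + (fr r w1 * fr r A'.2 * w1 * B'.2 + fr r w1 * fr r A'.2 * w2 * B'.1 +
        fr r w2 * fr r A'.1 * w1 * B'.2 + fr r w2 * fr r A'.1 * w2 * B'.1) * h2)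
  simp only [om, map_add, map_mul]
  linear_combination (fr r w.1 * w'.1) * q1 + (fr r w.1 * w'.2) * q2 + (fr r w.2 * w'.1) * q3 +
    (fr r w.2 * w'.2) * q4 - (fr r w.1 * fr r A'.2 * w'.1 * B'.2 + fr r w.1 * fr r A'.2 * w'.2 * B'.1 +
        fr r w.2 * fr r A'.1 * w'.1 * B'.2 + fr r w.2 * fr r A'.1 * w'.2 * B'.1) * h2

end Pool.Agent.H51.QOV
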