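import Pool.Agent.H51.QOV.NUC
import Pool.Agent.H51.QOV.PLANE
import Pool.Agent.H51.QOV.ST0
import Pool.Agent.H51.QOV.P2
import Pool.Agent.H51.QOV.J1
import Pool.Agent.H51.QOV.EREL
import Pool.Agent.H51.QOV.SYS
import Pool.Agent.H51.QOV.CI
import Pool.Agent.H51.QOV.CII
import Pool.Agent.H51.QOV.LT
import Pool.Agent.H51.QOV.CIII
import Pool.Agent.H51.QOV.PAY
import Pool.Agent.H51.QOV.RED
import Pool.Agent.H51.QOV.FR1
import Pool.Agent.H51.QOV.FRT
import Pool.Agent.H51.QOV.MAIN
import Pool.Agent.H51.QOV.TOP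

set_option autoImplicit false

namespace Pool.Agent.H51.QOV

theorem all_main (F : Type) [Field F] [Fintype F] [CharP F 2] (h : ℕ) [NeZero h] [QF F h] :
    MainStmt F h :=
  MAIN_proof (F := F) (h := h)
    (ST0_proof F h (NUC_proof F h) (PLANE_proof F h))
    (SYS_proof (F := F) (h := h) (P2_proof F h) (J1_proof F h) (EREL_proof F h))
    (CI_proof F h) (c2_main (F := F) (h := h)) (c3_main (F := F) (h := h) (lt_main (F := F) (h := h)))
    (RED_proof F h (PAY_proof F h)) (FR1_proof F h) (FRT_proof F h)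

theorem all_top : TopStmt := TOP_proof all_main

end Pool.Agent.H51.QOV
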