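import Mathlib

set_option autoImplicit false
set_option linter.unusedSectionVars false
set_option linter.style.haveILetI false

namespace Pool.Agent.H51.QOV

open Finset

/-- Standing assumption: `|F| = 2^h` with `h ≥ 4`. -/
class QF (F : Type) (h : ℕ) [Field F] [Fintype F] : Prop where
  card : Fintype.card F = 2 ^ h
  four : 4 ≤ h

variable {F : Type} [Field F] [Fintype F] [CharP F 2] {h : ℕ} [NeZero h]

/-- The symplectic form on `F²`. -/
def om (u v : F × F) : F := u.1 * v.2 + u.2 * v.1

/-- The Frobenius power `x ↦ x^(2^a)`, `a ∈ ℤ/h`. -/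
def fr (a : ZMod h) : F →+* F := iterateFrobenius F 2 a.val

theorem fr_def (a : ZMod h) (x : F) : fr a x = x ^ (2 ^ a.val) := by
  simp [fr, iterateFrobenius_def]

@[simp] theorem fr_zero (x : F) : fr (0 : ZMod h) x = x := by
  simp [fr_def]

theorem pow_card' [QF F h] (x : F) : x ^ (2 ^ h) = x := by
  have := FiniteField.pow_card x
  rwa [QF.card (F := F) (h := h)] at this

theorem pow_two_pow_add_mul [QF F h] (x : F) (n k : ℕ) :
    x ^ (2 ^ (n + h * k)) = x ^ (2 ^ n) := by
  induction k with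
  | zero => simp
  | succ k ih =>
    have : n + h * (k + 1) = h + (n + h * k) := by ring
    rw [this, pow_add, pow_mul, pow_card' (h := h), ih]

theorem pow_two_pow_mod [QF F h] (x : F) (n : ℕ) :
    x ^ (2 ^ n) = x ^ (2 ^ (n % h)) := by
  conv_lhs => rw [← Nat.mod_add_div n h]
  exact pow_two_pow_add_mul x _ _

theorem fr_add [QF F h] (a b : ZMod h) (x : F) : fr (a + b) x = fr a (fr b x) := by
  simp only [fr_def]
  rw [← pow_mul, ← pow_add, ZMod.val_add, pow_two_pow_mod (h := h) x (b.val + a.val), add_comm b.val]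

theorem fr_one [QF F h] (x : F) : fr (1 : ZMod h) x = x ^ 2 := by
  have h4 := QF.four (F := F) (h := h)
  haveI : Fact (1 < h) := ⟨by omega⟩
  rw [fr_def, ZMod.val_one h, pow_one]

theorem fr_neg [QF F h] (a : ZMod h) (x : F) : fr a (fr (-a) x) = x := by
  rw [← fr_add]; simp

theorem fr_neg' [QF F h] (a : ZMod h) (x : F) : fr (-a) (fr a x) = x := by
  rw [← fr_add]; simp

theorem fr_inj (a : ZMod h) {x y : F} (hxy : fr a x = fr a y) : x = y :=
  RingHom.injective (fr a : F →+* F) hxy

theorem fr_eq_zero (a : ZMod h) {x : F} : fr a x = 0 ↔ x = 0 := by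
  simp

theorem fr_bij (a : ZMod h) : Function.Bijective (fun x : F => fr a x) :=
  Finite.injective_iff_bijective.mp fun _ _ hxy => fr_inj a hxy

/-- powers summed over the field, `i, j > 0`, `0⁻¹ = 0`. -/
theorem sum_pow_mul_inv [QF F h] (i j : ℕ) (hi : 0 < i) (hj : 0 < j) :
    ∑ x : F, x ^ i * (x ^ j)⁻¹ =
      if ((i : ℕ) : ZMod (2 ^ h - 1)) = ((j : ℕ) : ZMod (2 ^ h - 1)) then 1 else 0 := by
  classical
  have hcard : Fintype.card F = 2 ^ h := QF.card
  have hc : 1 < 2 ^ h := by rw [← hcard]; exact Fintype.one_lt_card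
  have h1 : ∑ x : F, x ^ i * (x ^ j)⁻¹ =
      ∑ x : Fˣ, ((x : F) ^ (i + (2 ^ h - 2) * j)) := by
    have h0 : ∑ x : F, x ^ i * (x ^ j)⁻¹ = ∑ x ∈ univ \ {(0 : F)}, x ^ i * (x ^ j)⁻¹ := by
      rw [← Finset.sum_sdiff (Finset.subset_univ {(0 : F)})]
      simp [hi.ne', hj.ne']
    rw [h0]
    rw [Finset.sum_subtype (p := fun x : F => x ≠ 0) (univ \ {(0 : F)}) (by simp)
      (fun x => x ^ i * (x ^ j)⁻¹)]
    refine (Fintype.sum_equiv unitsEquivNeZero _ _ ?_).symm
    intro x
    simp only [unitsEquivNeZero_apply_coe]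
    rw [pow_add]
    congr 1
    have hx : (x : F) ≠ 0 := x.ne_zero
    have hx1 : (x : F) ^ (2 ^ h - 1) = 1 := by
      rw [← hcard]; exact FiniteField.pow_card_sub_one_eq_one _ hx
    rw [eq_comm]
    apply inv_eq_of_mul_eq_one_left
    rw [← pow_add]
    have e : (2 ^ h - 2) * j + j = (2 ^ h - 1) * j := by
      have : 2 ^ h - 1 = (2 ^ h - 2) + 1 := by omega
      rw [this]; ring
    rw [e, pow_mul, hx1, one_pow]
  rw [h1, FiniteField.sum_pow_units, hcard]
  have h2 : (-1 : F) = 1 := by
    rw [neg_eq_iff_add_eq_zero]; exact CharTwo.add_self_eq_zero _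
  rw [h2]
  congr 1
  rw [← ZMod.natCast_eq_zero_iff]
  push_cast
  have h3 : ((2 ^ h - 2 : ℕ) : ZMod (2 ^ h - 1)) = -1 := by
    rw [eq_neg_iff_add_eq_zero]
    have e : (2 ^ h - 2) + 1 = 2 ^ h - 1 := by omega
    have : (((2 ^ h - 2) + 1 : ℕ) : ZMod (2 ^ h - 1)) = 0 := by
      rw [e]; simp
    rw [← this]; push_cast; rfl
  rw [h3]
  simp only [neg_mul, one_mul, eq_iff_iff]
  constructor
  · intro hh; linear_combination hh
  · intro hh; rw [hh]; ring

/-- `2^a` in `ℤ/(2^h-1)`. -/
def P (a : ZMod h) : ZMod (2 ^ h - 1) := ((2 ^ a.val : ℕ) : ZMod (2 ^ h - 1))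


theorem P_succ (a : ZMod h) : P a + P a = P (a + 1) := by
  have h0 : 0 < h := Nat.pos_of_ne_zero (NeZero.ne h)
  have ha : a.val < h := ZMod.val_lt a
  unfold P
  by_cases h1 : h = 1
  · subst h1
    have e : (2 ^ 1 - 1 : ℕ) = 1 := by norm_num
    have : ∀ x y : ZMod (2 ^ 1 - 1), x = y := by
      rw [e]; intro x y; exact Subsingleton.elim x y
    exact this _ _
  haveI : Fact (1 < h) := ⟨by omega⟩
  by_cases h2 : a.val + 1 < h
  · have : (a + 1).val = a.val + 1 := by
      rw [ZMod.val_add, ZMod.val_one h]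
      exact Nat.mod_eq_of_lt h2
    rw [this, pow_succ]
    push_cast
    ring
  · have h3 : a.val + 1 = h := by omega
    have : (a + 1).val = 0 := by
      rw [ZMod.val_add, ZMod.val_one h, h3]
      simp
    rw [this]
    have h4 : 2 ^ h = 2 ^ a.val + 2 ^ a.val := by
      have : 2 ^ h = 2 ^ (a.val + 1) := congrArg (fun n => 2 ^ n) h3.symm
      rw [this, pow_succ]; ring
    have h5 : 1 ≤ 2 ^ h := Nat.one_le_two_pow
    have h6 : 2 ^ a.val + 2 ^ a.val = (2 ^ h - 1) + 1 := by omega
    rw [← Nat.cast_add, h6]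
    simp

theorem sum_two_pow_lt {S : Finset (ZMod h)} (hS : S ≠ univ) :
    ∑ a ∈ S, 2 ^ a.val < 2 ^ h - 1 := by
  classical
  obtain ⟨b, hb⟩ : ∃ b, b ∉ S := by
    by_contra hh
    push Not at hh
    exact hS (Finset.eq_univ_iff_forall.2 hh)
  have e : ∀ T : Finset (ZMod h), ∑ a ∈ T, 2 ^ a.val = ∑ n ∈ T.image ZMod.val, 2 ^ n := by
    intro T
    rw [Finset.sum_image]
    intro x _ y _ hxy
    exact ZMod.val_injective h hxy
  have h1 : ∑ a ∈ insert b S, 2 ^ a.val < 2 ^ h := by
    rw [e]
    apply Nat.geomSum_lt (le_refl 2)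
    intro k hk
    obtain ⟨x, _, rfl⟩ := Finset.mem_image.1 hk
    exact ZMod.val_lt x
  rw [Finset.sum_insert hb] at h1
  have h2 : 1 ≤ 2 ^ b.val := Nat.one_le_two_pow
  omega

theorem P_sum_inj {S T : Finset (ZMod h)} (hS : S ≠ univ) (hT : T ≠ univ)
    (hST : ∑ a ∈ S, P a = ∑ a ∈ T, P a) : S = T := by
  classical
  have h1 : ((∑ a ∈ S, 2 ^ a.val : ℕ) : ZMod (2 ^ h - 1)) = ((∑ a ∈ T, 2 ^ a.val : ℕ)) := by
    push_cast
    simpa [P] using hST
  rw [ZMod.natCast_eq_natCast_iff'] at h1
  rw [Nat.mod_eq_of_lt (sum_two_pow_lt hS), Nat.mod_eq_of_lt (sum_two_pow_lt hT)] at h1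
  have e : ∀ T : Finset (ZMod h), ∑ a ∈ T, 2 ^ a.val = ∑ n ∈ T.image ZMod.val, 2 ^ n := by
    intro T
    rw [Finset.sum_image]
    intro x _ y _ hxy
    exact ZMod.val_injective h hxy
  rw [e, e] at h1
  have h2 : S.image ZMod.val = T.image ZMod.val := Finset.geomSum_injective (le_refl 2) h1
  exact Finset.image_injective (ZMod.val_injective h) h2

theorem list_prod_fr (s : List (ZMod h)) (x : F) :
    (s.map fun a => fr a x).prod = x ^ (s.map fun a => 2 ^ a.val).sum := by
  induction s with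
  | nil => simp
  | cons a s ih =>
    rw [List.map_cons, List.prod_cons, ih, List.map_cons, List.sum_cons, fr_def, pow_add]

theorem list_sum_pos (s : List (ZMod h)) (hs : s ≠ []) : 0 < (s.map fun a => 2 ^ a.val).sum := by
  cases s with
  | nil => simp at hs
  | cons a s =>
    simp only [List.map_cons, List.sum_cons]
    positivity

theorem orthL [QF F h] (s t : List (ZMod h)) (hs : s ≠ []) (ht : t ≠ []) :
    ∑ x : F, (s.map fun a => fr a x).prod * ((t.map fun a => fr a x).prod)⁻¹ =
      if (s.map P).sum = (t.map P).sum then 1 else 0 := by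
  simp only [list_prod_fr]
  rw [sum_pow_mul_inv (h := h) _ _ (list_sum_pos s hs) (list_sum_pos t ht)]
  have e : ∀ s : List (ZMod h), (((s.map fun a => 2 ^ a.val).sum : ℕ) : ZMod (2 ^ h - 1)) =
      (s.map P).sum := by
    intro s
    induction s with
    | nil => simp
    | cons a s ih =>
      simp only [List.map_cons, List.sum_cons]
      push_cast at ih ⊢
      rw [ih]
      simp [P]
  rw [e, e]

theorem ne_univ_of_card [QF F h] {S : Finset (ZMod h)} (hS : S.card ≤ 3) : S ≠ univ := by
  rintro rfl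
  have h4 := QF.four (F := F) (h := h)
  rw [Finset.card_univ, ZMod.card] at hS
  omega

theorem P_inj [QF F h] {a b : ZMod h} (hab : P a = P b) : a = b := by
  have := P_sum_inj (S := {a}) (T := {b}) (ne_univ_of_card (F := F) (by simp))
    (ne_univ_of_card (F := F) (by simp)) (by simpa using hab)
  simpa using this

/-- orthogonality of the Frobenius powers. -/
theorem orth [QF F h] (a b : ZMod h) :
    ∑ x : F, fr b x * (fr a x)⁻¹ = if a = b then 1 else 0 := by
  have := orthL (F := F) [b] [a] (by simp) (by simp)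
  simp only [List.map_cons, List.map_nil, List.prod_cons, List.prod_nil, mul_one, List.sum_cons,
    List.sum_nil, add_zero] at this
  rw [this]
  congr 1
  simp only [eq_iff_iff]
  constructor
  · intro hh; exact (P_inj (F := F) hh).symm
  · intro hh; rw [hh]

/-! ### coefficients of additive maps, trace -/

/-- the coefficient at `x^(2^a)`. -/
def coef (a : ZMod h) (φ : F → F) : F := ∑ x : F, (fr a x)⁻¹ * φ x

/-- absolute trace (as an element of `F`). -/
def tr (h : ℕ) [NeZero h] (x : F) : F := ∑ a : ZMod h, fr a x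

theorem tr_add (x y : F) : tr h (x + y) = tr h x + tr h y := by
  simp [tr, Finset.sum_add_distrib]

@[simp] theorem tr_zero : tr h (0 : F) = 0 := by simp [tr]

theorem tr_sum {ι : Type} (s : Finset ι) (g : ι → F) : tr h (∑ i ∈ s, g i) = ∑ i ∈ s, tr h (g i) := by
  classical
  induction s using Finset.induction_on with
  | empty => simp
  | insert a s ha ih => rw [Finset.sum_insert ha, Finset.sum_insert ha, tr_add, ih]

theorem tr_fr [QF F h] (a : ZMod h) (x : F) : tr h (fr a x) = tr h x := by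
  unfold tr
  have : ∀ b : ZMod h, fr b (fr a x) = fr (b + a) x := fun b => (fr_add b a x).symm
  simp only [this]
  exact Fintype.sum_equiv (Equiv.addRight a) _ _ (fun b => rfl)

theorem fr_tr [QF F h] (a : ZMod h) (x : F) : fr a (tr h x) = tr h x := by
  unfold tr
  rw [map_sum]
  have : ∀ b : ZMod h, fr a (fr b x) = fr (a + b) x := fun b => (fr_add a b x).symm
  simp only [this]
  exact Fintype.sum_equiv (Equiv.addLeft a) _ _ (fun b => rfl)

theorem tr_sq [QF F h] (x : F) : tr h (x ^ 2) = tr h x := by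
  rw [← fr_one (h := h), tr_fr]

theorem tr_self_sq [QF F h] (x : F) : (tr h x) ^ 2 = tr h x := by
  rw [← fr_one (h := h), fr_tr]

theorem tr_zero_or_one [QF F h] (x : F) : tr h x = 0 ∨ tr h x = 1 := by
  have := tr_self_sq (h := h) x
  have h2 : tr h x * (tr h x - 1) = 0 := by linear_combination this
  rcases mul_eq_zero.1 h2 with h3 | h3
  · exact Or.inl h3
  · exact Or.inr (sub_eq_zero.1 h3)

theorem coef_sum [QF F h] (c : ZMod h → F) (a : ZMod h) :
    coef a (fun x => ∑ b : ZMod h, c b * fr b x) = c a := by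
  unfold coef
  simp only [Finset.mul_sum]
  rw [Finset.sum_comm]
  have : ∀ b : ZMod h, ∑ x : F, (fr a x)⁻¹ * (c b * fr b x) = if a = b then c b else 0 := by
    intro b
    have e : ∀ x : F, (fr a x)⁻¹ * (c b * fr b x) = c b * (fr b x * (fr a x)⁻¹) := by
      intro x; ring
    simp only [e]
    rw [← Finset.mul_sum, orth]
    split_ifs <;> simp
  simp only [this]
  simp

theorem coef_mul_left (a : ZMod h) (c : F) (φ : F → F) :
    coef a (fun x => c * φ x) = c * coef a φ := by
  unfold coef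
  rw [Finset.mul_sum]
  exact Finset.sum_congr rfl fun x _ => by ring

theorem coef_add (a : ZMod h) (φ ψ : F → F) :
    coef a (fun x => φ x + ψ x) = coef a φ + coef a ψ := by
  unfold coef
  rw [← Finset.sum_add_distrib]
  exact Finset.sum_congr rfl fun x _ => by ring

/-- The trace form is non-degenerate. -/
theorem tr_nondeg [QF F h] {a : F} (ha : ∀ x, tr h (a * x) = 0) : a = 0 := by
  have h1 : coef (0 : ZMod h) (fun x => tr h (a * x)) = a := by
    have e : (fun x : F => tr h (a * x)) = fun x => ∑ b : ZMod h, (fr b a) * fr b x := by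
      funext x; simp [tr]
    rw [e, coef_sum]
    simp
  rw [← h1]
  unfold coef
  simp [ha]

theorem exists_tr_eq_one [QF F h] : ∃ x : F, tr h x = 1 := by
  by_contra hh
  push Not at hh
  have : ∀ x : F, tr h (1 * x) = 0 := by
    intro x
    rcases tr_zero_or_one (h := h) (1 * x) with h1 | h1
    · exact h1
    · exact absurd h1 (hh _)
  exact one_ne_zero (tr_nondeg this)

/-- every additive map is a linearised polynomial. -/
theorem lin_surj [QF F h] (φ : F →+ F) : ∃ c : ZMod h → F, ∀ x, φ x = ∑ b, c b * fr b x := by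
  classical
  letI : Algebra (ZMod 2) F := ZMod.algebra F 2
  have hfr : Module.finrank (ZMod 2) F = h := by
    have h1 := Module.card_eq_pow_finrank (K := ZMod 2) (V := F)
    rw [ZMod.card, QF.card (F := F) (h := h)] at h1
    exact (Nat.pow_right_injective (le_refl 2) h1).symm
  let L : (ZMod h → F) → (F →ₗ[ZMod 2] F) := fun c =>
    AddMonoidHom.toZModLinearMap 2
      { toFun := fun x => ∑ b, c b * fr b x
        map_zero' := by simp
        map_add' := by
          intro x y
          rw [← Finset.sum_add_distrib]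
          exact Finset.sum_congr rfl fun b _ => by rw [map_add]; ring }
  have hL : ∀ c x, L c x = ∑ b, c b * fr b x := fun c x => rfl
  have hinj : Function.Injective L := by
    intro c d hcd
    funext a
    rw [← coef_sum (F := F) c a, ← coef_sum (F := F) d a]
    congr 1
    funext x
    rw [← hL, ← hL, hcd]
  haveI : Finite (F →ₗ[ZMod 2] F) := Module.finite_of_finite (ZMod 2)
  letI : Fintype (F →ₗ[ZMod 2] F) := Fintype.ofFinite _
  have hcard : Fintype.card (ZMod h → F) = Fintype.card (F →ₗ[ZMod 2] F) := by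
    rw [Fintype.card_fun, ZMod.card, QF.card (F := F) (h := h),
      Module.card_eq_pow_finrank (K := ZMod 2) (V := F →ₗ[ZMod 2] F), ZMod.card,
      Module.finrank_linearMap, hfr, ← pow_mul]
  have hbij := (Fintype.bijective_iff_injective_and_card L).2 ⟨hinj, hcard⟩
  obtain ⟨c, hc⟩ := hbij.2 (AddMonoidHom.toZModLinearMap 2 φ)
  refine ⟨c, fun x => ?_⟩
  rw [← hL, hc]
  rfl

theorem lin_rep [QF F h] (φ : F →+ F) (x : F) : φ x = ∑ b : ZMod h, coef b φ * fr b x := by
  obtain ⟨c, hc⟩ := lin_surj (h := h) φ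
  have e : (φ : F → F) = fun x => ∑ b : ZMod h, c b * fr b x := funext hc
  rw [e]
  simp only [coef_sum]

/-- additive functions with the same coefficients agree. -/
theorem lin_ext [QF F h] (φ ψ : F →+ F) (hc : ∀ b : ZMod h, coef b φ = coef b ψ) (x : F) :
    φ x = ψ x := by
  rw [lin_rep (h := h) φ x, lin_rep (h := h) ψ x]
  exact Finset.sum_congr rfl fun b _ => by rw [hc]

/-- `coef` of the square of a function. -/
theorem coef_fr [QF F h] (a b : ZMod h) (φ : F → F) :
    coef (a + b) (fun x => fr b (φ x)) = fr b (coef a φ) := by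
  unfold coef
  rw [map_sum]
  refine Finset.sum_congr rfl fun x _ => ?_
  rw [map_mul, map_inv₀, add_comm a b, fr_add]

/-- Riesz representation for `{0,1}`-valued additive functionals. -/
theorem riesz [QF F h] (ℓ : F →+ F) (hℓ : ∀ x, ℓ x ^ 2 = ℓ x) (x : F) :
    ℓ x = tr h (coef (0 : ZMod h) ℓ * x) := by
  have h1 : ∀ a : ZMod h, coef (a + 1) ℓ = fr (1 : ZMod h) (coef a ℓ) := by
    intro a
    rw [← coef_fr]
    congr 1
    funext x
    rw [fr_one, hℓ]
  have h2 : ∀ a : ZMod h, coef a ℓ = fr a (coef (0 : ZMod h) ℓ) := by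
    have h3 : ∀ n : ℕ, coef ((n : ℕ) : ZMod h) ℓ = fr ((n : ℕ) : ZMod h) (coef (0 : ZMod h) ℓ) := by
      intro n
      induction n with
      | zero => simp
      | succ n ih =>
        push_cast
        rw [h1, ih, ← fr_add, add_comm]
    intro a
    have := h3 a.val
    rwa [ZMod.natCast_zmod_val] at this
  rw [lin_rep (h := h) ℓ x]
  unfold tr
  refine Finset.sum_congr rfl fun a _ => ?_
  rw [h2 a, map_mul]

/-- Riesz representation on `F²` for the form `tr (om u v)`. -/
theorem riesz2 [QF F h] (ℓ : F × F →+ F) (hℓ : ∀ u, ℓ u ^ 2 = ℓ u) :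
    ∃ m : F × F, ∀ u, ℓ u = tr h (om u m) := by
  let ℓ1 : F →+ F := ℓ.comp (AddMonoidHom.inl F F)
  let ℓ2 : F →+ F := ℓ.comp (AddMonoidHom.inr F F)
  refine ⟨(coef (0 : ZMod h) ℓ2, coef (0 : ZMod h) ℓ1), fun u => ?_⟩
  have h1 : ℓ u = ℓ1 u.1 + ℓ2 u.2 := by
    have : u = (u.1, 0) + (0, u.2) := by ext <;> simp
    conv_lhs => rw [this]
    rw [map_add]
    rfl
  rw [h1, riesz (h := h) ℓ1 (fun x => hℓ _), riesz (h := h) ℓ2 (fun x => hℓ _), ← tr_add]
  congr 1
  simp only [om]
  ring

theorem om_nondeg [QF F h] {m : F × F} (hm : ∀ u, tr h (om u m) = 0) : m = 0 := by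
  have h1 : m.2 = 0 := tr_nondeg (h := h) fun x => by
    have := hm (x, 0)
    simpa [om, mul_comm] using this
  have h2 : m.1 = 0 := tr_nondeg (h := h) fun x => by
    have := hm (0, x)
    simpa [om, mul_comm] using this
  ext
  · exact h2
  · exact h1

/-- an additive map which is not onto is killed by some `tr (c ·)`, `c ≠ 0`. -/
theorem exists_killer [QF F h] {G : Type} [AddCommGroup G] (φ : G →+ F) {y : F}
    (hy : ∀ g, φ g ≠ y) : ∃ c : F, c ≠ 0 ∧ ∀ g, tr h (c * φ g) = 0 := by
  classical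
  letI : Algebra (ZMod 2) F := ZMod.algebra F 2
  let H : Submodule (ZMod 2) F := AddSubgroup.toZModSubmodule 2 φ.range
  have hH : H < ⊤ := by
    rw [lt_top_iff_ne_top]
    intro hh
    have : y ∈ H := by rw [hh]; trivial
    obtain ⟨g, hg⟩ := this
    exact hy g hg
  obtain ⟨f, hf0, hf⟩ := Submodule.exists_le_ker_of_lt_top H hH
  let ℓ : F →+ F := ((algebraMap (ZMod 2) F).toAddMonoidHom).comp f.toAddMonoidHom
  have hℓ : ∀ x, ℓ x ^ 2 = ℓ x := by
    intro x
    change (algebraMap (ZMod 2) F (f x)) ^ 2 = algebraMap (ZMod 2) F (f x)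
    rw [← map_pow]
    congr 1
    generalize f x = z
    revert z
    decide
  have hc := riesz (h := h) ℓ hℓ
  refine ⟨coef (0 : ZMod h) ℓ, ?_, fun g => ?_⟩
  · intro h0
    apply hf0
    ext x
    have := hc x
    rw [h0, zero_mul, tr_zero] at this
    change algebraMap (ZMod 2) F (f x) = 0 at this
    rw [LinearMap.zero_apply]
    exact (algebraMap (ZMod 2) F).injective (by rw [this, map_zero])
  · rw [← hc]
    have : φ g ∈ LinearMap.ker f := hf ⟨g, rfl⟩
    change algebraMap (ZMod 2) F (f (φ g)) = 0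
    rw [LinearMap.mem_ker.1 this, map_zero]

end Pool.Agent.H51.QOV
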