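import Pool.Agent.H51.QOV.WED

set_option autoImplicit false
set_option linter.unusedSectionVars false

namespace Pool.Agent.H51.QOV

open Finset

variable {F : Type} [Field F] [Fintype F] [CharP F 2] {h : ℕ} [NeZero h]

/-- an additive function all of whose Frobenius powers have zero `a0`-component is zero. -/
theorem zero_of_closed [QF F h] (a0 : ZMod h) (W : (F × F → F) → Prop)
    (hcoef : ∀ f, W f → ∀ w, coef a0 (fun x => f (x • w)) = 0)
    (hsq : ∀ f, W f → W (fun v => f v ^ 2))
    (Q : F × F →+ F) (hQ : W Q) (v : F × F) : Q v = 0 := by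
  have h1 : ∀ n : ℕ, W (fun v => fr ((n : ℕ) : ZMod h) (Q v)) := by
    intro n
    induction n with
    | zero => simpa using hQ
    | succ n ih =>
      have h2 := hsq _ ih
      have e : (fun v => fr (((n + 1 : ℕ) : ℕ) : ZMod h) (Q v)) =
          fun v => (fr ((n : ℕ) : ZMod h) (Q v)) ^ 2 := by
        funext v
        rw [← fr_one (h := h), ← fr_add]
        push_cast
        rw [add_comm]
      rw [e]; exact h2
  let φ : F →+ F := ⟨⟨fun x => Q (x • v), by simp⟩, by intro x y; simp [add_smul]⟩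
  have h3 : ∀ b : ZMod h, coef b φ = 0 := by
    intro b
    have h4 := hcoef _ (h1 (a0 - b).val) v
    rw [ZMod.natCast_zmod_val] at h4
    have h5 : coef (b + (a0 - b)) (fun x => fr (a0 - b) (φ x)) = fr (a0 - b) (coef b φ) :=
      coef_fr b (a0 - b) φ
    have e : b + (a0 - b) = a0 := by ring
    rw [e] at h5
    change coef a0 (fun x => fr (a0 - b) (φ x)) = 0 at h4
    rw [h4] at h5
    exact (fr_eq_zero _).1 h5.symm
  have h6 := lin_rep (h := h) φ 1
  simp only [h3, zero_mul, Finset.sum_const_zero] at h6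
  simpa [φ] using h6

/-- the a-component of `m_a` vanishes, coordinate form. -/
theorem Sys.coef_fst (S : Sys F h) (a : ZMod h) (w : F × F) :
    coef a (fun x => (S.m a (x • w)).1) = 0 := by
  have := congrArg Prod.fst (S.p0 a w)
  rw [Prod.fst_sum] at this
  simpa [coef] using this

theorem Sys.coef_snd (S : Sys F h) (a : ZMod h) (w : F × F) :
    coef a (fun x => (S.m a (x • w)).2) = 0 := by
  have := congrArg Prod.snd (S.p0 a w)
  rw [Prod.snd_sum] at this
  simpa [coef] using this

theorem sq_inj {x y : F} (hxy : x ^ 2 = y ^ 2) : x = y := by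
  have h1 : (x + y) ^ 2 = 0 := by rw [CharTwo.add_sq, hxy, CharTwo.add_self_eq_zero]
  have h2 : x + y = 0 := pow_eq_zero_iff (two_ne_zero) |>.1 h1
  rw [← CharTwo.add_self_eq_zero y] at h2
  exact add_right_cancel h2

/-- square root. -/
theorem fr_neg_one_sq [QF F h] (x : F) : (fr (-1 : ZMod h) x) ^ 2 = x := by
  rw [← fr_one (h := h), fr_neg]

/-- Structure of a rank two `m_{a0}`. -/
theorem CI1 [QF F h] (S : Sys F h) (a0 : ZMod h) (ha0 : a0 ≠ 0) (ha1 : a0 ≠ -1)
    (hrk : ¬ Rk1 (S.m a0)) :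
    ∃ (Q : F × F →+ F) (e e' : F × F), om e e' ≠ 0 ∧
      (∀ v, S.m a0 v = Q v • e + Q v ^ 2 • e') ∧
      (∀ a b c : F, (∀ v, a * Q v + b * Q v ^ 2 + c * Q v ^ 4 = 0) → a = 0 ∧ b = 0 ∧ c = 0) := by
  have h2 : (2 : F) = 0 := CharTwo.two_eq_zero
  set m1 : F × F → F := fun v => (S.m a0 v).1 with hm1
  set m2 : F × F → F := fun v => (S.m a0 v).2 with hm2
  set n1 : F × F → F := fun v => (S.m (-1) v).1 with hn1
  set n2 : F × F → F := fun v => (S.m (-1) v).2 with hn2
  set A : F × F → F := fun v => fr (-1 : ZMod h) (m1 v) with hA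
  set B : F × F → F := fun v => fr (-1 : ZMod h) (m2 v) with hB
  have hA2 : ∀ v, A v ^ 2 = m1 v := fun v => fr_neg_one_sq _
  have hB2 : ∀ v, B v ^ 2 = m2 v := fun v => fr_neg_one_sq _
  obtain ⟨p, q, hpq⟩ : ∃ p q, wd m1 m2 p q ≠ 0 := by
    by_contra hh
    push Not at hh
    apply hrk
    intro u v
    have := hh u v
    unfold wd at this
    unfold om
    linear_combination this
  have key : ∀ u v, wd A B u v = wd m1 n2 u v + wd m2 n1 u v := by
    intro u v
    apply sq_inj
    rw [← om_eq_wd, ← S.e2 a0 ha0 ha1 u v]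
    unfold wd om
    have e1 := hA2 u
    have e2 := hA2 v
    have e3 := hB2 u
    have e4 := hB2 v
    simp only [hm1, hm2] at e1 e2 e3 e4
    rw [← e1, ← e2, ← e3, ← e4]
    linear_combination (A u * B v * A v * B u) * h2
  obtain ⟨x, y, α, β, hxy, hrel⟩ := w3 ⟨p, q, hpq⟩ key
  let Q : F × F →+ F := (AddMonoidHom.mulLeft α).comp ((AddMonoidHom.fst F F).comp (S.m a0)) +
    (AddMonoidHom.mulLeft β).comp ((AddMonoidHom.snd F F).comp (S.m a0))
  have hQ : ∀ v, Q v = α * m1 v + β * m2 v := fun v => rfl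
  have hQ2 : ∀ v, Q v ^ 2 = x ^ 2 * m1 v + y ^ 2 * m2 v := by
    intro v
    rw [hQ, ← hrel v, ← hA2, ← hB2]
    linear_combination (x * A v * y * B v) * h2
  have hQ4 : ∀ v, Q v ^ 4 = (Q v ^ 2) ^ 2 := fun v => by ring
  -- components
  have hcm : ∀ (a b : F) (w : F × F), coef a0 (fun z => a * m1 (z • w) + b * m2 (z • w)) = 0 := by
    intro a b w
    rw [coef_add, coef_mul_left, coef_mul_left]
    simp only [hm1, hm2]
    rw [S.coef_fst, S.coef_snd]; ring
  have hcQ : ∀ w, coef a0 (fun z => Q (z • w)) = 0 := by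
    intro w; simp only [hQ]; exact hcm α β w
  have hcQ2 : ∀ w, coef a0 (fun z => Q (z • w) ^ 2) = 0 := by
    intro w; simp only [hQ2]; exact hcm _ _ w
  have hQne : ∃ v, Q v ≠ 0 := by
    by_contra hh
    push Not at hh
    have e : ∀ v, x ^ 2 * m1 v + y ^ 2 * m2 v = 0 := fun v => by rw [← hQ2, hh]; ring
    apply hpq
    unfold wd
    rcases hxy with hx | hy
    · have : x ^ 2 * (m1 p * m2 q + m1 q * m2 p) = 0 := by
        linear_combination (m2 q) * e p + (m2 p) * e q - (y ^ 2 * m2 p * m2 q) * h2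
      exact (mul_eq_zero.1 this).resolve_left (pow_ne_zero 2 hx)
    · have : y ^ 2 * (m1 p * m2 q + m1 q * m2 p) = 0 := by
        linear_combination (m1 q) * e p + (m1 p) * e q - (x ^ 2 * m1 p * m1 q) * h2
      exact (mul_eq_zero.1 this).resolve_left (pow_ne_zero 2 hy)
  obtain ⟨v0, hv0⟩ := hQne
  have hnl : ∀ l : F, ¬ ∀ v, Q v ^ 2 = l * Q v := by
    intro l hl
    apply hv0
    apply zero_of_closed a0 (fun f => ∃ a : F, ∀ v, f v = a * Q v) ?_ ?_ Q ⟨1, fun v => by ring⟩
    · rintro f ⟨a, ha⟩ w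
      have : (fun z : F => f (z • w)) = fun z => a * Q (z • w) := by funext z; exact ha _
      rw [this, coef_mul_left, hcQ, mul_zero]
    · rintro f ⟨a, ha⟩
      refine ⟨a ^ 2 * l, fun v => ?_⟩
      change f v ^ 2 = _
      rw [ha v, mul_pow, hl v]; ring
  set Δ : F := α * y ^ 2 + β * x ^ 2 with hΔ
  have hΔ0 : Δ ≠ 0 := by
    intro h0
    obtain ⟨l, hl⟩ := w1 (A := Q) (B := fun v => Q v ^ 2) (by
      intro u v
      have : wd (Q : F × F → F) (fun v => Q v ^ 2) u v = Δ * wd m1 m2 u v := by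
        unfold wd
        simp only [hQ2]
        simp only [hQ, hΔ]
        linear_combination (α * x ^ 2 * m1 u * m1 v + β * y ^ 2 * m2 u * m2 v) * h2
      rw [this, h0, zero_mul]) ⟨v0, hv0⟩
    exact hnl l hl
  have hind : ∀ a b c : F, (∀ v, a * Q v + b * Q v ^ 2 + c * Q v ^ 4 = 0) →
      a = 0 ∧ b = 0 ∧ c = 0 := by
    intro a b c habc
    have hc : c = 0 := by
      by_contra hc
      apply hv0
      apply zero_of_closed a0 (fun f => ∃ a b : F, ∀ v, f v = a * Q v + b * Q v ^ 2) ?_ ?_ Q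
        ⟨1, 0, fun v => by ring⟩
      · rintro f ⟨a, b, hab⟩ w
        have : (fun z : F => f (z • w)) = fun z => a * Q (z • w) + b * Q (z • w) ^ 2 := by
          funext z; exact hab _
        rw [this, coef_add, coef_mul_left, coef_mul_left, hcQ, hcQ2]; ring
      · rintro f ⟨a', b', hab⟩
        refine ⟨b' ^ 2 * (a / c), a' ^ 2 + b' ^ 2 * (b / c), fun v => ?_⟩
        change f v ^ 2 = _
        rw [hab v]
        have e := habc v
        have e4 : Q v ^ 4 = (a / c) * Q v + (b / c) * Q v ^ 2 := by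
          field_simp
          linear_combination e - (a * Q v + b * Q v ^ 2) * h2
        linear_combination (b' ^ 2) * e4 + (a' * Q v * b' * Q v ^ 2) * h2
    subst hc
    have hb : b = 0 := by
      by_contra hb
      apply hnl (a / b)
      intro v
      have e := habc v
      field_simp
      linear_combination e - (a * Q v) * h2
    subst hb
    have e := habc v0
    simp only [zero_mul, add_zero] at e
    exact ⟨(mul_eq_zero.1 e).resolve_right hv0, rfl, rfl⟩
  refine ⟨Q, (y ^ 2 / Δ, x ^ 2 / Δ), (β / Δ, α / Δ), ?_, fun v => ?_, hind⟩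
  · have : om (y ^ 2 / Δ, x ^ 2 / Δ) (β / Δ, α / Δ) = Δ⁻¹ := by
      unfold om
      simp only
      field_simp
      rw [hΔ]; ring
    rw [this]; exact inv_ne_zero hΔ0
  · rw [hQ2 v, hQ v]
    ext
    · simp only [Prod.fst_add, Prod.smul_fst, smul_eq_mul]
      change m1 v = _
      field_simp
      rw [hΔ]
      linear_combination (-(y ^ 2 * β * m2 v)) * h2
    · simp only [Prod.snd_add, Prod.smul_snd, smul_eq_mul]
      change m2 v = _
      field_simp
      rw [hΔ]
      linear_combination (-(x ^ 2 * α * m1 v)) * h2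

end Pool.Agent.H51.QOV
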