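import Pool.Agent.H51.QOV.CI1

set_option autoImplicit false
set_option linter.unusedSectionVars false

namespace Pool.Agent.H51.QOV

open Finset

variable {F : Type} [Field F] [Fintype F] [CharP F 2] {h : ℕ} [NeZero h]

theorem one_ne_zero' [QF F h] : (1 : ZMod h) ≠ 0 := by
  have h4 := QF.four (F := F) (h := h)
  haveI : Fact (1 < h) := ⟨by omega⟩
  exact one_ne_zero

/-- coordinates in a basis. -/
theorem basis_coord {e e' : F × F} (hε0 : om e e' ≠ 0) (w : F × F) :
    w = ((om e e')⁻¹ * om w e') • e + ((om e e')⁻¹ * om e w) • e' := by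
  have h2 : (2 : F) = 0 := CharTwo.two_eq_zero
  set ε := om e e' with hε
  ext
  · simp only [Prod.fst_add, Prod.smul_fst, smul_eq_mul]
    field_simp
    unfold om at hε ⊢
    rw [hε]
    linear_combination (-(w.1 * e.1 * e'.2 * 0) - e.1 * w.2 * e'.1) * h2
  · simp only [Prod.snd_add, Prod.smul_snd, smul_eq_mul]
    field_simp
    unfold om at hε ⊢
    rw [hε]
    linear_combination (- e'.2 * w.1 * e.2) * h2

theorem basis_orth {e e' : F × F} (hε0 : om e e' ≠ 0) (Q : F × F → F)
    (hQ : ∃ u v, wd Q (fun v => Q v ^ 2) u v ≠ 0) (m' : F × F → F × F)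
    (ho : ∀ u v, om (Q u • e + Q u ^ 2 • e') (m' v) + om (m' u) (Q v • e + Q v ^ 2 • e') = 0) :
    ∃ a b c : F, ∀ u, m' u = (a * Q u + b * Q u ^ 2) • e + (c * Q u + a * Q u ^ 2) • e' := by
  have h2 : (2 : F) = 0 := CharTwo.two_eq_zero
  obtain ⟨a, b, c, h1, h3⟩ := w2 (A := Q) (B := fun v => Q v ^ 2)
    (A' := fun u => (om e e')⁻¹ * om (m' u) e') (B' := fun u => (om e e')⁻¹ * om e (m' u)) hQ (by
      intro u v
      have h4 := ho u v
      simp only [om_add_left, om_add_right, om_smul_left, om_smul_right] at h4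
      unfold wd
      rw [om_comm (m' u) e] at h4
      rw [om_comm e' (m' v)] at h4
      field_simp
      linear_combination h4)
  refine ⟨a, b, c, fun u => ?_⟩
  conv_lhs => rw [basis_coord hε0 (m' u)]
  rw [h1 u, h3 u]

/-- Case I, algebraic part: explicit form of `M`. -/
theorem CI3 [QF F h]
    (hCI2 : ∀ (Q : F × F → F),
      (∀ a b c : F, (∀ v, a * Q v + b * Q v ^ 2 + c * Q v ^ 4 = 0) → a = 0 ∧ b = 0 ∧ c = 0) →
      ∀ (e e' : F × F) (ε : F), om e e' = ε → ε ≠ 0 → ∀ (ma n : F × F → F × F)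
        (x y y' x1 y1 y1' : F),
        (∀ v, ma v = (x * Q v + y * Q v ^ 2) • e + (y' * Q v + x * Q v ^ 2) • e') →
        (∀ v, n v = (x1 * Q v + y1 * Q v ^ 2) • e +
          (y1' * Q v + x1 * Q v ^ 2 + fr (-1 : ZMod h) (Q v * ε⁻¹)) • e') →
        (∀ u v, om (ma u) (ma v) = (om (ma u) (n v) + om (n u) (ma v)) ^ 2) →
        y = 0 ∧ y' * y1 = 0)
    (S : Sys F h) (a0 : ZMod h) (ha0 : a0 ≠ 0) (ha1 : a0 ≠ 1) (ha2 : a0 ≠ -1)
    (hrk : ¬ Rk1 (S.m a0)) :
    ∃ (Q : F × F →+ F) (e e' : F × F) (x y : F →+ F) (η : F), om e e' ≠ 0 ∧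
      (∀ c v, S.M c v = (x c * Q v + η * fr (-1 : ZMod h) c * (Q v) ^ 2) • e +
        (y c * Q v + x c * (Q v) ^ 2 + fr (-1 : ZMod h) (c * Q v * (om e e')⁻¹)) • e') ∧
      (∃ v, Q v ≠ 0) ∧ (∀ l, ∃ c, x c ≠ l * fr (-1 : ZMod h) c) ∧
      (η ≠ 0 → ∃ y1, ∀ c, y c = y1 * fr (-1 : ZMod h) c) := by
  have h2 : (2 : F) = 0 := CharTwo.two_eq_zero
  obtain ⟨Q, e, e', hε0, hm, hind⟩ := CI1 S a0 ha0 ha2 hrk
  set ε := om e e' with hε
  -- Q and Q² are independent
  have hQQ : ∃ u v, wd (Q : F × F → F) (fun v => Q v ^ 2) u v ≠ 0 := by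
    by_contra hh
    push Not at hh
    apply hrk
    intro u v
    have h3 := hh u v
    unfold wd at h3
    rw [hm u, hm v]
    simp only [om_add_left, om_add_right, om_smul_left, om_smul_right, om_self]
    rw [om_comm e' e]
    linear_combination (om e e') * h3
  have hQne : ∃ v, Q v ≠ 0 := by
    obtain ⟨u, v, huv⟩ := hQQ
    by_contra hh
    push Not at hh
    apply huv
    unfold wd; simp [hh]
  -- the orthogonality relations
  have hz := S.j_zero ha0 hrk
  have horth1 : ∀ u v, om (S.m a0 u) (S.m 1 v) + om (S.m 1 u) (S.m a0 v) = 0 := by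
    intro u v
    have h3 := S.e3 a0 ha0 ha1 ha2 u v
    rw [hz] at h3
    simp only [AddMonoidHom.zero_apply, om_zero_left, om_zero_right, add_zero, map_zero] at h3
    rw [add_comm]; exact h3
  have horth : ∀ b : ZMod h, b ≠ 0 → b ≠ -1 → b ≠ a0 →
      ∀ u v, om (S.m a0 u) (S.m b v) + om (S.m b u) (S.m a0 v) = 0 := by
    intro b hb0 hb1 hba u v
    by_cases hb : b = 1
    · subst hb; exact horth1 u v
    · exact S.e1 a0 b (Ne.symm hba) ha0 ha1 ha2 hb0 hb hb1 u v
  -- the form of n
  obtain ⟨x1, y1, y1', hn⟩ : ∃ x1 y1 y1' : F, ∀ v, S.m (-1) v = (x1 * Q v + y1 * Q v ^ 2) • e +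
      (y1' * Q v + x1 * Q v ^ 2 + fr (-1 : ZMod h) (Q v * ε⁻¹)) • e' := by
    obtain ⟨a, b, c, habc⟩ := basis_orth hε0 Q hQQ
      (fun v => S.m (-1) v + fr (-1 : ZMod h) (Q v * ε⁻¹) • e') (by
        intro u v
        have h3 := S.e2 a0 ha0 ha2 u v
        set su := fr (-1 : ZMod h) (Q u * ε⁻¹) with hsu
        set sv := fr (-1 : ZMod h) (Q v * ε⁻¹) with hsv
        have esu : su ^ 2 = Q u * ε⁻¹ := fr_neg_one_sq _
        have esv : sv ^ 2 = Q v * ε⁻¹ := fr_neg_one_sq _
        have h4 : om (S.m a0 u) (S.m (-1) v) + om (S.m (-1) u) (S.m a0 v) =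
            ε * (Q u * sv + Q v * su) := by
          apply sq_inj
          rw [← h3, hm u, hm v]
          simp only [om_add_left, om_add_right, om_smul_left, om_smul_right, om_self]
          rw [om_comm e' e, ← hε]
          have h5 : ε * (Q v * ε⁻¹) = Q v := by field_simp
          have h6 : ε * (Q u * ε⁻¹) = Q u := by field_simp
          rw [← esv] at h5
          rw [← esu] at h6
          linear_combination (-(ε * Q u ^ 2)) * h5 - (ε * Q v ^ 2) * h6 -
            (ε ^ 2 * Q u * sv * Q v * su) * h2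
        rw [hm u, hm v] at h4
        simp only [om_add_left, om_add_right, om_smul_left, om_smul_right, om_self] at h4 ⊢
        rw [om_comm e' e, ← hε]
        linear_combination h4 + (ε * (Q u * sv + Q v * su)) * h2)
    refine ⟨a, b, c, fun v => ?_⟩
    have h3 := habc v
    have h4 : S.m (-1) v = (S.m (-1) v + fr (-1 : ZMod h) (Q v * ε⁻¹) • e') +
        fr (-1 : ZMod h) (Q v * ε⁻¹) • e' := by
      rw [add_assoc, ← add_smul, CharTwo.add_self_eq_zero, zero_smul, add_zero]
    rw [h4, h3, add_smul (c * Q v + a * Q v ^ 2)]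
    abel
  -- the form of all m_b
  have hmb : ∀ b : ZMod h, b ≠ -1 → ∃ x y' : F,
      (∀ v, S.m b v = (x * Q v) • e + (y' * Q v + x * Q v ^ 2) • e') ∧ y' * y1 = 0 := by
    intro b hb1
    by_cases hb0 : b = 0
    · subst hb0
      refine ⟨0, 0, fun v => ?_, by ring⟩
      rw [S.m0]; simp
    · have h3 : ∃ x y y' : F, ∀ v, S.m b v = (x * Q v + y * Q v ^ 2) • e +
          (y' * Q v + x * Q v ^ 2) • e' := by
        by_cases hba : b = a0
        · subst hba
          refine ⟨1, 0, 0, fun v => ?_⟩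
          rw [hm v]; simp
        · apply basis_orth hε0 Q hQQ
          intro u v
          have := horth b hb0 hb1 hba u v
          rw [hm u, hm v] at this
          exact this
      obtain ⟨x, y, y', hxy⟩ := h3
      obtain ⟨hy0, hyy⟩ := hCI2 Q hind e e' ε rfl hε0 (S.m b) (S.m (-1)) x y y' x1 y1 y1' hxy hn
        (S.e2 b hb0 hb1)
      subst hy0
      refine ⟨x, y', fun v => ?_, hyy⟩
      rw [hxy v]; simp
  choose! X Y hXY hYy using hmb
  have hX0 : X a0 = 1 := by
    obtain ⟨v, hv⟩ := hQne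
    have h3 := hXY a0 ha2 v
    rw [hm v] at h3
    have h4 := congrArg (fun w => om w e') h3
    simp only [om_add_left, om_smul_left, om_self] at h4
    have h5 : om e e' * Q v * (X a0 + 1) = 0 := by
      linear_combination (-1 : F) * h4 + (Q v * om e e') * h2
    have h6 : X a0 + 1 = 0 := (mul_eq_zero.1 h5).resolve_left (mul_ne_zero hε0 hv)
    have h7 : X a0 = X a0 + 1 + 1 := by rw [add_assoc, CharTwo.add_self_eq_zero, add_zero]
    rw [h7, h6, zero_add]
  set X' : ZMod h → F := fun b => if b = -1 then x1 else X b with hX'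
  set Y' : ZMod h → F := fun b => if b = -1 then y1' else Y b with hY'
  let x : F →+ F := ⟨⟨fun c => ∑ b, X' b * fr b c, by simp⟩, by
    intro c d
    simp only [map_add, mul_add, Finset.sum_add_distrib]⟩
  let y : F →+ F := ⟨⟨fun c => ∑ b, Y' b * fr b c, by simp⟩, by
    intro c d
    simp only [map_add, mul_add, Finset.sum_add_distrib]⟩
  refine ⟨Q, e, e', x, y, y1, hε0, fun c v => ?_, hQne, fun l => ?_, fun hη => ?_⟩
  · rw [S.hm]
    have h3 : ∀ b : ZMod h, (fr b c : F) • S.m b v =
        ((X' b * fr b c) * Q v + (if b = -1 then y1 * fr (-1 : ZMod h) c * Q v ^ 2 else 0)) • e +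
        ((Y' b * fr b c) * Q v + (X' b * fr b c) * Q v ^ 2 +
          (if b = -1 then fr (-1 : ZMod h) (c * Q v * ε⁻¹) else 0)) • e' := by
      intro b
      by_cases hb : b = -1
      · subst hb
        rw [hn v]
        simp only [hX', hY', if_true]
        rw [smul_add, smul_smul, smul_smul]
        congr 2
        · ring
        · have h9 : fr (-1 : ZMod h) (c * Q v * ε⁻¹) =
              fr (-1 : ZMod h) c * fr (-1 : ZMod h) (Q v * ε⁻¹) := by
            rw [mul_assoc, map_mul]
          rw [h9]; ring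
      · rw [hXY b hb v]
        simp only [hX', hY', hb, if_false]
        rw [smul_add, smul_smul, smul_smul]
        congr 2
        · ring
        · ring
    rw [Finset.sum_congr rfl (fun b _ => h3 b), Finset.sum_add_distrib, ← Finset.sum_smul,
      ← Finset.sum_smul]
    have ex : x c = ∑ b, X' b * fr b c := rfl
    have ey : y c = ∑ b, Y' b * fr b c := rfl
    rw [ex, ey]
    congr 2
    · rw [Finset.sum_add_distrib, Finset.sum_mul]; simp
    · rw [Finset.sum_add_distrib, Finset.sum_add_distrib, Finset.sum_mul, Finset.sum_mul,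
        Finset.sum_ite_eq' Finset.univ (-1 : ZMod h), if_pos (Finset.mem_univ _)]
  · by_contra hh
    push Not at hh
    have h3 : coef a0 (fun c => ∑ b, X' b * fr b c) = X' a0 := coef_sum X' a0
    have h4 : coef a0 (fun c => l * fr (-1 : ZMod h) c) = 0 := by
      rw [coef_mul_left]
      have : coef a0 (fun c : F => fr (-1 : ZMod h) c) = 0 := by
        have h5 := coef_sum (F := F) (fun b : ZMod h => if b = -1 then (1 : F) else 0) a0
        simp only [ite_mul, one_mul, zero_mul, Finset.sum_ite_eq', Finset.mem_univ, if_true,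
          if_neg ha2] at h5
        exact h5
      rw [this, mul_zero]
    have h5 : (fun c : F => ∑ b, X' b * fr b c) = fun c => l * fr (-1 : ZMod h) c := by
      funext c; exact hh c
    rw [h5, h4] at h3
    simp only [hX', if_neg ha2, hX0] at h3
    exact zero_ne_one h3
  · refine ⟨y1', fun c => ?_⟩
    have ey : y c = ∑ b, Y' b * fr b c := rfl
    rw [ey, Finset.sum_eq_single (-1 : ZMod h)]
    · simp [hY']
    · intro b _ hb
      have : Y b = 0 := (mul_eq_zero.1 (hYy b hb)).resolve_right hη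
      simp [hY', hb, this]
    · simp

end Pool.Agent.H51.QOV
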