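import Pool.Agent.H51.QOV.WED

set_option autoImplicit false
set_option linter.unusedSectionVars false

namespace Pool.Agent.H51.QOV

open Finset

variable {F : Type} [Field F] [Fintype F] [CharP F 2] {h : ℕ} [NeZero h]

open Classical in
/-- `±1`-valued character. -/
noncomputable def chi (h : ℕ) [NeZero h] (x : F) : ℤ := if tr h x = 0 then 1 else -1

theorem chi_add [QF F h] (x y : F) : chi h (x + y) = chi h x * chi h y := by
  unfold chi
  rw [tr_add]
  rcases tr_zero_or_one (h := h) x with hx | hx <;> rcases tr_zero_or_one (h := h) y with hy | hy <;>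
    simp [hx, hy, CharTwo.add_self_eq_zero]

theorem chi_eq_one {x : F} (hx : tr h x = 0) : chi h x = 1 := by simp [chi, hx]

theorem chi_eq_neg_one {x : F} (hx : tr h x ≠ 0) : chi h x = -1 := by simp [chi, hx]

open Classical in
theorem sum_chi_sub [QF F h] (H : AddSubgroup F) (c : F) (hc : ∃ y ∈ H, tr h (c * y) ≠ 0) :
    ∑ y : F, (if y ∈ H then chi h (c * y) else 0) = 0 := by
  obtain ⟨y0, hy0, hne⟩ := hc
  have h1 : ∑ y : F, (if y ∈ H then chi h (c * y) else 0) =
      ∑ y : F, (if y + y0 ∈ H then chi h (c * (y + y0)) else 0) :=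
    (Fintype.sum_equiv (Equiv.addRight y0) _ _ (fun y => rfl)).symm
  have h2 : ∀ y : F, (if y + y0 ∈ H then chi h (c * (y + y0)) else 0) =
      -(if y ∈ H then chi h (c * y) else 0) := by
    intro y
    have h3 : y + y0 ∈ H ↔ y ∈ H := by
      constructor
      · intro hh
        have := H.sub_mem hh hy0
        simpa using this
      · intro hh; exact H.add_mem hh hy0
    simp only [h3]
    split_ifs
    · rw [mul_add, chi_add, chi_eq_neg_one hne]; ring
    · simp
  rw [Finset.sum_congr rfl (fun y _ => h2 y), Finset.sum_neg_distrib] at h1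
  omega

open Classical in
theorem dual_card [QF F h] (H : AddSubgroup F) :
    Fintype.card {y : F // y ∈ H} * Fintype.card {c : F // ∀ y ∈ H, tr h (c * y) = 0} = 2 ^ h := by
  have hq : Fintype.card F = 2 ^ h := QF.card
  have h1 : ∑ c : F, ∑ y : F, (if y ∈ H then chi h (c * y) else 0) =
      (Fintype.card {y : F // y ∈ H} * Fintype.card {c : F // ∀ y ∈ H, tr h (c * y) = 0} : ℕ) := by
    have h2 : ∀ c : F, ∑ y : F, (if y ∈ H then chi h (c * y) else 0) =
        if (∀ y ∈ H, tr h (c * y) = 0) then (Fintype.card {y : F // y ∈ H} : ℤ) else 0 := by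
      intro c
      split_ifs with hc
      · have : ∀ y : F, (if y ∈ H then chi h (c * y) else 0) = if y ∈ H then (1 : ℤ) else 0 := by
          intro y
          split_ifs with hy
          · exact chi_eq_one (hc y hy)
          · rfl
        rw [Finset.sum_congr rfl (fun y _ => this y), Finset.sum_boole, Fintype.card_subtype]
      · push Not at hc
        exact sum_chi_sub H c hc
    rw [Finset.sum_congr rfl (fun c _ => h2 c), ← Finset.sum_filter, Finset.sum_const,
      Fintype.card_subtype (p := fun c : F => ∀ y ∈ H, tr h (c * y) = 0)]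
    push_cast
    ring
  have h3 : ∑ c : F, ∑ y : F, (if y ∈ H then chi h (c * y) else 0) = (2 ^ h : ℕ) := by
    rw [Finset.sum_comm]
    have h4 : ∀ y : F, ∑ c : F, (if y ∈ H then chi h (c * y) else 0) =
        if y = 0 then (2 ^ h : ℤ) else 0 := by
      intro y
      by_cases hy0 : y = 0
      · subst hy0
        simp [H.zero_mem, chi, Finset.card_univ, hq]
      · rw [if_neg hy0]
        by_cases hy : y ∈ H
        · simp only [hy, if_true]
          have h5 := sum_chi_sub (h := h) (⊤ : AddSubgroup F) y (by
            by_contra hh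
            push Not at hh
            apply hy0
            exact tr_nondeg (h := h) fun x => hh x trivial)
          simp only [AddSubgroup.mem_top, if_true] at h5
          rw [← h5]
          exact Finset.sum_congr rfl fun c _ => by rw [mul_comm]
        · simp [hy]
    rw [Finset.sum_congr rfl (fun y _ => h4 y)]
    simp
  rw [h1] at h3
  exact_mod_cast h3

end Pool.Agent.H51.QOV

namespace Pool.Agent.H51.QOV

open Finset

variable {F : Type} [Field F] [Fintype F] [CharP F 2] {h : ℕ} [NeZero h]

theorem dual_card' [QF F h] (H : AddSubgroup F) :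
    Nat.card {y : F // y ∈ H} * Nat.card {c : F // ∀ y ∈ H, tr h (c * y) = 0} = 2 ^ h := by
  classical
  rw [← dual_card (h := h) H, Nat.card_eq_fintype_card, Nat.card_eq_fintype_card]

theorem card_ker_mul_range {G H : Type} [AddCommGroup G] [Finite G] [AddCommGroup H]
    (φ : G →+ H) : Nat.card {g : G // φ g = 0} * Nat.card {y : H // ∃ g, φ g = y} = Nat.card G := by
  have h1 := AddSubgroup.card_mul_index φ.ker
  rw [AddSubgroup.index_ker] at h1
  exact h1

theorem alt_symm {D : F × F →+ F × F →+ F} (alt : ∀ v, D v v = 0) (u v : F × F) :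
    D u v = D v u := by
  have h1 := alt (u + v)
  simp only [map_add, AddMonoidHom.add_apply, alt, zero_add, add_zero] at h1
  have h2 : D u v + D v u + D v u = D v u := by
    have : D u v + D v u = 0 := by rw [add_comm]; exact h1
    rw [this, zero_add]
  rwa [add_assoc, CharTwo.add_self_eq_zero, add_zero] at h2

open Classical in
theorem count_lemma [QF F h] (D : F × F →+ F × F →+ F) (alt : ∀ v, D v v = 0)
    (M : F → F × F → F × F) (hM : ∀ c u v, tr h (om u (M c v)) = tr h (c * D u v))
    (Q : F × F →+ F) (hk : ∀ v, Q v = 0 → ∀ c, M c v = 0)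
    (h1 : ∀ c, c ≠ 0 → ∀ v v', Q v ≠ 0 → Q v' ≠ 0 → M c v = 0 → M c v' = 0 → Q v = Q v')
    (hD : ∃ u v, D u v ≠ 0) : Function.Surjective Q := by
  have hq : Fintype.card F = 2 ^ h := QF.card
  have hqN : Nat.card F = 2 ^ h := by rw [Nat.card_eq_fintype_card, hq]
  have hV : Nat.card (F × F) = 2 ^ h * 2 ^ h := by rw [Nat.card_prod, hqN]
  set q : ℕ := 2 ^ h with hqdef
  have hq1 : 1 ≤ q := Nat.one_le_two_pow
  set K : ℕ := Nat.card {v : F × F // Q v = 0} with hK
  have hKU : K * Nat.card {y : F // ∃ v, Q v = y} = q * q := by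
    rw [hK, card_ker_mul_range Q, hV]
  have hU : Nat.card {y : F // ∃ v, Q v = y} ≤ q := by
    rw [← hqN]; exact Finite.card_subtype_le _
  have hM0 : ∀ c v, M c v = 0 ↔ ∀ u, tr h (c * D u v) = 0 := by
    intro c v
    constructor
    · intro h2 u
      rw [← hM, h2, om_zero_right, tr_zero]
    · intro h2
      exact om_nondeg (h := h) fun u => by rw [hM]; exact h2 u
  have hDk : ∀ v, Q v = 0 → ∀ u, D u v = 0 := by
    intro v hv u
    apply tr_nondeg (h := h)
    intro x
    rw [mul_comm]
    exact (hM0 x v).1 (hk v hv x) u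
  -- the kernel of D(·, v)
  have hker : ∀ v, q * Nat.card {c : F // M c v = 0} = Nat.card {u : F × F // D u v = 0} := by
    intro v
    let H : AddSubgroup F := (D.flip v).range
    have h2 := dual_card' (h := h) H
    have h3 := card_ker_mul_range (D.flip v)
    rw [hV] at h3
    have e1 : Nat.card {y : F // ∃ g, D.flip v g = y} = Nat.card {y : F // y ∈ H} := rfl
    have e2 : Nat.card {c : F // M c v = 0} =
        Nat.card {c : F // ∀ y ∈ H, tr h (c * y) = 0} := by
      apply Nat.card_congr
      apply Equiv.subtypeEquivRight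
      intro c
      rw [hM0]
      constructor
      · rintro h4 y ⟨u, rfl⟩
        exact h4 u
      · intro h4 u
        exact h4 _ ⟨u, rfl⟩
    have e3 : {u : F × F // D u v = 0} = {g : F × F // D.flip v g = 0} := rfl
    rw [e3, e2]
    rw [e1] at h3
    have hpos : 0 < Nat.card {y : F // y ∈ H} := by
      have : Nonempty {y : F // y ∈ H} := ⟨⟨0, H.zero_mem⟩⟩
      exact Nat.card_pos
    apply Nat.eq_of_mul_eq_mul_left hpos
    calc Nat.card {y : F // y ∈ H} * (q * Nat.card {c : F // ∀ y ∈ H, tr h (c * y) = 0})
        = q * (Nat.card {y : F // y ∈ H} *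
            Nat.card {c : F // ∀ y ∈ H, tr h (c * y) = 0}) := by ring
      _ = q * q := by rw [h2]
      _ = _ := by rw [← h3]; ring
  have hker2 : ∀ v, Q v ≠ 0 → 2 * K ≤ Nat.card {u : F × F // D u v = 0} := by
    intro v hv
    have hfin : Nat.card ({w : F × F // Q w = 0} ⊕ {w : F × F // Q w = 0}) = 2 * K := by
      rw [Nat.card_sum]; ring
    rw [← hfin]
    let ι : ({w : F × F // Q w = 0} ⊕ {w : F × F // Q w = 0}) → {u : F × F // D u v = 0} :=
      Sum.elim (fun w => ⟨w.1, by rw [alt_symm alt]; exact hDk w.1 w.2 v⟩)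
        (fun w => ⟨w.1 + v, by
          rw [map_add, AddMonoidHom.add_apply, alt, add_zero, alt_symm alt]
          exact hDk w.1 w.2 v⟩)
    apply Nat.card_le_card_of_injective ι
    rintro (⟨w, hw⟩ | ⟨w, hw⟩) (⟨w', hw'⟩ | ⟨w', hw'⟩) he
    · simpa [ι] using he
    · exfalso
      simp only [ι, Sum.elim_inl, Sum.elim_inr, Subtype.mk.injEq] at he
      rw [he, map_add, hw', zero_add] at hw
      exact hv hw
    · exfalso
      simp only [ι, Sum.elim_inl, Sum.elim_inr, Subtype.mk.injEq] at he
      rw [← he, map_add, hw, zero_add] at hw'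
      exact hv hw'
    · simpa [ι] using he
  -- double counting
  have hKpos : q ≤ K := by
    by_contra hlt
    push Not at hlt
    have : K * Nat.card {y : F // ∃ v, Q v = y} < q * q := by
      calc K * Nat.card {y : F // ∃ v, Q v = y} ≤ K * q := Nat.mul_le_mul_left _ hU
        _ < q * q := Nat.mul_lt_mul_of_pos_right hlt (by omega)
    omega
  set N : ℕ := ∑ c : F, ∑ v : F × F, (if c ≠ 0 ∧ Q v ≠ 0 ∧ M c v = 0 then 1 else 0) with hN
  have hup : N ≤ (q - 1) * K := by
    have h2 : ∀ c : F, ∑ v : F × F, (if c ≠ 0 ∧ Q v ≠ 0 ∧ M c v = 0 then 1 else 0) ≤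
        if c = 0 then 0 else K := by
      intro c
      split_ifs with hc
      · simp [hc]
      · rw [Finset.sum_boole]
        simp only [Nat.cast_id]
        by_cases he : ∃ v0, Q v0 ≠ 0 ∧ M c v0 = 0
        · obtain ⟨v0, hv0, hv0'⟩ := he
          rw [hK, Nat.card_eq_fintype_card, ← Fintype.card_coe]
          apply Fintype.card_le_of_injective
            (fun v : {v // v ∈ univ.filter fun v : F × F => c ≠ 0 ∧ Q v ≠ 0 ∧ M c v = 0} =>
              (⟨v.1 + v0, by
                have := (Finset.mem_filter.1 v.2).2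
                rw [map_add, h1 c hc v.1 v0 this.2.1 hv0 this.2.2 hv0']
                exact CharTwo.add_self_eq_zero _⟩ : {v : F × F // Q v = 0}))
          intro a b hab
          simpa using hab
        · push Not at he
          have : (univ.filter fun v : F × F => c ≠ 0 ∧ Q v ≠ 0 ∧ M c v = 0) = ∅ := by
            apply Finset.filter_eq_empty_iff.2
            rintro v - ⟨-, h3, h4⟩
            exact he v h3 h4
          rw [this]; simp
    calc N ≤ ∑ c : F, (if c = 0 then 0 else K) := Finset.sum_le_sum fun c _ => h2 c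
      _ = (q - 1) * K := by
        rw [Finset.sum_ite, Finset.sum_const_zero, zero_add, Finset.sum_const, smul_eq_mul]
        congr 1
        rw [Finset.filter_not, Finset.card_sdiff_of_subset (Finset.filter_subset _ _), Finset.card_univ, hq]
        congr 1
        exact Finset.card_eq_one.2 ⟨0, by ext; simp⟩
  have hlow : ∀ v, Q v ≠ 0 → (2 * K : ℤ) - q ≤
      q * ∑ c : F, (if c ≠ 0 ∧ Q v ≠ 0 ∧ M c v = 0 then (1 : ℤ) else 0) := by
    intro v hv
    have h2 : ∑ c : F, (if c ≠ 0 ∧ Q v ≠ 0 ∧ M c v = 0 then (1 : ℤ) else 0) + 1 =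
        Nat.card {c : F // M c v = 0} := by
      rw [Nat.card_eq_fintype_card, Fintype.card_subtype, Finset.sum_boole]
      have h3 : (univ.filter fun c : F => M c v = 0) =
          insert 0 (univ.filter fun c : F => c ≠ 0 ∧ Q v ≠ 0 ∧ M c v = 0) := by
        ext c
        simp only [Finset.mem_filter, Finset.mem_univ, true_and, Finset.mem_insert]
        constructor
        · intro h4
          by_cases hc : c = 0
          · exact Or.inl hc
          · exact Or.inr ⟨hc, hv, h4⟩
        · rintro (rfl | h4)
          · rw [hM0]; intro u; simp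
          · exact h4.2.2
      rw [h3, Finset.card_insert_of_notMem (by simp)]
      push_cast
      ring
    have h3 := hker v
    have h4 := hker2 v hv
    have h5 : (2 * K : ℤ) ≤ q * Nat.card {c : F // M c v = 0} := by
      rw [← h3] at h4; exact_mod_cast h4
    rw [← h2] at h5
    linarith
  have hcardQ : (univ.filter fun v : F × F => Q v ≠ 0).card + K = q * q := by
    rw [hK, Nat.card_eq_fintype_card, Fintype.card_subtype]
    have h2 := Finset.card_filter_add_card_filter_not (s := (univ : Finset (F × F)))
      (fun v : F × F => Q v = 0)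
    rw [Finset.card_univ, ← Nat.card_eq_fintype_card, hV] at h2
    have h3 : (univ.filter fun v : F × F => Q v ≠ 0).card =
      (univ.filter fun v : F × F => ¬ Q v = 0).card := by
      congr 1
    rw [h3, add_comm]
    exact h2
  have hNlow : ((q * q : ℤ) - K) * (2 * K - q) ≤ q * N := by
    have h2 : (N : ℤ) = ∑ v : F × F, ∑ c : F, (if c ≠ 0 ∧ Q v ≠ 0 ∧ M c v = 0 then (1 : ℤ) else 0) := by
      rw [hN, Finset.sum_comm]
      push_cast
      rfl
    rw [h2, Finset.mul_sum]
    have h3 : ((q * q : ℤ) - K) * (2 * K - q) =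
        ∑ v : F × F, (if Q v ≠ 0 then ((2 * K : ℤ) - q) else 0) := by
      rw [← Finset.sum_filter, Finset.sum_const, nsmul_eq_mul]
      congr 1
      have : ((univ.filter fun v : F × F => Q v ≠ 0).card : ℤ) + K = q * q := by
        exact_mod_cast hcardQ
      linarith
    rw [h3]
    apply Finset.sum_le_sum
    intro v _
    split_ifs with hv
    · exact hlow v hv
    · positivity
  have hfin : (K : ℤ) = q := by
    have h2 : (N : ℤ) ≤ (q - 1) * K := by
      have : ((q - 1 : ℕ) : ℤ) = q - 1 := by push_cast [hq1]; ring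
      rw [← this]; exact_mod_cast hup
    have h3 : (q : ℤ) * N ≤ q * ((q - 1) * K) := by
      apply mul_le_mul_of_nonneg_left h2; positivity
    have h4 : ((K : ℤ) - q) * (q * q - 2 * K) ≤ 0 := by nlinarith
    have h5 : (q : ℤ) ≤ K := by exact_mod_cast hKpos
    by_contra hne
    have h6 : (q : ℤ) < K := lt_of_le_of_ne h5 (Ne.symm hne)
    have h7 : (q * q : ℤ) - 2 * K ≤ 0 := by
      by_contra h8
      push Not at h8
      have := mul_pos (sub_pos.2 h6) h8
      linarith
    -- then D = 0
    obtain ⟨u, v, huv⟩ := hD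
    by_cases hv : Q v = 0
    · exact huv (hDk v hv u)
    · have h9 := hker2 v hv
      have h10 : q * q ≤ Nat.card {u : F × F // D u v = 0} := by
        have : q * q ≤ 2 * K := by exact_mod_cast (sub_nonpos.1 h7)
        omega
      rw [← hV, Nat.card_eq_fintype_card, Nat.card_eq_fintype_card] at h10
      have h11 : ∀ u : F × F, D u v = 0 := by
        have h12 := Fintype.card_subtype_le (fun u : F × F => D u v = 0)
        have h13 : Fintype.card {u : F × F // D u v = 0} = Fintype.card (F × F) := le_antisymm h12 h10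
        rw [Fintype.card_subtype, Finset.card_eq_iff_eq_univ] at h13
        intro u
        have := Finset.mem_univ u
        rw [← h13] at this
        exact (Finset.mem_filter.1 this).2
      exact huv (h11 u)
  have hK2 : K = q := by exact_mod_cast hfin
  rw [hK2] at hKU
  have hU2 : Nat.card {y : F // ∃ v, Q v = y} = Nat.card F := by
    rw [hqN]; exact Nat.eq_of_mul_eq_mul_left (by omega) hKU
  intro y
  rw [Nat.card_eq_fintype_card, Nat.card_eq_fintype_card, Fintype.card_subtype,
    Finset.card_eq_iff_eq_univ] at hU2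
  have := Finset.mem_univ y
  rw [← hU2] at this
  exact (Finset.mem_filter.1 this).2

end Pool.Agent.H51.QOV
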