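import Pool.Agent.H51.QOV.Stmt

set_option autoImplicit false
set_option linter.unusedSectionVars false

namespace Pool.Agent.H51.QOV

open Finset

namespace NUC

variable {F : Type} [Field F] [Fintype F] [CharP F 2]

/-- the missing value of an injective map on `F^*` is its sum. -/
theorem missing (hq : 4 ≤ Fintype.card F) (g : F → F) (g0 : g 0 = 0)
    (hinj : ∀ x y, x ≠ 0 → y ≠ 0 → g x = g y → x = y) (y : F) :
    (∃ x : F, x ≠ 0 ∧ g x = y) ↔ y ≠ ∑ x : F, g x := by
  classical
  have hinj' : Set.InjOn g ((univ.erase (0 : F) : Finset F) : Set F) := by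
    intro x hx z hz hxz
    exact hinj x z (by simpa using hx) (by simpa using hz) hxz
  obtain ⟨T, hT⟩ : ∃ T, T = (univ.erase (0 : F)).image g := ⟨_, rfl⟩
  have hTc : T.card = Fintype.card F - 1 := by
    rw [hT, card_image_of_injOn hinj', card_erase_of_mem (mem_univ _), card_univ]
  have hsum : ∑ x, g x = ∑ z ∈ T, z := by
    rw [hT, sum_image hinj']
    rw [← Finset.sum_erase_add univ g (mem_univ 0), g0, add_zero]
  have hc : (univ \ T).card = 1 := by
    rw [card_sdiff_of_subset (subset_univ T), card_univ, hTc]
    omega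
  obtain ⟨l, hl⟩ := card_eq_one.1 hc
  have hs : ∑ z ∈ univ \ T, z + ∑ z ∈ T, z = ∑ z : F, z := sum_sdiff (subset_univ T)
  have hz : ∑ z : F, z = 0 := by
    have := FiniteField.sum_pow_lt_card_sub_one (K := F) 1 (by omega)
    simpa using this
  rw [hl, sum_singleton, hz, ← hsum] at hs
  have hl2 : l = ∑ x, g x := by
    rw [← CharTwo.add_self_eq_zero (∑ x, g x)] at hs
    exact add_right_cancel hs
  rw [← hl2]
  have : (∃ x : F, x ≠ 0 ∧ g x = y) ↔ y ∈ T := by
    rw [hT]; simp
  rw [this]
  have h3 : y ∈ univ \ T ↔ y = l := by rw [hl]; simp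
  constructor
  · rintro h4 rfl
    exact (mem_sdiff.1 (h3.2 rfl)).2 h4
  · intro h4
    by_contra h5
    exact h4 (h3.1 (mem_sdiff.2 ⟨mem_univ _, h5⟩))

end NUC

theorem NUC_proof (F : Type) [Field F] [Fintype F] [CharP F 2] (h : ℕ) [NeZero h] [QF F h] :
    NucStmt F := by
  classical
  intro Φ hs
  have h2 : (2 : F) = 0 := CharTwo.two_eq_zero
  have hq : 4 ≤ Fintype.card F := by
    rw [QF.card (F := F) (h := h)]
    have h4 := QF.four (F := F) (h := h)
    calc 4 ≤ 2 ^ 4 := by norm_num
      _ ≤ 2 ^ h := Nat.pow_le_pow_right (by norm_num) h4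
  set T : F → F := fun u => ∑ x : F, x⁻¹ * (Φ (u + x) + Φ u) with hT
  have miss : ∀ u y, (∃ x : F, x ≠ 0 ∧ x⁻¹ * (Φ (u + x) + Φ u) = y) ↔ y ≠ T u := by
    intro u y
    exact NUC.missing hq (fun x => x⁻¹ * (Φ (u + x) + Φ u)) (by simp) (fun x y => hs u x y) y
  -- for every p the map x ↦ Φ x + T x (x + p) is onto
  have onto : ∀ p : F, Function.Surjective fun x => Φ x + T x * (x + p) := by
    intro p z
    by_contra hno
    push Not at hno
    have hzp : z ≠ Φ p := by
      intro hh
      apply hno p
      rw [hh, CharTwo.add_self_eq_zero, mul_zero, add_zero]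
    set m : F → F := fun x => (x + p)⁻¹ * (Φ x + z) with hm
    have hxp : ∀ x, x ≠ p → x + p ≠ 0 := by
      intro x hx h0
      apply hx
      rw [← CharTwo.add_self_eq_zero p] at h0
      exact add_right_cancel h0
    have hmz : ∀ x, x ≠ p → Φ x + z = (x + p) * m x := by
      intro x hx
      have := hxp x hx
      simp only [hm]
      field_simp
    have hmT : ∀ x, x ≠ p → m x ≠ T x := by
      intro x hx hh
      apply hno x
      change Φ x + T x * (x + p) = z
      rw [← hh]
      have := hmz x hx
      linear_combination (-1 : F) * this + (Φ x) * h2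
    have hex : ∀ x, x ≠ p → ∃ y : F, y ≠ 0 ∧ y⁻¹ * (Φ (x + y) + Φ x) = m x :=
      fun x hx => (miss x (m x)).2 (hmT x hx)
    choose! y hy0 hy using hex
    have hy' : ∀ x, x ≠ p → Φ (x + y x) + Φ x = y x * m x := by
      intro x hx
      have h3 := hy x hx
      have h4 := hy0 x hx
      rw [← h3]; field_simp
    have hne : ∀ x, x ≠ p → x + y x ≠ p := by
      intro x hx hh
      have h3 := hy' x hx
      have h4 := hmz x hx
      rw [hh] at h3
      have h5 : y x = x + p := by
        rw [← hh]
        linear_combination (-x) * h2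
      rw [h5] at h3
      apply hzp
      linear_combination h4 - h3
    have hmeq : ∀ x, x ≠ p → m (x + y x) = m x := by
      intro x hx
      have h3 := hy' x hx
      have h4 := hmz x hx
      have h5 := hmz (x + y x) (hne x hx)
      have h6 := hxp _ (hne x hx)
      apply mul_left_cancel₀ h6
      linear_combination (-1 : F) * h5 + h3 + h4 - (Φ x) * h2
    have hyy : ∀ x, x ≠ p → y (x + y x) = y x := by
      intro x hx
      apply hs (x + y x) (y (x + y x)) (y x) (hy0 _ (hne x hx)) (hy0 x hx)
      rw [hy _ (hne x hx), hmeq x hx]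
      have e : x + y x + y x = x := by rw [add_assoc, CharTwo.add_self_eq_zero, add_zero]
      rw [e, add_comm (Φ x), hy x hx]
    have hsum : ∑ x ∈ univ.erase p, (1 : F) = 0 := by
      apply Finset.sum_involution (fun x _ => x + y x)
      · intro x _; exact CharTwo.add_self_eq_zero _
      · intro x hx _ hh
        have := hy0 x (by simpa using hx)
        apply this
        have h3 : x + y x = x + 0 := by rw [add_zero]; exact hh
        exact add_left_cancel h3
      · intro x hx
        simpa using hne x (by simpa using hx)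
      · intro x hx
        have hx' : x ≠ p := by simpa using hx
        change x + y x + y (x + y x) = x
        rw [hyy x hx', add_assoc, CharTwo.add_self_eq_zero, add_zero]
    rw [Finset.sum_const, card_erase_of_mem (mem_univ _), card_univ, nsmul_eq_mul, mul_one] at hsum
    have h3 : ((Fintype.card F - 1 : ℕ) : F) + 1 = 0 := by
      have : ((Fintype.card F - 1 : ℕ) : F) + 1 = ((Fintype.card F : ℕ) : F) := by
        have e : Fintype.card F = (Fintype.card F - 1) + 1 := by omega
        conv_rhs => rw [e]
        push_cast; ring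
      rw [this]; exact FiniteField.cast_card_eq_zero F
    rw [hsum, zero_add] at h3
    exact one_ne_zero h3
  intro u v
  change T u = T v
  by_contra hne
  have hd : T u + T v ≠ 0 := by
    intro h0
    apply hne
    rw [← CharTwo.add_self_eq_zero (T v)] at h0
    exact add_right_cancel h0
  have huv : u ≠ v := fun hh => hne (by rw [hh])
  set p := (Φ u + Φ v + T u * u + T v * v) / (T u + T v) with hp
  have hinj := Finite.injective_iff_surjective.2 (onto p)
  apply huv
  apply hinj
  change Φ u + T u * (u + p) = Φ v + T v * (v + p)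
  have h3 : p * (T u + T v) = Φ u + Φ v + T u * u + T v * v := by
    rw [hp]; field_simp
  linear_combination h3 + (Φ u + T u * u - T v * p) * h2

end Pool.Agent.H51.QOV
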