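import Pool.Agent.H51.QOV.Bas

set_option autoImplicit false
set_option linter.unusedSectionVars false

namespace Pool.Agent.H51.QOV

open Finset

variable (F : Type) [Field F] [Fintype F] [CharP F 2] (h : ℕ) [NeZero h]

/-! ## Step 0 -/

variable {F} in
/-- no three collinear points on the graph of `f`: slopes from `u` in direction `w` are different. -/
def Slope (f : F × F → F) : Prop :=
  ∀ u w : F × F, w ≠ 0 → ∀ x y : F, x ≠ 0 → y ≠ 0 →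
    x⁻¹ * (f (u + x • w) + f u) = y⁻¹ * (f (u + y • w) + f u) → x = y

variable {F} in
/-- algebraic degree `≤ 2` over `GF(2)`: third differences vanish. -/
def Quad (f : F × F → F) : Prop :=
  ∀ u v w : F × F,
    f (u + v + w) + f (u + v) + f (u + w) + f (v + w) + f u + f v + f w + f 0 = 0

variable {F} in
/-- normal form of a quadratic ovoid function. -/
structure NF (f : F × F → F) : Prop where
  zero : f 0 = 0
  quad : Quad f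
  ov : ∀ u v : F × F, u ≠ v → f u + f v ≠ om u v
  slope : Slope f
  p0 : ∀ u w : F × F, ∑ x : F, x⁻¹ * (f (u + x • w) + f u + f (x • w) + om u (x • w)) = 0

/-- NUC: the missing slope is constant along a line. -/
def NucStmt : Prop :=
  ∀ Φ : F → F, (∀ u x y : F, x ≠ 0 → y ≠ 0 →
      x⁻¹ * (Φ (u + x) + Φ u) = y⁻¹ * (Φ (u + y) + Φ u) → x = y) →
    ∀ u v : F, ∑ x : F, x⁻¹ * (Φ (u + x) + Φ u) = ∑ x : F, x⁻¹ * (Φ (v + x) + Φ v)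

/-- PLANE: no cone of tangents. -/
def PlaneStmt : Prop :=
  ∀ (f : F × F → F), Slope f → ∀ κ α β b : F,
    (∀ u w : F × F, (∑ x : F, x⁻¹ * (f (u + x • w) + f u)) ^ 2 =
      κ ^ 2 * (w.1 * w.2) + (α * w.1 + β * w.2) ^ 2 + (b * om u w) ^ 2) → κ = 0

/-- ST0: normal form (uses NUC, PLANE). -/
def St0Stmt : Prop :=
  ∀ f : F × F → F, Quad f → Slope f →
    ∃ b L1 L2 : F, b ≠ 0 ∧ NF fun u : F × F => b * (f u + f 0 + L1 * u.1 + L2 * u.2)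

/-! ## Steps 1, 2 -/

variable {F} in
/-- `D = B + ⟨,⟩`. -/
def Dd (f : F × F → F) (u v : F × F) : F := f (u + v) + f u + f v + om u v

/-- the data used in Step 3. -/
structure Sys where
  D : F × F →+ F × F →+ F
  M : F →+ F × F →+ F × F
  m : ZMod h → F × F →+ F × F
  alt : ∀ v, D v v = 0
  hM : ∀ c u v, tr h (om u (M c v)) = tr h (c * D u v)
  hm : ∀ c v, M c v = ∑ a, (fr a c : F) • m a v
  m0 : m 0 = 0
  p0 : ∀ (a : ZMod h) (w : F × F), ∑ x : F, (fr a x)⁻¹ • m a (x • w) = 0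
  p1 : ∀ v, ∃ c, c ≠ 0 ∧ M c v = 0
  j1 : ∀ r : ZMod h, r ≠ 0 → ∀ w w' u u' : F × F,
    fr r (om w (m (-r) u)) * om w' (m r u') = fr r (om w (m (-r) u')) * om w' (m r u)
  e1 : ∀ a b : ZMod h, a ≠ b → a ≠ 0 → a ≠ 1 → a ≠ -1 → b ≠ 0 → b ≠ 1 → b ≠ -1 →
    ∀ u v, om (m a u) (m b v) + om (m b u) (m a v) = 0
  e2 : ∀ a : ZMod h, a ≠ 0 → a ≠ -1 →
    ∀ u v, om (m a u) (m a v) = (om (m a u) (m (-1) v) + om (m (-1) u) (m a v)) ^ 2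
  e3 : ∀ b : ZMod h, b ≠ 0 → b ≠ 1 → b ≠ -1 →
    ∀ u v, om (m 1 u) (m b v) + om (m b u) (m 1 v) =
      fr b (om (m 1 u) (m (-b) v) + om (m (-b) u) (m 1 v))

/-- P2: Fourier step. -/
def P2Stmt : Prop :=
  ∀ f : F × F → F, NF f → ∀ c : F, c ≠ 0 → ∀ M : F × F → F × F,
    (∀ u v, tr h (om u (M v)) = tr h (c * Dd f u v)) →
    ∀ u v, tr h (c⁻¹ * om (M u) (M v)) = 0

variable {F h} in
/-- coefficient of `x^(2^j)` in `D(u, x w)`. -/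
def gco (f : F × F → F) (j : ZMod h) (u w : F × F) : F := coef j fun x => Dd f u (x • w)

/-- J1: slope power sums with exponent `1 + 2^r`. -/
def J1Stmt : Prop :=
  ∀ f : F × F → F, NF f → ∀ r : ZMod h, r ≠ 0 → ∀ u u' w : F × F,
    gco f r u w * fr r (gco f (-r) u' w) = gco f r u' w * fr r (gco f (-r) u w)

/-- EREL: coefficient extraction. -/
def ERelStmt : Prop :=
  ∀ T : ZMod h → ZMod h → F, (∀ a, T 0 a = 0) → (∀ a, T a 0 = 0) →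
    (∀ c : F, c ≠ 0 → tr h (c⁻¹ * ∑ a, ∑ b, fr a c * fr b c * T a b) = 0) →
    (∀ a b : ZMod h, a ≠ b → a ≠ 0 → a ≠ 1 → a ≠ -1 → b ≠ 0 → b ≠ 1 → b ≠ -1 →
      T a b + T b a = 0) ∧
    (∀ a : ZMod h, a ≠ 0 → a ≠ -1 → T a a = (T a (-1) + T (-1) a) ^ 2) ∧
    (∀ b : ZMod h, b ≠ 0 → b ≠ 1 → b ≠ -1 →
      T 1 b + T b 1 = fr b (T 1 (-b) + T (-b) 1))

/-- SYS: from the normal form to the data (uses P2, J1, EREL). -/
def SysStmt : Prop :=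
  ∀ f : F × F → F, NF f → ∃ S : Sys F h, ∀ u v, S.D u v = Dd f u v

/-! ## Step 3 -/

variable {F h} in
/-- rank `≤ 1`. -/
def Rk1 (m : F × F → F × F) : Prop := ∀ u v, om (m u) (m v) = 0

variable {F h} in
/-- conclusion of Step 3. -/
def Sys.Concl (S : Sys F h) : Prop := ∃ θ : F × F, θ ≠ 0 ∧ ∀ c v, ∃ x : F, S.M c v = x • θ

/-- CI. -/
def CIStmt : Prop :=
  ∀ S : Sys F h, ∀ a : ZMod h, a ≠ 0 → a ≠ 1 → a ≠ -1 → Rk1 (S.m a)

/-- CII. -/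
def CIIStmt : Prop :=
  ∀ S : Sys F h, (∀ a : ZMod h, a ≠ 0 → a ≠ 1 → a ≠ -1 → Rk1 (S.m a)) → Rk1 (S.m (-1))

/-- LT (Lemma T). -/
def LTStmt : Prop :=
  ∀ S : Sys F h, ∀ (Q R : F × F →+ F) (Θ : F →+ F × F) (θ' : F × F),
    (∀ c v, S.M c v = Q v • Θ c + (c ^ 2 * R v) • θ') → S.Concl

/-- CIII (uses LT). -/
def CIIIStmt : Prop :=
  ∀ S : Sys F h, (∀ a : ZMod h, a ≠ 0 → a ≠ 1 → Rk1 (S.m a)) → S.Concl

/-! ## Step 4 -/

/-- PAY (Payne). -/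
def PayStmt : Prop :=
  ∀ k : F →+ F, (∀ t, t ≠ 0 → k t ≠ 0) →
    (∀ t s, t ≠ 0 → s ≠ 0 → t⁻¹ * k t = s⁻¹ * k s → t = s) →
    ∃ (κ : F) (r : ZMod h), κ ≠ 0 ∧ r ≠ 0 ∧ (∀ t, k t = κ * fr r t)

/-- normalised data for the end game. -/
structure Nrm where
  r : ZMod h
  g : F → F
  d : F →+ F →+ F
  hr : r ≠ 0
  hd : ∀ s, d s s = 0
  hg : ∀ s s', g (s + s') = g s + g s' + d s s'
  p0 : ∀ x, ∑ s : F, s⁻¹ * d x s = 0
  F1 : ∀ y : F, y ≠ 0 → tr h ((fr r y)⁻¹ * g (y⁻¹ * fr r y)) = 1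
  F2 : ∀ x y : F, y ≠ 0 → tr h ((fr r y)⁻¹ * d x (y⁻¹ * fr r y)) = 0

/-- RED (uses PAY). -/
def RedStmt : Prop :=
  ∀ f : F × F → F, NF f → ∀ θ : F × F, θ ≠ 0 → (∀ (x : F) v, Dd f (x • θ) v = 0) →
    ∃ (e1 e2 : F × F) (N : Nrm F h), om e1 e2 = 1 ∧
      ∀ s t : F, f (s • e1 + t • e2) = N.g s + s * t + fr N.r t

/-- FR1. -/
def FR1Stmt : Prop :=
  ∀ N : Nrm F h, N.r = 1 → ∃ A : F, ∀ s, N.g s = A * s ^ 2

/-- FRT. -/
def FRTStmt : Prop :=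
  ∀ N : Nrm F h, N.r ≠ 1 → 2 * N.r = 1 ∧
    ∃ μ : F, ∀ s, N.g s = fr N.r s * s ^ 2 + μ * s ^ 2 + fr N.r μ * fr N.r s

/-- MAIN for functions (uses everything above). -/
def MainStmt : Prop :=
  ∀ f : F × F → F, Quad f → Slope f →
    ∃ b L1 L2 : F, b ≠ 0 ∧ ∃ e1 e2 : F × F, om e1 e2 = 1 ∧
      ((∃ A : F, ∀ s t : F, b * (f (s • e1 + t • e2) + f 0 + L1 * (s • e1 + t • e2).1 +
          L2 * (s • e1 + t • e2).2) = A * s ^ 2 + s * t + t ^ 2) ∨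
       (∃ r : ZMod h, 2 * r = 1 ∧ ∀ s t : F, b * (f (s • e1 + t • e2) + f 0 +
          L1 * (s • e1 + t • e2).1 + L2 * (s • e1 + t • e2).2) =
            fr r s * s ^ 2 + s * t + fr r t))

end Pool.Agent.H51.QOV

/-! ## TOP: the hand-in statement -/

namespace Pool.Agent.H51.QOV

/-- the hand-in theorem (uses MAIN). -/
def TopStmt : Prop :=
    ∀ (F : Type) [Field F] [Fintype F] (S : Set (Projectivization F (Fin 4 → F))) (h : ℕ),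
      4 ≤ h → Fintype.card F = 2 ^ h →
      S.ncard = Fintype.card F ^ 2 + 1 →
      (∀ f : Fin 3 → Projectivization F (Fin 4 → F), Function.Injective f →
          (∀ i, f i ∈ S) → LinearIndependent F (fun i => (f i).rep)) →
      (∃ A : (Fin 4 → F) ≃ₗ[F] (Fin 4 → F), ∃ f : F → F → F,
        (∀ s₁ t₁ s₂ t₂ s₃ t₃ : F,
          f (s₁ + s₂ + s₃) (t₁ + t₂ + t₃) + f (s₁ + s₂) (t₁ + t₂) + f (s₁ + s₃) (t₁ + t₃) +
            f (s₂ + s₃) (t₂ + t₃) + f s₁ t₁ + f s₂ t₂ + f s₃ t₃ + f 0 0 = 0) ∧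
        ∀ p, p ∈ S ↔
          ((∃ s t c : F, A ![1, s, t, f s t] = c • p.rep) ∨
           ∃ c : F, A ![0, 0, 0, 1] = c • p.rep)) →
      (∃ Q : QuadraticForm F (Fin 4 → F), ∀ p, p ∈ S ↔ Q p.rep = 0) ∨
      (∃ e : ℕ, 1 ≤ e ∧ Fintype.card F = 2 ^ (2 * e + 1) ∧
        ∃ A : (Fin 4 → F) ≃ₗ[F] (Fin 4 → F), ∀ p, p ∈ S ↔
          ((∃ s t c : F,
              A ![1, s, t, s ^ (2 ^ (e + 1)) + s * t + t ^ (2 ^ (e + 1) + 2)] = c • p.rep) ∨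
           ∃ c : F, A ![0, 0, 0, 1] = c • p.rep))

end Pool.Agent.H51.QOV
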