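import Pool.Agent.H51.QOV.Stmt

set_option autoImplicit false
set_option linter.unusedSectionVars false

namespace Pool.Agent.H51.QOV

open Finset

variable {F : Type} [Field F] [Fintype F] [CharP F 2] {h : ℕ} [NeZero h]

/-- wedge of two functions. -/
def wd {X : Type} (A B : X → F) (u v : X) : F := A u * B v + A v * B u

theorem w1 {X : Type} {A B : X → F} (hAB : ∀ u v, wd A B u v = 0) (hA : ∃ u, A u ≠ 0) :
    ∃ x : F, ∀ u, B u = x * A u := by
  obtain ⟨u0, hu0⟩ := hA
  refine ⟨B u0 / A u0, fun u => ?_⟩
  have h1 := hAB u0 u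
  unfold wd at h1
  have h2 : A u0 * B u = A u * B u0 := by
    have h3 : A u0 * B u + A u * B u0 + A u * B u0 = A u * B u0 := by rw [h1, zero_add]
    rwa [add_assoc, CharTwo.add_self_eq_zero, add_zero] at h3
  field_simp
  linear_combination h2

theorem w2 {X : Type} {A B A' B' : X → F} (hAB : ∃ u v, wd A B u v ≠ 0)
    (hw : ∀ u v, wd A B' u v + wd B A' u v = 0) :
    ∃ a b c : F, (∀ u, A' u = a * A u + b * B u) ∧ ∀ u, B' u = c * A u + a * B u := by
  obtain ⟨p, q, hpq⟩ := hAB
  unfold wd at *
  set δ := A p * B q + A q * B p with hδ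
  have h2 : (2 : F) = 0 := CharTwo.two_eq_zero
  have ea : ∀ u, A' u * δ = (A' p * B q + A' q * B p) * A u + (A p * A' q + A q * A' p) * B u := by
    intro u
    have h1 := hw u p
    have h3 := hw u q
    have h4 := hw p q
    linear_combination (A q) * h1 - (A p) * h3 + (A u) * h4 +
      (A' u * A p * B q - B q * A u * A' p - A q * A u * B' p - A q * B u * A' p
        - B p * A u * A' q) * h2
  have eb : ∀ u, B' u * δ = (B' p * B q + B' q * B p) * A u + (A p * B' q + A q * B' p) * B u := by
    intro u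
    have h1 := hw u p
    have h3 := hw u q
    have h4 := hw p q
    linear_combination (B q) * h1 - (B p) * h3 + (B u) * h4 +
      (B' u * A q * B p - A p * B' q * B u - B q * A u * B' p - B q * B u * A' p
        - A q * B u * B' p) * h2
  have ed : (A' p * B q + A' q * B p) = (A p * B' q + A q * B' p) := by
    have h4 := hw p q
    linear_combination h4 - (A p * B' q + A q * B' p) * h2
  refine ⟨(A' p * B q + A' q * B p) / δ, (A p * A' q + A q * A' p) / δ,
    (B' p * B q + B' q * B p) / δ, fun u => ?_, fun u => ?_⟩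
  · field_simp
    linear_combination ea u
  · rw [ed]
    field_simp
    linear_combination eb u

theorem w3 {X : Type} {A B C E A1 B1 : X → F} (hCE : ∃ u v, wd C E u v ≠ 0)
    (hw : ∀ u v, wd A B u v = wd C B1 u v + wd E A1 u v) :
    ∃ x y α β : F, (x ≠ 0 ∨ y ≠ 0) ∧ ∀ u, x * A u + y * B u = α * C u + β * E u := by
  obtain ⟨p, q, hpq⟩ := hCE
  have h2 : (2 : F) = 0 := CharTwo.two_eq_zero
  set δ := wd C E p q with hδ
  -- reduce A and B modulo C, E so that they vanish at p and q
  have red : ∀ G : X → F, ∃ α β : F, G p = α * C p + β * E p ∧ G q = α * C q + β * E q := by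
    intro G
    refine ⟨(G p * E q + G q * E p) / δ, (C p * G q + C q * G p) / δ, ?_, ?_⟩
    · field_simp
      rw [hδ]; unfold wd
      linear_combination (-(G q * E p * C p)) * h2
    · field_simp
      rw [hδ]; unfold wd
      linear_combination (-(G p * E q * C q)) * h2
  obtain ⟨α1, β1, hA1, hA2⟩ := red A
  obtain ⟨α2, β2, hB1, hB2⟩ := red B
  set A' : X → F := fun u => A u + (α1 * C u + β1 * E u) with hA'
  set B' : X → F := fun u => B u + (α2 * C u + β2 * E u) with hB'
  have eA'p : A' p = 0 := by
    simp only [hA', hA1]; linear_combination (α1 * C p + β1 * E p) * h2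
  have eA'q : A' q = 0 := by
    simp only [hA', hA2]; linear_combination (α1 * C q + β1 * E q) * h2
  have eB'p : B' p = 0 := by
    simp only [hB', hB1]; linear_combination (α2 * C p + β2 * E p) * h2
  have eB'q : B' q = 0 := by
    simp only [hB', hB2]; linear_combination (α2 * C q + β2 * E q) * h2
  set γ := α1 * β2 + β1 * α2 with hγ
  set B1' : X → F := fun u => B1 u + α1 * B' u + α2 * A' u + γ * E u with hB1'
  set A1' : X → F := fun u => A1 u + β1 * B' u + β2 * A' u with hA1'
  have key : ∀ u v, wd A' B' u v = wd C B1' u v + wd E A1' u v := by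
    intro u v
    have h1 := hw u v
    unfold wd at h1 ⊢
    simp only [hA', hB', hB1', hA1', hγ]
    linear_combination h1 - (α1 * C u * α2 * C v + α1 * C u * β2 * E v + α1 * E u * C v * β2 +
      C u * β1 * α2 * E v + β1 * E u * α2 * C v + β1 * E u * β2 * E v) * h2
  have kp : ∀ v, wd C B1' p v + wd E A1' p v = 0 := by
    intro v
    rw [← key]; unfold wd; rw [eA'p, eB'p]; ring
  have kq : ∀ v, wd C B1' q v + wd E A1' q v = 0 := by
    intro v
    rw [← key]; unfold wd; rw [eA'q, eB'q]; ring
  set b1 := B1' p * E q + B1' q * E p with hb1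
  set b2 := A1' p * E q + A1' q * E p with hb2
  set a1 := B1' p * C q + B1' q * C p with ha1
  set a2 := A1' p * C q + A1' q * C p with ha2
  have eB : ∀ v, B1' v * δ = C v * b1 + E v * b2 := by
    intro v
    have h3 := kp v
    have h4 := kq v
    unfold wd at h3 h4
    rw [hδ, hb1, hb2]; unfold wd
    linear_combination (E q) * h3 + (E p) * h4 - (C v * (B1' p * E q + B1' q * E p) +
      E v * (A1' p * E q + A1' q * E p) + A1' v * E p * E q) * h2
  have eA : ∀ v, A1' v * δ = C v * a1 + E v * a2 := by
    intro v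
    have h3 := kp v
    have h4 := kq v
    unfold wd at h3 h4
    rw [hδ, ha1, ha2]; unfold wd
    linear_combination (C q) * h3 + (C p) * h4 - (C v * (B1' p * C q + B1' q * C p) +
      E v * (A1' p * C q + A1' q * C p) + B1' v * C p * C q) * h2
  have eall : ∀ u v, wd A' B' u v * δ = (b2 + a1) * wd C E u v := by
    intro u v
    rw [key]
    have h3 := eB v
    have h4 := eB u
    have h5 := eA v
    have h6 := eA u
    unfold wd
    linear_combination C u * h3 + C v * h4 + E u * h5 + E v * h6 +
      (C u * C v * b1 + E u * E v * a2) * h2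
  have e0 : b2 + a1 = 0 := by
    have h3 := eall p q
    have h4 : wd A' B' p q = 0 := by unfold wd; rw [eA'p, eA'q]; ring
    rw [h4, zero_mul] at h3
    rcases mul_eq_zero.1 h3.symm with h5 | h5
    · exact h5
    · exact absurd h5 hpq
  have ez : ∀ u v, wd A' B' u v = 0 := by
    intro u v
    have h3 := eall u v
    rw [e0, zero_mul] at h3
    exact (mul_eq_zero.1 h3).resolve_right hpq
  by_cases hz : ∃ u, A' u ≠ 0
  · obtain ⟨x, hx⟩ := w1 ez hz
    refine ⟨x, 1, x * α1 + α2, x * β1 + β2, Or.inr one_ne_zero, fun u => ?_⟩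
    have h3 := hx u
    simp only [hA', hB'] at h3
    linear_combination h3 + (x * A u - α2 * C u - β2 * E u) * h2
  · push Not at hz
    refine ⟨1, 0, α1, β1, Or.inl one_ne_zero, fun u => ?_⟩
    have h3 := hz u
    simp only [hA'] at h3
    linear_combination h3 - (α1 * C u + β1 * E u) * h2

/-! ### maps to `F²` -/

theorem om_eq_wd {X : Type} (m m' : X → F × F) (u v : X) :
    om (m u) (m' v) + om (m' u) (m v) =
      wd (fun u => (m u).1) (fun u => (m' u).2) u v +
        wd (fun u => (m u).2) (fun u => (m' u).1) u v := by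
  unfold om wd; ring

/-- rank one maps. -/
theorem rk1_form {X : Type} (m : X → F × F) (hm : ∀ u v, om (m u) (m v) = 0) :
    ∃ θ : F × F, θ ≠ 0 ∧ ∃ p : X → F, ∀ v, m v = p v • θ := by
  by_cases hz : ∃ u, m u ≠ 0
  · obtain ⟨u, hu⟩ := hz
    have h2 : (2 : F) = 0 := CharTwo.two_eq_zero
    by_cases h1 : (m u).1 = 0
    · have h3 : (m u).2 ≠ 0 := fun h4 => hu (Prod.ext h1 h4)
      refine ⟨m u, hu, fun v => (m v).2 / (m u).2, fun v => ?_⟩
      have h5 := hm u v
      unfold om at h5
      rw [h1] at h5
      have h6 : (m v).1 = 0 := by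
        rw [zero_mul, zero_add] at h5
        exact (mul_eq_zero.1 h5).resolve_left h3
      ext
      · simp [h1, h6]
      · simp only [Prod.smul_snd, smul_eq_mul]; field_simp
    · refine ⟨m u, hu, fun v => (m v).1 / (m u).1, fun v => ?_⟩
      have h5 := hm u v
      unfold om at h5
      ext
      · simp only [Prod.smul_fst, smul_eq_mul]; field_simp
      · simp only [Prod.smul_snd, smul_eq_mul]; field_simp
        linear_combination h5 - ((m u).2 * (m v).1) * h2
  · push Not at hz
    exact ⟨(1, 0), by simp, fun _ => 0, fun v => by simp [hz v]⟩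

/-- a functional which is `1` on a non-zero vector. -/
theorem exists_om_one {θ : F × F} (hθ : θ ≠ 0) : ∃ η : F × F, om θ η = 1 := by
  by_cases h1 : θ.1 = 0
  · have h3 : θ.2 ≠ 0 := fun h4 => hθ (Prod.ext h1 h4)
    exact ⟨(θ.2⁻¹, 0), by simp [om, h3]⟩
  · exact ⟨(0, θ.1⁻¹), by simp [om, h1]⟩

theorem om_smul_left (x : F) (u v : F × F) : om (x • u) v = x * om u v := by
  simp [om]; ring

theorem om_smul_right (x : F) (u v : F × F) : om u (x • v) = x * om u v := by
  simp [om]; ring

theorem om_add_left (u u' v : F × F) : om (u + u') v = om u v + om u' v := by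
  simp [om]; ring

theorem om_add_right (u v v' : F × F) : om u (v + v') = om u v + om u v' := by
  simp [om]; ring

theorem om_self (u : F × F) : om u u = 0 := by
  unfold om; rw [mul_comm u.2]; exact CharTwo.add_self_eq_zero _

theorem om_comm (u v : F × F) : om u v = om v u := by
  unfold om; ring

theorem om_zero_right (u : F × F) : om u 0 = 0 := by simp [om]

theorem om_zero_left (u : F × F) : om 0 u = 0 := by simp [om]

/-- additive version of `rk1_form`. -/
theorem rk1_form_add (m : F × F →+ F × F) (hm : Rk1 m) :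
    ∃ θ : F × F, θ ≠ 0 ∧ ∃ p : F × F →+ F, ∀ v, m v = p v • θ := by
  obtain ⟨θ, hθ, p, hp⟩ := rk1_form (fun v => m v) hm
  obtain ⟨η, hη⟩ := exists_om_one hθ
  refine ⟨θ, hθ, ⟨⟨fun v => om (m v) η, ?_⟩, ?_⟩, fun v => ?_⟩
  · simp [om_zero_left]
  · intro u v; simp [om_add_left]
  · change m v = om (m v) η • θ
    rw [hp v, om_smul_left, hη, mul_one]

/-- rank two: orthogonality means multiplication by a trace zero matrix. -/
theorem rk2_orth {X : Type} (m m' : X → F × F) (hm : ∃ u v, om (m u) (m v) ≠ 0)
    (ho : ∀ u v, om (m u) (m' v) + om (m' u) (m v) = 0) :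
    ∃ a b c : F, (∀ u, (m' u).1 = a * (m u).1 + b * (m u).2) ∧
      ∀ u, (m' u).2 = c * (m u).1 + a * (m u).2 := by
  apply w2 (A := fun u => (m u).1) (B := fun u => (m u).2)
    (A' := fun u => (m' u).1) (B' := fun u => (m' u).2)
  · obtain ⟨u, v, huv⟩ := hm
    refine ⟨u, v, ?_⟩
    intro h0
    apply huv
    rw [← h0]
    unfold om wd; ring
  · intro u v
    rw [← om_eq_wd]
    exact ho u v

/-- (J): if `m_r` has rank two then `m_{-r} = 0`. -/
theorem Sys.j_zero (S : Sys F h) {r : ZMod h} (hr : r ≠ 0) (h2 : ¬ Rk1 (S.m r)) :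
    S.m (-r) = 0 := by
  by_contra hne
  apply h2
  have h3 : ∃ u0, S.m (-r) u0 ≠ 0 := by
    by_contra hh
    push Not at hh
    exact hne (AddMonoidHom.ext hh)
  obtain ⟨u0, hu0⟩ := h3
  obtain ⟨w, hw⟩ := exists_om_one hu0
  have hw' : om w (S.m (-r) u0) = 1 := by rw [om_comm]; exact hw
  have key : ∀ u', S.m r u' = fr r (om w (S.m (-r) u')) • S.m r u0 := by
    intro u'
    have e : ∀ w', om w' (S.m r u') = om w' (fr r (om w (S.m (-r) u')) • S.m r u0) := by
      intro w'
      have h4 := S.j1 r hr w w' u0 u'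
      rw [hw', map_one, one_mul] at h4
      rw [h4, om_smul_right]
    have e1 := e (1, 0)
    have e2 := e (0, 1)
    generalize fr r (om w (S.m (-r) u')) = z at e1 e2 ⊢
    unfold om at e1 e2
    ext
    · simpa using e2
    · simpa using e1
  intro u v
  rw [key u, key v, om_smul_left, om_smul_right, om_self]
  ring

end Pool.Agent.H51.QOV
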